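import Pool.Agent.Helper31.Oper.Dims

/-!
Bases adapted to a filtration, and to the grading of a Borel subalgebra.
-/

namespace Pool.Agent.Helper31.Oper

open LieAlgebra LieModule Module Filter Topology

theorem exists_adapted {V : Type*} [AddCommGroup V] [Module ℂ V] [FiniteDimensional ℂ V] (N : ℕ) :
    ∀ (W Q : ℕ → Submodule ℂ V), (∀ k, W k = Q k ⊔ W (k + 1)) → (∀ k, Disjoint (Q k) (W (k + 1))) →
    W N = ⊥ → ∃ (ι : Type) (_ : Fintype ι) (v : ι → V) (κ : ι → ℕ), LinearIndependent ℂ v ∧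
      Submodule.span ℂ (Set.range v) = W 0 ∧ (∀ i, v i ∈ Q (κ i)) ∧
      ∑ i, κ i = ∑ k ∈ Finset.range N, finrank ℂ (W (k + 1)) := by
  induction N with
  | zero =>
    intro W Q _ _ hN
    refine ⟨Fin 0, inferInstance, Fin.elim0, Fin.elim0, linearIndependent_empty_type, ?_, ?_, ?_⟩
    · rw [hN]; simp
    · intro i; exact i.elim0
    · simp
  | succ N ih =>
    intro W Q hsup hdisj hN
    obtain ⟨ι, hι, v, κ, hv, hspan, hmem, hsum⟩ := ih (fun k => W (k + 1)) (fun k => Q (k + 1))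
      (fun k => hsup (k + 1)) (fun k => hdisj (k + 1)) hN
    let β := Module.finBasis ℂ (Q 0)
    have hβ : LinearIndependent ℂ (fun i => ((β i : Q 0) : V)) :=
      β.linearIndependent.map' (Q 0).subtype (Submodule.ker_subtype _)
    have hβs : Submodule.span ℂ (Set.range (fun i => ((β i : Q 0) : V))) = Q 0 := by
      have h1 : Set.range (fun i => ((β i : Q 0) : V)) = (Q 0).subtype '' Set.range β := by
        rw [← Set.range_comp]; rfl
      rw [h1, Submodule.span_image, β.span_eq, Submodule.map_top, Submodule.range_subtype]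
    refine ⟨Fin (finrank ℂ (Q 0)) ⊕ ι, inferInstance, Sum.elim (fun i => ((β i : Q 0) : V)) v,
      Sum.elim (fun _ => 0) (fun i => κ i + 1), ?_, ?_, ?_, ?_⟩
    · refine LinearIndependent.sum_type hβ hv ?_
      rw [hβs, hspan]
      exact hdisj 0
    · rw [Set.Sum.elim_range, Submodule.span_union, hβs, hspan]
      exact (hsup 0).symm
    · rintro (i | i)
      · exact (β i).2
      · exact hmem i
    · rw [Fintype.sum_sum_type]
      simp only [Sum.elim_inl, Sum.elim_inr, Finset.sum_const_zero, zero_add]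
      rw [Finset.sum_add_distrib, hsum, Finset.sum_range_succ']
      congr 1
      rw [Finset.sum_const, smul_eq_mul, mul_one, Finset.card_univ]
      have := finrank_span_eq_card (R := ℂ) hv
      rw [hspan] at this
      exact this.symm

variable {𝔤 : Type*} [LieRing 𝔤] [LieAlgebra ℂ 𝔤] [FiniteDimensional ℂ 𝔤] [IsKilling ℂ 𝔤]

theorem IsGrading.Fil_eq {b : LieSubalgebra ℂ 𝔤} {h : 𝔤} (hb : IsBorel b) (hh : IsGrading b h)
    (k : ℕ) : Fil b k = Eg h k ⊔ Fil b (k + 1) := by
  apply le_antisymm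
  · intro x hx
    have h1 := hh.act k x hx
    have h2 : ⁅h, x⁆ - (k : ℂ) • x ∈ ⨆ i ∈ Set.Ici ((k : ℤ) + 1), Eg h i := by
      have h3 := hh.GF_le hb ((k : ℤ) + 1)
      have e : ((k : ℤ) + 1) = ((k + 1 : ℕ) : ℤ) := by push_cast; rfl
      rw [e, GF_nat] at h3
      rw [e]
      exact h3 h1
    obtain ⟨y', hy', hy''⟩ := Eg_solve (m := (k : ℤ)) (s := Set.Ici ((k : ℤ) + 1)) (by simp) h2
    have h3 : x - y' ∈ Eg h k := by
      rw [mem_Eg, lie_sub, smul_sub, sub_eq_sub_iff_sub_eq_sub]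
      have := hy''.symm
      push_cast at this ⊢
      exact this
    have h4 : (⨆ i ∈ Set.Ici ((k : ℤ) + 1), Eg h i) ≤ Fil b (k + 1) := by
      refine iSup₂_le fun i hi => ?_
      have hi' := Set.mem_Ici.mp hi
      obtain ⟨m, rfl⟩ := Int.eq_ofNat_of_zero_le (show 0 ≤ i by omega)
      refine (hh.Eg_le hb m).trans ?_
      rw [GF_nat]
      exact Fil_anti b (by omega)
    rw [Submodule.mem_sup]
    exact ⟨x - y', h3, y', h4 hy', by abel⟩
  · refine sup_le ?_ (Fil_succ_le b k)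
    have := hh.Eg_le hb k
    rwa [GF_nat] at this

theorem IsGrading.disjoint {b : LieSubalgebra ℂ 𝔤} {h : 𝔤} (hb : IsBorel b) (hh : IsGrading b h)
    (k : ℕ) : Disjoint (Eg h k) (Fil b (k + 1)) := by
  have h1 : Fil b (k + 1) ≤ ⨆ i ∈ Set.Ici ((k : ℤ) + 1), Eg h i := by
    have h3 := hh.GF_le hb ((k : ℤ) + 1)
    have e : ((k : ℤ) + 1) = ((k + 1 : ℕ) : ℤ) := by push_cast; rfl
    rw [e, GF_nat] at h3
    rw [e]
    exact h3
  have h2 : Eg h (k : ℤ) ≤ ⨆ i ∈ ({(k : ℤ)} : Set ℤ), Eg h i := by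
    rw [iSup_singleton]
  refine Disjoint.mono h2 h1 (Eg_disjoint h ?_)
  rw [Set.disjoint_singleton_left]
  simp

/-- A basis of `b` of eigenvectors of the grading element, with the sum of the degrees. -/
theorem IsGrading.exists_basis {b : Flag 𝔤} {h : 𝔤} (hh : IsGrading b.alg h) {d : ℕ}
    (hd : finrank ℂ b.alg.toSubmodule = d) :
    ∃ (v : Fin d → 𝔤) (κ : Fin d → ℕ), LinearIndependent ℂ v ∧
      Submodule.span ℂ (Set.range v) = b.alg.toSubmodule ∧ (∀ i, v i ∈ Eg h (κ i)) ∧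
      2 * ∑ i, κ i = Mdeg b := by
  obtain ⟨ι, hι, v, κ, hv, hspan, hmem, hsum⟩ := exists_adapted (finrank ℂ 𝔤 + 1) (Fil b.alg)
    (fun k => Eg h (k : ℤ)) (hh.Fil_eq b.isBorel) (hh.disjoint b.isBorel) (Fil_bot b.isBorel.1)
  have hcard : Fintype.card ι = d := by
    rw [← hd]
    have := finrank_span_eq_card (R := ℂ) hv
    rw [hspan] at this
    exact this.symm
  let E : Fin d ≃ ι := (finCongr hcard.symm).trans (Fintype.equivFin ι).symm
  refine ⟨fun i => v (E i), fun i => κ (E i), hv.comp _ E.injective, ?_, fun i => hmem _, ?_⟩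
  · have : Set.range (fun i => v (E i)) = Set.range v := by
      change Set.range (v ∘ E) = _
      rw [E.surjective.range_comp]
    rw [this, hspan]; rfl
  · rw [E.sum_comp κ, hsum, Finset.sum_range_succ, Mdeg, Fil_bot b.isBorel.1, finrank_bot, add_zero]

end Pool.Agent.Helper31.Oper
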