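import Pool.Agent.Helper31.Oper.LieThm

/-!
Intrinsic structure theory of maximal solvable subalgebras of a Lie algebra over ℂ with
nondegenerate Killing form.
-/

namespace Pool.Agent.Helper31.Oper

open LieAlgebra LieModule Module

variable {𝔤 : Type*} [LieRing 𝔤] [LieAlgebra ℂ 𝔤]

/-- A Borel subalgebra: a maximal solvable subalgebra. -/
def IsBorel (b : LieSubalgebra ℂ 𝔤) : Prop :=
  Maximal (fun c : LieSubalgebra ℂ 𝔤 => LieAlgebra.IsSolvable c) b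

/-- Linear span of the brackets of elements of two subspaces. -/
def brk (A B : Submodule ℂ 𝔤) : Submodule ℂ 𝔤 :=
  Submodule.span ℂ {m | ∃ x ∈ A, ∃ y ∈ B, ⁅x, y⁆ = m}

theorem lie_mem_brk {A B : Submodule ℂ 𝔤} {x y : 𝔤} (hx : x ∈ A) (hy : y ∈ B) :
    ⁅x, y⁆ ∈ brk A B :=
  Submodule.subset_span ⟨x, hx, y, hy, rfl⟩

theorem brk_le {A B C : Submodule ℂ 𝔤} :
    brk A B ≤ C ↔ ∀ x ∈ A, ∀ y ∈ B, ⁅x, y⁆ ∈ C := by
  unfold brk
  rw [Submodule.span_le]
  constructor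
  · intro h x hx y hy
    exact h ⟨x, hx, y, hy, rfl⟩
  · rintro h _ ⟨x, hx, y, hy, rfl⟩
    exact h x hx y hy

theorem brk_mono {A B A' B' : Submodule ℂ 𝔤} (hA : A ≤ A') (hB : B ≤ B') :
    brk A B ≤ brk A' B' :=
  brk_le.mpr fun _ hx _ hy => lie_mem_brk (hA hx) (hB hy)

/-- Orthogonal complement for the Killing form. -/
noncomputable def perp (A : Submodule ℂ 𝔤) : Submodule ℂ 𝔤 :=
  LinearMap.BilinForm.orthogonal (killingForm ℂ 𝔤) A

theorem kf_comm (x y : 𝔤) : killingForm ℂ 𝔤 x y = killingForm ℂ 𝔤 y x :=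
  LieModule.traceForm_comm ℂ 𝔤 𝔤 x y

theorem kf_lie (x y z : 𝔤) : killingForm ℂ 𝔤 ⁅x, y⁆ z = killingForm ℂ 𝔤 x ⁅y, z⁆ :=
  LieModule.traceForm_apply_lie_apply ℂ 𝔤 𝔤 x y z

theorem mem_perp {A : Submodule ℂ 𝔤} {x : 𝔤} :
    x ∈ perp A ↔ ∀ y ∈ A, killingForm ℂ 𝔤 x y = 0 := by
  unfold perp
  rw [LinearMap.BilinForm.mem_orthogonal_iff]
  constructor
  · intro h y hy
    rw [kf_comm]
    exact h y hy
  · intro h y hy
    change killingForm ℂ 𝔤 y x = 0
    rw [kf_comm]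
    exact h y hy

theorem perp_anti {A B : Submodule ℂ 𝔤} (h : A ≤ B) : perp B ≤ perp A := fun _ hx =>
  mem_perp.mpr fun y hy => mem_perp.mp hx y (h hy)

section Solv

variable [FiniteDimensional ℂ 𝔤]

theorem kf_of_nil {b : LieSubalgebra ℂ 𝔤} (hb : LieAlgebra.IsSolvable b) {x y : 𝔤}
    (hx : x ∈ b) (hnil : IsNilpotent (ad ℂ 𝔤 x)) (hy : y ∈ b) :
    killingForm ℂ 𝔤 x y = 0 := by
  have h := (lieThm_aux b _ 𝔤 rfl).2 ⟨x, hx⟩ ⟨y, hy⟩ hnil
  have h2 : IsNilpotent (ad ℂ 𝔤 x ∘ₗ ad ℂ 𝔤 y) := h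
  rw [killingForm_apply_apply]
  exact (LinearMap.isNilpotent_trace_of_isNilpotent h2).eq_zero

omit [FiniteDimensional ℂ 𝔤] in
theorem mem_derived_of_brk {b : LieSubalgebra ℂ 𝔤} {x : 𝔤}
    (hx : x ∈ brk b.toSubmodule b.toSubmodule) :
    ∃ hx : x ∈ b, (⟨x, hx⟩ : b) ∈ derivedSeries ℂ b 1 := by
  unfold brk at hx
  induction hx using Submodule.span_induction with
  | mem m hm =>
    obtain ⟨u, hu, v, hv, rfl⟩ := hm
    refine ⟨b.lie_mem hu hv, ?_⟩
    have h1 : (⁅(⟨u, hu⟩ : b), (⟨v, hv⟩ : b)⁆) ∈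
        (⁅(⊤ : LieIdeal ℂ b), (⊤ : LieIdeal ℂ b)⁆ : LieIdeal ℂ b) :=
      LieSubmodule.lie_mem_lie (LieSubmodule.mem_top _) (LieSubmodule.mem_top _)
    exact h1
  | zero => exact ⟨b.zero_mem, by exact zero_mem _⟩
  | add u v _ _ hu hv =>
    obtain ⟨hu1, hu2⟩ := hu
    obtain ⟨hv1, hv2⟩ := hv
    exact ⟨b.add_mem hu1 hv1, add_mem hu2 hv2⟩
  | smul c u _ hu =>
    obtain ⟨hu1, hu2⟩ := hu
    exact ⟨b.smul_mem c hu1, SMulMemClass.smul_mem c hu2⟩

theorem nil_of_brk {b : LieSubalgebra ℂ 𝔤} (hb : LieAlgebra.IsSolvable b) {x : 𝔤}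
    (hx : x ∈ brk b.toSubmodule b.toSubmodule) : x ∈ b ∧ IsNilpotent (ad ℂ 𝔤 x) := by
  obtain ⟨h1, h2⟩ := mem_derived_of_brk hx
  exact ⟨h1, (lieThm_aux b _ 𝔤 rfl).1 ⟨x, h1⟩ h2⟩

omit [FiniteDimensional ℂ 𝔤] in
/-- A subalgebra whose brackets lie in a solvable subalgebra is solvable. -/
theorem solvable_of_brk {c d : LieSubalgebra ℂ 𝔤} (hd : LieAlgebra.IsSolvable d)
    (h : ∀ x ∈ c, ∀ y ∈ c, ⁅x, y⁆ ∈ d) : LieAlgebra.IsSolvable c := by
  -- the derived ideal of `c` injects in `d`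
  have hmem : ∀ x : c, x ∈ derivedSeries ℂ c 1 → (x : 𝔤) ∈ d := by
    intro x hx
    have hx' : x ∈ (⁅(⊤ : LieIdeal ℂ c), (⊤ : LieIdeal ℂ c)⁆ : LieIdeal ℂ c) := by
      simpa using hx
    rw [← LieSubmodule.mem_toSubmodule, LieSubmodule.lieIdeal_oper_eq_linear_span'] at hx'
    clear hx
    induction hx' using Submodule.span_induction with
    | mem m hm =>
      obtain ⟨u, -, v, -, rfl⟩ := hm
      exact h _ u.2 _ v.2
    | zero => exact d.zero_mem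
    | add u v _ _ hu hv => exact d.add_mem hu hv
    | smul c u _ hu => exact d.smul_mem c hu
  let f : (derivedSeries ℂ c 1) →ₗ⁅ℂ⁆ d :=
    { toFun := fun x => ⟨(x : c), hmem x.1 x.2⟩
      map_add' := fun x y => rfl
      map_smul' := fun a x => rfl
      map_lie' := fun {x y} => rfl }
  have hf : Function.Injective f := by
    intro x y hxy
    have : ((x : c) : 𝔤) = ((y : c) : 𝔤) := congrArg (fun z : d => (z : 𝔤)) hxy
    exact Subtype.ext (Subtype.ext this)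
  have h1 : LieAlgebra.IsSolvable (derivedSeries ℂ c 1) := hf.lieAlgebra_isSolvable
  obtain ⟨k, hk⟩ := LieAlgebra.IsSolvable.solvable ℂ (derivedSeries ℂ c 1)
  rw [LieIdeal.derivedSeries_eq_bot_iff] at hk
  refine LieAlgebra.IsSolvable.mk (R := ℂ) (k := k + 1) ?_
  rw [derivedSeries_def, derivedSeriesOfIdeal_add]
  exact hk

omit [FiniteDimensional ℂ 𝔤] in
theorem brk_self_le (c : LieSubalgebra ℂ 𝔤) :
    brk c.toSubmodule c.toSubmodule ≤ c.toSubmodule :=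
  brk_le.mpr fun _ hx _ hy => c.lie_mem hx hy

/-- The derived subalgebra. -/
def der (c : LieSubalgebra ℂ 𝔤) : LieSubalgebra ℂ 𝔤 :=
  { toSubmodule := brk c.toSubmodule c.toSubmodule
    lie_mem' := by
      intro x y hx hy
      exact lie_mem_brk (brk_self_le c hx) (brk_self_le c hy) }

/-- Cartan's criterion for a subalgebra of `𝔤`, with respect to the Killing form of `𝔤`. -/
theorem solvable_of_kf {c : LieSubalgebra ℂ 𝔤}
    (h : ∀ u ∈ c, ∀ v ∈ c, ∀ w ∈ c, killingForm ℂ 𝔤 u ⁅v, w⁆ = 0) :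
    LieAlgebra.IsSolvable c := by
  have h1 : ∀ u ∈ c, ∀ v ∈ der c, killingForm ℂ 𝔤 u v = 0 := by
    intro u hu v hv
    change v ∈ brk c.toSubmodule c.toSubmodule at hv
    unfold brk at hv
    induction hv using Submodule.span_induction with
    | mem m hm =>
      obtain ⟨a, ha, b, hb, rfl⟩ := hm
      exact h u hu a ha b hb
    | zero => simp
    | add a b _ _ ha hb => rw [map_add, ha, hb, add_zero]
    | smul t a _ ha => rw [map_smul, ha, smul_zero]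
  have tf : LieModule.traceForm ℂ (der c) 𝔤 = 0 := by
    ext ⟨x, hx⟩ ⟨y, hy⟩
    change killingForm ℂ 𝔤 x y = 0
    exact h1 x (brk_self_le c hx) y hy
  have mnil : LieModule.IsNilpotent (derivedSeries ℂ (der c) 1) 𝔤 :=
    LieModule.isNilpotent_derivedSeries_of_traceForm_eq_zero tf
  have h2 : ∀ x ∈ der (der c), IsNilpotent (ad ℂ 𝔤 x) := by
    intro x hx
    obtain ⟨hx1, hx2⟩ := mem_derived_of_brk (b := der c) hx
    exact (LieModule.isNilpotent_iff_forall' (R := ℂ)).mp mnil ⟨⟨x, hx1⟩, hx2⟩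
  have h3 : LieRing.IsNilpotent (der (der c)) := by
    rw [LieAlgebra.isNilpotent_iff_forall (R := ℂ)]
    rintro ⟨x, hx⟩
    exact (der (der c)).isNilpotent_ad_of_isNilpotent_ad (h2 x hx)
  have h4 : LieAlgebra.IsSolvable (der (der c)) := inferInstance
  have h5 : LieAlgebra.IsSolvable (der c) :=
    solvable_of_brk h4 fun x hx y hy => lie_mem_brk hx hy
  exact solvable_of_brk h5 fun x hx y hy => lie_mem_brk hx hy

end Solv

end Pool.Agent.Helper31.Oper
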