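import Pool.Agent.Helper31.Oper.Borel

/-!
For a Borel subalgebra `𝔟` one has `𝔟ᗮ = [𝔟, 𝔟] ⊆ 𝔟`.
-/

namespace Pool.Agent.Helper31.Oper

open LieAlgebra LieModule Module

variable {𝔤 : Type*} [LieRing 𝔤] [LieAlgebra ℂ 𝔤] [FiniteDimensional ℂ 𝔤]

theorem exists_eigen_mod {b : LieSubalgebra ℂ 𝔤} (hb : LieAlgebra.IsSolvable b)
    (P : Submodule ℂ 𝔤) (hP : ∀ y ∈ b, ∀ m ∈ P, ⁅y, m⁆ ∈ P) (hPb : ¬ P ≤ b.toSubmodule) :
    ∃ x ∈ P, x ∉ b ∧ ∀ y ∈ b, ∃ c : ℂ, ⁅y, x⁆ - c • x ∈ b := by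
  let P' : LieSubmodule ℂ b 𝔤 :=
    { toSubmodule := P
      lie_mem := fun {y m} hm => hP y.1 y.2 m hm }
  let B' : LieSubmodule ℂ b 𝔤 := b.toLieSubmodule
  let V : LieSubmodule ℂ b (𝔤 ⧸ B') := P'.map (LieSubmodule.Quotient.mk' B')
  have hmk : ∀ x : 𝔤, LieSubmodule.Quotient.mk' B' x = 0 ↔ x ∈ b := by
    intro x
    exact (LieSubmodule.Quotient.mk_eq_zero' (N := B'))
  have hnt : Nontrivial V := by
    obtain ⟨x, hxP, hxb⟩ := Set.not_subset.mp hPb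
    refine nontrivial_of_ne (⟨LieSubmodule.Quotient.mk' B' x, ?_⟩ : V) 0 ?_
    · exact LieSubmodule.mem_map_of_mem hxP
    · intro h
      apply hxb
      have h0 : LieSubmodule.Quotient.mk' B' x = 0 := congrArg Subtype.val h
      exact (hmk x).mp h0
  obtain ⟨χ, hχ⟩ := LieModule.exists_nontrivial_weightSpace_of_isSolvable ℂ b V
  obtain ⟨⟨v, hv⟩, hv0⟩ := exists_ne (0 : weightSpace V χ)
  have hv0' : v ≠ 0 := by simpa using hv0
  rw [mem_weightSpace] at hv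
  obtain ⟨x, hxP, hxv⟩ := (LieSubmodule.mem_map _).mp v.2
  refine ⟨x, hxP, ?_, ?_⟩
  · intro hxb
    apply hv0'
    apply Subtype.ext
    rw [← hxv]
    exact (hmk x).mpr hxb
  · intro y hy
    refine ⟨χ ⟨y, hy⟩, ?_⟩
    rw [← hmk, map_sub, map_smul, hxv]
    have h1 := congrArg Subtype.val (hv ⟨y, hy⟩)
    have h2 : LieSubmodule.Quotient.mk' B' ⁅y, x⁆ = ⁅(⟨y, hy⟩ : b), LieSubmodule.Quotient.mk' B' x⁆ :=
      rfl
    rw [h2, hxv, sub_eq_zero]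
    exact h1

/-- The subalgebra obtained by adding one element. -/
def addElt (b : LieSubalgebra ℂ 𝔤) (x : 𝔤)
    (h : ∀ y ∈ b, ⁅y, x⁆ ∈ b.toSubmodule ⊔ Submodule.span ℂ {x}) : LieSubalgebra ℂ 𝔤 :=
  { toSubmodule := b.toSubmodule ⊔ Submodule.span ℂ {x}
    lie_mem' := by
      intro u v hu hv
      rw [Submodule.carrier_eq_coe, SetLike.mem_coe, Submodule.mem_sup] at hu hv
      obtain ⟨u0, hu0, u1, hu1, rfl⟩ := hu
      obtain ⟨v0, hv0, v1, hv1, rfl⟩ := hv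
      obtain ⟨a, rfl⟩ := Submodule.mem_span_singleton.mp hu1
      obtain ⟨c, rfl⟩ := Submodule.mem_span_singleton.mp hv1
      rw [Submodule.carrier_eq_coe, SetLike.mem_coe, add_lie, lie_add, lie_add, smul_lie,
        smul_lie, lie_smul, lie_smul, lie_self, smul_zero, smul_zero, add_zero]
      refine add_mem (add_mem ?_ ?_) ?_
      · exact Submodule.mem_sup_left (b.lie_mem hu0 hv0)
      · exact Submodule.smul_mem _ _ (h u0 hu0)
      · refine Submodule.smul_mem _ _ ?_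
        rw [← lie_skew]
        exact Submodule.neg_mem _ (h v0 hv0) }

omit [FiniteDimensional ℂ 𝔤] in
theorem mem_addElt {b : LieSubalgebra ℂ 𝔤} {x : 𝔤}
    {h : ∀ y ∈ b, ⁅y, x⁆ ∈ b.toSubmodule ⊔ Submodule.span ℂ {x}} {u : 𝔤} :
    u ∈ addElt b x h ↔ ∃ u0 ∈ b, ∃ a : ℂ, u0 + a • x = u := by
  change u ∈ b.toSubmodule ⊔ Submodule.span ℂ {x} ↔ _
  rw [Submodule.mem_sup]
  constructor
  · rintro ⟨u0, hu0, u1, hu1, rfl⟩
    obtain ⟨a, rfl⟩ := Submodule.mem_span_singleton.mp hu1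
    exact ⟨u0, hu0, a, rfl⟩
  · rintro ⟨u0, hu0, a, rfl⟩
    exact ⟨u0, hu0, a • x, Submodule.smul_mem _ _ (Submodule.mem_span_singleton_self x), rfl⟩

omit [FiniteDimensional ℂ 𝔤] in
theorem mem_of_addElt_solvable {b : LieSubalgebra ℂ 𝔤} (hb : IsBorel b) {x : 𝔤}
    {h : ∀ y ∈ b, ⁅y, x⁆ ∈ b.toSubmodule ⊔ Submodule.span ℂ {x}}
    (hs : LieAlgebra.IsSolvable (addElt b x h)) : x ∈ b := by
  have hle : b ≤ addElt b x h := by
    intro u hu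
    exact mem_addElt.mpr ⟨u, hu, 0, by simp⟩
  have := hb.2 hs hle
  exact this (mem_addElt.mpr ⟨0, b.zero_mem, 1, by simp⟩)

theorem kf_brk {b : LieSubalgebra ℂ 𝔤} (hb : LieAlgebra.IsSolvable b) {x y : 𝔤}
    (hx : x ∈ brk b.toSubmodule b.toSubmodule) (hy : y ∈ b) : killingForm ℂ 𝔤 x y = 0 :=
  kf_of_nil hb (nil_of_brk hb hx).1 (nil_of_brk hb hx).2 hy

theorem perp_le_borel {b : LieSubalgebra ℂ 𝔤} (hb : IsBorel b) :
    perp b.toSubmodule ≤ b.toSubmodule := by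
  by_contra hcon
  obtain ⟨x, hxP, hxb, hx⟩ := exists_eigen_mod hb.1 (perp b.toSubmodule) (by
    intro y hy m hm
    rw [mem_perp] at hm ⊢
    intro z hz
    rw [← lie_skew, map_neg, LinearMap.neg_apply, kf_lie, hm _ (b.lie_mem hy hz), neg_zero]) hcon
  have h : ∀ y ∈ b, ⁅y, x⁆ ∈ b.toSubmodule ⊔ Submodule.span ℂ {x} := by
    intro y hy
    obtain ⟨c, hc⟩ := hx y hy
    rw [Submodule.mem_sup]
    exact ⟨_, hc, c • x, Submodule.smul_mem _ _ (Submodule.mem_span_singleton_self x), by simp⟩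
  apply hxb
  refine mem_of_addElt_solvable hb (h := h) (solvable_of_kf ?_)
  rw [mem_perp] at hxP
  intro u hu v hv w hw
  obtain ⟨u0, hu0, a, rfl⟩ := mem_addElt.mp hu
  obtain ⟨v0, hv0, c, rfl⟩ := mem_addElt.mp hv
  obtain ⟨w0, hw0, d, rfl⟩ := mem_addElt.mp hw
  have e1 : killingForm ℂ 𝔤 u0 ⁅v0, w0⁆ = 0 := by
    rw [kf_comm]
    exact kf_brk hb.1 (lie_mem_brk hv0 hw0) hu0
  have e2 : ∀ p ∈ b, ∀ q ∈ b, killingForm ℂ 𝔤 p ⁅q, x⁆ = 0 := by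
    intro p hp q hq
    rw [← kf_lie, kf_comm]
    exact hxP _ (b.lie_mem hp hq)
  have e3 : killingForm ℂ 𝔤 x ⁅v0, w0⁆ = 0 := hxP _ (b.lie_mem hv0 hw0)
  have e4 : ∀ p ∈ b, killingForm ℂ 𝔤 x ⁅p, x⁆ = 0 := by
    intro p hp
    have h1 : killingForm ℂ 𝔤 x ⁅p, x⁆ = killingForm ℂ 𝔤 ⁅x, p⁆ x := (kf_lie _ _ _).symm
    have h2 : killingForm ℂ 𝔤 ⁅x, p⁆ x = - killingForm ℂ 𝔤 x ⁅p, x⁆ := by
      rw [← lie_skew, map_neg, LinearMap.neg_apply, kf_comm]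
    rw [h2] at h1
    have : (2 : ℂ) * killingForm ℂ 𝔤 x ⁅p, x⁆ = 0 := by linear_combination h1
    simpa using this
  have e5 : ∀ p ∈ b, ∀ q ∈ b, killingForm ℂ 𝔤 p ⁅x, q⁆ = 0 := by
    intro p hp q hq
    rw [← lie_skew, map_neg, e2 p hp q hq, neg_zero]
  have e6 : ∀ p ∈ b, killingForm ℂ 𝔤 x ⁅x, p⁆ = 0 := by
    intro p hp
    rw [← lie_skew, map_neg, e4 p hp, neg_zero]
  simp only [add_lie, lie_add, smul_lie, lie_smul, lie_self, smul_zero, add_zero, map_add,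
    map_smul, LinearMap.add_apply, LinearMap.smul_apply, e1, e2 u0 hu0 v0 hv0, e3, e4 v0 hv0,
    e5 u0 hu0 w0 hw0, e6 w0 hw0]

/-- `[𝔟, 𝔟]ᗮ ⊆ 𝔟`. -/
theorem perp_brk_le {b : LieSubalgebra ℂ 𝔤} (hb : IsBorel b) :
    perp (brk b.toSubmodule b.toSubmodule) ≤ b.toSubmodule := by
  intro x hx
  have hbr : ∀ y ∈ b, ⁅y, x⁆ ∈ b := by
    intro y hy
    refine perp_le_borel hb ?_
    rw [mem_perp] at hx ⊢
    intro z hz
    rw [← lie_skew, map_neg, LinearMap.neg_apply, kf_lie, hx _ (lie_mem_brk hy hz), neg_zero]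
  have h : ∀ y ∈ b, ⁅y, x⁆ ∈ b.toSubmodule ⊔ Submodule.span ℂ {x} := fun y hy =>
    Submodule.mem_sup_left (hbr y hy)
  refine mem_of_addElt_solvable hb (h := h) (solvable_of_brk hb.1 ?_)
  intro u hu v hv
  obtain ⟨u0, hu0, a, rfl⟩ := mem_addElt.mp hu
  obtain ⟨v0, hv0, c, rfl⟩ := mem_addElt.mp hv
  rw [add_lie, lie_add, lie_add, smul_lie, smul_lie, lie_smul, lie_smul, lie_self, smul_zero,
    smul_zero, add_zero]
  refine b.add_mem (b.add_mem (b.lie_mem hu0 hv0) (b.smul_mem _ (hbr u0 hu0))) (b.smul_mem _ ?_)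
  rw [← lie_skew]
  exact b.neg_mem (hbr v0 hv0)

variable [IsKilling ℂ 𝔤]

theorem perp_perp (A : Submodule ℂ 𝔤) : perp (perp A) = A :=
  LinearMap.BilinForm.orthogonal_orthogonal (IsKilling.killingForm_nondegenerate ℂ 𝔤)
    (LieModule.traceForm_isSymm ℂ 𝔤 𝔤).isRefl A

theorem perp_eq_brk {b : LieSubalgebra ℂ 𝔤} (hb : IsBorel b) :
    perp b.toSubmodule = brk b.toSubmodule b.toSubmodule := by
  apply le_antisymm
  · have := perp_anti (perp_brk_le hb)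
    rwa [perp_perp] at this
  · intro x hx
    exact mem_perp.mpr fun y hy => kf_brk hb.1 hx hy

end Pool.Agent.Helper31.Oper
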