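import Pool.Agent.Helper31.Oper.Tvs

/-!
A Hurwitz type lemma: zeros of holomorphic functions persist under perturbation.
-/

namespace Pool.Agent.Helper31.Oper

open Filter Topology

/-- If `f x₀ w₀ = 0`, `f x₀` has no zeros on the circle of radius `r`, and `f` is jointly continuous
along `{x₀} × closedBall`, holomorphic in the second variable for `x` near `x₀`, then `f x` has a
zero in the closed ball for `x` near `x₀`. -/
theorem hurwitz {X : Type*} [TopologicalSpace X] {f : X → ℂ → ℂ} {x₀ : X} {w₀ : ℂ} {r : ℝ}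
    (hr : 0 < r)
    (hcont : ∀ w ∈ Metric.closedBall w₀ r, ContinuousAt (fun p : X × ℂ => f p.1 p.2) (x₀, w))
    (hhol : ∀ᶠ x in 𝓝 x₀, ∀ w ∈ Metric.closedBall w₀ r, DifferentiableAt ℂ (f x) w)
    (h0 : f x₀ w₀ = 0) (hne : ∀ w ∈ Metric.sphere w₀ r, f x₀ w ≠ 0) :
    ∀ᶠ x in 𝓝 x₀, ∃ w ∈ Metric.closedBall w₀ r, f x w = 0 ∧
      ∃ w' ∈ Metric.sphere w₀ r, f x w' ≠ 0 := by
  have hcen : w₀ ∈ Metric.closedBall w₀ r := Metric.mem_closedBall_self hr.le
  have h1 : ∀ᶠ x in 𝓝 x₀, ∀ w ∈ Metric.sphere w₀ r, ‖f x w₀‖ < ‖f x w‖ := by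
    refine (isCompact_sphere w₀ r).eventually_forall_of_forall_eventually
      (P := fun x w => ‖f x w₀‖ < ‖f x w‖) ?_
    intro w hw
    have hwb : w ∈ Metric.closedBall w₀ r := Metric.sphere_subset_closedBall hw
    have c1 : ContinuousAt (fun p : X × ℂ => ‖f p.1 p.2‖) (x₀, w) := (hcont w hwb).norm
    have c2 : ContinuousAt (fun p : X × ℂ => ‖f p.1 w₀‖) (x₀, w) := by
      have c3 : Tendsto (fun p : X × ℂ => (p.1, w₀)) (𝓝 (x₀, w)) (𝓝 (x₀, w₀)) := by
        have : ContinuousAt (fun p : X × ℂ => (p.1, w₀)) (x₀, w) := by fun_prop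
        exact this
      have c4 : Tendsto (fun p : X × ℂ => f p.1 p.2) (𝓝 (x₀, w₀)) (𝓝 (f x₀ w₀)) := hcont w₀ hcen
      exact (c4.comp c3).norm
    refine c2.eventually_lt c1 ?_
    simp only [h0, norm_zero, norm_pos_iff]
    exact hne w hw
  have hsph : (Metric.sphere w₀ r).Nonempty := NormedSpace.sphere_nonempty.mpr hr.le
  filter_upwards [h1, hhol] with x hx hxd
  obtain ⟨w', hw'⟩ := hsph
  have hw'0 : f x w' ≠ 0 := by
    intro h
    have := hx w' hw'
    rw [h, norm_zero] at this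
    exact absurd this (not_lt.mpr (norm_nonneg _))
  by_contra hcon
  push Not at hcon
  have hnz : ∀ w ∈ Metric.closedBall w₀ r, f x w ≠ 0 := by
    intro w hw h
    exact hw'0 (hcon w hw h w' hw')
  have hclos : closure (Metric.ball w₀ r) = Metric.closedBall w₀ r := closure_ball w₀ hr.ne'
  have hd : DiffContOnCl ℂ (fun w => (f x w)⁻¹) (Metric.ball w₀ r) := by
    apply DifferentiableOn.diffContOnCl
    rw [hclos]
    intro w hw
    exact ((hxd w hw).inv (hnz w hw)).differentiableWithinAt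
  obtain ⟨z, hz, hmax⟩ := Complex.exists_mem_frontier_isMaxOn_norm Metric.isBounded_ball
    (Metric.nonempty_ball.mpr hr) hd
  rw [frontier_ball w₀ hr.ne'] at hz
  have h2 := hmax (show w₀ ∈ closure (Metric.ball w₀ r) from by rw [hclos]; exact hcen)
  simp only [Function.comp_apply, Set.mem_ofPred_eq, norm_inv] at h2
  have h3 := hx z hz
  have h4 : 0 < ‖f x w₀‖ := norm_pos_iff.mpr (hnz w₀ hcen)
  have h5 : ‖f x z‖⁻¹ < ‖f x w₀‖⁻¹ := inv_strictAnti₀ h4 h3
  exact absurd h2 (not_le.mpr h5)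

end Pool.Agent.Helper31.Oper
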