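import Pool.Agent.Helper31.Oper.Defs
import Pool.Agent.Helper31.Oper.Hurwitz

/-!
From the public definitions to the internal ones, and the persistence of non-transversality.
-/

namespace Pool.Agent.Helper31.Oper

open LieAlgebra LieModule Module Filter Topology

variable {𝔤 : Type*} [LieRing 𝔤] [LieAlgebra ℂ 𝔤]

theorem Flag.isBorel (b : Flag 𝔤) : IsBorel b.alg := b.2

theorem isOperVector_iff (b : LieSubalgebra ℂ 𝔤) (ξ : 𝔤) :
    IsOperVector b ξ ↔ InOpenOrbit b ξ := Iff.rfl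

theorem span_repr {d : ℕ} {v : Fin d → 𝔤} {W : Submodule ℂ 𝔤}
    (hs : Submodule.span ℂ (Set.range v) = W) {y : 𝔤} (hy : y ∈ W) :
    ∃ c : Fin d → ℂ, ∑ i, c i • v i = y := by
  rw [← hs] at hy
  exact (Submodule.mem_span_range_iff_exists_fun ℂ).mp hy

section Top

variable [TopologicalSpace 𝔤] [IsTopologicalAddGroup 𝔤] [ContinuousSMul ℂ 𝔤] [T2Space 𝔤]
  [FiniteDimensional ℂ 𝔤]

theorem hasDerivAt_sum {d : ℕ} (c : Fin d → ℂ) {e : Fin d → ℂ → 𝔤} {e' : Fin d → 𝔤} {z : ℂ}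
    (h : ∀ i, HasDerivAt (e i) (e' i) z) :
    HasDerivAt (fun w => ∑ i, c i • e i w) (∑ i, c i • e' i) z := by
  refine hasDerivAt_of_weak fun φ => ?_
  simp only [map_sum, map_smul, smul_eq_mul]
  exact HasDerivAt.fun_sum fun i _ => (weak_hasDerivAt (h i) φ).const_mul (c i)

theorem curveAt_of_velocity {D : ℂ → Flag 𝔤} {z : ℂ} {ξ : 𝔤} (hD : IsHolomorphicAt D z)
    (hξ : IsVelocity D z ξ) : CurveAt (fun w => (D w).alg) ξ z := by
  obtain ⟨d, e, he⟩ := hD
  intro y hy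
  obtain ⟨hd, _, hsp⟩ := he.self_of_nhds
  obtain ⟨c, hc⟩ := span_repr hsp hy
  choose e' he' using fun i => exists_hasDerivAt (hd i)
  have hder : HasDerivAt (fun w => ∑ i, c i • e i w) (∑ i, c i • e' i) z := hasDerivAt_sum c he'
  have hev : ∀ᶠ w in 𝓝 z, DifferentiableAt ℂ (fun w => ∑ i, c i • e i w) w ∧
      (∑ i, c i • e i w) ∈ (D w).alg := by
    filter_upwards [he] with w hw
    obtain ⟨hdw, _, hspw⟩ := hw
    refine ⟨?_, ?_⟩
    · choose f' hf' using fun i => exists_hasDerivAt (hdw i)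
      have := hasDerivAt_sum c hf'
      rw [hasDerivAt_iff_hasFDerivAt] at this
      exact ⟨_, this⟩
    · rw [← LieSubalgebra.mem_toSubmodule, ← hspw]
      exact Submodule.sum_mem _ fun i _ => Submodule.smul_mem _ _
        (Submodule.subset_span ⟨i, rfl⟩)
  refine ⟨fun w => ∑ i, c i • e i w, ∑ i, c i • e' i, hev.mono fun w hw => hw.2, hc, ?_, ?_⟩
  · exact fun φ => weak_hasDerivAt hder φ
  · have := hξ _ _ hev hder
    rwa [hc] at this

theorem exists_curveAt {D : ℂ → Flag 𝔤} {z : ℂ} (hD : IsOperAt D z) :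
    ∃ ξ, CurveAt (fun w => (D w).alg) ξ z ∧ IsOperVector (D z).alg ξ := by
  obtain ⟨h1, ξ, h2, h3⟩ := hD
  exact ⟨ξ, curveAt_of_velocity h1 h2, h3⟩

end Top

section Alg

variable [FiniteDimensional ℂ 𝔤] [IsKilling ℂ 𝔤]

/-- If `𝔟 + 𝔟' = 𝔤` then `𝔟 ∩ 𝔟'ᗮ = 0`. -/
theorem eq_zero_of_transverse {b b' : Flag 𝔤} (h : Flag.Transverse b b') {u : 𝔤}
    (hu : u ∈ b.alg) (hu' : u ∈ perp b'.alg.toSubmodule) : u = 0 := by
  have h1 : u ∈ brk b'.alg.toSubmodule b'.alg.toSubmodule := by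
    rwa [perp_eq_brk b'.isBorel] at hu'
  have hnil := (nil_of_brk b'.isBorel.1 h1).2
  have h2 : u ∈ perp b.alg.toSubmodule :=
    mem_perp.mpr fun y hy => kf_of_nil b.isBorel.1 hu hnil hy
  have h3 : u ∈ perp (⊤ : Submodule ℂ 𝔤) := by
    rw [← h, mem_perp]
    intro y hy
    obtain ⟨p, hp, q, hq, rfl⟩ := Submodule.mem_sup.mp hy
    rw [map_add, mem_perp.mp h2 p hp, mem_perp.mp hu' q hq, add_zero]
  have h4 : perp (⊤ : Submodule ℂ 𝔤) = ⊥ := by
    have h5 : perp (⊥ : Submodule ℂ 𝔤) = ⊤ := by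
      rw [eq_top_iff]
      intro x _
      refine mem_perp.mpr fun y hy => ?_
      rw [Submodule.mem_bot] at hy
      rw [hy, map_zero]
    rw [← h5, perp_perp]
  rwa [h4, Submodule.mem_bot] at h3

/-- If `𝔟 ∩ 𝔟'ᗮ = 0` then `𝔟 + 𝔟' = 𝔤`. -/
theorem transverse_of_inf {b b' : Flag 𝔤}
    (h : b.alg.toSubmodule ⊓ perp b'.alg.toSubmodule = ⊥) : Flag.Transverse b b' := by
  have h1 : perp (b.alg.toSubmodule ⊔ b'.alg.toSubmodule) ≤ ⊥ := by
    rw [← h]
    refine le_inf ?_ (perp_anti le_sup_right)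
    exact (perp_anti le_sup_left).trans (perp_le_borel b.isBorel)
  have h2 := perp_anti h1
  rw [perp_perp] at h2
  rw [Flag.Transverse, eq_top_iff]
  refine le_trans ?_ h2
  intro x _
  refine mem_perp.mpr fun y hy => ?_
  rw [Submodule.mem_bot] at hy
  rw [hy, map_zero]

theorem transverse_iff {b b' : Flag 𝔤} :
    Flag.Transverse b b' ↔ b.alg.toSubmodule ⊓ perp b'.alg.toSubmodule = ⊥ :=
  ⟨fun h => (Submodule.eq_bot_iff _).mpr fun _ hu => eq_zero_of_transverse h hu.1 hu.2,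
    transverse_of_inf⟩

omit [FiniteDimensional ℂ 𝔤] [IsKilling ℂ 𝔤] in
theorem Flag.Transverse.symm {b b' : Flag 𝔤} (h : Flag.Transverse b b') :
    Flag.Transverse b' b := by
  rw [Flag.Transverse, sup_comm]; exact h

/-- Opposite Borel subalgebras have the same dimension. -/
theorem finrank_eq_of_transverse {b b' : Flag 𝔤} (h : Flag.Transverse b b') :
    finrank ℂ b.alg.toSubmodule = finrank ℂ b'.alg.toSubmodule := by
  have key : ∀ {b b' : Flag 𝔤}, Flag.Transverse b b' →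
      finrank ℂ b.alg.toSubmodule ≤ finrank ℂ b'.alg.toSubmodule := by
    intro b b' h
    have h1 := transverse_iff.mp h
    have h2 := Submodule.finrank_sup_add_finrank_inf_eq b.alg.toSubmodule
      (perp b'.alg.toSubmodule)
    rw [h1, finrank_bot, add_zero] at h2
    have h3 : finrank ℂ (perp b'.alg.toSubmodule) =
        finrank ℂ 𝔤 - finrank ℂ b'.alg.toSubmodule :=
      LinearMap.BilinForm.finrank_orthogonal (IsKilling.killingForm_nondegenerate ℂ 𝔤) _
    have h4 := Submodule.finrank_le b'.alg.toSubmodule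
    have h5 := Submodule.finrank_le (b.alg.toSubmodule ⊔ perp b'.alg.toSubmodule)
    omega
  exact le_antisymm (key h) (key h.symm)

/-- The determinant detecting transversality. -/
noncomputable def tdet {d : ℕ} (v u : Fin d → 𝔤) : ℂ :=
  (Matrix.of fun i j => killingForm ℂ 𝔤 (v i) (u j)).det

omit [FiniteDimensional ℂ 𝔤] [IsKilling ℂ 𝔤] in
theorem tdet_eq_zero_iff {d : ℕ} (v u : Fin d → 𝔤) :
    tdet v u = 0 ↔ ∃ c : Fin d → ℂ, c ≠ 0 ∧ ∀ j, killingForm ℂ 𝔤 (∑ i, c i • v i) (u j) = 0 := by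
  unfold tdet
  rw [← Matrix.exists_vecMul_eq_zero_iff]
  refine exists_congr fun c => and_congr Iff.rfl ?_
  rw [funext_iff]
  refine forall_congr' fun j => ?_
  simp [Matrix.vecMul, dotProduct]

omit [FiniteDimensional ℂ 𝔤] [IsKilling ℂ 𝔤] in
theorem tdet_eq_zero_iff' {d : ℕ} (v u : Fin d → 𝔤) :
    tdet v u = 0 ↔ ∃ c : Fin d → ℂ, c ≠ 0 ∧ ∀ i, killingForm ℂ 𝔤 (v i) (∑ j, c j • u j) = 0 := by
  unfold tdet
  rw [← Matrix.exists_mulVec_eq_zero_iff]
  refine exists_congr fun c => and_congr Iff.rfl ?_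
  rw [funext_iff]
  refine forall_congr' fun i => ?_
  simp [Matrix.mulVec, dotProduct, mul_comm]

omit [FiniteDimensional ℂ 𝔤] [IsKilling ℂ 𝔤] in
theorem mem_perp_of_span {d : ℕ} {u : Fin d → 𝔤} {W : Submodule ℂ 𝔤}
    (hs : Submodule.span ℂ (Set.range u) = W) {x : 𝔤}
    (h : ∀ j, killingForm ℂ 𝔤 x (u j) = 0) : x ∈ perp W := by
  rw [mem_perp, ← hs]
  intro y hy
  induction hy using Submodule.span_induction with
  | mem m hm => obtain ⟨j, rfl⟩ := hm; exact h j
  | zero => simp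
  | add u v _ _ hu hv => rw [map_add, hu, hv, add_zero]
  | smul c u _ hu => rw [map_smul, hu, smul_zero]

/-- If the `v i` are linearly independent vectors of `b` and the `u j` span `b'`, and `tdet = 0`,
then `b` and `b'` are not transverse. -/
theorem not_transverse_of_tdet {d : ℕ} {v u : Fin d → 𝔤} {b b' : Flag 𝔤}
    (hv : ∀ i, v i ∈ b.alg) (hli : LinearIndependent ℂ v)
    (hu : Submodule.span ℂ (Set.range u) = b'.alg.toSubmodule) (h : tdet v u = 0) :
    ¬ Flag.Transverse b b' := by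
  intro ht
  obtain ⟨c, hc, hcj⟩ := (tdet_eq_zero_iff v u).mp h
  have h1 : ∑ i, c i • v i ∈ b.alg := by
    rw [← LieSubalgebra.mem_toSubmodule]
    exact Submodule.sum_mem _ fun i _ => Submodule.smul_mem _ _ (hv i)
  have h2 := eq_zero_of_transverse ht h1 (mem_perp_of_span hu hcj)
  exact hc (funext fun i => Fintype.linearIndependent_iff.mp hli c h2 i)

/-- For bases, `tdet ≠ 0` if `b` and `b'` are transverse. -/
theorem tdet_ne_zero_of_transverse {d : ℕ} {v u : Fin d → 𝔤} {b b' : Flag 𝔤}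
    (hv : ∀ i, v i ∈ b.alg) (hli : LinearIndependent ℂ v)
    (hu : Submodule.span ℂ (Set.range u) = b'.alg.toSubmodule) (h : Flag.Transverse b b') :
    tdet v u ≠ 0 := fun h0 => not_transverse_of_tdet hv hli hu h0 h

omit [FiniteDimensional ℂ 𝔤] [IsKilling ℂ 𝔤] in
theorem linearIndependent_of_tdet {d : ℕ} {v u : Fin d → 𝔤} (h : tdet v u ≠ 0) :
    LinearIndependent ℂ v := by
  rw [Fintype.linearIndependent_iff]
  intro c hc
  by_contra hcon
  push Not at hcon
  apply h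
  rw [tdet_eq_zero_iff]
  refine ⟨c, ?_, fun j => by rw [hc]; simp⟩
  rintro rfl
  obtain ⟨i, hi⟩ := hcon
  exact hi rfl

theorem tdet_eq_zero_of_not_transverse {d : ℕ} {v u : Fin d → 𝔤} {b b' : Flag 𝔤}
    (hv : Submodule.span ℂ (Set.range v) = b.alg.toSubmodule)
    (hu : Submodule.span ℂ (Set.range u) = b'.alg.toSubmodule) (h : ¬ Flag.Transverse b b') :
    tdet v u = 0 := by
  rw [transverse_iff, Submodule.eq_bot_iff] at h
  push Not at h
  obtain ⟨x, hx, hx0⟩ := h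
  obtain ⟨c, hc⟩ := span_repr hv hx.1
  rw [tdet_eq_zero_iff]
  refine ⟨c, ?_, fun j => ?_⟩
  · rintro rfl
    apply hx0
    rw [← hc]; simp
  · rw [hc]
    refine mem_perp.mp hx.2 _ ?_
    rw [← hu]
    exact Submodule.subset_span ⟨j, rfl⟩

end Alg

end Pool.Agent.Helper31.Oper
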