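import Mathlib

/-!
# Opers with values in the full flag manifold of a complex semisimple Lie algebra

`𝔤` is a finite dimensional semisimple complex Lie algebra with its usual (unique Hausdorff vector
space) topology.  We define

* `Flag 𝔤`: the full flag manifold `𝓑`, the set of Borel (= maximal solvable) subalgebras, with
  its usual topology;
* `Flag.Transverse`: two Borel subalgebras are opposite;
* `IsHolomorphicAt`, `IsVelocity`, `IsOperAt`: holomorphic curves in `𝓑`, their derivative, and the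
  oper condition;
* `LocallyMaximallyTransverse`.
-/

namespace Pool.Agent.Helper31.Oper

open Filter Topology

section Flag

variable (𝔤 : Type*) [LieRing 𝔤] [LieAlgebra ℂ 𝔤]

/-- The full flag manifold `𝓑` of `𝔤`: its points are the Borel subalgebras of `𝔤`, i.e. the
maximal solvable subalgebras. -/
def Flag : Type _ :=
  {b : LieSubalgebra ℂ 𝔤 // Maximal (fun c : LieSubalgebra ℂ 𝔤 => LieAlgebra.IsSolvable c) b}

variable {𝔤}

/-- The Borel subalgebra that is the point `b` of the flag manifold. -/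
def Flag.alg (b : Flag 𝔤) : LieSubalgebra ℂ 𝔤 := b.1

/-- The topology of the flag manifold: it is generated by the sets `{b | b ∩ O ≠ ∅}`, `O` an open
subset of `𝔤`.  (All Borel subalgebras have the same dimension `d`, and on the Grassmannian of
`d`-dimensional subspaces this is the usual topology.) -/
instance [TopologicalSpace 𝔤] : TopologicalSpace (Flag 𝔤) :=
  TopologicalSpace.generateFrom
    {U | ∃ O : Set 𝔤, IsOpen O ∧ U = {b : Flag 𝔤 | ∃ x ∈ b.alg, x ∈ O}}

/-- Two points of the flag manifold are transverse if they are opposite Borel subalgebras, i.e. if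
their sum is `𝔤` (equivalently, the `G`-orbit of the pair is open). -/
def Flag.Transverse (b b' : Flag 𝔤) : Prop :=
  b.alg.toSubmodule ⊔ b'.alg.toSubmodule = ⊤

/-- The nilradical `𝔫 = [𝔟, 𝔟]` of a Borel subalgebra, as a linear subspace. -/
def nilrad (b : LieSubalgebra ℂ 𝔤) : Submodule ℂ 𝔤 :=
  Submodule.span ℂ {m | ∃ x ∈ b, ∃ y ∈ b, ⁅x, y⁆ = m}

/-- The preimage in `𝔤` of the degree `-1` part of `𝔤/𝔟`: all `ξ` with `[ξ, 𝔫] ⊆ 𝔟`.  For
`𝔟 = 𝔥 ⊕ ⨁_{α > 0} 𝔤_α` it is `𝔟 ⊕ ⨁_{α simple} 𝔤_{-α}`. -/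
def degNegOne (b : LieSubalgebra ℂ 𝔤) : Set 𝔤 :=
  {ξ | ∀ y ∈ nilrad b, ⁅ξ, y⁆ ∈ b}

/-- The class of `ξ` in `𝔤/𝔟` lies in the open orbit of the Borel subgroup on the degree `-1` part
of `𝔤/𝔟`: it lies in the degree `-1` part, and the tangent space `[𝔟, ξ] + 𝔟` of its orbit is
everything.  (For `ξ = ∑_{α simple} ξ_{-α} + 𝔟` this says that all `ξ_{-α}` are nonzero.) -/
def InOpenOrbit (b : LieSubalgebra ℂ 𝔤) (ξ : 𝔤) : Prop :=
  ξ ∈ degNegOne b ∧ ∀ η ∈ degNegOne b, ∃ y ∈ b, η - ⁅y, ξ⁆ ∈ b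

variable [TopologicalSpace 𝔤]

/-- The map `D` into the flag manifold is holomorphic near `z₀`: near `z₀` the subspace `D z`
has a basis depending holomorphically on `z`. -/
def IsHolomorphicAt (D : ℂ → Flag 𝔤) (z₀ : ℂ) : Prop :=
  ∃ (d : ℕ) (e : Fin d → ℂ → 𝔤), ∀ᶠ z in 𝓝 z₀,
    (∀ i, DifferentiableAt ℂ (e i) z) ∧ LinearIndependent ℂ (fun i => e i z) ∧
      Submodule.span ℂ (Set.range fun i => e i z) = (D z).alg.toSubmodule

/-- The derivative `D'(z) ∈ T_{D z} 𝓑 = 𝔤 / D z` is the class of `ξ`: for every holomorphic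
section `s` of `D` near `z`, `s'(z) - [ξ, s(z)] ∈ D z`. -/
def IsVelocity [ContinuousSMul ℂ 𝔤] (D : ℂ → Flag 𝔤) (z : ℂ) (ξ : 𝔤) : Prop :=
  ∀ (s : ℂ → 𝔤) (s' : 𝔤), (∀ᶠ w in 𝓝 z, DifferentiableAt ℂ s w ∧ s w ∈ (D w).alg) →
    HasDerivAt s s' z → s' - ⁅ξ, s z⁆ ∈ (D z).alg

/-- `D` is holomorphic near `z` and satisfies the oper condition at `z`: its derivative lies in the
open orbit of the Borel subgroup on the degree `-1` part of `T_{D z} 𝓑 = 𝔤 / D z`. -/
def IsOperAt [ContinuousSMul ℂ 𝔤] (D : ℂ → Flag 𝔤) (z : ℂ) : Prop :=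
  IsHolomorphicAt D z ∧ ∃ ξ : 𝔤, IsVelocity D z ξ ∧ InOpenOrbit (D z).alg ξ

/-- A set `S` of flags is locally maximally transverse if some open neighbourhood `U` of `S` is
such that every point of `U \ S` fails to be transverse to some element of `S`. -/
def LocallyMaximallyTransverse (S : Set (Flag 𝔤)) : Prop :=
  ∃ U : Set (Flag 𝔤), IsOpen U ∧ S ⊆ U ∧ ∀ b ∈ U \ S, ∃ s ∈ S, ¬ Flag.Transverse b s

end Flag

end Pool.Agent.Helper31.Oper
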