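import Pool.Agent.Helper31.Oper.Defs

/-!
# Opers on a closed Riemann surface, Anosov holonomy, quasi-Hitchin opers

Continues `Defs.lean`.  `𝔤` is a finite dimensional complex semisimple Lie algebra with its usual
topology and `G` is a topological group acting on `𝔤` by a continuous action `Ad` by automorphisms
(a complex semisimple Lie group with Lie algebra `𝔤`, in its adjoint action).  The closed Riemann
surface `X` of genus at least two is `Γ \ ℍ`, with `Γ = π₁(X)` acting on the universal cover `ℍ`,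
the upper half plane.

* `IsSurfaceGroup`: `Γ` acts on `ℍ` freely, properly and cocompactly by Möbius transformations;
* `IsOper`: a `G`-oper `(D, ρ)` on `X`, given by its developing map `D : ℍ → 𝓑` and its holonomy
  `ρ : Γ → G`;
* `IsAnosov`: `ρ` is Anosov with respect to a Borel subgroup, by the characterisation through
  the limit map `ξ : ∂ℍ → 𝓑`;
* `IsFuchsian`: the Fuchsian oper;
* `IsQuasiHitchin`, `IsTransverse`.
-/

namespace Pool.Agent.Helper31.Oper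

open Filter Topology
open scoped UpperHalfPlane MatrixGroups

section Action

variable {𝔤 : Type*} [LieRing 𝔤] [LieAlgebra ℂ 𝔤]

theorem isSolvable_map (A : 𝔤 ≃ₗ⁅ℂ⁆ 𝔤) {c : LieSubalgebra ℂ 𝔤} (hc : LieAlgebra.IsSolvable c) :
    LieAlgebra.IsSolvable (c.map A.toLieHom) := by
  have e : c ≃ₗ⁅ℂ⁆ c.map A.toLieHom := A.lieSubalgebraMap c
  exact e.symm.injective.lieAlgebra_isSolvable

theorem maximal_map (A : 𝔤 ≃ₗ⁅ℂ⁆ 𝔤) {b : LieSubalgebra ℂ 𝔤}
    (hb : Maximal (fun c : LieSubalgebra ℂ 𝔤 => LieAlgebra.IsSolvable c) b) :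
    Maximal (fun c : LieSubalgebra ℂ 𝔤 => LieAlgebra.IsSolvable c) (b.map A.toLieHom) := by
  refine ⟨isSolvable_map A hb.1, fun c hc hbc => ?_⟩
  have h1 : b ≤ c.map A.symm.toLieHom := by
    intro x hx
    rw [LieSubalgebra.mem_map]
    exact ⟨A x, hbc ((LieSubalgebra.mem_map _ _ _).mpr ⟨x, hx, rfl⟩), A.symm_apply_apply x⟩
  have h2 := hb.2 (isSolvable_map A.symm hc) h1
  intro y hy
  rw [LieSubalgebra.mem_map]
  exact ⟨A.symm y, h2 ((LieSubalgebra.mem_map _ _ _).mpr ⟨y, hy, rfl⟩), A.apply_symm_apply y⟩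

/-- The image `A 𝔟` of a Borel subalgebra `𝔟` under an automorphism `A` of `𝔤`. -/
def Flag.map (A : 𝔤 ≃ₗ⁅ℂ⁆ 𝔤) (b : Flag 𝔤) : Flag 𝔤 := ⟨b.alg.map A.toLieHom, maximal_map A b.2⟩

/-- `Ad` is a continuous action of the topological group `G` on `𝔤` by Lie algebra
automorphisms. -/
structure IsAdjointAction [TopologicalSpace 𝔤] {G : Type*} [Group G] [TopologicalSpace G]
    (Ad : G → (𝔤 ≃ₗ⁅ℂ⁆ 𝔤)) : Prop where
  map_mul : ∀ (g h : G) (x : 𝔤), Ad (g * h) x = Ad g (Ad h x)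
  continuous : ∀ x : 𝔤, Continuous fun g => Ad g x

end Action

section Surface

/-- `Γ` acts on the upper half plane freely, properly discontinuously and cocompactly by Möbius
transformations.  Then `X = Γ \ ℍ` is a closed Riemann surface of genus at least two with universal
cover `ℍ` and fundamental group `Γ`, and every such surface arises in this way. -/
structure IsSurfaceGroup (Γ : Type*) [Group Γ] [MulAction Γ ℍ] : Prop where
  mobius : ∀ γ : Γ, ∃ g : SL(2, ℝ), ∀ z : ℍ, γ • z = g • z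
  free : ∀ (γ : Γ) (z : ℍ), γ • z = z → γ = 1
  proper : ∀ K : Set ℍ, IsCompact K → {γ : Γ | ∃ z ∈ K, γ • z ∈ K}.Finite
  cocompact : ∃ K : Set ℍ, IsCompact K ∧ ∀ z : ℍ, ∃ γ : Γ, γ • z ∈ K

/-- The Cayley transform from the upper half plane to the unit disc.  A sequence `z n` in the upper
half plane converges to the point `x` of the circle at infinity if `toDisc (z n) → x`. -/
noncomputable def toDisc (z : ℍ) : ℂ := ((z : ℂ) - Complex.I) / ((z : ℂ) + Complex.I)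

end Surface

section Oper

variable {𝔤 : Type*} [LieRing 𝔤] [LieAlgebra ℂ 𝔤] [TopologicalSpace 𝔤] [ContinuousSMul ℂ 𝔤]
  {G : Type*} [Group G] [TopologicalSpace G] {Γ : Type*} [Group Γ] [MulAction Γ ℍ]

/-- A `G`-oper `(D, ρ)` on `X = Γ \ ℍ`: the developing map `D : ℍ → 𝓑` is holomorphic, satisfies the
oper condition at every point, and is `ρ`-equivariant. -/
structure IsOper (Ad : G → (𝔤 ≃ₗ⁅ℂ⁆ 𝔤)) (D : ℍ → Flag 𝔤) (ρ : Γ →* G) : Prop where
  oper : ∀ z : ℍ, IsOperAt (fun w : ℂ => D (UpperHalfPlane.ofComplex w)) z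
  equivariant : ∀ (γ : Γ) (z : ℍ), D (γ • z) = Flag.map (Ad (ρ γ)) (D z)

/-- `ρ : Γ → G` is Anosov with respect to a Borel subgroup: there is a continuous limit map
`ξ : ∂Γ = ∂ℍ → 𝓑` such that `ξ x` and `ξ y` are transverse for `x ≠ y`, and which is dynamics
preserving: if `γ n → x` and `(γ n)⁻¹ → y` then `ρ (γ n) → ξ x` locally uniformly on the set
of flags transverse to `ξ y`.  (Such a map `ξ` is unique and `ρ`-equivariant.) -/
def IsAnosov (Ad : G → (𝔤 ≃ₗ⁅ℂ⁆ 𝔤)) (ρ : Γ →* G) : Prop :=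
  ∃ ξ : Circle → Flag 𝔤, Continuous ξ ∧ (∀ x y, x ≠ y → Flag.Transverse (ξ x) (ξ y)) ∧
    ∀ (γ : ℕ → Γ) (x y : Circle),
      Tendsto (fun n => toDisc (γ n • UpperHalfPlane.I)) atTop (𝓝 (x : ℂ)) →
      Tendsto (fun n => toDisc ((γ n)⁻¹ • UpperHalfPlane.I)) atTop (𝓝 (y : ℂ)) →
      ∀ (b : ℕ → Flag 𝔤) (b' : Flag 𝔤), Tendsto b atTop (𝓝 b') → Flag.Transverse b' (ξ y) →
        Tendsto (fun n => Flag.map (Ad (ρ (γ n))) (b n)) atTop (𝓝 (ξ x))

/-- `exp (z ad e) x`, by the exponential series. -/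
noncomputable def expAd (z : ℂ) (e x : 𝔤) : 𝔤 :=
  ∑' k : ℕ, (z ^ k / (k.factorial : ℂ)) • ((LieAlgebra.ad ℂ 𝔤 e) ^ k) x

/-- `D` is the developing map of the Fuchsian oper: for a principal `𝔰𝔩₂`-triple `(h, e, f)` and
the Borel subalgebra `𝔟` that contains `h` and `f`, it is the restriction to `ℍ` of the principal
embedding `ℂ ∪ {∞} → 𝓑`, `z ↦ exp (z ad e) 𝔟`. -/
def IsFuchsian (D : ℍ → Flag 𝔤) : Prop :=
  ∃ (h e f : 𝔤) (b : Flag 𝔤), IsSl2Triple h e f ∧ h ∈ b.alg ∧ f ∈ b.alg ∧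
    InOpenOrbit b.alg e ∧ ∀ (z : ℍ) (y : 𝔤), y ∈ (D z).alg ↔ ∃ x ∈ b.alg, expAd (z : ℂ) e x = y

/-- A quasi-Hitchin oper: an oper that can be joined to the Fuchsian oper by a continuous path
`(D t, ρ t)`, `0 ≤ t ≤ 1`, of opers on `X` all having Anosov holonomy. -/
def IsQuasiHitchin (Ad : G → (𝔤 ≃ₗ⁅ℂ⁆ 𝔤)) (D : ℍ → Flag 𝔤) (ρ : Γ →* G) : Prop :=
  ∃ (Dt : unitInterval → ℍ → Flag 𝔤) (ρt : unitInterval → Γ →* G),
    Continuous (fun p : unitInterval × ℍ => Dt p.1 p.2) ∧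
    (∀ γ : Γ, Continuous fun t => ρt t γ) ∧
    (∀ t, IsOper Ad (Dt t) (ρt t)) ∧ (∀ t, IsAnosov Ad (ρt t)) ∧
    IsFuchsian (Dt 0) ∧ Dt 1 = D ∧ ρt 1 = ρ

omit [TopologicalSpace 𝔤] [ContinuousSMul ℂ 𝔤] in
/-- The oper with developing map `D` is transverse. -/
def IsTransverse (D : ℍ → Flag 𝔤) : Prop := ∀ z w : ℍ, z ≠ w → Flag.Transverse (D z) (D w)

end Oper

end Pool.Agent.Helper31.Oper
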