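import Pool.Agent.Helper31.Oper.Bridge

/-!
Non-transversality to an oper curve persists under perturbation; images of opers are locally
maximally transverse.
-/

namespace Pool.Agent.Helper31.Oper

open LieAlgebra LieModule Module Filter Topology

variable {𝔤 : Type*} [LieRing 𝔤] [LieAlgebra ℂ 𝔤]

section
variable [TopologicalSpace 𝔤]

theorem Flag.isOpen_meet {O : Set 𝔤} (hO : IsOpen O) :
    IsOpen {b : Flag 𝔤 | ∃ x ∈ b.alg, x ∈ O} :=
  TopologicalSpace.isOpen_generateFrom_of_mem ⟨O, hO, rfl⟩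

theorem Flag.eventually_near {ι : Type*} [Finite ι] {b0 : Flag 𝔤} {v0 : ι → 𝔤}
    (hv : ∀ i, v0 i ∈ b0.alg) {P : Set (ι → 𝔤)} (hP : P ∈ 𝓝 v0) :
    ∀ᶠ b in 𝓝 b0, ∃ v' ∈ P, ∀ i, v' i ∈ b.alg := by
  rw [nhds_pi, Filter.mem_pi] at hP
  obtain ⟨I, -, t, ht, hsub⟩ := hP
  have h1 : ∀ᶠ b : Flag 𝔤 in 𝓝 b0, ∀ i, ∃ x ∈ b.alg, x ∈ interior (t i) := by
    rw [eventually_all]
    intro i
    exact (Flag.isOpen_meet isOpen_interior).mem_nhds ⟨v0 i, hv i, mem_interior_iff_mem_nhds.mpr (ht i)⟩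
  filter_upwards [h1] with b hb
  choose v' hv' hv'' using hb
  exact ⟨v', hsub fun i _ => interior_subset (hv'' i), hv'⟩

end

variable [TopologicalSpace 𝔤] [IsTopologicalAddGroup 𝔤] [ContinuousSMul ℂ 𝔤] [T2Space 𝔤]
  [FiniteDimensional ℂ 𝔤]

/-- joint continuity of the Killing pairing along a weakly continuous function. -/
theorem continuousAt_kf {X : Type*} [TopologicalSpace X] {p q : X → 𝔤} {x : X}
    (hp : ContinuousAt p x) (hq : ContinuousAt q x) :
    ContinuousAt (fun y => killingForm ℂ 𝔤 (p y) (q y)) x := by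
  let β := Module.finBasis ℂ 𝔤
  have h1 : (fun y => killingForm ℂ 𝔤 (p y) (q y)) =
      fun y => ∑ a, β.coord a (p y) * killingForm ℂ 𝔤 (β a) (q y) := by
    funext y
    conv_lhs => rw [← β.sum_repr (p y)]
    simp only [map_sum, map_smul, LinearMap.sum_apply, LinearMap.smul_apply, smul_eq_mul,
      Basis.coord_apply]
  rw [h1]
  refine tendsto_finsetSum _ fun a _ => ?_
  refine Filter.Tendsto.mul ?_ ?_
  · exact ((continuous_dual (β.coord a)).continuousAt (x := p x)).comp hp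
  · exact ((continuous_dual (killingForm ℂ 𝔤 (β a))).continuousAt (x := q x)).comp hq

theorem continuousAt_tdet {X : Type*} [TopologicalSpace X] {d : ℕ} {p q : Fin d → X → 𝔤} {x : X}
    (hp : ∀ i, ContinuousAt (p i) x) (hq : ∀ i, ContinuousAt (q i) x) :
    ContinuousAt (fun y => tdet (fun i => p i y) (fun i => q i y)) x := by
  unfold tdet
  simp only [Matrix.det_apply, Matrix.of_apply]
  refine tendsto_finsetSum _ fun σ _ => ?_
  refine Filter.Tendsto.const_smul ?_ _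
  refine tendsto_finsetProd _ fun i _ => ?_
  exact continuousAt_kf (hp _) (hq _)

theorem differentiableAt_tdet {d : ℕ} {v : Fin d → 𝔤} {e : Fin d → ℂ → 𝔤} {z : ℂ}
    (he : ∀ i, DifferentiableAt ℂ (e i) z) :
    DifferentiableAt ℂ (fun w => tdet v (fun i => e i w)) z := by
  unfold tdet
  simp only [Matrix.det_apply, Matrix.of_apply]
  refine DifferentiableAt.fun_sum fun σ _ => ?_
  refine DifferentiableAt.const_smul ?_ _
  refine DifferentiableAt.fun_finsetProd fun i _ => ?_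
  exact weak_differentiableAt (he _) _

variable [IsKilling ℂ 𝔤]

theorem exists_transverse_near {Ω : Set ℂ} (hΩ : IsOpen Ω) {D : ℂ → Flag 𝔤}
    (hD : ∀ z ∈ Ω, IsOperAt D z) {w0 : ℂ} (hw0 : w0 ∈ Ω) (b0 : Flag 𝔤) {V : Set ℂ}
    (hV : V ∈ 𝓝 w0) : ∃ w ∈ V ∩ Ω, Flag.Transverse b0 (D w) := by
  obtain ⟨U, hUV, hU, hw⟩ := mem_nhds_iff.mp (inter_mem hV (hΩ.mem_nhds hw0))
  obtain ⟨w, hwU, hw2⟩ := key_lemma (D := fun w => (D w).alg) hU ⟨w0, hw⟩
    (fun w _ => (D w).isBorel) (fun w hw => exists_curveAt (hD w (hUV hw).2))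
    (brk b0.alg.toSubmodule b0.alg.toSubmodule)
    (fun x hx => (nil_of_brk b0.isBorel.1 hx).2)
  refine ⟨w, hUV hwU, Flag.Transverse.symm (transverse_of_inf ?_)⟩
  rw [perp_eq_brk b0.isBorel]
  exact hw2

/-- Persistence of non-transversality to an oper. -/
theorem persistence {Ω : Set ℂ} (hΩ : IsOpen Ω) {D : ℂ → Flag 𝔤}
    (hD : ∀ z ∈ Ω, IsOperAt D z) {w0 : ℂ} (hw0 : w0 ∈ Ω) {b0 : Flag 𝔤}
    (hnt : ¬ Flag.Transverse b0 (D w0)) {V : Set ℂ} (hV : V ∈ 𝓝 w0) :
    ∀ᶠ b in 𝓝 b0, ∃ w ∈ V, ¬ Flag.Transverse b (D w) := by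
  obtain ⟨d, e, he⟩ := (hD w0 hw0).1
  have hdim : ∀ᶠ w in 𝓝 w0, finrank ℂ (D w).alg.toSubmodule = d := by
    filter_upwards [he] with w hw
    rw [← hw.2.2, finrank_span_eq_card hw.2.1, Fintype.card_fin]
  -- the dimension of `b0` is `d`
  have hb0 : finrank ℂ b0.alg.toSubmodule = d := by
    obtain ⟨w, hw, hw2⟩ := exists_transverse_near hΩ hD hw0 b0 hdim
    rw [finrank_eq_of_transverse hw2]
    exact hw.1
  obtain ⟨v0, hv0, hv0li, hv0s⟩ : ∃ v0 : Fin d → 𝔤, (∀ i, v0 i ∈ b0.alg) ∧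
      LinearIndependent ℂ v0 ∧ Submodule.span ℂ (Set.range v0) = b0.alg.toSubmodule := by
    let β := (Module.finBasisOfFinrankEq ℂ b0.alg.toSubmodule hb0)
    refine ⟨fun i => (β i : 𝔤), fun i => (β i).2,
      β.linearIndependent.map' b0.alg.toSubmodule.subtype (Submodule.ker_subtype _), ?_⟩
    have h1 : Set.range (fun i => ((β i : b0.alg.toSubmodule) : 𝔤)) =
        b0.alg.toSubmodule.subtype '' Set.range β := by
      rw [← Set.range_comp]; rfl
    rw [h1, Submodule.span_image, β.span_eq, Submodule.map_top, Submodule.range_subtype]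
  -- the test function is not identically zero
  have hev : ∀ᶠ w in 𝓝[≠] w0, tdet v0 (fun i => e i w) ≠ 0 := by
    have han : AnalyticAt ℂ (fun w => tdet v0 (fun i => e i w)) w0 := by
      rw [Complex.analyticAt_iff_eventually_differentiableAt]
      filter_upwards [he] with w hw
      exact differentiableAt_tdet hw.1
    rcases han.eventually_eq_zero_or_eventually_ne_zero with h | h
    · exfalso
      obtain ⟨w, hw, hw2⟩ := exists_transverse_near hΩ hD hw0 b0 (inter_mem h he)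
      exact tdet_ne_zero_of_transverse hv0 hv0li hw.1.2.2.2 hw2 hw.1.1
    · exact h
  -- choose the radius
  obtain ⟨r, hr, hball⟩ : ∃ r > 0, ∀ w ∈ Metric.closedBall w0 r, w ∈ V ∧
      ((∀ i, DifferentiableAt ℂ (e i) w) ∧ LinearIndependent ℂ (fun i => e i w) ∧
        Submodule.span ℂ (Set.range fun i => e i w) = (D w).alg.toSubmodule) ∧
      (w ≠ w0 → tdet v0 (fun i => e i w) ≠ 0) := by
    have h1 : ∀ᶠ w in 𝓝 w0, w ∈ V ∧
      ((∀ i, DifferentiableAt ℂ (e i) w) ∧ LinearIndependent ℂ (fun i => e i w) ∧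
        Submodule.span ℂ (Set.range fun i => e i w) = (D w).alg.toSubmodule) ∧
      (w ≠ w0 → tdet v0 (fun i => e i w) ≠ 0) := by
      filter_upwards [hV, he, eventually_nhdsWithin_iff.mp hev] with w h1 h2 h3
      exact ⟨h1, h2, h3⟩
    obtain ⟨r, hr, hsub⟩ := Metric.nhds_basis_closedBall.mem_iff.mp h1
    exact ⟨r, hr, fun w hw => hsub hw⟩
  have hcen : w0 ∈ Metric.closedBall w0 r := Metric.mem_closedBall_self hr.le
  have hH := hurwitz (X := Fin d → 𝔤) (f := fun v w => tdet v (fun i => e i w)) (x₀ := v0)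
    (w₀ := w0) hr
    (by
      intro w hw
      refine continuousAt_tdet (X := (Fin d → 𝔤) × ℂ) (p := fun i q => q.1 i)
        (q := fun i q => e i q.2) (fun i => ?_) (fun i => ?_)
      · exact ((continuous_apply i).comp continuous_fst).continuousAt
      · obtain ⟨_, ⟨hd, _, _⟩, _⟩ := hball w hw
        have hc : ContinuousAt (e i) w :=
          continuousAt_of_weak fun φ => (weak_differentiableAt (hd i) φ).continuousAt
        have h2 : Tendsto (fun q : (Fin d → 𝔤) × ℂ => q.2) (𝓝 (v0, w)) (𝓝 w) :=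
          continuous_snd.continuousAt
        exact hc.tendsto.comp h2)
    (Eventually.of_forall fun v w hw => by
      obtain ⟨_, ⟨hd, _, _⟩, _⟩ := hball w hw
      exact differentiableAt_tdet hd)
    (tdet_eq_zero_of_not_transverse hv0s (hball w0 hcen).2.1.2.2 hnt)
    (by
      intro w hw
      refine (hball w (Metric.sphere_subset_closedBall hw)).2.2 ?_
      rintro rfl
      rw [Metric.mem_sphere, dist_self] at hw
      exact hr.ne hw)
  filter_upwards [Flag.eventually_near hv0 hH] with b hb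
  obtain ⟨v', ⟨w, hw, hw0', w', _, hw'0⟩, hv'⟩ := hb
  exact ⟨w, (hball w hw).1,
    not_transverse_of_tdet hv' (linearIndependent_of_tdet hw'0) (hball w hw).2.1.2.2 hw0'⟩

omit [TopologicalSpace 𝔤] [IsTopologicalAddGroup 𝔤] [ContinuousSMul ℂ 𝔤] [T2Space 𝔤]
  [FiniteDimensional ℂ 𝔤] [IsKilling ℂ 𝔤] in
/-- A Borel subalgebra is not opposite to itself, unless it is everything. -/
theorem not_transverse_self {b : Flag 𝔤} (hb : b.alg ≠ ⊤) : ¬ Flag.Transverse b b := by
  intro h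
  apply hb
  rw [Flag.Transverse, sup_idem] at h
  rw [← LieSubalgebra.toSubmodule_inj]
  rw [h]; rfl

omit [TopologicalSpace 𝔤] [IsTopologicalAddGroup 𝔤] [ContinuousSMul ℂ 𝔤] [T2Space 𝔤]
  [FiniteDimensional ℂ 𝔤] [IsKilling ℂ 𝔤] in
theorem eq_of_alg_top {b b' : Flag 𝔤} (h : b.alg = ⊤) : b' = b := by
  have h1 : b'.alg ≤ b.alg := by rw [h]; exact le_top
  have h2 := b'.isBorel.2 b.isBorel.1 h1
  exact Subtype.ext (le_antisymm h1 h2)

/-- The image of an oper is locally maximally transverse. -/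
theorem image_locallyMaximallyTransverse {Ω : Set ℂ} (hΩ : IsOpen Ω) {D : ℂ → Flag 𝔤}
    (hD : ∀ z ∈ Ω, IsOperAt D z) : LocallyMaximallyTransverse (D '' Ω) := by
  by_cases htop : ∃ z ∈ Ω, (D z).alg = ⊤
  · obtain ⟨z, hz, hz'⟩ := htop
    refine ⟨Set.univ, isOpen_univ, Set.subset_univ _, ?_⟩
    rintro b ⟨_, hb⟩
    exact absurd ⟨z, hz, (eq_of_alg_top hz').symm⟩ hb
  · push Not at htop
    have h1 : ∀ z ∈ Ω, ∀ᶠ b in 𝓝 (D z), ∃ w ∈ Ω, ¬ Flag.Transverse b (D w) := fun z hz =>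
      persistence hΩ hD hz (not_transverse_self (htop z hz)) (hΩ.mem_nhds hz)
    refine ⟨interior {b | ∃ w ∈ Ω, ¬ Flag.Transverse b (D w)}, isOpen_interior, ?_, ?_⟩
    · rintro _ ⟨z, hz, rfl⟩
      exact mem_interior_iff_mem_nhds.mpr (h1 z hz)
    · rintro b ⟨hb, _⟩
      obtain ⟨w, hw, hw2⟩ := interior_subset hb
      exact ⟨D w, ⟨w, hw, rfl⟩, hw2⟩

end Pool.Agent.Helper31.Oper
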