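import Pool.Agent.Helper31.Oper.Grad
import Pool.Agent.Helper31.Oper.Persist

/-!
Dimensions of Borel subalgebras and of their filtrations do not depend on the Borel subalgebra,
as soon as there is an oper curve.
-/

namespace Pool.Agent.Helper31.Oper

open LieAlgebra LieModule Module Filter Topology

variable {𝔤 : Type*} [LieRing 𝔤] [LieAlgebra ℂ 𝔤]

/-- `b` admits an oper vector. -/
def HasOV (b : LieSubalgebra ℂ 𝔤) : Prop := ∃ ξ, IsOperVector b ξ

variable [FiniteDimensional ℂ 𝔤] [IsKilling ℂ 𝔤]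

theorem exists_grading {b : LieSubalgebra ℂ 𝔤} (hb : IsBorel b) (hov : HasOV b) :
    ∃ h, IsGrading b h := by
  obtain ⟨ξ, hξ⟩ := hov
  obtain ⟨y0, hy0, hy0'⟩ := hξ.2 ξ hξ.1
  refine ⟨-y0, isGrading_of_oper hb hξ (b.neg_mem hy0) ?_⟩
  rw [neg_lie]
  have : -⁅y0, ξ⁆ + ξ = ξ - ⁅y0, ξ⁆ := by abel
  rw [this]
  exact hy0'

theorem IsGrading.congr {b : LieSubalgebra ℂ 𝔤} {h n1 : 𝔤} (hh : IsGrading b h)
    (hn : n1 ∈ Fil b 1) : IsGrading b (h + n1) := by
  refine ⟨b.add_mem hh.mem (Fil_one_le b hn), fun k z hz => ?_⟩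
  have e : ⁅h + n1, z⁆ - (k : ℂ) • z = (⁅h, z⁆ - (k : ℂ) • z) + ⁅n1, z⁆ := by
    rw [add_lie]; abel
  rw [e]
  exact add_mem (hh.act k z hz) (lie_Fil_one b k _ hn z hz)

/-- A grading element can be chosen in an opposite Borel subalgebra. -/
theorem exists_grading_inf {b b' : Flag 𝔤} (ht : Flag.Transverse b b') (hov : HasOV b.alg) :
    ∃ h, IsGrading b.alg h ∧ h ∈ b'.alg := by
  obtain ⟨h, hh⟩ := exists_grading b.isBorel hov
  have h1 : b'.alg.toSubmodule ⊔ perp b.alg.toSubmodule = ⊤ := by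
    have h2 : perp (b'.alg.toSubmodule ⊔ perp b.alg.toSubmodule) ≤ ⊥ := by
      intro x hx
      have hx1 : x ∈ perp b'.alg.toSubmodule := perp_anti le_sup_left hx
      have hx2 : x ∈ perp (perp b.alg.toSubmodule) := perp_anti le_sup_right hx
      rw [perp_perp] at hx2
      rw [Submodule.mem_bot]
      exact eq_zero_of_transverse ht hx2 hx1
    have h3 := perp_anti h2
    rw [perp_perp] at h3
    rw [eq_top_iff]
    refine le_trans ?_ h3
    intro x _
    refine mem_perp.mpr fun y hy => ?_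
    rw [Submodule.mem_bot] at hy
    rw [hy, map_zero]
  have h4 : h ∈ b'.alg.toSubmodule ⊔ perp b.alg.toSubmodule := by rw [h1]; trivial
  obtain ⟨y, hy, n1, hn1, hyn⟩ := Submodule.mem_sup.mp h4
  rw [perp_eq_brk b.isBorel] at hn1
  have h5 := hh.congr (n1 := -n1) ((Fil b.alg 1).neg_mem hn1)
  have h6 : h + -n1 = y := by rw [← hyn]; abel
  rw [h6] at h5
  exact ⟨y, h5, hy⟩

theorem perp_Fil_GF {b : LieSubalgebra ℂ 𝔤} (hb : IsBorel b) (k : ℕ) :
    perp (Fil b (k + 1)) = GF b (-(k : ℤ)) := by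
  rcases Nat.eq_zero_or_pos k with rfl | hk
  · have : (-((0 : ℕ) : ℤ)) = ((0 : ℕ) : ℤ) := by norm_num
    rw [this, GF_nat, Fil_zero, perp_Fil_one hb]
  · obtain ⟨m, rfl⟩ : ∃ m, k = m + 1 := ⟨k - 1, by omega⟩
    have : (-((m + 1 : ℕ) : ℤ)) = -((m : ℤ) + 1) := by push_cast; ring
    rw [this, GF_neg]

theorem finrank_perp (A : Submodule ℂ 𝔤) : finrank ℂ (perp A) = finrank ℂ 𝔤 - finrank ℂ A :=
  LinearMap.BilinForm.finrank_orthogonal (IsKilling.killingForm_nondegenerate ℂ 𝔤) A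

/-- Invariant subspaces decompose along the integer eigenspaces. -/
theorem le_of_invariant {h : 𝔤} (htop : ⨆ i, Eg h i = ⊤) {p q : Submodule ℂ 𝔤}
    (hp : ∀ x ∈ p, ⁅h, x⁆ ∈ p) (hq : ∀ j, p ⊓ Eg h j ≤ q) : p ≤ q := by
  have htop' : ⨆ μ, (ad ℂ 𝔤 h).genEigenspace μ 1 = ⊤ := by
    rw [eq_top_iff, ← htop]
    exact iSup_le fun j => le_iSup (fun μ => (ad ℂ 𝔤 h).genEigenspace μ 1) (j : ℂ)
  have h1 := Submodule.eq_iSup_inf_genEigenspace (p := p) (f := ad ℂ 𝔤 h) 1 hp htop'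
  rw [h1]
  refine iSup_le fun μ => ?_
  by_cases hμ : ∃ j : ℤ, (j : ℂ) = μ
  · obtain ⟨j, rfl⟩ := hμ
    exact hq j
  · have h2 : Disjoint ((ad ℂ 𝔤 h).eigenspace μ) (⨆ i ∈ Set.range (Int.cast : ℤ → ℂ),
        (ad ℂ 𝔤 h).eigenspace i) := by
      refine (Module.End.eigenspaces_iSupIndep (ad ℂ 𝔤 h)).disjoint_biSup ?_
      rintro ⟨j, hj⟩
      exact hμ ⟨j, hj⟩
    have h3 : (⨆ i ∈ Set.range (Int.cast : ℤ → ℂ), (ad ℂ 𝔤 h).eigenspace i) = ⊤ := by
      rw [iSup_range]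
      exact htop
    rw [h3, disjoint_top] at h2
    have h4 : (ad ℂ 𝔤 h).genEigenspace μ 1 = ⊥ := h2
    rw [h4]
    simp

theorem Eg_lie_biSup {h : 𝔤} {a c : ℤ} {x y : 𝔤} (hx : x ∈ ⨆ i ∈ Set.Iic a, Eg h i)
    (hy : y ∈ ⨆ i ∈ Set.Iic c, Eg h i) : ⁅x, y⁆ ∈ ⨆ i ∈ Set.Iic (a + c), Eg h i := by
  rw [iSup_subtype'] at hx hy
  induction hx using Submodule.iSup_induction' with
  | mem i x hx =>
    induction hy using Submodule.iSup_induction' with
    | mem j y hy =>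
      refine Submodule.mem_iSup_of_mem ((i : ℤ) + j) (Submodule.mem_iSup_of_mem ?_ (Eg_lie hx hy))
      exact Set.mem_Iic.mpr (add_le_add i.2 j.2)
    | zero => rw [lie_zero]; exact zero_mem _
    | add u v _ _ hu hv => rw [lie_add]; exact add_mem hu hv
  | zero => rw [zero_lie]; exact zero_mem _
  | add u v _ _ hu hv => rw [add_lie]; exact add_mem hu hv

theorem finrank_Fil_le {b b' : Flag 𝔤} (ht : Flag.Transverse b b') (hov : HasOV b.alg) (k : ℕ) :
    finrank ℂ (Fil b'.alg (k + 1)) ≤ finrank ℂ (Fil b.alg (k + 1)) := by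
  obtain ⟨h, hh, hhb'⟩ := exists_grading_inf ht hov
  have htop := hh.iSup_Eg b.isBorel
  have hL1 : Fil b'.alg 1 ≤ ⨆ i ∈ Set.Iic (-1 : ℤ), Eg h i := by
    refine le_of_invariant htop (fun x hx => lie_Fil b'.alg 1 h hhb' x hx) ?_
    intro j
    rcases le_or_gt 0 j with hj | hj
    · intro x hx
      have hx1 : x ∈ GF b.alg j := hh.Eg_le b.isBorel j hx.2
      have hx2 : x ∈ b.alg := by
        obtain ⟨m, rfl⟩ := Int.eq_ofNat_of_zero_le hj
        rw [GF_nat] at hx1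
        exact Fil_anti b.alg (Nat.zero_le m) hx1
      have hx3 : x ∈ perp b'.alg.toSubmodule := by rw [perp_eq_brk b'.isBorel]; exact hx.1
      rw [eq_zero_of_transverse ht hx2 hx3]
      exact zero_mem _
    · exact inf_le_right.trans (le_biSup (Eg h) (Set.mem_Iic.mpr (by omega)))
  have hL : ∀ k : ℕ, Fil b'.alg (k + 1) ≤ ⨆ i ∈ Set.Iic (-((k : ℤ) + 1)), Eg h i := by
    intro k
    induction k with
    | zero => simpa using hL1
    | succ k ih =>
      rw [Fil_succ_succ]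
      refine brk_le.mpr fun x hx y hy => ?_
      have := Eg_lie_biSup (hL1 hx) (ih hy)
      have e : (-1 : ℤ) + -((k : ℤ) + 1) = -(((k + 1 : ℕ) : ℤ) + 1) := by push_cast; ring
      rwa [e] at this
  have hdisj : Disjoint (Fil b'.alg (k + 1)) (perp (Fil b.alg (k + 1))) := by
    refine Disjoint.mono (hL k) ?_ (Eg_disjoint h (s := Set.Iic (-((k : ℤ) + 1)))
      (t := Set.Ici (-(k : ℤ))) ?_)
    · rw [perp_Fil_GF b.isBorel]
      exact hh.GF_le b.isBorel _
    · rw [Set.disjoint_left]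
      intro a ha hb'
      have h1 := Set.mem_Iic.mp ha
      have h2 := Set.mem_Ici.mp hb'
      omega
  have h2 := Submodule.finrank_sup_add_finrank_inf_eq (Fil b'.alg (k + 1))
    (perp (Fil b.alg (k + 1)))
  rw [hdisj.eq_bot, finrank_bot, add_zero, finrank_perp] at h2
  have h3 := Submodule.finrank_le (Fil b.alg (k + 1))
  have h4 := Submodule.finrank_le (Fil b'.alg (k + 1) ⊔ perp (Fil b.alg (k + 1)))
  omega

theorem finrank_Fil_eq {b b' : Flag 𝔤} (ht : Flag.Transverse b b') (hov : HasOV b.alg)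
    (hov' : HasOV b'.alg) (k : ℕ) :
    finrank ℂ (Fil b'.alg (k + 1)) = finrank ℂ (Fil b.alg (k + 1)) :=
  le_antisymm (finrank_Fil_le ht hov k) (finrank_Fil_le ht.symm hov' k)

/-- The order of vanishing of the transversality determinant on the diagonal. -/
noncomputable def Mdeg (b : Flag 𝔤) : ℕ :=
  2 * ∑ k ∈ Finset.range (finrank ℂ 𝔤), finrank ℂ (Fil b.alg (k + 1))

variable [TopologicalSpace 𝔤] [IsTopologicalAddGroup 𝔤] [ContinuousSMul ℂ 𝔤] [T2Space 𝔤]

/-- Two Borel subalgebras have a common opposite on an oper curve. -/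
theorem exists_common_transverse {Ω : Set ℂ} (hΩ : IsOpen Ω) (hne : Ω.Nonempty) {D : ℂ → Flag 𝔤}
    (hD : ∀ z ∈ Ω, IsOperAt D z) (b1 b2 : Flag 𝔤) :
    ∃ w ∈ Ω, Flag.Transverse b1 (D w) ∧ Flag.Transverse b2 (D w) := by
  obtain ⟨w0, hw0⟩ := hne
  obtain ⟨w1, hw1, ht1⟩ := exists_transverse_near hΩ hD hw0 b1 (hΩ.mem_nhds hw0)
  by_contra hcon
  push Not at hcon
  -- `b1` is transverse to `D w` for `w` near `w1`
  have h1 : ∃ w ∈ Ω, Flag.Transverse b1 (D w) ∧ Flag.Transverse b2 (D w) := by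
    -- determinant argument
    obtain ⟨d, e, he⟩ := (hD w1 hw1.2).1
    have hw1e := he.self_of_nhds
    have hdim : finrank ℂ b1.alg.toSubmodule = d := by
      rw [finrank_eq_of_transverse ht1, ← hw1e.2.2, finrank_span_eq_card hw1e.2.1,
        Fintype.card_fin]
    let β := Module.finBasisOfFinrankEq ℂ b1.alg.toSubmodule hdim
    let v : Fin d → 𝔤 := fun i => (β i : 𝔤)
    have hv : ∀ i, v i ∈ b1.alg := fun i => (β i).2
    have hli : LinearIndependent ℂ v :=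
      β.linearIndependent.map' b1.alg.toSubmodule.subtype (Submodule.ker_subtype _)
    have hspan : Submodule.span ℂ (Set.range v) = b1.alg.toSubmodule := by
      have h1 : Set.range v = b1.alg.toSubmodule.subtype '' Set.range β := by
        rw [← Set.range_comp]; rfl
      rw [h1, Submodule.span_image, β.span_eq, Submodule.map_top, Submodule.range_subtype]
    have hne0 : tdet v (fun i => e i w1) ≠ 0 := tdet_ne_zero_of_transverse hv hli hw1e.2.2 ht1
    have hcont : ContinuousAt (fun w => tdet v (fun i => e i w)) w1 :=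
      (differentiableAt_tdet hw1e.1).continuousAt
    have hev : ∀ᶠ w in 𝓝 w1, Flag.Transverse b1 (D w) := by
      filter_upwards [hcont.eventually_ne hne0, he] with w hw hwe
      by_contra hnt
      exact hw (tdet_eq_zero_of_not_transverse hspan hwe.2.2 hnt)
    obtain ⟨w, hw, ht2⟩ := exists_transverse_near hΩ hD hw1.2 b2 hev
    exact ⟨w, hw.2, hw.1, ht2⟩
  obtain ⟨w, hw, h2, h3⟩ := h1
  exact hcon w hw h2 h3

theorem hasOV_of_isOperAt {D : ℂ → Flag 𝔤} {z : ℂ} (h : IsOperAt D z) : HasOV (D z).alg := by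
  obtain ⟨_, ξ, _, h3⟩ := h
  exact ⟨ξ, h3⟩

theorem finrank_const {Ω : Set ℂ} (hΩ : IsOpen Ω) (hne : Ω.Nonempty) {D : ℂ → Flag 𝔤}
    (hD : ∀ z ∈ Ω, IsOperAt D z) (b1 b2 : Flag 𝔤) :
    finrank ℂ b1.alg.toSubmodule = finrank ℂ b2.alg.toSubmodule := by
  obtain ⟨w, _, h1, h2⟩ := exists_common_transverse hΩ hne hD b1 b2
  rw [finrank_eq_of_transverse h1, finrank_eq_of_transverse h2]

theorem Mdeg_const {Ω : Set ℂ} (hΩ : IsOpen Ω) (hne : Ω.Nonempty) {D : ℂ → Flag 𝔤}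
    (hD : ∀ z ∈ Ω, IsOperAt D z) {b1 b2 : Flag 𝔤} (hov1 : HasOV b1.alg) (hov2 : HasOV b2.alg) :
    Mdeg b1 = Mdeg b2 := by
  obtain ⟨w, hw, h1, h2⟩ := exists_common_transverse hΩ hne hD b1 b2
  have hov := hasOV_of_isOperAt (hD w hw)
  unfold Mdeg
  congr 1
  refine Finset.sum_congr rfl fun k _ => ?_
  rw [← finrank_Fil_eq h1 hov1 hov k, ← finrank_Fil_eq h2 hov2 hov k]

end Pool.Agent.Helper31.Oper
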