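import Pool.Agent.Helper31.Oper.Surf

/-!
Uniform dynamics: the contraction property of the limit map is stable under perturbation of the
representation.
-/

namespace Pool.Agent.Helper31.Oper

open Filter Topology Real
open scoped UpperHalfPlane MatrixGroups

section

variable {Γ : Type*} [Group Γ] [MulAction Γ ℍ]

/-- displacement of the base point -/
noncomputable def len (γ : Γ) : ℝ := dist (γ • UpperHalfPlane.I) UpperHalfPlane.I

/-- direction of the image of the base point -/
noncomputable def dr (γ : Γ) : Circle := dir (γ • UpperHalfPlane.I)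

theorem IsSurfaceGroup.len_inv_mul (h : IsSurfaceGroup Γ) (a b : Γ) :
    len (a⁻¹ * b) = dist (b • UpperHalfPlane.I) (a • UpperHalfPlane.I) := by
  unfold len
  rw [← h.dist_smul a, ← mul_smul, mul_inv_cancel_left]

theorem IsSurfaceGroup.dist_inv_mul (h : IsSurfaceGroup Γ) (a b c : Γ) :
    dist ((a⁻¹ * b) • UpperHalfPlane.I) ((a⁻¹ * c) • UpperHalfPlane.I) =
      dist (b • UpperHalfPlane.I) (c • UpperHalfPlane.I) := by
  rw [← h.dist_smul a, ← mul_smul, ← mul_smul, mul_inv_cancel_left, mul_inv_cancel_left]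

end

section Dyn

variable {F : Type*} [MetricSpace F] [CompactSpace F]
  {Γ : Type*} [Group Γ] [MulAction Γ ℍ]

/-- Uniform contraction. -/
theorem uniform_contraction {act : Γ → F → F} {T K : Set (F × F)} (hK : IsCompact K)
    (hKT : K ⊆ T) {ξ : Circle → F} (hξ : Continuous ξ)
    (hdyn : ∀ (γ : ℕ → Γ) (x y : Circle),
      Tendsto (fun n => toDisc (γ n • UpperHalfPlane.I)) atTop (𝓝 (x : ℂ)) →
      Tendsto (fun n => toDisc ((γ n)⁻¹ • UpperHalfPlane.I)) atTop (𝓝 (y : ℂ)) →
      ∀ (b : ℕ → F) (b' : F), Tendsto b atTop (𝓝 b') → (b', ξ y) ∈ T →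
        Tendsto (fun n => act (γ n) (b n)) atTop (𝓝 (ξ x)))
    (hlen : ∀ γ : Γ, len γ⁻¹ = len γ) {ε : ℝ} (hε : 0 < ε) :
    ∃ L0 : ℝ, ∀ γ : Γ, L0 ≤ len γ → ∀ b : F, (b, ξ (dr γ⁻¹)) ∈ K →
      dist (act γ b) (ξ (dr γ)) < ε := by
  by_contra hcon
  push Not at hcon
  choose γ hγ b hb hbε using fun n : ℕ => hcon n
  obtain ⟨⟨x, y, b'⟩, φ, hφ, hlim⟩ := CompactSpace.tendsto_subseq
    (fun n => ((dr (γ n), dr (γ n)⁻¹, b n) : Circle × Circle × F))
  have h1 : Tendsto (fun n => dr (γ (φ n))) atTop (𝓝 x) :=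
    (continuous_fst.tendsto _).comp hlim
  have h2 : Tendsto (fun n => dr (γ (φ n))⁻¹) atTop (𝓝 y) :=
    (continuous_fst.tendsto _).comp ((continuous_snd.tendsto _).comp hlim)
  have h3 : Tendsto (fun n => b (φ n)) atTop (𝓝 b') :=
    (continuous_snd.tendsto _).comp ((continuous_snd.tendsto _).comp hlim)
  have hlen1 : Tendsto (fun n => len (γ (φ n))) atTop atTop := by
    refine tendsto_atTop_mono (fun n => hγ (φ n)) ?_
    exact tendsto_natCast_atTop_atTop.comp hφ.tendsto_atTop
  have hlen2 : Tendsto (fun n => len (γ (φ n))⁻¹) atTop atTop := by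
    refine hlen1.congr fun n => ?_
    exact (hlen _).symm
  have h4 : Tendsto (fun n => toDisc (γ (φ n) • UpperHalfPlane.I)) atTop (𝓝 (x : ℂ)) :=
    tendsto_toDisc_of_dir h1 hlen1
  have h5 : Tendsto (fun n => toDisc ((γ (φ n))⁻¹ • UpperHalfPlane.I)) atTop (𝓝 (y : ℂ)) :=
    tendsto_toDisc_of_dir h2 hlen2
  have h6 : (b', ξ y) ∈ K := by
    have h7 : Tendsto (fun n => (b (φ n), ξ (dr (γ (φ n))⁻¹))) atTop (𝓝 (b', ξ y)) :=
      h3.prodMk_nhds ((hξ.tendsto y).comp h2)
    exact hK.isClosed.mem_of_tendsto h7 (Eventually.of_forall fun n => hb _)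
  have h7 := hdyn _ x y h4 h5 _ b' h3 (hKT h6)
  have h8 : Tendsto (fun n => ξ (dr (γ (φ n)))) atTop (𝓝 (ξ x)) := (hξ.tendsto x).comp h1
  have h9 : Tendsto (fun n => dist (act (γ (φ n)) (b (φ n))) (ξ (dr (γ (φ n))))) atTop (𝓝 0) := by
    have := h7.dist h8
    rwa [dist_self] at this
  obtain ⟨n, hn⟩ := (h9.eventually (gt_mem_nhds hε)).exists
  exact absurd (hbε (φ n)) (not_le.mpr hn)

theorem uniform_dynamics {X : Type*} [TopologicalSpace X] (hΓ : IsSurfaceGroup Γ)
    (act : X → Γ → F → F) (hmul : ∀ t γ γ' b, act t (γ * γ') b = act t γ (act t γ' b)) (t₀ : X)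
    (hcont : ∀ γ b, ContinuousAt (fun p : X × F => act p.1 γ p.2) (t₀, b))
    {T : Set (F × F)} (hT : IsOpen T) {ξ : Circle → F} (hξ : Continuous ξ)
    (hξT : ∀ x y, x ≠ y → (ξ x, ξ y) ∈ T)
    (hdyn : ∀ (γ : ℕ → Γ) (x y : Circle),
      Tendsto (fun n => toDisc (γ n • UpperHalfPlane.I)) atTop (𝓝 (x : ℂ)) →
      Tendsto (fun n => toDisc ((γ n)⁻¹ • UpperHalfPlane.I)) atTop (𝓝 (y : ℂ)) →
      ∀ (b : ℕ → F) (b' : F), Tendsto b atTop (𝓝 b') → (b', ξ y) ∈ T →
        Tendsto (fun n => act t₀ (γ n) (b n)) atTop (𝓝 (ξ x)))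
    {t : ℕ → X} {γ : ℕ → Γ} {x y : Circle} (ht : Tendsto t atTop (𝓝 t₀))
    (hx : Tendsto (fun n => toDisc (γ n • UpperHalfPlane.I)) atTop (𝓝 (x : ℂ)))
    (hy : Tendsto (fun n => toDisc ((γ n)⁻¹ • UpperHalfPlane.I)) atTop (𝓝 (y : ℂ)))
    {b : ℕ → F} {b' : F} (hb : Tendsto b atTop (𝓝 b')) (hb' : (b', ξ y) ∈ T) :
    Tendsto (fun n => act (t n) (γ n) (b n)) atTop (𝓝 (ξ x)) := by
  obtain ⟨R, hR, hRR⟩ := hΓ.exists_radius
  have hlen : ∀ γ : Γ, len γ⁻¹ = len γ := by
    intro γ
    have h1 := hΓ.len_inv_mul γ 1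
    rw [mul_one, one_smul, dist_comm] at h1
    exact h1
  set ε₀ := exp (-(6 * R) / 2) / 8 with hε₀
  have hε₀pos : 0 < ε₀ := by positivity
  -- the compact set
  let E : Set (F × F) := (fun p : Circle × Circle => (ξ p.1, ξ p.2)) ''
    {p | ε₀ ≤ dist p.1 p.2} ∪ {(b', ξ y)}
  have hE : IsCompact E := by
    refine IsCompact.union ?_ isCompact_singleton
    refine IsCompact.image ?_ ?_
    · exact (isClosed_le continuous_const (continuous_fst.dist continuous_snd)).isCompact
    · exact (hξ.comp continuous_fst).prodMk (hξ.comp continuous_snd)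
  have hET : E ⊆ T := by
    rintro _ (⟨⟨p, q⟩, hpq, rfl⟩ | rfl)
    · refine hξT p q ?_
      rintro rfl
      have : ε₀ ≤ dist p p := hpq
      rw [dist_self] at this
      linarith
    · exact hb'
  obtain ⟨K, hK, hEK, hKT⟩ := exists_compact_between hE hT hET
  obtain ⟨η, hη, hthick⟩ := hE.exists_thickening_subset_open isOpen_interior hEK
  have hmemK : ∀ p q : F × F, q ∈ E → dist p q < η → p ∈ K := fun p q hq hpq =>
    interior_subset (hthick (Metric.mem_thickening_iff.mpr ⟨q, hq, hpq⟩))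
  rw [Metric.tendsto_atTop']
  intro ε' hε'
  set ε := min (η / 4) (ε' / 8) with hεdef
  have hε : 0 < ε := lt_min (by positivity) (by positivity)
  have hεη : 4 * ε ≤ η := by
    have := min_le_left (η / 4) (ε' / 8)
    linarith
  have hεε' : 8 * ε ≤ ε' := by
    have := min_le_right (η / 4) (ε' / 8)
    linarith
  obtain ⟨L0, hL0⟩ := uniform_contraction (act := act t₀) hK hKT hξ hdyn hlen hε
  obtain ⟨ω, hω, hωξ⟩ := Metric.uniformContinuous_iff.mp
    (CompactSpace.uniformContinuous_of_continuous hξ) ε hε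
  -- choose the length scale
  obtain ⟨ℓ, hℓ0, hℓ1, hℓ2, hℓ3, hℓ4⟩ : ∃ ℓ : ℝ, L0 ≤ ℓ ∧ 1 ≤ ℓ ∧ 4 * exp (-ℓ) ≤ ε₀ ∧
      6 * exp (6 * R - ℓ) < ω ∧ 2 + 6 * R ≤ 2 * ℓ := by
    have e1 : ∀ᶠ ℓ : ℝ in atTop, 4 * exp (-ℓ) ≤ ε₀ := by
      have : Tendsto (fun ℓ : ℝ => 4 * exp (-ℓ)) atTop (𝓝 0) := by
        simpa using tendsto_exp_neg_atTop_nhds_zero.const_mul 4
      exact (this.eventually (gt_mem_nhds hε₀pos)).mono fun _ h => h.le
    have e2 : ∀ᶠ ℓ : ℝ in atTop, 6 * exp (6 * R - ℓ) < ω := by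
      have : Tendsto (fun ℓ : ℝ => 6 * exp (6 * R - ℓ)) atTop (𝓝 0) := by
        have h1 : Tendsto (fun ℓ : ℝ => 6 * (exp (6 * R) * exp (-ℓ))) atTop (𝓝 0) := by
          simpa using (tendsto_exp_neg_atTop_nhds_zero.const_mul (exp (6 * R))).const_mul 6
        refine h1.congr fun ℓ => ?_
        rw [← exp_add, sub_eq_add_neg]
      exact this.eventually (gt_mem_nhds hω)
    obtain ⟨ℓ, h1, h2, h3, h4, h5⟩ := ((eventually_ge_atTop L0).and ((eventually_ge_atTop 1).and
      (e1.and (e2.and (eventually_ge_atTop (1 + 3 * R)))))).exists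
    exact ⟨ℓ, h1, h2, h3, h4, by linarith⟩
  set L := ℓ + 2 * R with hL
  have hLpos : 0 < L := by linarith
  -- finitely many pieces
  have hS := hΓ.finite_ball (2 * L + 2 * R)
  have hpert : ∀ᶠ s in 𝓝 t₀, ∀ γ ∈ {γ : Γ | dist (γ • UpperHalfPlane.I) UpperHalfPlane.I ≤
      2 * L + 2 * R}, ∀ c : F, dist (act s γ c) (act t₀ γ c) < ε := by
    rw [Filter.eventually_all_finite hS]
    intro γ _
    have := (isCompact_univ (X := F)).eventually_forall_of_forall_eventually (x₀ := t₀)
      (P := fun s c => dist (act s γ c) (act t₀ γ c) < ε) (by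
        intro c _
        have c1 := hcont γ c
        have c2 : ContinuousAt (fun p : X × F => act t₀ γ p.2) (t₀, c) := by
          have c3 : Tendsto (fun p : X × F => (t₀, p.2)) (𝓝 (t₀, c)) (𝓝 (t₀, c)) := by
            have : ContinuousAt (fun p : X × F => (t₀, p.2)) (t₀, c) :=
              continuousAt_const.prodMk continuousAt_snd
            exact this
          exact (show Tendsto (fun p : X × F => act p.1 γ p.2) (𝓝 (t₀, c)) _ from c1).comp c3
        have c4 : ContinuousAt (fun p : X × F => dist (act p.1 γ p.2) (act t₀ γ p.2)) (t₀, c) :=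
          c1.dist c2
        refine c4.eventually_lt continuousAt_const ?_
        rw [dist_self]
        exact hε)
    filter_upwards [this] with s hs c using hs c (Set.mem_univ c)
  have hev : ∀ᶠ n in atTop, dist (act (t n) (γ n) (b n)) (ξ x) < ε' := by
    have hdx := tendsto_dist_atTop hx
    have hdirx := tendsto_dir hx
    have hdiry := tendsto_dir hy
    filter_upwards [ht.eventually hpert, hdx.eventually (eventually_ge_atTop L),
      (Metric.tendsto_nhds.mp hb) ε hε,
      (Metric.tendsto_nhds.mp ((hξ.tendsto x).comp hdirx)) ε hε,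
      (Metric.tendsto_nhds.mp ((hξ.tendsto y).comp hdiry)) ε hε] with n n1 n2 n3 n4 n5
    obtain ⟨k, δ, g, hk, hg0, hgk, hLδ, hδL, hg⟩ := decomp hR hRR hLpos (γ n) n2
    -- distances
    have hd : ∀ i ≤ k, ∀ j ≤ k, ∀ m : ℝ, abs ((i : ℝ) - j) = m →
        δ * m - 2 * R ≤ dist (g i • UpperHalfPlane.I) (g j • UpperHalfPlane.I) ∧
        dist (g i • UpperHalfPlane.I) (g j • UpperHalfPlane.I) ≤ δ * m + 2 * R := by
      intro i hi j hj m hm
      have := hg i hi j hj
      rw [hm, abs_le] at this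
      constructor <;> linarith [this.1, this.2]
    have hlenk : ∀ i < k, ℓ ≤ len ((g i)⁻¹ * g (i + 1)) ∧
        len ((g i)⁻¹ * g (i + 1)) ≤ δ + 2 * R := by
      intro i hi
      rw [hΓ.len_inv_mul]
      have := hd (i + 1) (by omega) i (by omega) 1 (by push_cast; simp)
      constructor <;> linarith [this.1, this.2]
    have hstep : ∀ i < k, ∀ c : F, (c, ξ (dr ((g i)⁻¹ * g (i + 1))⁻¹)) ∈ K →
        dist (act (t n) ((g i)⁻¹ * g (i + 1)) c) (ξ (dr ((g i)⁻¹ * g (i + 1)))) < 2 * ε := by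
      intro i hi c hc
      have h1 := hL0 _ (hℓ0.trans (hlenk i hi).1) c hc
      have h2 := n1 ((g i)⁻¹ * g (i + 1)) (by
        change len _ ≤ _
        linarith [(hlenk i hi).2]) c
      have := dist_triangle (act (t n) ((g i)⁻¹ * g (i + 1)) c)
        (act t₀ ((g i)⁻¹ * g (i + 1)) c) (ξ (dr ((g i)⁻¹ * g (i + 1))))
      linarith
    have chain : ∀ m : ℕ, ∀ i : ℕ, i + 1 + m = k →
        dist (act (t n) ((g i)⁻¹ * g k) (b n)) (ξ (dr ((g i)⁻¹ * g (i + 1)))) < 2 * ε := by
      intro m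
      induction m with
      | zero =>
        intro i hi
        have hik : i + 1 = k := by omega
        rw [← hik]
        refine hstep i (by omega) (b n) ?_
        refine hmemK _ (b', ξ y) (Or.inr rfl) ?_
        have e1 : ((g i)⁻¹ * g (i + 1))⁻¹ = (g (i + 1))⁻¹ * g i := by group
        have e2 : (γ n)⁻¹ = (g k)⁻¹ * g 0 := by rw [hgk, hg0, mul_one]
        have h1 : dist (dr ((g i)⁻¹ * g (i + 1))⁻¹) (dr (γ n)⁻¹) < ω := by
          refine lt_of_le_of_lt (dir_close (C := 6 * R) (by positivity) ?_) (lt_of_le_of_lt ?_ hℓ3)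
          · change len _ + _ ≤ len _ + _
            rw [e1, e2, ← hik, hΓ.len_inv_mul, hΓ.dist_inv_mul, hΓ.len_inv_mul]
            have a1 := hd i (by omega) (i + 1) (by omega) 1 (by push_cast; simp)
            have a2 := hd i (by omega) 0 (by omega) i (by simp)
            have a3 := hd 0 (by omega) (i + 1) (by omega) (i + 1) (by
              push_cast; rw [zero_sub, abs_neg]; exact abs_of_nonneg (by positivity))
            linarith [a1.2, a2.2, a3.1]
          · have : ℓ ≤ len ((g i)⁻¹ * g (i + 1))⁻¹ := by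
              rw [hlen]; exact (hlenk i (by omega)).1
            have h2 : exp (6 * R - len ((g i)⁻¹ * g (i + 1))⁻¹) ≤ exp (6 * R - ℓ) :=
              exp_le_exp.mpr (by linarith)
            change 6 * exp (6 * R - len _) ≤ _
            linarith
        have h2 := hωξ h1
        have n5' : dist (ξ (dr (γ n)⁻¹)) (ξ y) < ε := n5
        rw [Prod.dist_eq, max_lt_iff]
        refine ⟨by change dist (b n) b' < η; linarith, ?_⟩
        change dist (ξ (dr ((g i)⁻¹ * g (i + 1))⁻¹)) (ξ y) < η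
        have := dist_triangle (ξ (dr ((g i)⁻¹ * g (i + 1))⁻¹)) (ξ (dr (γ n)⁻¹)) (ξ y)
        linarith
      | succ m ih =>
        intro i hi
        have h1 := ih (i + 1) (by omega)
        set c := act (t n) ((g (i + 1))⁻¹ * g k) (b n) with hc
        have e1 : act (t n) ((g i)⁻¹ * g k) (b n) = act (t n) ((g i)⁻¹ * g (i + 1)) c := by
          rw [hc, ← hmul]
          congr 1
          group
        rw [e1]
        refine hstep i (by omega) c ?_
        have e2 : ((g i)⁻¹ * g (i + 1))⁻¹ = (g (i + 1))⁻¹ * g i := by group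
        have h3 : ε₀ ≤ dist (dr ((g (i + 1))⁻¹ * g (i + 1 + 1))) (dr ((g i)⁻¹ * g (i + 1))⁻¹) := by
          have a1 := hd (i + 1 + 1) (by omega) (i + 1) (by omega) 1 (by push_cast; simp)
          have a2 := hd i (by omega) (i + 1) (by omega) 1 (by push_cast; simp)
          have a3 := hd (i + 1 + 1) (by omega) i (by omega) 2 (by push_cast; ring_nf; simp)
          have h4 := dir_far (p := ((g (i + 1))⁻¹ * g (i + 1 + 1)) • UpperHalfPlane.I)
            (q := ((g i)⁻¹ * g (i + 1))⁻¹ • UpperHalfPlane.I) (C := 6 * R) (ℓ := ℓ)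
            (hlenk (i + 1) (by omega)).1 (by
              change ℓ ≤ len _
              rw [hlen]; exact (hlenk i (by omega)).1)
            (by
              change len _ + len _ - _ ≤ _
              rw [e2, hΓ.len_inv_mul, hΓ.len_inv_mul, hΓ.dist_inv_mul]
              linarith [a1.2, a2.2, a3.1])
            (by
              change 2 ≤ len _ + len _ - _
              rw [e2, hΓ.len_inv_mul, hΓ.len_inv_mul]
              linarith [a1.1, a2.1])
          refine le_trans ?_ h4
          have e3 : exp (-(6 * R) / 2) / 4 = 2 * ε₀ := by rw [hε₀]; ring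
          rw [e3]
          linarith
        refine hmemK _ (ξ (dr ((g (i + 1))⁻¹ * g (i + 1 + 1))), ξ (dr ((g i)⁻¹ * g (i + 1))⁻¹))
          (Or.inl ⟨(_, _), h3, rfl⟩) ?_
        rw [Prod.dist_eq, max_lt_iff]
        refine ⟨by linarith, ?_⟩
        change dist (ξ _) (ξ _) < η
        rw [dist_self]
        exact hη
    have hfin := chain (k - 1) 0 (by omega)
    rw [hg0, hgk, inv_one, one_mul, one_mul, zero_add] at hfin
    have h1 : dist (dr (g 1)) (dr (γ n)) < ω := by
      have e1 : g 1 = (g 0)⁻¹ * g 1 := by rw [hg0, inv_one, one_mul]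
      have e2 : γ n = (g 0)⁻¹ * g k := by rw [hg0, hgk, inv_one, one_mul]
      have hl := hlenk 0 hk
      rw [zero_add, ← e1] at hl
      refine lt_of_le_of_lt (dir_close (C := 6 * R) (by positivity) ?_) (lt_of_le_of_lt ?_ hℓ3)
      · change len _ + _ ≤ len _ + _
        have a1 := hd 1 (by omega) 0 (by omega) 1 (by simp)
        have a2 := hd 1 (by omega) k (by omega) (k - 1) (by
          rw [abs_sub_comm]
          have : (1 : ℝ) ≤ k := by exact_mod_cast hk
          push_cast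
          exact abs_of_nonneg (by linarith))
        have a3 := hd k (by omega) 0 (by omega) k (by simp)
        have l1 : len (g 1) = dist (g 1 • UpperHalfPlane.I) (g 0 • UpperHalfPlane.I) := by
          rw [← hΓ.len_inv_mul, ← e1]
        have l2 : len (γ n) = dist (g k • UpperHalfPlane.I) (g 0 • UpperHalfPlane.I) := by
          rw [← hΓ.len_inv_mul, ← e2]
        rw [l1, l2, ← hgk]
        linarith [a1.2, a2.2, a3.1]
      · have h2 : exp (6 * R - len (g 1)) ≤ exp (6 * R - ℓ) :=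
          exp_le_exp.mpr (by linarith [hl.1])
        change 6 * exp (6 * R - len _) ≤ _
        linarith
    have h2 := hωξ h1
    have n4' : dist (ξ (dr (γ n))) (ξ x) < ε := n4
    have t1 := dist_triangle4 (act (t n) (γ n) (b n)) (ξ (dr (g 1))) (ξ (dr (γ n))) (ξ x)
    linarith
  exact (eventually_atTop.mp hev).imp fun N hN n hn => hN n hn.le

end Dyn

end Pool.Agent.Helper31.Oper
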