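import Pool.Agent.Helper31.Oper.Borel2

/-!
The lower central filtration of a Borel subalgebra and its behaviour under an oper direction.
-/

namespace Pool.Agent.Helper31.Oper

open LieAlgebra LieModule Module

variable {𝔤 : Type*} [LieRing 𝔤] [LieAlgebra ℂ 𝔤]

/-- `Fil 𝔟 0 = 𝔟`, `Fil 𝔟 1 = [𝔟, 𝔟] = 𝔫`, `Fil 𝔟 (k+2) = [𝔫, Fil 𝔟 (k+1)]`. -/
def Fil (b : LieSubalgebra ℂ 𝔤) : ℕ → Submodule ℂ 𝔤
  | 0 => b.toSubmodule
  | 1 => brk b.toSubmodule b.toSubmodule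
  | (k + 2) => brk (brk b.toSubmodule b.toSubmodule) (Fil b (k + 1))

theorem Fil_zero (b : LieSubalgebra ℂ 𝔤) : Fil b 0 = b.toSubmodule := rfl
theorem Fil_one (b : LieSubalgebra ℂ 𝔤) : Fil b 1 = brk b.toSubmodule b.toSubmodule := rfl
theorem Fil_succ_succ (b : LieSubalgebra ℂ 𝔤) (k : ℕ) : Fil b (k + 2) = brk (Fil b 1) (Fil b (k + 1)) :=
  rfl

theorem Fil_one_le (b : LieSubalgebra ℂ 𝔤) : Fil b 1 ≤ b.toSubmodule := brk_self_le b

/-- `[𝔟, Fil k] ⊆ Fil k`. -/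
theorem lie_Fil (b : LieSubalgebra ℂ 𝔤) (k : ℕ) : ∀ x ∈ b, ∀ y ∈ Fil b k, ⁅x, y⁆ ∈ Fil b k := by
  induction k using Nat.strong_induction_on with
  | _ k ih =>
    match k with
    | 0 => exact fun x hx y hy => b.lie_mem hx hy
    | 1 => exact fun x hx y hy => lie_mem_brk hx (Fil_one_le b hy)
    | (k + 2) =>
      intro x hx y hy
      rw [Fil_succ_succ] at hy ⊢
      unfold brk at hy
      induction hy using Submodule.span_induction with
      | mem m hm =>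
        obtain ⟨u, hu, v, hv, rfl⟩ := hm
        rw [leibniz_lie]
        exact add_mem (lie_mem_brk (ih 1 (by omega) x hx u hu) hv)
          (lie_mem_brk hu (ih (k + 1) (by omega) x hx v hv))
      | zero => simp
      | add u v _ _ hu hv => rw [lie_add]; exact add_mem hu hv
      | smul c u _ hu => rw [lie_smul]; exact Submodule.smul_mem _ _ hu

/-- `[𝔫, Fil k] ⊆ Fil (k+1)`. -/
theorem lie_Fil_one (b : LieSubalgebra ℂ 𝔤) (k : ℕ) :
    ∀ x ∈ Fil b 1, ∀ y ∈ Fil b k, ⁅x, y⁆ ∈ Fil b (k + 1) := by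
  match k with
  | 0 => exact fun x hx y hy => lie_mem_brk (Fil_one_le b hx) hy
  | (k + 1) => exact fun x hx y hy => lie_mem_brk hx hy

theorem Fil_succ_le (b : LieSubalgebra ℂ 𝔤) (k : ℕ) : Fil b (k + 1) ≤ Fil b k := by
  match k with
  | 0 => exact Fil_one_le b
  | (k + 1) => exact brk_le.mpr fun x hx y hy => lie_Fil b (k + 1) x (Fil_one_le b hx) y hy

theorem Fil_anti (b : LieSubalgebra ℂ 𝔤) : Antitone (Fil b) :=
  antitone_nat_of_succ_le (Fil_succ_le b)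

/-- `[Fil 2, Fil (k+1)] ⊆ Fil (k+3)`. -/
theorem lie_Fil_two (b : LieSubalgebra ℂ 𝔤) (k : ℕ) :
    ∀ x ∈ Fil b 2, ∀ y ∈ Fil b (k + 1), ⁅x, y⁆ ∈ Fil b (k + 3) := by
  intro x hx y hy
  rw [Fil_succ_succ] at hx
  unfold brk at hx
  induction hx using Submodule.span_induction with
  | mem m hm =>
    obtain ⟨u, hu, v, hv, rfl⟩ := hm
    rw [lie_lie]
    exact sub_mem (lie_Fil_one b _ u hu _ (lie_Fil_one b _ v hv y hy))
      (lie_Fil_one b _ v hv _ (lie_Fil_one b _ u hu y hy))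
  | zero => simp
  | add u v _ _ hu hv => rw [add_lie]; exact add_mem hu hv
  | smul c u _ hu => rw [smul_lie]; exact Submodule.smul_mem _ _ hu

section FD

variable [FiniteDimensional ℂ 𝔤]

theorem exists_Fil_eq_bot {b : LieSubalgebra ℂ 𝔤} (hb : LieAlgebra.IsSolvable b) :
    ∃ K : ℕ, Fil b (K + 1) = ⊥ := by
  have hnil : LieModule.IsNilpotent (der b) 𝔤 := by
    rw [LieModule.isNilpotent_iff_forall' (R := ℂ)]
    rintro ⟨x, hx⟩
    exact (nil_of_brk hb hx).2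
  obtain ⟨K, hK⟩ := (LieModule.isNilpotent_iff ℂ (der b) 𝔤).mp hnil
  refine ⟨K, ?_⟩
  have key : ∀ k : ℕ, Fil b (k + 1) ≤ (lowerCentralSeries ℂ (der b) 𝔤 k).toSubmodule := by
    intro k
    induction k with
    | zero => simp
    | succ k ih =>
      rw [Fil_succ_succ]
      refine brk_le.mpr fun x hx y hy => ?_
      rw [LieSubmodule.mem_toSubmodule, LieModule.lowerCentralSeries_succ]
      exact LieSubmodule.lie_mem_lie (I := (⊤ : LieIdeal ℂ (der b)))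
        (x := ⟨x, hx⟩) (LieSubmodule.mem_top _) (ih hy)
  have := key K
  rw [hK] at this
  exact le_bot_iff.mp this

end FD

/-- `ξ` represents a vector in the open orbit of the Borel subgroup on the degree `-1` part of
`𝔤/𝔟`: one has `[ξ, 𝔫] ⊆ 𝔟`, and `[𝔟, ξ] + 𝔟` is everything with this property. -/
def IsOperVector (b : LieSubalgebra ℂ 𝔤) (ξ : 𝔤) : Prop :=
  (∀ y ∈ brk b.toSubmodule b.toSubmodule, ⁅ξ, y⁆ ∈ b) ∧
  ∀ η : 𝔤, (∀ y ∈ brk b.toSubmodule b.toSubmodule, ⁅η, y⁆ ∈ b) → ∃ y ∈ b, η - ⁅y, ξ⁆ ∈ b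

section Inj

variable {b : LieSubalgebra ℂ 𝔤} {ξ : 𝔤}

theorem lie_xi_Fil (hξ : ∀ y ∈ Fil b 1, ⁅ξ, y⁆ ∈ b) (k : ℕ) :
    ∀ y ∈ Fil b (k + 1), ⁅ξ, y⁆ ∈ Fil b k := by
  induction k with
  | zero => exact hξ
  | succ k ih =>
    intro y hy
    rw [Fil_succ_succ] at hy
    unfold brk at hy
    induction hy using Submodule.span_induction with
    | mem m hm =>
      obtain ⟨u, hu, v, hv, rfl⟩ := hm
      rw [leibniz_lie]
      exact add_mem (lie_Fil b _ _ (hξ u hu) v hv) (lie_Fil_one b _ u hu _ (ih v hv))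
    | zero => simp
    | add u v _ _ hu hv => rw [lie_add]; exact add_mem hu hv
    | smul c u _ hu => rw [lie_smul]; exact Submodule.smul_mem _ _ hu

variable [FiniteDimensional ℂ 𝔤] [IsKilling ℂ 𝔤]

theorem perp_Fil_one (hb : IsBorel b) : perp (Fil b 1) = b.toSubmodule := by
  rw [Fil_one, ← perp_eq_brk hb, perp_perp]

theorem mem_perp_Fil_two (hb : IsBorel b) (η : 𝔤) :
    η ∈ perp (Fil b 2) ↔ ∀ y ∈ Fil b 1, ⁅η, y⁆ ∈ b := by
  constructor
  · intro h y hy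
    have : ⁅η, y⁆ ∈ perp (Fil b 1) := by
      rw [mem_perp] at h ⊢
      intro z hz
      rw [kf_lie]
      exact h _ (lie_mem_brk hy hz)
    rwa [perp_Fil_one hb] at this
  · intro h
    rw [mem_perp, Fil_succ_succ]
    intro z hz
    unfold brk at hz
    induction hz using Submodule.span_induction with
    | mem m hm =>
      obtain ⟨u, hu, v, hv, rfl⟩ := hm
      have h1 : ⁅η, u⁆ ∈ perp (Fil b 1) := by
        rw [perp_Fil_one hb]
        exact h u hu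
      rw [← kf_lie]
      exact mem_perp.mp h1 v hv
    | zero => simp
    | add u v _ _ hu hv => rw [map_add, hu, hv, add_zero]
    | smul c u _ hu => rw [map_smul, hu, smul_zero]

theorem mem_Fil_two (hb : IsBorel b) {x : 𝔤}
    (h : ∀ η : 𝔤, (∀ y ∈ Fil b 1, ⁅η, y⁆ ∈ b) → killingForm ℂ 𝔤 x η = 0) : x ∈ Fil b 2 := by
  rw [← perp_perp (Fil b 2), mem_perp]
  intro η hη
  exact h η ((mem_perp_Fil_two hb η).mp hη)

theorem kf_ad_pow (x u z : 𝔤) (k : ℕ) :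
    killingForm ℂ 𝔤 ((ad ℂ 𝔤 x ^ k) u) z = (-1) ^ k * killingForm ℂ 𝔤 u ((ad ℂ 𝔤 x ^ k) z) := by
  induction k generalizing u z with
  | zero => simp
  | succ k ih =>
    have e : (ad ℂ 𝔤 x ^ k) ⁅x, z⁆ = (ad ℂ 𝔤 x ^ (k + 1)) z := by
      rw [pow_succ, Module.End.mul_apply, ad_apply]
    have e1 : (ad ℂ 𝔤 x ^ (k + 1)) u = ⁅x, (ad ℂ 𝔤 x ^ k) u⁆ := by
      rw [pow_succ', Module.End.mul_apply, ad_apply]
    rw [e1, ← lie_skew, map_neg, LinearMap.neg_apply, kf_lie, ih, e]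
    ring

/-- An element of `𝔟` fixing an oper vector modulo `𝔟` lies in `𝔫`. -/
theorem mem_Fil_one_of_fix (hb : IsBorel b) (hξ : IsOperVector b ξ) {x : 𝔤} (hx : x ∈ b)
    (hx2 : ⁅x, ξ⁆ ∈ b) : x ∈ Fil b 1 := by
  have h1 : ∀ η : 𝔤, (∀ y ∈ Fil b 1, ⁅η, y⁆ ∈ b) → ⁅x, η⁆ ∈ b := by
    intro η hη
    obtain ⟨y, hy, hy2⟩ := hξ.2 η hη
    have e : ⁅x, η⁆ = ⁅x, η - ⁅y, ξ⁆⁆ + (-⁅ξ, ⁅x, y⁆⁆ + ⁅y, ⁅x, ξ⁆⁆) := by
      rw [lie_sub, leibniz_lie x y ξ, ← lie_skew ⁅x, y⁆ ξ]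
      abel
    rw [e]
    exact b.add_mem (b.lie_mem hx hy2) (b.add_mem (b.neg_mem (hξ.1 _ (lie_mem_brk hx hy)))
      (b.lie_mem hy hx2))
  have h2 : ∀ z ∈ Fil b 1, ⁅x, z⁆ ∈ Fil b 2 := by
    intro z hz
    refine mem_Fil_two hb fun η hη => ?_
    rw [← lie_skew, map_neg, LinearMap.neg_apply, kf_lie, neg_eq_zero]
    have : z ∈ perp b.toSubmodule := by rw [perp_eq_brk hb]; exact hz
    exact mem_perp.mp this _ (h1 η hη)
  have h3 : ∀ k : ℕ, ∀ z ∈ Fil b k, ⁅x, z⁆ ∈ Fil b (k + 1) := by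
    intro k
    induction k using Nat.strong_induction_on with
    | _ k ih =>
      match k with
      | 0 => exact fun z hz => lie_mem_brk hx hz
      | 1 => exact h2
      | (k + 2) =>
        intro z hz
        rw [Fil_succ_succ] at hz
        unfold brk at hz
        induction hz using Submodule.span_induction with
        | mem m hm =>
          obtain ⟨u, hu, v, hv, rfl⟩ := hm
          rw [leibniz_lie]
          exact add_mem (lie_Fil_two b _ _ (h2 u hu) v hv)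
            (lie_Fil_one b _ u hu _ (ih (k + 1) (by omega) v hv))
        | zero => simp
        | add u v _ _ hu hv => rw [lie_add]; exact add_mem hu hv
        | smul c u _ hu => rw [lie_smul]; exact Submodule.smul_mem _ _ hu
  obtain ⟨K, hK⟩ := exists_Fil_eq_bot hb.1
  have h4 : ∀ j : ℕ, ∀ z ∈ b, (ad ℂ 𝔤 x ^ j) z ∈ Fil b j := by
    intro j
    induction j with
    | zero => intro z hz; rw [pow_zero, Module.End.one_apply]; exact hz
    | succ j ih =>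
      intro z hz
      rw [pow_succ', Module.End.mul_apply, ad_apply]
      exact h3 j _ (ih z hz)
  have h5 : ∀ z ∈ b, (ad ℂ 𝔤 x ^ (K + 1)) z = 0 := by
    intro z hz
    have := h4 (K + 1) z hz
    rwa [hK, Submodule.mem_bot] at this
  have h6 : ∀ u : 𝔤, (ad ℂ 𝔤 x ^ (K + 1)) u ∈ b := by
    intro u
    refine perp_le_borel hb (mem_perp.mpr fun z hz => ?_)
    rw [kf_ad_pow, h5 z hz, map_zero, mul_zero]
  have hnil : IsNilpotent (ad ℂ 𝔤 x) := by
    refine ⟨(K + 1) + (K + 1), ?_⟩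
    ext u
    rw [pow_add, Module.End.mul_apply]
    exact h5 _ (h6 u)
  have : x ∈ perp b.toSubmodule := mem_perp.mpr fun y hy => kf_of_nil hb.1 hx hnil hy
  rwa [perp_eq_brk hb] at this

/-- The key injectivity: bracketing with an oper vector is injective on the positive part of the
associated graded. -/
theorem Fil_inj (hb : IsBorel b) (hξ : IsOperVector b ξ) (k : ℕ) {x : 𝔤}
    (hx : x ∈ Fil b (k + 1)) (hx2 : ⁅ξ, x⁆ ∈ Fil b (k + 1)) : x ∈ Fil b (k + 2) := by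
  -- the grading element
  obtain ⟨y0, hy0, hy0'⟩ := hξ.2 ξ hξ.1
  set h : 𝔤 := -y0 with hh
  have hhb : h ∈ b := b.neg_mem hy0
  have hhξ : ⁅h, ξ⁆ + ξ ∈ b := by
    have : ⁅h, ξ⁆ + ξ = ξ - ⁅y0, ξ⁆ := by rw [hh, neg_lie]; abel
    rw [this]; exact hy0'
  -- it acts as -1 on the degree -1 part
  have s3 : ∀ η : 𝔤, (∀ y ∈ Fil b 1, ⁅η, y⁆ ∈ b) → ⁅h, η⁆ + η ∈ b := by
    intro η hη
    obtain ⟨y, hy, hy2⟩ := hξ.2 η hη
    have e : ⁅h, η⁆ + η = ⁅h, η - ⁅y, ξ⁆⁆ + (η - ⁅y, ξ⁆) + (-⁅ξ, ⁅h, y⁆⁆)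
        + ⁅y, ⁅h, ξ⁆ + ξ⁆ := by
      rw [lie_sub, leibniz_lie h y ξ, ← lie_skew ⁅h, y⁆ ξ, lie_add]
      abel
    rw [e]
    exact b.add_mem (b.add_mem (b.add_mem (b.lie_mem hhb hy2) hy2)
      (b.neg_mem (hξ.1 _ (lie_mem_brk hhb hy)))) (b.lie_mem hy hhξ)
  -- it acts as 1 on Fil 1 / Fil 2
  have s5 : ∀ z ∈ Fil b 1, ⁅h, z⁆ - z ∈ Fil b 2 := by
    intro z hz
    refine mem_Fil_two hb fun η hη => ?_
    have hz' : z ∈ perp b.toSubmodule := by rw [perp_eq_brk hb]; exact hz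
    have h1 := mem_perp.mp hz' _ (s3 η hη)
    rw [map_sub, LinearMap.sub_apply, ← lie_skew, map_neg, LinearMap.neg_apply, kf_lie]
    rw [map_add] at h1
    linear_combination -h1
  -- it acts as j + 1 on Fil (j+1) / Fil (j+2)
  have s6 : ∀ j : ℕ, ∀ z ∈ Fil b (j + 1), ⁅h, z⁆ - ((j + 1 : ℕ) : ℂ) • z ∈ Fil b (j + 2) := by
    intro j
    induction j with
    | zero => intro z hz; simpa using s5 z hz
    | succ j ih =>
      intro z hz
      rw [Fil_succ_succ] at hz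
      unfold brk at hz
      induction hz using Submodule.span_induction with
      | mem m hm =>
        obtain ⟨u, hu, v, hv, rfl⟩ := hm
        have e : ⁅h, ⁅u, v⁆⁆ - ((j + 1 + 1 : ℕ) : ℂ) • ⁅u, v⁆ =
            ⁅⁅h, u⁆ - u, v⁆ + ⁅u, ⁅h, v⁆ - ((j + 1 : ℕ) : ℂ) • v⁆ := by
          rw [leibniz_lie h u v, sub_lie, lie_sub, lie_smul]
          push_cast
          module
        rw [e]
        exact add_mem (lie_Fil_two b _ _ (s5 u hu) v hv) (lie_Fil_one b _ u hu _ (ih v hv))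
      | zero => simp
      | add u v _ _ hu hv =>
        have e : ⁅h, u + v⁆ - ((j + 1 + 1 : ℕ) : ℂ) • (u + v) =
          (⁅h, u⁆ - ((j + 1 + 1 : ℕ) : ℂ) • u) + (⁅h, v⁆ - ((j + 1 + 1 : ℕ) : ℂ) • v) := by
          rw [lie_add, smul_add]; abel
        rw [e]; exact add_mem hu hv
      | smul c u _ hu =>
        have e : ⁅h, c • u⁆ - ((j + 1 + 1 : ℕ) : ℂ) • (c • u) =
          c • (⁅h, u⁆ - ((j + 1 + 1 : ℕ) : ℂ) • u) := by
          rw [lie_smul, smul_sub, smul_comm]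
        rw [e]; exact Submodule.smul_mem _ _ hu
  -- the raising element
  obtain ⟨e, he, n1, hn1, hen⟩ : ∃ e ∈ Fil b 1, ∃ n1 ∈ Fil b 1, ⁅ξ, e⁆ + n1 = h := by
    let W : Submodule ℂ 𝔤 := (Fil b 1).map (ad ℂ 𝔤 ξ) ⊔ Fil b 1
    have hW : perp W ≤ Fil b 1 := by
      intro x hxW
      have hxb : x ∈ b := by
        have : x ∈ perp (Fil b 1) := perp_anti le_sup_right hxW
        rwa [perp_Fil_one hb] at this
      refine mem_Fil_one_of_fix hb hξ hxb ?_
      have : ⁅x, ξ⁆ ∈ perp (Fil b 1) := by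
        rw [mem_perp] at hxW ⊢
        intro y hy
        rw [kf_lie]
        exact hxW _ (Submodule.mem_sup_left ⟨y, hy, rfl⟩)
      rwa [perp_Fil_one hb] at this
    have hW2 : b.toSubmodule ≤ W := by
      have := perp_anti hW
      rwa [perp_perp, perp_Fil_one hb] at this
    have := hW2 hhb
    obtain ⟨p, hp, q, hq, hpq⟩ := Submodule.mem_sup.mp this
    obtain ⟨e, he, rfl⟩ := hp
    exact ⟨e, he, q, hq, hpq⟩
  -- the ladder
  let X : ℕ → 𝔤 := fun j => (ad ℂ 𝔤 e ^ j) x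
  have hX0 : X 0 = x := by simp [X]
  have hXs : ∀ j, X (j + 1) = ⁅e, X j⁆ := by
    intro j
    simp only [X]
    rw [pow_succ', Module.End.mul_apply, ad_apply]
  have hXF : ∀ j, X j ∈ Fil b (k + j + 1) := by
    intro j
    induction j with
    | zero => rw [hX0]; exact hx
    | succ j ih =>
      rw [hXs]
      exact lie_Fil_one b _ e he _ ih
  obtain ⟨a, ha0, has⟩ : ∃ a : ℕ → ℕ, a 0 = 0 ∧ ∀ j, a (j + 1) = a j + (k + j + 1) :=
    ⟨fun j => Nat.rec 0 (fun i r => r + (k + i + 1)) j, rfl, fun j => rfl⟩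
  have step : ∀ j, ⁅e, ⁅ξ, X j⁆⁆ - ((a j : ℕ) : ℂ) • X j ∈ Fil b (k + j + 2) →
      ⁅ξ, X (j + 1)⁆ - ((a (j + 1) : ℕ) : ℂ) • X j ∈ Fil b (k + j + 2) := by
    intro j hj
    have e1 : ⁅ξ, X (j + 1)⁆ - ((a (j + 1) : ℕ) : ℂ) • X j =
        (⁅h, X j⁆ - ((k + j + 1 : ℕ) : ℂ) • X j) - ⁅n1, X j⁆
          + (⁅e, ⁅ξ, X j⁆⁆ - ((a j : ℕ) : ℂ) • X j) := by
      rw [hXs, has, leibniz_lie ξ e (X j), ← hen, add_lie]
      push_cast
      module
    rw [e1]
    exact add_mem (sub_mem (s6 (k + j) _ (hXF j)) (lie_Fil_one b _ n1 hn1 _ (hXF j))) hj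
  have claim : ∀ j, ⁅e, ⁅ξ, X j⁆⁆ - ((a j : ℕ) : ℂ) • X j ∈ Fil b (k + j + 2) := by
    intro j
    induction j with
    | zero =>
      rw [hX0, ha0, Nat.cast_zero, zero_smul, sub_zero]
      exact lie_Fil_one b _ e he _ hx2
    | succ j ih =>
      have h1 := lie_Fil_one b _ e he _ (step j ih)
      rw [lie_sub, lie_smul, ← hXs] at h1
      exact h1
  by_contra hcon
  have hnot : ∀ j, X j ∉ Fil b (k + j + 2) := by
    intro j
    induction j with
    | zero => rw [hX0]; exact hcon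
    | succ j ih =>
      intro hj
      apply ih
      have h1 : ⁅ξ, X (j + 1)⁆ ∈ Fil b (k + j + 2) :=
        lie_xi_Fil (fun y hy => hξ.1 y hy) (k + j + 2) _ hj
      have h2 := sub_mem h1 (step j (claim j))
      rw [sub_sub_cancel] at h2
      have hne : ((a (j + 1) : ℕ) : ℂ) ≠ 0 := by
        rw [Nat.cast_ne_zero, has]
        omega
      exact (Submodule.smul_mem_iff _ hne).mp h2
  obtain ⟨K, hK⟩ := exists_Fil_eq_bot hb.1
  apply hnot K
  have h1 : X K = 0 := by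
    have := Fil_anti b (show K + 1 ≤ k + K + 1 by omega) (hXF K)
    rwa [hK, Submodule.mem_bot] at this
  rw [h1]
  exact zero_mem _

end Inj

end Pool.Agent.Helper31.Oper
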