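import Pool.Agent.Helper31.Oper.TF2

/-!
Topology of the flag manifold: it is a compact metrizable space with a continuous action.
-/

namespace Pool.Agent.Helper31.Oper

open LieAlgebra LieModule Module Filter Topology

variable {𝔤 : Type*} [LieRing 𝔤] [LieAlgebra ℂ 𝔤] {d : ℕ}
variable [FiniteDimensional ℂ 𝔤] [TopologicalSpace 𝔤] [IsTopologicalAddGroup 𝔤]
  [ContinuousSMul ℂ 𝔤] [T2Space 𝔤]

theorem Flag.t2Space (hdim : ∀ b : Flag 𝔤, finrank ℂ b.alg.toSubmodule = d) :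
    T2Space (Flag 𝔤) := by
  rw [t2Space_iff_disjoint_nhds]
  intro b b' hne
  obtain ⟨x, hx, hxb⟩ : ∃ x ∈ b'.alg, x ∉ b.alg := by
    by_contra hcon
    push Not at hcon
    have h1 : b'.alg ≤ b.alg := fun x hx => hcon x hx
    have h2 := b'.isBorel.2 b.isBorel.1 h1
    exact hne (Subtype.ext (le_antisymm h2 h1))
  obtain ⟨v, hv⟩ := exists_base (hdim b)
  have hli : LinearIndependent ℂ (Fin.cons x v : Fin (d + 1) → 𝔤) := by
    rw [linearIndependent_finCons]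
    refine ⟨hv.1, ?_⟩
    rw [hv.2]
    exact hxb
  obtain ⟨φ, hφ⟩ := exists_dual_family hli
  have hdd : dd φ (Fin.cons x v : Fin (d + 1) → 𝔤) ≠ 0 := by
    unfold dd
    have : (Matrix.of fun k i => φ k ((Fin.cons x v : Fin (d + 1) → 𝔤) i)) = 1 := by
      ext k i
      rw [Matrix.of_apply, hφ, Matrix.one_apply]
    rw [this, Matrix.det_one]
    exact one_ne_zero
  have hc : ContinuousAt (fun q : (Fin d → 𝔤) × 𝔤 =>
      dd φ (fun i => (Fin.cons q.2 q.1 : Fin (d + 1) → 𝔤) i)) (v, x) := by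
    refine continuousAt_dd φ
      (p := fun i (q : (Fin d → 𝔤) × 𝔤) => (Fin.cons q.2 q.1 : Fin (d + 1) → 𝔤) i) fun i => ?_
    refine Fin.cases ?_ (fun i => ?_) i
    · exact continuousAt_snd
    · exact ((continuous_apply i).comp continuous_fst).continuousAt
  have h1 : ∀ᶠ q : (Fin d → 𝔤) × 𝔤 in 𝓝 (v, x),
      dd φ (fun i => (Fin.cons q.2 q.1 : Fin (d + 1) → 𝔤) i) ≠ 0 := hc.eventually_ne hdd
  rw [nhds_prod_eq] at h1
  obtain ⟨P, hP, Q, hQ, hPQ⟩ := Filter.mem_prod_iff.mp h1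
  have h2 := Flag.eventually_near hv.mem hP
  have h3 : ∀ᶠ c : Flag 𝔤 in 𝓝 b', ∃ y ∈ c.alg, y ∈ interior Q :=
    (Flag.isOpen_meet isOpen_interior).mem_nhds ⟨x, hx, mem_interior_iff_mem_nhds.mpr hQ⟩
  rw [Filter.disjoint_iff]
  refine ⟨_, h2, _, h3, Set.disjoint_left.mpr ?_⟩
  rintro c ⟨v', hv'P, hv'⟩ ⟨y, hy, hyQ⟩
  have h4 := hPQ (Set.mk_mem_prod hv'P (interior_subset hyQ))
  have h5 : LinearIndependent ℂ (Fin.cons y v' : Fin (d + 1) → 𝔤) := linearIndependent_of_dd h4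
  have h6 : d + 1 ≤ finrank ℂ c.alg.toSubmodule := by
    refine card_le_of_li h5 fun i => ?_
    refine Fin.cases ?_ (fun i => ?_) i
    · exact hy
    · exact hv' i
  rw [hdim c] at h6
  omega

theorem secondCountable_g : SecondCountableTopology 𝔤 :=
  (Module.finBasis ℂ 𝔤).equivFunL.toHomeomorph.secondCountableTopology

theorem Flag.secondCountable : SecondCountableTopology (Flag 𝔤) := by
  have : SecondCountableTopology 𝔤 := secondCountable_g
  refine ⟨(fun O : Set 𝔤 => {b : Flag 𝔤 | ∃ x ∈ b.alg, x ∈ O}) '' TopologicalSpace.countableBasis 𝔤,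
    (TopologicalSpace.countable_countableBasis 𝔤).image _, ?_⟩
  apply le_antisymm
  · refine le_generateFrom ?_
    rintro _ ⟨O, hO, rfl⟩
    exact Flag.isOpen_meet (TopologicalSpace.isOpen_of_mem_countableBasis hO)
  · refine le_generateFrom ?_
    rintro _ ⟨O, hO, rfl⟩
    have hb := TopologicalSpace.isBasis_countableBasis 𝔤
    have e : {b : Flag 𝔤 | ∃ x ∈ b.alg, x ∈ O} =
        ⋃ O' ∈ {O' | O' ∈ TopologicalSpace.countableBasis 𝔤 ∧ O' ⊆ O},
          {b : Flag 𝔤 | ∃ x ∈ b.alg, x ∈ O'} := by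
      ext b
      simp only [Set.mem_ofPred_eq, Set.mem_iUnion]
      constructor
      · rintro ⟨x, hx, hxO⟩
        obtain ⟨O', hO', hxO', hsub⟩ := hb.exists_subset_of_mem_open hxO hO
        exact ⟨O', ⟨hO', hsub⟩, x, hx, hxO'⟩
      · rintro ⟨O', ⟨_, hsub⟩, x, hx, hxO'⟩
        exact ⟨x, hx, hsub hxO'⟩
    rw [e]
    let _ : TopologicalSpace (Flag 𝔤) := TopologicalSpace.generateFrom
      ((fun O : Set 𝔤 => {b : Flag 𝔤 | ∃ x ∈ b.alg, x ∈ O}) '' TopologicalSpace.countableBasis 𝔤)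
    refine isOpen_biUnion fun O' hO' => ?_
    exact TopologicalSpace.isOpen_generateFrom_of_mem ⟨O', hO'.1, rfl⟩

theorem continuous_lie_g : Continuous fun p : 𝔤 × 𝔤 => ⁅p.1, p.2⁆ := by
  have e : (fun p : 𝔤 × 𝔤 => ⁅p.1, p.2⁆) = fun p => ∑ i, (Module.finBasis ℂ 𝔤).coord i p.1 •
      (ad ℂ 𝔤 ((Module.finBasis ℂ 𝔤) i)) p.2 := by
    funext p
    conv_lhs => rw [← (Module.finBasis ℂ 𝔤).sum_repr p.1]
    simp only [sum_lie, smul_lie, ad_apply, Basis.coord_apply]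
  rw [e]
  refine continuous_finsetSum _ fun i _ => ?_
  refine Continuous.smul ?_ ?_
  · exact (continuous_dual _).comp continuous_fst
  · exact (LinearMap.continuous_of_finiteDimensional _).comp continuous_snd

theorem tendsto_lie_g {α : Type*} {l : Filter α} {f g : α → 𝔤} {x y : 𝔤}
    (hf : Tendsto f l (𝓝 x)) (hg : Tendsto g l (𝓝 y)) :
    Tendsto (fun a => ⁅f a, g a⁆) l (𝓝 ⁅x, y⁆) :=
  (continuous_lie_g.tendsto (x, y)).comp (hf.prodMk_nhds hg)

theorem tendsto_kf {α : Type*} {l : Filter α} {f g : α → 𝔤} {x y : 𝔤}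
    (hf : Tendsto f l (𝓝 x)) (hg : Tendsto g l (𝓝 y)) :
    Tendsto (fun a => killingForm ℂ 𝔤 (f a) (g a)) l (𝓝 (killingForm ℂ 𝔤 x y)) := by
  have e : (fun a => killingForm ℂ 𝔤 (f a) (g a)) = fun a => ∑ i,
      (Module.finBasis ℂ 𝔤).coord i (f a) * killingForm ℂ 𝔤 ((Module.finBasis ℂ 𝔤) i) (g a) := by
    funext a
    conv_lhs => rw [← (Module.finBasis ℂ 𝔤).sum_repr (f a)]
    simp only [map_sum, map_smul, LinearMap.sum_apply, LinearMap.smul_apply, smul_eq_mul,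
      Basis.coord_apply]
  have e2 : killingForm ℂ 𝔤 x y = ∑ i,
      (Module.finBasis ℂ 𝔤).coord i x * killingForm ℂ 𝔤 ((Module.finBasis ℂ 𝔤) i) y := by
    conv_lhs => rw [← (Module.finBasis ℂ 𝔤).sum_repr x]
    simp only [map_sum, map_smul, LinearMap.sum_apply, LinearMap.smul_apply, smul_eq_mul,
      Basis.coord_apply]
  rw [e, e2]
  refine tendsto_finsetSum _ fun i _ => ?_
  refine Filter.Tendsto.mul ?_ ?_
  · exact ((continuous_dual _).tendsto x).comp hf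
  · exact ((continuous_dual (killingForm ℂ 𝔤 ((Module.finBasis ℂ 𝔤) i))).tendsto y).comp hg

omit [TopologicalSpace 𝔤] [IsTopologicalAddGroup 𝔤] [ContinuousSMul ℂ 𝔤] [T2Space 𝔤] in
theorem exists_borel_ge {c : LieSubalgebra ℂ 𝔤} (hc : LieAlgebra.IsSolvable c) :
    ∃ b : Flag 𝔤, c ≤ b.alg := by
  have hwf := (LieSubalgebra.wellFoundedGT_of_noetherian ℂ 𝔤).wf
  obtain ⟨m, ⟨hm1, hm2⟩, hm3⟩ := hwf.has_min
    {m : LieSubalgebra ℂ 𝔤 | c ≤ m ∧ LieAlgebra.IsSolvable m} ⟨c, le_rfl, hc⟩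
  refine ⟨⟨m, hm2, fun m' hm' hle => ?_⟩, hm1⟩
  by_contra hcon
  exact hm3 m' ⟨hm1.trans hle, hm'⟩ (lt_of_le_not_ge hle hcon)

omit [TopologicalSpace 𝔤] [IsTopologicalAddGroup 𝔤] [ContinuousSMul ℂ 𝔤] [T2Space 𝔤] in
theorem exists_borel_of_frame (hdim : ∀ b : Flag 𝔤, finrank ℂ b.alg.toSubmodule = d)
    {v : Fin d → 𝔤} (hli : LinearIndependent ℂ v)
    (hmem : ∀ i j, ⁅v i, v j⁆ ∈ Submodule.span ℂ (Set.range v))
    (hkf : ∀ i j k, killingForm ℂ 𝔤 (v i) ⁅v j, v k⁆ = 0) : ∃ b : Flag 𝔤, IsBase b v := by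
  obtain ⟨c, hc⟩ : ∃ c : LieSubalgebra ℂ 𝔤, c.toSubmodule = Submodule.span ℂ (Set.range v) := by
    refine ⟨{ toSubmodule := Submodule.span ℂ (Set.range v), lie_mem' := ?_ }, rfl⟩
    intro x y hx hy
    obtain ⟨a, rfl⟩ := (Submodule.mem_span_range_iff_exists_fun ℂ).mp hx
    obtain ⟨a', rfl⟩ := (Submodule.mem_span_range_iff_exists_fun ℂ).mp hy
    rw [sum_lie_sum]
    refine Submodule.sum_mem _ fun i _ => Submodule.sum_mem _ fun j _ => ?_
    rw [smul_lie, lie_smul]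
    exact Submodule.smul_mem _ _ (Submodule.smul_mem _ _ (hmem i j))
  have hc' : ∀ x, x ∈ c ↔ x ∈ Submodule.span ℂ (Set.range v) := by
    intro x
    rw [← LieSubalgebra.mem_toSubmodule, hc]
  have hcs : LieAlgebra.IsSolvable c := by
    apply solvable_of_kf
    intro x hx y hy z hz
    rw [hc'] at hx hy hz
    obtain ⟨a, rfl⟩ := (Submodule.mem_span_range_iff_exists_fun ℂ).mp hx
    obtain ⟨a', rfl⟩ := (Submodule.mem_span_range_iff_exists_fun ℂ).mp hy
    obtain ⟨a'', rfl⟩ := (Submodule.mem_span_range_iff_exists_fun ℂ).mp hz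
    rw [sum_lie_sum]
    simp only [smul_lie, lie_smul, map_sum, LinearMap.sum_apply, map_smul, LinearMap.smul_apply,
      hkf, smul_zero, Finset.sum_const_zero]
  obtain ⟨b, hb⟩ := exists_borel_ge hcs
  exact ⟨b, isBase_of_li (hdim b) hli fun i => hb ((hc' _).mpr (Submodule.subset_span ⟨i, rfl⟩))⟩

theorem Flag.compactSpace (hdim : ∀ b : Flag 𝔤, finrank ℂ b.alg.toSubmodule = d) :
    CompactSpace (Flag 𝔤) := by
  let n := finrank ℂ 𝔤
  let E : 𝔤 ≃L[ℂ] EuclideanSpace ℂ (Fin n) :=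
    (Module.finBasis ℂ 𝔤).equivFunL.trans (EuclideanSpace.equiv (Fin n) ℂ).symm
  -- orthonormal frames
  have hframe : ∀ b : Flag 𝔤, ∃ w : Fin d → EuclideanSpace ℂ (Fin n), Orthonormal ℂ w ∧
      Submodule.span ℂ (Set.range w) = b.alg.toSubmodule.map E.toLinearEquiv.toLinearMap := by
    intro b
    let S := b.alg.toSubmodule.map E.toLinearEquiv.toLinearMap
    have hS : finrank ℂ S = d := by
      rw [← hdim b]
      exact LinearEquiv.finrank_map_eq E.toLinearEquiv _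
    let o := (stdOrthonormalBasis ℂ S).reindex (finCongr hS)
    refine ⟨fun i => (o i : EuclideanSpace ℂ (Fin n)), ?_, ?_⟩
    · exact o.orthonormal.comp_linearIsometry S.subtypeₗᵢ
    · have h1 : Set.range (fun i => ((o i : S) : EuclideanSpace ℂ (Fin n))) =
          S.subtype '' Set.range o := by
        rw [← Set.range_comp]; rfl
      rw [h1, Submodule.span_image]
      have h2 : Submodule.span ℂ (Set.range o) = ⊤ := by
        have := o.toBasis.span_eq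
        rwa [OrthonormalBasis.coe_toBasis] at this
      rw [h2, Submodule.map_top, Submodule.range_subtype]
  choose w hw hws using hframe
  have hK : IsCompact {w : Fin d → EuclideanSpace ℂ (Fin n) | Orthonormal ℂ w} := by
    refine Metric.isCompact_of_isClosed_isBounded ?_ ?_
    · have e : {w : Fin d → EuclideanSpace ℂ (Fin n) | Orthonormal ℂ w} =
          ⋂ i, ⋂ j, {w | inner ℂ (w i) (w j) = if i = j then (1 : ℂ) else 0} := by
        ext w
        simp only [Set.mem_ofPred_eq, Set.mem_iInter, orthonormal_iff_ite]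
      rw [e]
      refine isClosed_iInter fun i => isClosed_iInter fun j => ?_
      exact isClosed_eq ((continuous_apply i).inner (continuous_apply j)) continuous_const
    · refine (Metric.isBounded_closedBall (x := (0 : Fin d → EuclideanSpace ℂ (Fin n)))
        (r := 1)).subset ?_
      intro w hw
      rw [mem_closedBall_zero_iff, pi_norm_le_iff_of_nonneg zero_le_one]
      intro i
      exact (hw.1 i).le
  refine ⟨isCompact_iff_ultrafilter_le_nhds.mpr fun 𝒰 _ => ?_⟩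
  obtain ⟨w₀, hw₀, hlim⟩ := isCompact_iff_ultrafilter_le_nhds.mp hK (𝒰.map w)
    (by
      rw [Filter.le_principal_iff]
      change w ⁻¹' {w | Orthonormal ℂ w} ∈ 𝒰
      exact Filter.mem_of_superset Filter.univ_mem fun b _ => hw b)
  have hlim' : Tendsto w 𝒰 (𝓝 w₀) := hlim
  have hlimi : ∀ i, Tendsto (fun b => w b i) 𝒰 (𝓝 (w₀ i)) := fun i =>
    (tendsto_pi_nhds.mp hlim') i
  let v : Flag 𝔤 → Fin d → 𝔤 := fun b i => E.symm (w b i)
  let v₀ : Fin d → 𝔤 := fun i => E.symm (w₀ i)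
  have hvlim : ∀ i, Tendsto (fun b => v b i) 𝒰 (𝓝 (v₀ i)) := fun i =>
    (E.symm.continuous.tendsto _).comp (hlimi i)
  have hspanE : ∀ (u : Fin d → EuclideanSpace ℂ (Fin n)) (x : 𝔤),
      x ∈ Submodule.span ℂ (Set.range fun i => E.symm (u i)) ↔
        E x ∈ Submodule.span ℂ (Set.range u) := by
    intro u x
    have h1 : Set.range (fun i => E.symm (u i)) =
        E.symm.toLinearEquiv.toLinearMap '' Set.range u := by
      rw [← Set.range_comp]; rfl
    rw [h1, Submodule.span_image]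
    constructor
    · rintro ⟨y, hy, rfl⟩
      have : E (E.symm y) = y := E.apply_symm_apply y
      change E (E.symm y) ∈ _
      rw [this]; exact hy
    · intro hx
      exact ⟨E x, hx, E.symm_apply_apply x⟩
  have hbase : ∀ b, IsBase b (v b) := by
    intro b
    refine ⟨?_, ?_⟩
    · exact (hw b).linearIndependent.map' E.symm.toLinearEquiv.toLinearMap (LinearEquiv.ker _)
    · ext x
      rw [hspanE, hws]
      constructor
      · rintro ⟨y, hy, hyx⟩
        have : y = x := E.injective hyx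
        rwa [← this]
      · intro hx
        exact ⟨x, hx, rfl⟩
  have hli₀ : LinearIndependent ℂ v₀ :=
    hw₀.linearIndependent.map' E.symm.toLinearEquiv.toLinearMap (LinearEquiv.ker _)
  -- expansion in an orthonormal frame
  have hexp : ∀ (u : Fin d → EuclideanSpace ℂ (Fin n)), Orthonormal ℂ u →
      ∀ y ∈ Submodule.span ℂ (Set.range u), y = ∑ k, inner ℂ (u k) y • u k := by
    intro u hu y hy
    obtain ⟨c, rfl⟩ := (Submodule.mem_span_range_iff_exists_fun ℂ).mp hy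
    refine Finset.sum_congr rfl fun k _ => ?_
    congr 1
    rw [hu.inner_right_fintype]
  have hbr : ∀ i j, ⁅v₀ i, v₀ j⁆ = ∑ k, inner ℂ (w₀ k) (E ⁅v₀ i, v₀ j⁆) • v₀ k := by
    intro i j
    have h1 : Tendsto (fun b => ⁅v b i, v b j⁆) 𝒰 (𝓝 ⁅v₀ i, v₀ j⁆) :=
      tendsto_lie_g (hvlim i) (hvlim j)
    have h2 : Tendsto (fun b => ∑ k, inner ℂ (w b k) (E ⁅v b i, v b j⁆) • v b k) 𝒰
        (𝓝 (∑ k, inner ℂ (w₀ k) (E ⁅v₀ i, v₀ j⁆) • v₀ k)) := by
      refine tendsto_finsetSum _ fun k _ => ?_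
      refine Tendsto.smul ?_ (hvlim k)
      exact (hlimi k).inner ((E.continuous.tendsto _).comp h1)
    have h3 : (fun b => ⁅v b i, v b j⁆) =
        fun b => ∑ k, inner ℂ (w b k) (E ⁅v b i, v b j⁆) • v b k := by
      funext b
      have h4 : ⁅v b i, v b j⁆ ∈ b.alg := b.alg.lie_mem ((hbase b).mem i) ((hbase b).mem j)
      have h5 : E ⁅v b i, v b j⁆ ∈ Submodule.span ℂ (Set.range (w b)) := by
        rw [hws]
        exact ⟨_, h4, rfl⟩
      have h6 := hexp (w b) (hw b) _ h5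
      have h7 := congrArg E.symm h6
      rw [E.symm_apply_apply, map_sum] at h7
      simpa only [map_smul] using h7
    rw [h3] at h1
    exact tendsto_nhds_unique h1 h2
  have hmem : ∀ i j, ⁅v₀ i, v₀ j⁆ ∈ Submodule.span ℂ (Set.range v₀) := by
    intro i j
    rw [hbr i j]
    exact Submodule.sum_mem _ fun k _ => Submodule.smul_mem _ _ (Submodule.subset_span ⟨k, rfl⟩)
  have hkf : ∀ i j k, killingForm ℂ 𝔤 (v₀ i) ⁅v₀ j, v₀ k⁆ = 0 := by
    intro i j k
    have h1 : Tendsto (fun b => ⁅v b j, v b k⁆) 𝒰 (𝓝 ⁅v₀ j, v₀ k⁆) :=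
      tendsto_lie_g (hvlim j) (hvlim k)
    have h2 : Tendsto (fun b => killingForm ℂ 𝔤 (v b i) ⁅v b j, v b k⁆) 𝒰
        (𝓝 (killingForm ℂ 𝔤 (v₀ i) ⁅v₀ j, v₀ k⁆)) :=
      tendsto_kf (hvlim i) h1
    have h3 : (fun b => killingForm ℂ 𝔤 (v b i) ⁅v b j, v b k⁆) = fun _ => 0 := by
      funext b
      rw [kf_comm]
      exact kf_brk b.isBorel.1 (lie_mem_brk ((hbase b).mem j) ((hbase b).mem k)) ((hbase b).mem i)
    rw [h3] at h2
    exact tendsto_nhds_unique h2 tendsto_const_nhds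
  obtain ⟨b, hbase₀⟩ := exists_borel_of_frame hdim hli₀ hmem hkf
  refine ⟨b, trivial, ?_⟩
  change (𝒰 : Filter (Flag 𝔤)) ≤ 𝓝 b
  rw [TopologicalSpace.nhds_generateFrom]
  refine le_iInf₂ fun s hs => ?_
  obtain ⟨hbs, O, hO, rfl⟩ := hs
  obtain ⟨x, hx, hxO⟩ := hbs
  rw [Filter.le_principal_iff]
  obtain ⟨a, rfl⟩ := span_repr hbase₀.2 hx
  have h1 : Tendsto (fun b => ∑ i, a i • v b i) 𝒰 (𝓝 (∑ i, a i • v₀ i)) :=
    tendsto_finsetSum _ fun i _ => (hvlim i).const_smul (a i)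
  filter_upwards [h1.eventually (hO.mem_nhds hxO)] with b' hb'
  refine ⟨_, ?_, hb'⟩
  rw [← LieSubalgebra.mem_toSubmodule]
  exact Submodule.sum_mem _ fun i _ => Submodule.smul_mem _ _ ((hbase b').mem i)

section Act

variable {G : Type*} [Group G] [TopologicalSpace G] {Ad : G → (𝔤 ≃ₗ⁅ℂ⁆ 𝔤)}

theorem IsAdjointAction.continuous_smul (h : IsAdjointAction Ad) :
    Continuous fun p : G × 𝔤 => Ad p.1 p.2 := by
  have e : (fun p : G × 𝔤 => Ad p.1 p.2) = fun p => ∑ i, (Module.finBasis ℂ 𝔤).coord i p.2 •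
      Ad p.1 ((Module.finBasis ℂ 𝔤) i) := by
    funext p
    conv_lhs => rw [← (Module.finBasis ℂ 𝔤).sum_repr p.2]
    simp only [map_sum, map_smul, Basis.coord_apply]
  rw [e]
  refine continuous_finsetSum _ fun i _ => ?_
  refine Continuous.smul ?_ ?_
  · exact (continuous_dual _).comp continuous_snd
  · exact (h.continuous _).comp continuous_fst

theorem IsAdjointAction.continuous_map (h : IsAdjointAction Ad) :
    Continuous fun p : G × Flag 𝔤 => Flag.map (Ad p.1) p.2 := by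
  refine continuous_generateFrom_iff.mpr ?_
  rintro _ ⟨O, hO, rfl⟩
  rw [isOpen_iff_mem_nhds]
  rintro ⟨g, b⟩ ⟨y, hy, hyO⟩
  obtain ⟨x, hx, rfl⟩ := Flag.mem_map.mp hy
  have h1 : ∀ᶠ p : G × 𝔤 in 𝓝 (g, x), Ad p.1 p.2 ∈ O :=
    (h.continuous_smul.tendsto (g, x)).eventually (hO.mem_nhds hyO)
  rw [nhds_prod_eq] at h1
  obtain ⟨P, hP, Q, hQ, hPQ⟩ := Filter.mem_prod_iff.mp h1
  have h3 : ∀ᶠ c : Flag 𝔤 in 𝓝 b, ∃ y ∈ c.alg, y ∈ interior Q :=
    (Flag.isOpen_meet isOpen_interior).mem_nhds ⟨x, hx, mem_interior_iff_mem_nhds.mpr hQ⟩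
  rw [nhds_prod_eq]
  filter_upwards [(show ∀ᶠ g' in 𝓝 g, g' ∈ P from hP).prod_mk h3] with p hp
  obtain ⟨hp1, y, hy, hyQ⟩ := hp
  exact ⟨Ad p.1 y, Flag.mem_map.mpr ⟨y, hy, rfl⟩, hPQ (Set.mk_mem_prod hp1 (interior_subset hyQ))⟩

end Act

variable [IsKilling ℂ 𝔤]

/-- Transversality is an open condition. -/
theorem Flag.isOpen_transverse (hdim : ∀ b : Flag 𝔤, finrank ℂ b.alg.toSubmodule = d) :
    IsOpen {p : Flag 𝔤 × Flag 𝔤 | Flag.Transverse p.1 p.2} := by
  rw [isOpen_iff_mem_nhds]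
  rintro ⟨b, b'⟩ hbb'
  obtain ⟨v, hv⟩ := exists_base (hdim b)
  obtain ⟨u, hu⟩ := exists_base (hdim b')
  obtain ⟨φ, hφ⟩ := exists_good hv
  obtain ⟨ψ, hψ⟩ := exists_good hu
  have hne : TT φ ψ b b' ≠ 0 := fun h0 => (TT_eq_zero_iff hφ hψ).mp h0 hbb'
  have h1 := (continuousAt_TT hdim hφ hψ).eventually_ne hne
  have h2 : ∀ᶠ p : Flag 𝔤 × Flag 𝔤 in 𝓝 (b, b'), Good φ p.1 ∧ Good ψ p.2 := by
    rw [nhds_prod_eq]
    exact (eventually_good hdim hφ).prod_mk (eventually_good hdim hψ)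
  filter_upwards [h1, h2] with p hp1 hp2
  by_contra hnt
  exact hp1 ((TT_eq_zero_iff hp2.1 hp2.2).mpr hnt)

end Pool.Agent.Helper31.Oper
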