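import Pool.Agent.Helper31.Oper.TF2

/-!
The Fuchsian oper is transverse, and vanishes to exact order on the diagonal.
-/

namespace Pool.Agent.Helper31.Oper

open LieAlgebra LieModule Module Filter Topology
open scoped UpperHalfPlane MatrixGroups

variable {𝔤 : Type*} [LieRing 𝔤] [LieAlgebra ℂ 𝔤] {d : ℕ}

theorem kf_Eg {h x y : 𝔤} {i j : ℤ} (hx : x ∈ Eg h i) (hy : y ∈ Eg h j) (hij : i + j ≠ 0) :
    killingForm ℂ 𝔤 x y = 0 := by
  have h1 := kf_lie x h y
  rw [mem_Eg.mp hy, ← lie_skew, mem_Eg.mp hx] at h1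
  simp only [map_neg, map_smul, LinearMap.neg_apply, LinearMap.smul_apply, smul_eq_mul] at h1
  have h2 : ((i + j : ℤ) : ℂ) * killingForm ℂ 𝔤 x y = 0 := by
    push_cast
    linear_combination -h1
  rcases mul_eq_zero.mp h2 with h3 | h3
  · exact absurd (by exact_mod_cast h3) hij
  · exact h3

theorem ad_pow_Eg {h e x : 𝔤} {j : ℤ} (he : e ∈ Eg h (-1)) (hx : x ∈ Eg h j) (k : ℕ) :
    (ad ℂ 𝔤 e ^ k) x ∈ Eg h (j - k) := by
  induction k with
  | zero => simpa using hx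
  | succ k ih =>
    rw [pow_succ', Module.End.mul_apply, ad_apply]
    have := Eg_lie he ih
    have e2 : (-1 : ℤ) + (j - k) = j - ((k + 1 : ℕ) : ℤ) := by push_cast; ring
    rwa [e2] at this

section FD

variable [FiniteDimensional ℂ 𝔤] [IsKilling ℂ 𝔤]

theorem IsGrading.Eg_big {b : LieSubalgebra ℂ 𝔤} {h : 𝔤} (hb : IsBorel b) (hh : IsGrading b h)
    {j : ℤ} (hj : (finrank ℂ 𝔤 : ℤ) + 1 ≤ j) : Eg h j = ⊥ := by
  have h1 := hh.Eg_le hb j
  obtain ⟨m, rfl⟩ := Int.eq_ofNat_of_zero_le (show 0 ≤ j by omega)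
  rw [GF_nat] at h1
  have h2 : Fil b m ≤ Fil b (finrank ℂ 𝔤 + 1) := Fil_anti b (by omega)
  rw [Fil_bot hb.1] at h2
  exact le_bot_iff.mp (h1.trans h2)

theorem eq_zero_of_kf {x : 𝔤} (h : ∀ y, killingForm ℂ 𝔤 x y = 0) : x = 0 := by
  have h1 : x ∈ perp (⊤ : Submodule ℂ 𝔤) := mem_perp.mpr fun y _ => h y
  have h4 : perp (⊤ : Submodule ℂ 𝔤) = ⊥ := by
    have h5 : perp (⊥ : Submodule ℂ 𝔤) = ⊤ := by
      rw [eq_top_iff]
      intro x _
      refine mem_perp.mpr fun y hy => ?_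
      rw [Submodule.mem_bot] at hy
      rw [hy, map_zero]
    rw [← h5, perp_perp]
  rwa [h4, Submodule.mem_bot] at h1

theorem IsGrading.Eg_small {b : LieSubalgebra ℂ 𝔤} {h : 𝔤} (hb : IsBorel b) (hh : IsGrading b h)
    {j : ℤ} (hj : j ≤ -((finrank ℂ 𝔤 : ℤ) + 1)) : Eg h j = ⊥ := by
  rw [Submodule.eq_bot_iff]
  intro x hx
  refine eq_zero_of_kf fun y => ?_
  have hy : y ∈ ⨆ i, Eg h i := by rw [hh.iSup_Eg hb]; trivial
  induction hy using Submodule.iSup_induction' with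
  | mem i y hy =>
    by_cases hij : j + i = 0
    · have : Eg h i = ⊥ := hh.Eg_big hb (by omega)
      rw [this, Submodule.mem_bot] at hy
      rw [hy, map_zero]
    · exact kf_Eg hx hy hij
  | zero => exact map_zero _
  | add u v _ _ hu hv => rw [map_add, hu, hv, add_zero]

/-- `ad e` is nilpotent. -/
theorem ad_pow_eq_zero {b : LieSubalgebra ℂ 𝔤} {h e : 𝔤} (hb : IsBorel b) (hh : IsGrading b h)
    (he : e ∈ Eg h (-1)) : (ad ℂ 𝔤 e) ^ (2 * finrank ℂ 𝔤 + 3) = 0 := by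
  ext x
  rw [LinearMap.zero_apply]
  have hx : x ∈ ⨆ i, Eg h i := by rw [hh.iSup_Eg hb]; trivial
  induction hx using Submodule.iSup_induction' with
  | mem i x hx =>
    by_cases hi : (finrank ℂ 𝔤 : ℤ) + 1 ≤ i
    · rw [hh.Eg_big hb hi, Submodule.mem_bot] at hx
      rw [hx, map_zero]
    · have h1 := ad_pow_Eg he hx (2 * finrank ℂ 𝔤 + 3)
      rw [hh.Eg_small hb (by push_cast; omega), Submodule.mem_bot] at h1
      exact h1
  | zero => exact map_zero _
  | add u v _ _ hu hv => rw [map_add, hu, hv, add_zero]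

end FD

/-- the truncated exponential -/
noncomputable def EE (K : ℕ) (e : 𝔤) (z : ℂ) : Module.End ℂ 𝔤 :=
  ∑ k ∈ Finset.range K, (z ^ k / (k.factorial : ℂ)) • (ad ℂ 𝔤 e) ^ k

theorem EE_apply (K : ℕ) (e : 𝔤) (z : ℂ) (x : 𝔤) :
    EE K e z x = ∑ k ∈ Finset.range K, (z ^ k / (k.factorial : ℂ)) • ((ad ℂ 𝔤 e) ^ k) x := by
  simp [EE, LinearMap.sum_apply]

theorem EE_add {K : ℕ} {e : 𝔤} (hK : (ad ℂ 𝔤 e) ^ K = 0) (z w : ℂ) :
    EE K e (z + w) = EE K e z * EE K e w := by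
  let _ : Module ℚ (Module.End ℂ 𝔤) := Module.compHom _ (algebraMap ℚ ℂ)
  have hsm : ∀ (q : ℚ) (a : Module.End ℂ 𝔤), q • a = (q : ℂ) • a := fun q a => rfl
  have key : ∀ z : ℂ, EE K e z = IsNilpotent.exp (z • ad ℂ 𝔤 e) := by
    intro z
    rw [IsNilpotent.exp_eq_sum (k := K) (by rw [smul_pow, hK, smul_zero])]
    unfold EE
    refine Finset.sum_congr rfl fun k _ => ?_
    rw [smul_pow, hsm, smul_smul]
    congr 1
    push_cast
    rw [div_eq_inv_mul]
  have hnil : ∀ z : ℂ, IsNilpotent (z • ad ℂ 𝔤 e) := fun z =>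
    ⟨K, by rw [smul_pow, hK, smul_zero]⟩
  rw [key, key, key, add_smul]
  refine IsNilpotent.exp_add_of_commute ?_ (hnil z) (hnil w)
  exact ((Commute.refl (ad ℂ 𝔤 e)).smul_left z).smul_right w

theorem EE_zero {K : ℕ} (hK : 0 < K) (e : 𝔤) : EE K e 0 = 1 := by
  unfold EE
  obtain ⟨k, rfl⟩ : ∃ k, K = k + 1 := ⟨K - 1, by omega⟩
  rw [Finset.sum_range_succ']
  simp

theorem kf_EE [FiniteDimensional ℂ 𝔤] [IsKilling ℂ 𝔤] (K : ℕ) (e : 𝔤) (z : ℂ) (x y : 𝔤) :
    killingForm ℂ 𝔤 (EE K e z x) y = killingForm ℂ 𝔤 x (EE K e (-z) y) := by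
  rw [EE_apply, EE_apply]
  simp only [map_sum, LinearMap.sum_apply, map_smul, LinearMap.smul_apply, smul_eq_mul]
  refine Finset.sum_congr rfl fun k _ => ?_
  rw [kf_ad_pow, neg_pow z k]
  ring

theorem expAd_eq [TopologicalSpace 𝔤] {K : ℕ} {e : 𝔤} (hK : (ad ℂ 𝔤 e) ^ K = 0)
    (z : ℂ) (x : 𝔤) : expAd z e x = EE K e z x := by
  rw [EE_apply]
  unfold expAd
  refine tsum_eq_sum fun k hk => ?_
  have hk' : K ≤ k := by simpa using hk
  rw [pow_eq_zero_of_le hk' hK, LinearMap.zero_apply, smul_zero]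

section Main

variable [FiniteDimensional ℂ 𝔤] [IsKilling ℂ 𝔤] [TopologicalSpace 𝔤] [IsTopologicalAddGroup 𝔤]
  [ContinuousSMul ℂ 𝔤] [T2Space 𝔤]

/-- the developing map as a function on `ℂ` -/
noncomputable def lft (D : ℍ → Flag 𝔤) : ℂ → Flag 𝔤 := fun w => D (UpperHalfPlane.ofComplex w)

omit [FiniteDimensional ℂ 𝔤] [IsKilling ℂ 𝔤] [TopologicalSpace 𝔤] [IsTopologicalAddGroup 𝔤]
  [ContinuousSMul ℂ 𝔤] [T2Space 𝔤] in
theorem lft_coe (D : ℍ → Flag 𝔤) (z : ℍ) : lft D z = D z := by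
  unfold lft
  rw [UpperHalfPlane.ofComplex_apply]

omit [FiniteDimensional ℂ 𝔤] [IsKilling ℂ 𝔤] [IsTopologicalAddGroup 𝔤] [T2Space 𝔤] in
theorem isOperAt_lft {D : ℍ → Flag 𝔤}
    (h : ∀ z : ℍ, IsOperAt (fun w : ℂ => D (UpperHalfPlane.ofComplex w)) z) :
    ∀ z ∈ UpperHalfPlane.upperHalfPlaneSet, IsOperAt (lft D) z := by
  intro z hz
  exact h ⟨z, hz⟩

theorem fuchs (hdim : ∀ b : Flag 𝔤, finrank ℂ b.alg.toSubmodule = d) {D : ℍ → Flag 𝔤}
    (hF : IsFuchsian D)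
    (hop : ∀ z : ℍ, IsOperAt (fun w : ℂ => D (UpperHalfPlane.ofComplex w)) z) :
    (∀ z w : ℍ, z ≠ w → Flag.Transverse (D z) (D w)) ∧
      ∀ z : ℍ, ExactAt d (lft D) z (Mdeg (D z)) := by
  obtain ⟨h, e, f, b, hsl, hhb, hfb, hopen, hD⟩ := hF
  have hΩ := UpperHalfPlane.isOpen_upperHalfPlaneSet
  have hop' := isOperAt_lft hop
  -- the grading element
  let H : 𝔤 := (-(1 / 2) : ℂ) • h
  have hHe : ⁅H, e⁆ = -e := by
    simp only [H, smul_lie, hsl.lie_h_e_nsmul]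
    rw [← Nat.cast_smul_eq_nsmul ℂ, smul_smul]
    norm_num
  have hgr : IsGrading b.alg H := by
    refine isGrading_of_oper b.isBorel hopen (b.alg.smul_mem _ hhb) ?_
    rw [hHe, neg_add_cancel]
    exact b.alg.zero_mem
  have heE : e ∈ Eg H (-1) := by
    rw [mem_Eg, hHe]
    push_cast
    rw [neg_one_smul]
  have hK := ad_pow_eq_zero b.isBorel hgr heE
  set K := 2 * finrank ℂ 𝔤 + 3 with hKdef
  have hKpos : 0 < K := by omega
  obtain ⟨v, κ, hv, hvs, hvE, hM⟩ := hgr.exists_basis (hdim b)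
  have hinv : ∀ z : ℂ, EE K e (-z) * EE K e z = 1 := by
    intro z
    rw [← EE_add hK, neg_add_cancel, EE_zero hKpos]
  -- bases of `D z`
  have hbase : ∀ z : ℍ, IsBase (D z) (fun i => EE K e z (v i)) := by
    intro z
    have hinj : Function.Injective (EE K e (z : ℂ)) := by
      intro x y hxy
      have := congrArg (EE K e (-(z : ℂ))) hxy
      rwa [← Module.End.mul_apply, ← Module.End.mul_apply, hinv, Module.End.one_apply,
        Module.End.one_apply] at this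
    refine isBase_of_li (hdim _) (hv.map' _ (LinearMap.ker_eq_bot.mpr hinj)) fun i => ?_
    rw [hD]
    refine ⟨v i, ?_, expAd_eq hK _ _⟩
    rw [← LieSubalgebra.mem_toSubmodule, ← hvs]
    exact Submodule.subset_span ⟨i, rfl⟩
  -- the pairing
  have hpair : ∀ (s : ℂ) (i j : Fin d), killingForm ℂ 𝔤 (v i) (EE K e s (v j)) =
      s ^ (κ i) * (s ^ (κ j) * (killingForm ℂ 𝔤 (v i) (((ad ℂ 𝔤 e) ^ (κ i + κ j)) (v j)) /
        ((κ i + κ j).factorial : ℂ))) := by
    intro s i j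
    rw [EE_apply]
    simp only [map_sum, map_smul, smul_eq_mul]
    rw [Finset.sum_eq_single (κ i + κ j)]
    · rw [pow_add]; ring
    · intro k _ hk
      rw [kf_Eg (hvE i) (ad_pow_Eg heE (hvE j) k) (by omega), mul_zero]
    · intro hk
      have hk' : K ≤ κ i + κ j := by simpa using hk
      rw [pow_eq_zero_of_le hk' hK, LinearMap.zero_apply, map_zero, mul_zero]
  obtain ⟨C, hC⟩ : ∃ C : ℂ, ∀ z w : ℍ, tdet (fun i => EE K e z (v i)) (fun i => EE K e w (v i)) =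
      ((w : ℂ) - z) ^ (Mdeg b) * C := by
    refine ⟨(Matrix.of fun i j => killingForm ℂ 𝔤 (v i) (((ad ℂ 𝔤 e) ^ (κ i + κ j)) (v j)) /
        ((κ i + κ j).factorial : ℂ)).det, fun z w => ?_⟩
    unfold tdet
    have e1 : (Matrix.of fun i j => killingForm ℂ 𝔤 (EE K e (z : ℂ) (v i)) (EE K e (w : ℂ) (v j)))
        = Matrix.of fun i j => ((w : ℂ) - z) ^ (κ i) * (Matrix.of fun i j => ((w : ℂ) - z) ^ (κ j) *
          (Matrix.of fun i j => killingForm ℂ 𝔤 (v i) (((ad ℂ 𝔤 e) ^ (κ i + κ j)) (v j)) /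
        ((κ i + κ j).factorial : ℂ)) i j) i j := by
      ext i j
      simp only [Matrix.of_apply]
      rw [kf_EE, ← Module.End.mul_apply, ← EE_add hK, neg_add_eq_sub, hpair]
    rw [e1, Matrix.det_mul_column, Matrix.det_mul_row, Finset.prod_pow_eq_pow_sum, ← mul_assoc,
      ← pow_add, ← hM, two_mul]
  -- the constant is nonzero
  have hC0 : C ≠ 0 := by
    obtain ⟨w, hw, hw2⟩ := exists_transverse_near hΩ hop' (w0 := (UpperHalfPlane.I : ℂ))
      UpperHalfPlane.I.im_pos (D UpperHalfPlane.I) univ_mem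
    have hwpos : 0 < w.im := hw.2
    have e1 : lft D w = D ⟨w, hwpos⟩ := by
      unfold lft
      rw [UpperHalfPlane.ofComplex_apply_of_im_pos hwpos]
    rw [e1] at hw2
    have h1 := tdet_ne_zero_of_transverse (hbase UpperHalfPlane.I).mem (hbase UpperHalfPlane.I).1
      (hbase ⟨w, hwpos⟩).2 hw2
    rw [hC] at h1
    exact right_ne_zero_of_mul h1
  constructor
  · intro z w hzw
    by_contra hnt
    have h1 := tdet_eq_zero_of_not_transverse (hbase z).2 (hbase w).2 hnt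
    rw [hC] at h1
    refine mul_ne_zero (pow_ne_zero _ ?_) hC0 h1
    rw [sub_ne_zero]
    intro h2
    exact hzw (UpperHalfPlane.ext h2.symm)
  · intro z
    obtain ⟨φ, hφ⟩ := exists_good (hbase z)
    have hφ' : Good φ (lft D z) := by rw [lft_coe]; exact hφ
    have hhol : IsHolomorphicAt (lft D) z := (hop z).1
    refine exactAt_of hdim hhol hφ' ?_
    have hMM : Mdeg (D z) = Mdeg b :=
      Mdeg_const hΩ ⟨_, UpperHalfPlane.I.im_pos⟩ hop' (by
        have := hasOV_of_isOperAt (hop' z z.im_pos)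
        rwa [lft_coe] at this) ⟨e, hopen⟩
    rw [(analyticAt_TT hdim hhol hφ' hφ').analyticOrderAt_eq_natCast]
    refine ⟨fun w => C / (dd φ (fun i => EE K e z (v i)) * dd φ (fun i => EE K e w (v i))),
      ?_, ?_, ?_⟩
    · refine analyticAt_const.div (analyticAt_const.mul ?_) ?_
      · rw [Complex.analyticAt_iff_eventually_differentiableAt]
        refine Eventually.of_forall fun w => differentiableAt_dd φ fun i ψ => ?_
        simp only [EE_apply, map_sum, map_smul, smul_eq_mul]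
        refine DifferentiableAt.fun_sum fun k _ => ?_
        refine DifferentiableAt.mul_const ?_ _
        fun_prop
      · exact mul_ne_zero (hφ.ne (hbase z)) (hφ.ne (hbase z))
    · exact div_ne_zero hC0 (mul_ne_zero (hφ.ne (hbase z)) (hφ.ne (hbase z)))
    · filter_upwards [hΩ.mem_nhds z.im_pos] with w hw
      have hwpos : 0 < w.im := hw
      have e1 : lft D w = D ⟨w, hwpos⟩ := by
        unfold lft
        rw [UpperHalfPlane.ofComplex_apply_of_im_pos hwpos]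
      rw [e1, lft_coe, TT_eq φ φ (hbase z) (hbase ⟨w, hwpos⟩), hC, smul_eq_mul, mul_div_assoc, hMM]

end Main

end Pool.Agent.Helper31.Oper
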