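import Pool.Agent.Helper31.Oper.Bridge

/-!
The grading element of a Borel subalgebra with an oper vector, and its eigenspaces.
-/

namespace Pool.Agent.Helper31.Oper

open LieAlgebra LieModule Module

variable {𝔤 : Type*} [LieRing 𝔤] [LieAlgebra ℂ 𝔤]

/-- `ℤ`-indexed filtration: `Fil` in nonnegative degrees, orthogonals in negative degrees. -/
noncomputable def GF (b : LieSubalgebra ℂ 𝔤) (n : ℤ) : Submodule ℂ 𝔤 :=
  if 0 ≤ n then Fil b n.toNat else perp (Fil b (1 - n).toNat)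

theorem GF_nat (b : LieSubalgebra ℂ 𝔤) (k : ℕ) : GF b k = Fil b k := by
  unfold GF
  rw [if_pos (Int.natCast_nonneg k), Int.toNat_natCast]

theorem GF_neg (b : LieSubalgebra ℂ 𝔤) (k : ℕ) : GF b (-((k : ℤ) + 1)) = perp (Fil b (k + 2)) := by
  unfold GF
  rw [if_neg (by omega)]
  congr 2
  omega

/-- The integer eigenspaces of `ad h`. -/
noncomputable def Eg (h : 𝔤) (j : ℤ) : Submodule ℂ 𝔤 :=
  Module.End.eigenspace (ad ℂ 𝔤 h) (j : ℂ)

theorem mem_Eg {h x : 𝔤} {j : ℤ} : x ∈ Eg h j ↔ ⁅h, x⁆ = (j : ℂ) • x := by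
  unfold Eg
  rw [Module.End.mem_eigenspace_iff, ad_apply]

theorem Eg_indep (h : 𝔤) : iSupIndep (Eg h) :=
  (Module.End.eigenspaces_iSupIndep (ad ℂ 𝔤 h)).comp (Int.cast_injective)

theorem Eg_disjoint (h : 𝔤) {s t : Set ℤ} (hst : Disjoint s t) :
    Disjoint (⨆ i ∈ s, Eg h i) (⨆ i ∈ t, Eg h i) :=
  (Eg_indep h).disjoint_biSup_biSup hst

theorem Eg_lie {h x y : 𝔤} {i j : ℤ} (hx : x ∈ Eg h i) (hy : y ∈ Eg h j) :
    ⁅x, y⁆ ∈ Eg h (i + j) := by
  rw [mem_Eg] at *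
  rw [leibniz_lie, hx, hy, smul_lie, lie_smul, Int.cast_add, add_smul]

/-- If `y` is a sum of eigenvectors with eigenvalues in `s`, and `m ∉ s`, then `ad h - m` can be
inverted on `y`. -/
theorem Eg_solve {h : 𝔤} {s : Set ℤ} {m : ℤ} (hm : m ∉ s) {y : 𝔤} (hy : y ∈ ⨆ i ∈ s, Eg h i) :
    ∃ y' ∈ ⨆ i ∈ s, Eg h i, ⁅h, y'⁆ - (m : ℂ) • y' = y := by
  rw [iSup_subtype'] at hy ⊢
  induction hy using Submodule.iSup_induction' with
  | mem i x hx =>
    have hne : ((i : ℤ) : ℂ) - m ≠ 0 := by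
      rw [sub_ne_zero]
      intro h1
      have : (i : ℤ) = m := by exact_mod_cast h1
      exact hm (this ▸ i.2)
    refine ⟨(((i : ℤ) : ℂ) - m)⁻¹ • x, ?_, ?_⟩
    · exact Submodule.smul_mem _ _ (Submodule.mem_iSup_of_mem i hx)
    · rw [lie_smul, mem_Eg.mp hx, smul_smul, smul_smul, ← sub_smul]
      rw [show (((i : ℤ) : ℂ) - m)⁻¹ * ((i : ℤ) : ℂ) - (m : ℂ) * (((i : ℤ) : ℂ) - m)⁻¹ = 1 by
        rw [mul_comm (m : ℂ), ← mul_sub]; exact inv_mul_cancel₀ hne]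
      rw [one_smul]
  | zero => exact ⟨0, zero_mem _, by simp⟩
  | add u v _ _ hu hv =>
    obtain ⟨u', hu', hu''⟩ := hu
    obtain ⟨v', hv', hv''⟩ := hv
    refine ⟨u' + v', add_mem hu' hv', ?_⟩
    rw [lie_add, smul_add, ← hu'', ← hv'']
    abel

/-- `h` is a grading element for `b`. -/
structure IsGrading (b : LieSubalgebra ℂ 𝔤) (h : 𝔤) : Prop where
  mem : h ∈ b
  act : ∀ k : ℕ, ∀ z ∈ Fil b k, ⁅h, z⁆ - (k : ℂ) • z ∈ Fil b (k + 1)

section

variable {b : LieSubalgebra ℂ 𝔤} {ξ : 𝔤} [FiniteDimensional ℂ 𝔤] [IsKilling ℂ 𝔤]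

theorem isGrading_of_oper (hb : IsBorel b) (hξ : IsOperVector b ξ) {h : 𝔤} (hhb : h ∈ b)
    (hhξ : ⁅h, ξ⁆ + ξ ∈ b) : IsGrading b h := by
  have s3 : ∀ η : 𝔤, (∀ y ∈ Fil b 1, ⁅η, y⁆ ∈ b) → ⁅h, η⁆ + η ∈ b := by
    intro η hη
    obtain ⟨y, hy, hy2⟩ := hξ.2 η hη
    have e : ⁅h, η⁆ + η = ⁅h, η - ⁅y, ξ⁆⁆ + (η - ⁅y, ξ⁆) + (-⁅ξ, ⁅h, y⁆⁆)
        + ⁅y, ⁅h, ξ⁆ + ξ⁆ := by
      rw [lie_sub, leibniz_lie h y ξ, ← lie_skew ⁅h, y⁆ ξ, lie_add]
      abel
    rw [e]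
    exact b.add_mem (b.add_mem (b.add_mem (b.lie_mem hhb hy2) hy2)
      (b.neg_mem (hξ.1 _ (lie_mem_brk hhb hy)))) (b.lie_mem hy hhξ)
  have s5 : ∀ z ∈ Fil b 1, ⁅h, z⁆ - z ∈ Fil b 2 := by
    intro z hz
    refine mem_Fil_two hb fun η hη => ?_
    have hz' : z ∈ perp b.toSubmodule := by rw [perp_eq_brk hb]; exact hz
    have h1 := mem_perp.mp hz' _ (s3 η hη)
    rw [map_sub, LinearMap.sub_apply, ← lie_skew, map_neg, LinearMap.neg_apply, kf_lie]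
    rw [map_add] at h1
    linear_combination -h1
  have s6 : ∀ j : ℕ, ∀ z ∈ Fil b (j + 1), ⁅h, z⁆ - ((j + 1 : ℕ) : ℂ) • z ∈ Fil b (j + 2) := by
    intro j
    induction j with
    | zero => intro z hz; simpa using s5 z hz
    | succ j ih =>
      intro z hz
      rw [Fil_succ_succ] at hz
      unfold brk at hz
      induction hz using Submodule.span_induction with
      | mem m hm =>
        obtain ⟨u, hu, v, hv, rfl⟩ := hm
        have e : ⁅h, ⁅u, v⁆⁆ - ((j + 1 + 1 : ℕ) : ℂ) • ⁅u, v⁆ =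
            ⁅⁅h, u⁆ - u, v⁆ + ⁅u, ⁅h, v⁆ - ((j + 1 : ℕ) : ℂ) • v⁆ := by
          rw [leibniz_lie h u v, sub_lie, lie_sub, lie_smul]
          push_cast
          module
        rw [e]
        exact add_mem (lie_Fil_two b _ _ (s5 u hu) v hv) (lie_Fil_one b _ u hu _ (ih v hv))
      | zero => simp
      | add u v _ _ hu hv =>
        have e : ⁅h, u + v⁆ - ((j + 1 + 1 : ℕ) : ℂ) • (u + v) =
          (⁅h, u⁆ - ((j + 1 + 1 : ℕ) : ℂ) • u) + (⁅h, v⁆ - ((j + 1 + 1 : ℕ) : ℂ) • v) := by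
          rw [lie_add, smul_add]; abel
        rw [e]; exact add_mem hu hv
      | smul c u _ hu =>
        have e : ⁅h, c • u⁆ - ((j + 1 + 1 : ℕ) : ℂ) • (c • u) =
          c • (⁅h, u⁆ - ((j + 1 + 1 : ℕ) : ℂ) • u) := by
          rw [lie_smul, smul_sub, smul_comm]
        rw [e]; exact Submodule.smul_mem _ _ hu
  refine ⟨hhb, fun k z hz => ?_⟩
  match k with
  | 0 =>
    rw [Nat.cast_zero, zero_smul, sub_zero]
    exact lie_mem_brk hhb hz
  | (k + 1) => exact s6 k z hz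

/-- The grading element acts on all of the `ℤ`-filtration. -/
theorem IsGrading.act_GF {h : 𝔤} (hb : IsBorel b) (hh : IsGrading b h) (n : ℤ) :
    ∀ z ∈ GF b n, ⁅h, z⁆ - (n : ℂ) • z ∈ GF b (n + 1) := by
  intro z hz
  rcases le_or_gt 0 n with hn | hn
  · obtain ⟨k, rfl⟩ := Int.eq_ofNat_of_zero_le hn
    rw [GF_nat] at hz
    have e : ((k : ℤ) + 1) = ((k + 1 : ℕ) : ℤ) := by push_cast; rfl
    rw [e, GF_nat]
    have := hh.act k z hz
    rwa [← Int.cast_natCast (R := ℂ)] at this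
  · -- negative degrees: by duality
    obtain ⟨k, hk⟩ : ∃ k : ℕ, n = -((k : ℤ) + 1) := ⟨(-n - 1).toNat, by omega⟩
    subst hk
    rw [GF_neg] at hz
    have e2 : GF b (-((k : ℤ) + 1) + 1) = perp (Fil b (k + 1)) := by
      rcases Nat.eq_zero_or_pos k with rfl | hkpos
      · have : (-(((0 : ℕ) : ℤ) + 1) + 1) = ((0 : ℕ) : ℤ) := by norm_num
        rw [this, GF_nat, perp_Fil_one hb, Fil_zero]
      · obtain ⟨m, rfl⟩ : ∃ m, k = m + 1 := ⟨k - 1, by omega⟩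
        have : (-(((m + 1 : ℕ) : ℤ) + 1) + 1) = -((m : ℤ) + 1) := by push_cast; ring
        rw [this, GF_neg]
    rw [e2, mem_perp]
    intro y hy
    have h1 := mem_perp.mp hz _ (hh.act (k + 1) y hy)
    rw [map_sub, map_smul, smul_eq_mul] at h1
    rw [map_sub, LinearMap.sub_apply, map_smul, LinearMap.smul_apply, smul_eq_mul,
      ← lie_skew, map_neg, LinearMap.neg_apply, kf_lie]
    push_cast at h1 ⊢
    linear_combination -h1

omit [IsKilling ℂ 𝔤] in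
theorem GF_top {b : LieSubalgebra ℂ 𝔤} (hb : IsBorel b) :
    GF b (-((finrank ℂ 𝔤 : ℤ) + 1)) = ⊤ := by
  rw [GF_neg]
  have : Fil b (finrank ℂ 𝔤 + 2) = ⊥ := by
    have h1 := Fil_succ_le b (finrank ℂ 𝔤 + 1)
    rw [Fil_bot hb.1] at h1
    exact le_bot_iff.mp h1
  rw [this]
  rw [eq_top_iff]
  intro x _
  refine mem_perp.mpr fun y hy => ?_
  rw [Submodule.mem_bot] at hy
  rw [hy, map_zero]

theorem IsGrading.GF_le {h : 𝔤} (hb : IsBorel b) (hh : IsGrading b h) (n : ℤ) :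
    GF b n ≤ ⨆ i ∈ Set.Ici n, Eg h i := by
  -- downward induction from degree `finrank + 1`
  have key : ∀ k : ℕ, ∀ n : ℤ, n = (finrank ℂ 𝔤 : ℤ) + 1 - k → GF b n ≤ ⨆ i ∈ Set.Ici n, Eg h i := by
    intro k
    induction k with
    | zero =>
      rintro n rfl
      have : ((finrank ℂ 𝔤 : ℤ) + 1 - (0 : ℕ)) = ((finrank ℂ 𝔤 + 1 : ℕ) : ℤ) := by push_cast; ring
      rw [this, GF_nat, Fil_bot hb.1]
      exact bot_le
    | succ k ih =>
      intro n hn x hx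
      have h1 := hh.act_GF hb n x hx
      have h2 := ih (n + 1) (by rw [hn]; push_cast; ring) h1
      obtain ⟨y', hy', hy''⟩ := Eg_solve (m := n) (s := Set.Ici (n + 1)) (by simp) h2
      have h3 : x - y' ∈ Eg h n := by
        rw [mem_Eg, lie_sub, smul_sub, sub_eq_sub_iff_sub_eq_sub]
        exact hy''.symm
      have h4 : x - y' ∈ ⨆ i ∈ Set.Ici n, Eg h i :=
        Submodule.mem_iSup_of_mem n (Submodule.mem_iSup_of_mem (Set.mem_Ici.mpr le_rfl) h3)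
      have hle : (⨆ i ∈ Set.Ici (n + 1), Eg h i) ≤ ⨆ i ∈ Set.Ici n, Eg h i :=
        biSup_mono fun i hi => by
          have := Set.mem_Ici.mp hi
          exact Set.mem_Ici.mpr (by omega)
      have h5 : y' ∈ ⨆ i ∈ Set.Ici n, Eg h i := hle hy'
      have := add_mem h4 h5
      rwa [sub_add_cancel] at this
  rcases le_or_gt n ((finrank ℂ 𝔤 : ℤ) + 1) with hn | hn
  · exact key ((finrank ℂ 𝔤 : ℤ) + 1 - n).toNat n (by omega)
  · obtain ⟨k, rfl⟩ := Int.eq_ofNat_of_zero_le (show 0 ≤ n by omega)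
    rw [GF_nat]
    have h1 : Fil b k ≤ Fil b (finrank ℂ 𝔤 + 1) := Fil_anti b (by omega)
    rw [Fil_bot hb.1] at h1
    exact h1.trans bot_le

theorem IsGrading.iSup_Eg {h : 𝔤} (hb : IsBorel b) (hh : IsGrading b h) :
    ⨆ i, Eg h i = ⊤ := by
  rw [eq_top_iff, ← GF_top hb]
  refine (hh.GF_le hb _).trans ?_
  exact iSup₂_le fun i _ => le_iSup (Eg h) i

theorem IsGrading.Eg_le {h : 𝔤} (hb : IsBorel b) (hh : IsGrading b h) (n : ℤ) :
    Eg h n ≤ GF b n := by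
  intro x hx
  have key : ∀ k : ℕ, -((finrank ℂ 𝔤 : ℤ) + 1) + k ≤ n → x ∈ GF b (-((finrank ℂ 𝔤 : ℤ) + 1) + k) := by
    intro k
    induction k with
    | zero =>
      intro _
      rw [Nat.cast_zero, add_zero, GF_top hb]
      trivial
    | succ k ih =>
      intro hk
      have h1 := ih (by push_cast at hk; omega)
      have h2 := hh.act_GF hb _ x h1
      rw [mem_Eg.mp hx, ← sub_smul] at h2
      have hne : ((n : ℤ) : ℂ) - ((-((finrank ℂ 𝔤 : ℤ) + 1) + k : ℤ) : ℂ) ≠ 0 := by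
        rw [sub_ne_zero]
        intro h3
        have : n = -((finrank ℂ 𝔤 : ℤ) + 1) + k := by exact_mod_cast h3
        push_cast at hk
        omega
      have h4 := (Submodule.smul_mem_iff _ hne).mp h2
      have e : -((finrank ℂ 𝔤 : ℤ) + 1) + ((k + 1 : ℕ) : ℤ) = -((finrank ℂ 𝔤 : ℤ) + 1) + k + 1 := by
        push_cast; ring
      rw [e]
      exact h4
  rcases le_or_gt (-((finrank ℂ 𝔤 : ℤ) + 1)) n with hn | hn
  · have := key (n + ((finrank ℂ 𝔤 : ℤ) + 1)).toNat (by omega)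
    have e : -((finrank ℂ 𝔤 : ℤ) + 1) + (((n + ((finrank ℂ 𝔤 : ℤ) + 1)).toNat : ℕ) : ℤ) = n := by
      omega
    rwa [e] at this
  · obtain ⟨m, rfl⟩ : ∃ m : ℕ, n = -((m : ℤ) + 1) := ⟨(-n - 1).toNat, by omega⟩
    rw [GF_neg]
    have h1 : Fil b (m + 2) = ⊥ := by
      have h2 : Fil b (m + 2) ≤ Fil b (finrank ℂ 𝔤 + 1) := Fil_anti b (by omega)
      rw [Fil_bot hb.1] at h2
      exact le_bot_iff.mp h2
    rw [h1]
    refine mem_perp.mpr fun y hy => ?_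
    rw [Submodule.mem_bot] at hy
    rw [hy, map_zero]

end

end Pool.Agent.Helper31.Oper
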