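import Pool.Agent.Helper31.Oper.Adapt

/-!
Griffiths transversality of the filtration along an oper, and the order of vanishing of the
Killing pairing.
-/

namespace Pool.Agent.Helper31.Oper

open LieAlgebra LieModule Module Filter Topology

variable {𝔤 : Type*} [LieRing 𝔤] [LieAlgebra ℂ 𝔤]

/-- Coordinatewise complex differentiability at a point. -/
def Hol (s : ℂ → 𝔤) (w : ℂ) : Prop :=
  ∀ φ : Module.Dual ℂ 𝔤, DifferentiableAt ℂ (fun x => φ (s x)) w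

theorem WD.hol {s : ℂ → 𝔤} {s' : 𝔤} {z : ℂ} (h : WD s s' z) : Hol s z :=
  fun φ => (h φ).differentiableAt

theorem Hol.wc {s : ℂ → 𝔤} {z : ℂ} (h : Hol s z) : WC s z := fun φ => (h φ).continuousAt

variable [FiniteDimensional ℂ 𝔤]

/-- The coordinatewise derivative. -/
noncomputable def dv (s : ℂ → 𝔤) (w : ℂ) : 𝔤 :=
  ∑ i, deriv (fun x => (Module.finBasis ℂ 𝔤).coord i (s x)) w • (Module.finBasis ℂ 𝔤) i

theorem dual_expand (φ : Module.Dual ℂ 𝔤) (y : 𝔤) :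
    φ y = ∑ i, (Module.finBasis ℂ 𝔤).coord i y * φ ((Module.finBasis ℂ 𝔤) i) := by
  conv_lhs => rw [← (Module.finBasis ℂ 𝔤).sum_repr y]
  simp only [map_sum, map_smul, smul_eq_mul, Basis.coord_apply]

theorem Hol.wd {s : ℂ → 𝔤} {w : ℂ} (h : Hol s w) : WD s (dv s w) w := by
  intro φ
  have h1 : HasDerivAt (fun x => ∑ i, (Module.finBasis ℂ 𝔤).coord i (s x) *
      φ ((Module.finBasis ℂ 𝔤) i))
      (∑ i, deriv (fun x => (Module.finBasis ℂ 𝔤).coord i (s x)) w *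
        φ ((Module.finBasis ℂ 𝔤) i)) w :=
    HasDerivAt.fun_sum fun i _ => (h _).hasDerivAt.mul_const _
  have h2 : (fun x => φ (s x)) = fun x => ∑ i, (Module.finBasis ℂ 𝔤).coord i (s x) *
      φ ((Module.finBasis ℂ 𝔤) i) := by
    funext x; exact dual_expand φ (s x)
  rw [h2]
  convert h1 using 1
  unfold dv
  simp only [map_sum, map_smul, smul_eq_mul]

theorem Hol.deriv_eq {s : ℂ → 𝔤} {w : ℂ} (h : Hol s w) (φ : Module.Dual ℂ 𝔤) :
    deriv (fun x => φ (s x)) w = φ (dv s w) := (h.wd φ).deriv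

theorem hol_dv {s : ℂ → 𝔤} {U : Set ℂ} (hU : IsOpen U) (h : ∀ w ∈ U, Hol s w) :
    ∀ w ∈ U, Hol (dv s) w := by
  intro w hw φ
  have h1 : ∀ i, DifferentiableAt ℂ
      (fun x => deriv (fun y => (Module.finBasis ℂ 𝔤).coord i (s y)) x) w := by
    intro i
    have h2 : DifferentiableOn ℂ (fun y => (Module.finBasis ℂ 𝔤).coord i (s y)) U :=
      fun x hx => (h x hx _).differentiableWithinAt
    exact (h2.deriv hU).differentiableAt (hU.mem_nhds hw)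
  unfold dv
  simp only [map_sum, map_smul, smul_eq_mul]
  exact DifferentiableAt.fun_sum fun i _ => (h1 i).mul_const _

omit [FiniteDimensional ℂ 𝔤] in
theorem Hol.const (c : 𝔤) (z : ℂ) : Hol (fun _ => c) z := (WD.const c z).hol

theorem Hol.add {s t : ℂ → 𝔤} {z : ℂ} (hs : Hol s z) (ht : Hol t z) :
    Hol (fun w => s w + t w) z := (hs.wd.add ht.wd).hol

theorem Hol.smul {s : ℂ → 𝔤} {z : ℂ} (c : ℂ) (hs : Hol s z) :
    Hol (fun w => c • s w) z := (hs.wd.smul c).hol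

theorem Hol.lie {s t : ℂ → 𝔤} {z : ℂ} (hs : Hol s z) (ht : Hol t z) :
    Hol (fun w => ⁅s w, t w⁆) z := (hs.wd.lie ht.wd).hol

theorem kf_expand (u v : 𝔤) : killingForm ℂ 𝔤 u v = ∑ i, ∑ j,
    (Module.finBasis ℂ 𝔤).coord i u * (Module.finBasis ℂ 𝔤).coord j v *
      killingForm ℂ 𝔤 ((Module.finBasis ℂ 𝔤) i) ((Module.finBasis ℂ 𝔤) j) := by
  conv_lhs => rw [← (Module.finBasis ℂ 𝔤).sum_repr u, ← (Module.finBasis ℂ 𝔤).sum_repr v]
  simp only [map_sum, LinearMap.sum_apply, map_smul, LinearMap.smul_apply, smul_eq_mul,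
    Basis.coord_apply, Finset.mul_sum]
  rw [Finset.sum_comm]
  refine Finset.sum_congr rfl fun i _ => Finset.sum_congr rfl fun j _ => ?_
  ring

theorem WD.kf {s t : ℂ → 𝔤} {s' t' : 𝔤} {z : ℂ} (hs : WD s s' z) (ht : WD t t' z) :
    HasDerivAt (fun w => killingForm ℂ 𝔤 (s w) (t w))
      (killingForm ℂ 𝔤 s' (t z) + killingForm ℂ 𝔤 (s z) t') z := by
  have h1 : HasDerivAt (fun w => ∑ i, ∑ j,
      (Module.finBasis ℂ 𝔤).coord i (s w) * (Module.finBasis ℂ 𝔤).coord j (t w) *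
      killingForm ℂ 𝔤 ((Module.finBasis ℂ 𝔤) i) ((Module.finBasis ℂ 𝔤) j))
      (∑ i, ∑ j, ((Module.finBasis ℂ 𝔤).coord i s' * (Module.finBasis ℂ 𝔤).coord j (t z) +
        (Module.finBasis ℂ 𝔤).coord i (s z) * (Module.finBasis ℂ 𝔤).coord j t') *
      killingForm ℂ 𝔤 ((Module.finBasis ℂ 𝔤) i) ((Module.finBasis ℂ 𝔤) j)) z := by
    apply HasDerivAt.fun_sum
    intro i _
    apply HasDerivAt.fun_sum
    intro j _
    exact ((hs _).mul (ht _)).mul_const _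
  have h2 : (fun w => killingForm ℂ 𝔤 (s w) (t w)) = fun w => ∑ i, ∑ j,
      (Module.finBasis ℂ 𝔤).coord i (s w) * (Module.finBasis ℂ 𝔤).coord j (t w) *
      killingForm ℂ 𝔤 ((Module.finBasis ℂ 𝔤) i) ((Module.finBasis ℂ 𝔤) j) := by
    funext w; exact kf_expand _ _
  rw [h2]
  convert h1 using 1
  rw [kf_expand s', kf_expand (s z), ← Finset.sum_add_distrib]
  refine Finset.sum_congr rfl fun i _ => ?_
  rw [← Finset.sum_add_distrib]
  refine Finset.sum_congr rfl fun j _ => ?_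
  ring

section Curve

variable [IsKilling ℂ 𝔤] [TopologicalSpace 𝔤] [IsTopologicalAddGroup 𝔤] [ContinuousSMul ℂ 𝔤]
  [T2Space 𝔤]

theorem finrank_Fil_const {Ω : Set ℂ} (hΩ : IsOpen Ω) {D : ℂ → Flag 𝔤}
    (hD : ∀ z ∈ Ω, IsOperAt D z) (k : ℕ) {w1 w2 : ℂ} (h1 : w1 ∈ Ω) (h2 : w2 ∈ Ω) :
    finrank ℂ (Fil (D w1).alg k) = finrank ℂ (Fil (D w2).alg k) := by
  match k with
  | 0 => exact finrank_const hΩ ⟨w1, h1⟩ hD (D w1) (D w2)
  | (k + 1) =>
    obtain ⟨w, hw, ht1, ht2⟩ := exists_common_transverse hΩ ⟨w1, h1⟩ hD (D w1) (D w2)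
    rw [← finrank_Fil_eq ht1 (hasOV_of_isOperAt (hD w1 h1)) (hasOV_of_isOperAt (hD w hw)) k,
      ← finrank_Fil_eq ht2 (hasOV_of_isOperAt (hD w2 h2)) (hasOV_of_isOperAt (hD w hw)) k]

omit [IsKilling ℂ 𝔤] [TopologicalSpace 𝔤] [IsTopologicalAddGroup 𝔤] [ContinuousSMul ℂ 𝔤]
  [T2Space 𝔤] [FiniteDimensional ℂ 𝔤] in
theorem lie_xi_zero {b : LieSubalgebra ℂ 𝔤} {ξ : 𝔤} (hξ : IsOperVector b ξ) {y : 𝔤} (hy : y ∈ b) :
    ∀ z ∈ Fil b 1, ⁅⁅ξ, y⁆, z⁆ ∈ b := by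
  intro z hz
  rw [lie_lie]
  exact b.sub_mem (hξ.1 _ (lie_Fil b 1 y hy z hz)) (b.lie_mem hy (hξ.1 z hz))

/-- Griffiths transversality. -/
theorem griffiths {Ω : Set ℂ} (hΩ : IsOpen Ω) {D : ℂ → Flag 𝔤}
    (hD : ∀ z ∈ Ω, IsOperAt D z) {U : Set ℂ} (hU : IsOpen U) (hUΩ : U ⊆ Ω) (n : ℤ) {s : ℂ → 𝔤}
    (hs : ∀ w ∈ U, Hol s w ∧ s w ∈ GF (D w).alg n) : ∀ w ∈ U, dv s w ∈ GF (D w).alg (n - 1) := by
  intro w0 hw0
  obtain ⟨ξ, hcur, hξ⟩ := exists_curveAt (hD w0 (hUΩ hw0))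
  have hev : ∀ᶠ w in 𝓝 w0, w ∈ U := hU.mem_nhds hw0
  rcases le_or_gt 0 n with hn | hn
  · obtain ⟨k, rfl⟩ := Int.eq_ofNat_of_zero_le hn
    simp only [GF_nat] at hs
    obtain ⟨g, g', h1, h2, h3, h4⟩ := secAt hcur k (s w0) (hs w0 hw0).2
    have hlsc : LSC (fun w => Fil (D w).alg k) w0 := by
      intro y hy
      obtain ⟨g, g', h1, h2, h3, _⟩ := secAt hcur k y hy
      exact ⟨g, h1, h2, h3.wc⟩
    have hmax : ∀ᶠ w in 𝓝 w0, finrank ℂ (Fil (D w).alg k) ≤ finrank ℂ (Fil (D w0).alg k) := by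
      filter_upwards [hev] with w hw
      exact (finrank_Fil_const hΩ hD k (hUΩ hw) (hUΩ hw0)).le
    have hT := hlsc.deriv_mem hmax (T := fun w => s w + (-1 : ℂ) • g w)
      (T' := dv s w0 + (-1 : ℂ) • g')
      (by
        filter_upwards [h1, hev] with w hw1 hw2
        exact add_mem (hs w hw2).2 (Submodule.smul_mem _ _ hw1))
      (by simp [h2]) ((hs w0 hw0).1.wd.add (h3.smul _))
    have h5 : dv s w0 - ⁅ξ, s w0⁆ ∈ Fil (D w0).alg k := by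
      have := add_mem hT h4
      have e : dv s w0 + (-1 : ℂ) • g' + (g' - ⁅ξ, s w0⁆) = dv s w0 - ⁅ξ, s w0⁆ := by
        rw [neg_one_smul]; abel
      rwa [e] at this
    match k with
    | 0 =>
      have e : (((0 : ℕ) : ℤ) - 1) = -(((0 : ℕ) : ℤ) + 1) := by norm_num
      rw [e, GF_neg, mem_perp_Fil_two (D w0).isBorel]
      intro z hz
      have e2 : dv s w0 = (dv s w0 - ⁅ξ, s w0⁆) + ⁅ξ, s w0⁆ := by abel
      rw [e2, add_lie]
      exact (D w0).alg.add_mem ((D w0).alg.lie_mem h5 (Fil_one_le _ hz))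
        (lie_xi_zero hξ (hs w0 hw0).2 z hz)
    | (k + 1) =>
      have e : (((k + 1 : ℕ) : ℤ) - 1) = (k : ℤ) := by push_cast; ring
      rw [e, GF_nat]
      have h6 : ⁅ξ, s w0⁆ ∈ Fil (D w0).alg k :=
        lie_xi_Fil (fun y hy => hξ.1 y hy) k _ (hs w0 hw0).2
      have := add_mem (Fil_succ_le _ k h5) h6
      rwa [sub_add_cancel] at this
  · obtain ⟨m, rfl⟩ : ∃ m : ℕ, n = -((m : ℤ) + 1) := ⟨(-n - 1).toNat, by omega⟩
    simp only [GF_neg] at hs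
    have e : (-((m : ℤ) + 1) - 1) = -(((m + 1 : ℕ) : ℤ) + 1) := by push_cast; ring
    rw [e, GF_neg, mem_perp]
    intro x hx
    obtain ⟨g, g', h1, h2, h3, h4⟩ := secAt hcur (m + 1 + 2) x hx
    have hg' : g' ∈ Fil (D w0).alg (m + 2) := by
      have h5 : ⁅ξ, x⁆ ∈ Fil (D w0).alg (m + 2) :=
        lie_xi_Fil (fun y hy => hξ.1 y hy) (m + 2) _ hx
      have := add_mem (Fil_succ_le _ (m + 2) h4) h5
      rwa [sub_add_cancel] at this
    have hder := (hs w0 hw0).1.wd.kf h3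
    have hzero : (fun w => killingForm ℂ 𝔤 (s w) (g w)) =ᶠ[𝓝 w0] fun _ => 0 := by
      filter_upwards [h1, hev] with w hw1 hw2
      exact mem_perp.mp (hs w hw2).2 _ (Fil_succ_le _ (m + 2) hw1)
    have h6 := (hzero.hasDerivAt_iff.mp hder).unique (hasDerivAt_const w0 (0 : ℂ))
    rw [h2, mem_perp.mp (hs w0 hw0).2 _ hg', add_zero] at h6
    exact h6

omit [IsKilling ℂ 𝔤] in
theorem holSec {D : ℂ → Flag 𝔤} {z : ℂ} (hD : IsHolomorphicAt D z) (k : ℕ) :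
    ∀ y ∈ Fil (D z).alg k, ∃ s : ℂ → 𝔤,
      (∀ᶠ w in 𝓝 z, Hol s w ∧ s w ∈ Fil (D w).alg k) ∧ s z = y := by
  have hadd : ∀ (k : ℕ) (u v : 𝔤),
      (∃ s : ℂ → 𝔤, (∀ᶠ w in 𝓝 z, Hol s w ∧ s w ∈ Fil (D w).alg k) ∧ s z = u) →
      (∃ s : ℂ → 𝔤, (∀ᶠ w in 𝓝 z, Hol s w ∧ s w ∈ Fil (D w).alg k) ∧ s z = v) →
      (∃ s : ℂ → 𝔤, (∀ᶠ w in 𝓝 z, Hol s w ∧ s w ∈ Fil (D w).alg k) ∧ s z = u + v) := by
    rintro k u v ⟨s, h1, h2⟩ ⟨t, k1, k2⟩
    refine ⟨fun w => s w + t w, ?_, by simp [h2, k2]⟩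
    filter_upwards [h1, k1] with w hw1 hw2 using ⟨hw1.1.add hw2.1, add_mem hw1.2 hw2.2⟩
  have hsmul : ∀ (k : ℕ) (c : ℂ) (u : 𝔤),
      (∃ s : ℂ → 𝔤, (∀ᶠ w in 𝓝 z, Hol s w ∧ s w ∈ Fil (D w).alg k) ∧ s z = u) →
      (∃ s : ℂ → 𝔤, (∀ᶠ w in 𝓝 z, Hol s w ∧ s w ∈ Fil (D w).alg k) ∧ s z = c • u) := by
    rintro k c u ⟨s, h1, h2⟩
    refine ⟨fun w => c • s w, ?_, by simp [h2]⟩
    filter_upwards [h1] with w hw1 using ⟨hw1.1.smul c, Submodule.smul_mem _ _ hw1.2⟩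
  have hzero : ∀ (k : ℕ),
      (∃ s : ℂ → 𝔤, (∀ᶠ w in 𝓝 z, Hol s w ∧ s w ∈ Fil (D w).alg k) ∧ s z = 0) := fun k =>
    ⟨fun _ => 0, Eventually.of_forall fun w => ⟨Hol.const 0 w, zero_mem _⟩, rfl⟩
  have hlie : ∀ (i j k : ℕ) (u v : 𝔤),
      (∀ w, ∀ u ∈ Fil (D w).alg i, ∀ v ∈ Fil (D w).alg j, ⁅u, v⁆ ∈ Fil (D w).alg k) →
      (∃ s : ℂ → 𝔤, (∀ᶠ w in 𝓝 z, Hol s w ∧ s w ∈ Fil (D w).alg i) ∧ s z = u) →
      (∃ s : ℂ → 𝔤, (∀ᶠ w in 𝓝 z, Hol s w ∧ s w ∈ Fil (D w).alg j) ∧ s z = v) →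
      (∃ s : ℂ → 𝔤, (∀ᶠ w in 𝓝 z, Hol s w ∧ s w ∈ Fil (D w).alg k) ∧ s z = ⁅u, v⁆) := by
    rintro i j k u v hijk ⟨s, h1, h2⟩ ⟨t, k1, k2⟩
    refine ⟨fun w => ⁅s w, t w⁆, ?_, by simp [h2, k2]⟩
    filter_upwards [h1, k1] with w hw1 hw2 using ⟨hw1.1.lie hw2.1, hijk w _ hw1.2 _ hw2.2⟩
  induction k using Nat.strong_induction_on with
  | _ k ih =>
    match k with
    | 0 =>
      intro y hy
      obtain ⟨d, e, he⟩ := hD
      obtain ⟨hd, _, hsp⟩ := he.self_of_nhds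
      obtain ⟨c, hc⟩ := span_repr hsp hy
      refine ⟨fun w => ∑ i, c i • e i w, ?_, hc⟩
      filter_upwards [he] with w hw
      obtain ⟨hdw, _, hspw⟩ := hw
      refine ⟨?_, ?_⟩
      · intro φ
        simp only [map_sum, map_smul, smul_eq_mul]
        exact DifferentiableAt.fun_sum fun i _ => (weak_differentiableAt (hdw i) φ).const_mul _
      · rw [Fil_zero, ← hspw]
        exact Submodule.sum_mem _ fun i _ => Submodule.smul_mem _ _
          (Submodule.subset_span ⟨i, rfl⟩)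
    | 1 =>
      intro y hy
      rw [Fil_one] at hy
      unfold brk at hy
      induction hy using Submodule.span_induction with
      | mem m hm =>
        obtain ⟨u, hu, v, hv, rfl⟩ := hm
        exact hlie 0 0 1 u v (fun w u hu v hv => lie_mem_brk hu hv) (ih 0 (by omega) u hu)
          (ih 0 (by omega) v hv)
      | zero => exact hzero _
      | add u v _ _ hu hv => exact hadd _ _ _ hu hv
      | smul c u _ hu => exact hsmul _ _ _ hu
    | (k + 2) =>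
      intro y hy
      rw [Fil_succ_succ] at hy
      unfold brk at hy
      induction hy using Submodule.span_induction with
      | mem m hm =>
        obtain ⟨u, hu, v, hv, rfl⟩ := hm
        exact hlie 1 (k + 1) (k + 2) u v (fun w u hu v hv => lie_mem_brk hu hv)
          (ih 1 (by omega) u hu) (ih (k + 1) (by omega) v hv)
      | zero => exact hzero _
      | add u v _ _ hu hv => exact hadd _ _ _ hu hv
      | smul c u _ hu => exact hsmul _ _ _ hu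

omit [TopologicalSpace 𝔤] [IsTopologicalAddGroup 𝔤] [ContinuousSMul ℂ 𝔤] [T2Space 𝔤] in
theorem kf_GF {b : LieSubalgebra ℂ 𝔤} (hb : IsBorel b) {i : ℕ} {n : ℤ} (hin : 1 ≤ (i : ℤ) + n)
    {x y : 𝔤} (hx : x ∈ Fil b i) (hy : y ∈ GF b n) : killingForm ℂ 𝔤 x y = 0 := by
  rcases le_or_gt 0 n with hn | hn
  · obtain ⟨k, rfl⟩ := Int.eq_ofNat_of_zero_le hn
    rw [GF_nat] at hy
    rcases Nat.eq_zero_or_pos i with rfl | hi
    · have h1 : y ∈ perp b.toSubmodule := by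
        rw [perp_eq_brk hb]
        exact Fil_anti b (show 1 ≤ k by omega) hy
      rw [kf_comm]
      exact mem_perp.mp h1 _ hx
    · have h1 : x ∈ perp b.toSubmodule := by
        rw [perp_eq_brk hb]
        exact Fil_anti b (show 1 ≤ i by omega) hx
      exact mem_perp.mp h1 _ (Fil_anti b (Nat.zero_le k) hy)
  · obtain ⟨m, rfl⟩ : ∃ m : ℕ, n = -((m : ℤ) + 1) := ⟨(-n - 1).toNat, by omega⟩
    rw [GF_neg] at hy
    rw [kf_comm]
    exact mem_perp.mp hy _ (Fil_anti b (show m + 2 ≤ i by omega) hx)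

/-- The order of vanishing of the pairing of a vector of degree `i` with a section of degree
`j`. -/
theorem order_ge {Ω : Set ℂ} (hΩ : IsOpen Ω) {D : ℂ → Flag 𝔤}
    (hD : ∀ z ∈ Ω, IsOperAt D z) {z0 : ℂ} (hz0 : z0 ∈ Ω) {i j : ℕ} {v : 𝔤}
    (hv : v ∈ Fil (D z0).alg i) {s : ℂ → 𝔤}
    (hs : ∀ᶠ w in 𝓝 z0, Hol s w ∧ s w ∈ Fil (D w).alg j) :
    AnalyticAt ℂ (fun w => killingForm ℂ 𝔤 v (s w)) z0 ∧
    ∃ g : ℂ → ℂ, AnalyticAt ℂ g z0 ∧
      ∀ᶠ w in 𝓝 z0, killingForm ℂ 𝔤 v (s w) = (w - z0) ^ (i + j) * g w := by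
  obtain ⟨U, hUs, hU, hzU⟩ := mem_nhds_iff.mp (inter_mem hs (hΩ.mem_nhds hz0))
  have hUΩ : U ⊆ Ω := fun w hw => (hUs hw).2
  have key : ∀ a : ℕ, ∀ w ∈ U, Hol (dv^[a] s) w ∧ (dv^[a] s) w ∈ GF (D w).alg ((j : ℤ) - a) := by
    intro a
    induction a with
    | zero =>
      intro w hw
      have := (hUs hw).1
      simp only [Function.iterate_zero, id_eq, Nat.cast_zero, sub_zero, GF_nat]
      exact this
    | succ a ih =>
      intro w hw
      rw [Function.iterate_succ_apply']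
      refine ⟨hol_dv hU (fun w hw => (ih w hw).1) w hw, ?_⟩
      have e : ((j : ℤ) - ((a + 1 : ℕ) : ℤ)) = (j : ℤ) - a - 1 := by push_cast; ring
      rw [e]
      exact griffiths hΩ hD hU hUΩ _ ih w hw
  have hiter : ∀ a : ℕ, ∀ w ∈ U, iteratedDeriv a (fun w => killingForm ℂ 𝔤 v (s w)) w =
      killingForm ℂ 𝔤 v ((dv^[a] s) w) := by
    intro a
    induction a with
    | zero => intro w _; rw [iteratedDeriv_zero]; rfl
    | succ a ih =>
      intro w hw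
      rw [iteratedDeriv_succ, Function.iterate_succ_apply']
      have h1 : iteratedDeriv a (fun w => killingForm ℂ 𝔤 v (s w)) =ᶠ[𝓝 w]
          fun w => killingForm ℂ 𝔤 v ((dv^[a] s) w) := by
        filter_upwards [hU.mem_nhds hw] with x hx using ih x hx
      rw [h1.deriv_eq]
      exact (key a w hw).1.deriv_eq (killingForm ℂ 𝔤 v)
  have han : AnalyticAt ℂ (fun w => killingForm ℂ 𝔤 v (s w)) z0 := by
    rw [Complex.analyticAt_iff_eventually_differentiableAt]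
    filter_upwards [hU.mem_nhds hzU] with w hw
    exact (hUs hw).1.1 (killingForm ℂ 𝔤 v)
  refine ⟨han, ?_⟩
  have h1 : ((i + j : ℕ) : ℕ∞) ≤ analyticOrderAt (fun w => killingForm ℂ 𝔤 v (s w)) z0 := by
    rw [natCast_le_analyticOrderAt_iff_iteratedDeriv_eq_zero han]
    intro a ha
    rw [hiter a z0 hzU]
    exact kf_GF (D z0).isBorel (by omega) hv (key a z0 hzU).2
  obtain ⟨g, hg, hg2⟩ := (natCast_le_analyticOrderAt han).mp h1
  exact ⟨g, hg, by simpa using hg2⟩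

end Curve

theorem analyticAt_det {d : ℕ} {g : Fin d → Fin d → ℂ → ℂ} {z : ℂ}
    (hg : ∀ i j, AnalyticAt ℂ (g i j) z) :
    AnalyticAt ℂ (fun w => (Matrix.of fun i j => g i j w).det) z := by
  simp only [Matrix.det_apply, Matrix.of_apply]
  refine Finset.analyticAt_fun_sum _ fun σ _ => ?_
  refine AnalyticAt.const_smul ?_
  exact Finset.analyticAt_fun_prod _ fun i _ => hg _ _

theorem det_factor {d : ℕ} {f : Fin d → Fin d → ℂ → ℂ} {z0 : ℂ} {κ : Fin d → ℕ}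
    (h : ∀ i j, ∃ g : ℂ → ℂ, AnalyticAt ℂ g z0 ∧
      ∀ᶠ w in 𝓝 z0, f i j w = (w - z0) ^ (κ i + κ j) * g w) :
    ∃ g : ℂ → ℂ, AnalyticAt ℂ g z0 ∧ ∀ᶠ w in 𝓝 z0,
      (Matrix.of fun i j => f i j w).det = (w - z0) ^ (2 * ∑ i, κ i) * g w := by
  choose g hg hg2 using h
  refine ⟨fun w => (Matrix.of fun i j => g i j w).det, analyticAt_det hg, ?_⟩
  have h1 : ∀ᶠ w in 𝓝 z0, ∀ i j, f i j w = (w - z0) ^ (κ i + κ j) * g i j w := by
    rw [eventually_all]; intro i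
    rw [eventually_all]; intro j
    exact hg2 i j
  filter_upwards [h1] with w hw
  have e : (Matrix.of fun i j => f i j w) = Matrix.of fun i j =>
      (w - z0) ^ (κ i) * (Matrix.of fun i j => (w - z0) ^ (κ j) * (Matrix.of
        fun i j => g i j w) i j) i j := by
    ext i j
    simp only [Matrix.of_apply]
    rw [hw i j, pow_add]
    ring
  rw [e, Matrix.det_mul_column, Matrix.det_mul_row, Finset.prod_pow_eq_pow_sum, ← mul_assoc,
    ← pow_add, two_mul]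

end Pool.Agent.Helper31.Oper
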