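import Pool.Agent.Helper31.Oper.Defs2

/-!
Hyperbolic geometry in the upper half plane, seen from the point `I`.
-/

namespace Pool.Agent.Helper31.Oper

open Filter Topology Real
open scoped UpperHalfPlane MatrixGroups

theorem norm_add_I_pos (p : ℍ) : 0 < ‖(p : ℂ) + Complex.I‖ := by
  rw [norm_pos_iff]
  intro h
  have := congrArg Complex.im h
  simp only [Complex.add_im, Complex.I_im, Complex.zero_im, UpperHalfPlane.coe_im] at this
  have := p.im_pos
  linarith

theorem add_I_ne (p : ℍ) : (p : ℂ) + Complex.I ≠ 0 := norm_pos_iff.mp (norm_add_I_pos p)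

theorem cosh_I (p : ℍ) : cosh (dist p UpperHalfPlane.I / 2) =
    ‖(p : ℂ) + Complex.I‖ / (2 * √p.im) := by
  rw [UpperHalfPlane.cosh_half_dist]
  congr 1
  · rw [Complex.dist_eq]
    simp
  · simp

theorem norm_toDisc_sub (p q : ℍ) : ‖toDisc p - toDisc q‖ *
    (cosh (dist p UpperHalfPlane.I / 2) * cosh (dist q UpperHalfPlane.I / 2)) =
      sinh (dist p q / 2) := by
  rw [cosh_I, cosh_I, UpperHalfPlane.sinh_half_dist]
  have e : toDisc p - toDisc q = 2 * Complex.I * ((p : ℂ) - q) /
      (((p : ℂ) + Complex.I) * ((q : ℂ) + Complex.I)) := by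
    unfold toDisc
    field_simp [add_I_ne p, add_I_ne q]
    ring
  rw [e, norm_div, norm_mul, norm_mul, norm_mul, Complex.norm_I, Complex.dist_eq,
    Real.sqrt_mul p.im_pos.le]
  have h1 := (norm_add_I_pos p).ne'
  have h2 := (norm_add_I_pos q).ne'
  have h3 : √p.im ≠ 0 := (Real.sqrt_pos.mpr p.im_pos).ne'
  have h4 : √q.im ≠ 0 := (Real.sqrt_pos.mpr q.im_pos).ne'
  simp only [Complex.norm_ofNat]
  field_simp

theorem toDisc_I : toDisc UpperHalfPlane.I = 0 := by
  unfold toDisc
  simp

theorem norm_toDisc (p : ℍ) : ‖toDisc p‖ = tanh (dist p UpperHalfPlane.I / 2) := by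
  have h := norm_toDisc_sub p UpperHalfPlane.I
  rw [toDisc_I, sub_zero, dist_self, zero_div, cosh_zero, mul_one] at h
  rw [tanh_eq_sinh_div_cosh, ← h, mul_div_cancel_right₀]
  exact (cosh_pos _).ne'

theorem norm_toDisc_lt (p : ℍ) : ‖toDisc p‖ < 1 := by
  rw [norm_toDisc, tanh_eq_sinh_div_cosh, div_lt_one (cosh_pos _)]
  exact sinh_lt_cosh _

theorem one_sub_tanh_le {x : ℝ} : 1 - tanh x ≤ 2 * exp (-(2 * x)) := by
  rw [tanh_eq]
  have h1 : 0 < exp x + exp (-x) := by positivity
  rw [sub_le_iff_le_add', ← sub_le_iff_le_add, le_div_iff₀ h1]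
  have e1 : exp (-(2 * x)) * exp x = exp (-x) := by rw [← exp_add]; congr 1; ring
  have e2 : 0 < exp (-(2 * x)) * exp (-x) := by positivity
  nlinarith [exp_pos x, exp_pos (-x)]

/-- The direction of a point, seen from `I`. -/
noncomputable def dir (p : ℍ) : Circle := Circle.exp (Complex.arg (toDisc p))

theorem toDisc_eq_dir (p : ℍ) : toDisc p = ‖toDisc p‖ * (dir p : ℂ) := by
  conv_lhs => rw [← Complex.norm_mul_exp_arg_mul_I (toDisc p)]
  rw [dir, Circle.coe_exp]

theorem norm_dir_sub (p : ℍ) : ‖(dir p : ℂ) - toDisc p‖ ≤ 2 * exp (-dist p UpperHalfPlane.I) := by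
  have h1 : (dir p : ℂ) - toDisc p = ((1 - ‖toDisc p‖ : ℝ) : ℂ) * (dir p : ℂ) := by
    conv_lhs => rw [toDisc_eq_dir p]
    push_cast
    ring
  rw [h1, norm_mul, Circle.norm_coe, mul_one, Complex.norm_real, Real.norm_eq_abs,
    abs_of_nonneg (sub_nonneg.mpr (norm_toDisc_lt p).le), norm_toDisc]
  refine one_sub_tanh_le.trans (le_of_eq ?_)
  congr 2
  ring

/-- Points whose connecting segment passes near `I` have well separated directions. -/
theorem dir_far {p q : ℍ} {C ℓ : ℝ} (hp : ℓ ≤ dist p UpperHalfPlane.I)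
    (hq : ℓ ≤ dist q UpperHalfPlane.I)
    (h : dist p UpperHalfPlane.I + dist q UpperHalfPlane.I - C ≤ dist p q)
    (h2 : 2 ≤ dist p UpperHalfPlane.I + dist q UpperHalfPlane.I - C) :
    exp (-C / 2) / 4 - 4 * exp (-ℓ) ≤ dist (dir p) (dir q) := by
  set a := dist p UpperHalfPlane.I with ha
  set b := dist q UpperHalfPlane.I with hb
  have h3 : exp (-C / 2) / 4 ≤ ‖toDisc p - toDisc q‖ := by
    have h4 := norm_toDisc_sub p q
    rw [← ha, ← hb] at h4
    have h5 : cosh (a / 2) * cosh (b / 2) ≤ exp ((a + b) / 2) := by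
      have e1 : ∀ x : ℝ, 0 ≤ x → cosh x ≤ exp x := by
        intro x hx
        rw [cosh_eq]
        have : exp (-x) ≤ exp x := exp_le_exp.mpr (by linarith)
        linarith
      have e2 : exp ((a + b) / 2) = exp (a / 2) * exp (b / 2) := by
        rw [← exp_add]; congr 1; ring
      rw [e2]
      exact mul_le_mul (e1 _ (by rw [ha]; positivity)) (e1 _ (by rw [hb]; positivity))
        (cosh_pos _).le (exp_pos _).le
    have h6 : exp ((a + b - C) / 2) / 4 ≤ sinh (dist p q / 2) := by
      have h7 : sinh ((a + b - C) / 2) ≤ sinh (dist p q / 2) := sinh_le_sinh.mpr (by linarith)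
      refine le_trans ?_ h7
      rw [sinh_eq]
      have h8 : exp (-((a + b - C) / 2)) ≤ exp ((a + b - C) / 2) / 2 := by
        have h9 : (2 : ℝ) ≤ exp 1 := by
          have := Real.exp_one_gt_d9; linarith
        have h10 : exp 1 ≤ exp ((a + b - C) / 2) := exp_le_exp.mpr (by linarith)
        have h11 : exp (-((a + b - C) / 2)) ≤ 1 := by
          rw [exp_le_one_iff]; linarith
        linarith
      linarith
    have h7 : exp (-C / 2) / 4 * exp ((a + b) / 2) = exp ((a + b - C) / 2) / 4 := by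
      rw [div_mul_eq_mul_div, ← exp_add]; congr 2; ring
    have h8 : exp (-C / 2) / 4 * exp ((a + b) / 2) ≤
        ‖toDisc p - toDisc q‖ * exp ((a + b) / 2) := by
      rw [h7]
      refine h6.trans ?_
      rw [← h4]
      exact mul_le_mul_of_nonneg_left h5 (norm_nonneg _)
    exact le_of_mul_le_mul_right h8 (exp_pos _)
  have h4 := norm_dir_sub p
  have h5 := norm_dir_sub q
  rw [← ha] at h4
  rw [← hb] at h5
  have h6 : exp (-a) ≤ exp (-ℓ) := exp_le_exp.mpr (by linarith)
  have h7 : exp (-b) ≤ exp (-ℓ) := exp_le_exp.mpr (by linarith)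
  have h8 : dist (dir p) (dir q) = ‖(dir p : ℂ) - dir q‖ := by
    exact dist_eq_norm (dir p : ℂ) (dir q : ℂ)
  rw [h8]
  have h9 : ‖toDisc p - toDisc q‖ ≤ ‖(dir p : ℂ) - dir q‖ + ‖(dir p : ℂ) - toDisc p‖ +
      ‖(dir q : ℂ) - toDisc q‖ := by
    have e : toDisc p - toDisc q = ((dir p : ℂ) - dir q) - ((dir p : ℂ) - toDisc p) +
      ((dir q : ℂ) - toDisc q) := by ring
    rw [e]
    refine (norm_add_le _ _).trans ?_
    have := norm_sub_le ((dir p : ℂ) - dir q) ((dir p : ℂ) - toDisc p)
    linarith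
  linarith

/-- If `p` is near the segment from `I` to `q`, far from `I`, the directions are close. -/
theorem dir_close {p q : ℍ} {C : ℝ} (hC : 0 ≤ C)
    (h : dist p UpperHalfPlane.I + dist p q ≤ dist q UpperHalfPlane.I + C) :
    dist (dir p) (dir q) ≤ 6 * exp (C - dist p UpperHalfPlane.I) := by
  set a := dist p UpperHalfPlane.I with ha
  set b := dist q UpperHalfPlane.I with hb
  have h3 : ‖toDisc p - toDisc q‖ ≤ 2 * exp (C / 2 - a) := by
    have h4 := norm_toDisc_sub p q
    rw [← ha, ← hb] at h4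
    have h5 : exp ((a + b) / 2) / 4 ≤ cosh (a / 2) * cosh (b / 2) := by
      have e1 : ∀ x : ℝ, exp x / 2 ≤ cosh x := by
        intro x
        rw [cosh_eq]
        have := exp_pos (-x)
        linarith
      have e2 : exp ((a + b) / 2) / 4 = (exp (a / 2) / 2) * (exp (b / 2) / 2) := by
        rw [div_mul_div_comm, ← exp_add]; congr 1
        · congr 1; ring
        · norm_num
      rw [e2]
      exact mul_le_mul (e1 _) (e1 _) (by positivity) (cosh_pos _).le
    have h6 : sinh (dist p q / 2) ≤ exp ((b - a + C) / 2) / 2 := by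
      rw [sinh_eq]
      have h7 : exp (dist p q / 2) ≤ exp ((b - a + C) / 2) := exp_le_exp.mpr (by linarith)
      have := exp_pos (-(dist p q / 2))
      linarith
    have h7 : 2 * exp (C / 2 - a) * (exp ((a + b) / 2) / 4) = exp ((b - a + C) / 2) / 2 := by
      have : exp (C / 2 - a) * exp ((a + b) / 2) = exp ((b - a + C) / 2) := by
        rw [← exp_add]; congr 1; ring
      rw [← this]; ring
    have h8 : ‖toDisc p - toDisc q‖ * (exp ((a + b) / 2) / 4) ≤
        2 * exp (C / 2 - a) * (exp ((a + b) / 2) / 4) := by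
      rw [h7]
      refine le_trans ?_ h6
      rw [← h4]
      exact mul_le_mul_of_nonneg_left h5 (norm_nonneg _)
    exact le_of_mul_le_mul_right h8 (by positivity)
  have h4 := norm_dir_sub p
  have h5 := norm_dir_sub q
  rw [← ha] at h4
  rw [← hb] at h5
  have hd : 0 ≤ dist p q := dist_nonneg
  have h6 : exp (-b) ≤ exp (C - a) := exp_le_exp.mpr (by linarith)
  have h7 : exp (-a) ≤ exp (C - a) := exp_le_exp.mpr (by linarith)
  have h7' : exp (C / 2 - a) ≤ exp (C - a) := exp_le_exp.mpr (by linarith)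
  have h8 : dist (dir p) (dir q) = ‖(dir p : ℂ) - dir q‖ := by
    exact dist_eq_norm (dir p : ℂ) (dir q : ℂ)
  rw [h8]
  have h9 : ‖(dir p : ℂ) - dir q‖ ≤ ‖toDisc p - toDisc q‖ + ‖(dir p : ℂ) - toDisc p‖ +
      ‖(dir q : ℂ) - toDisc q‖ := by
    have e : (dir p : ℂ) - dir q = (toDisc p - toDisc q) + ((dir p : ℂ) - toDisc p) -
      ((dir q : ℂ) - toDisc q) := by ring
    rw [e]
    refine (norm_sub_le _ _).trans ?_
    have := norm_add_le (toDisc p - toDisc q) ((dir p : ℂ) - toDisc p)
    linarith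
  linarith

/-- the inverse Cayley transform -/
noncomputable def ofDisc (w : ℂ) (hw : ‖w‖ < 1) : ℍ :=
  ⟨Complex.I * (1 + w) / (1 - w), by
    have h1 : (1 - w) ≠ 0 := by
      intro h
      have : w = 1 := by linear_combination -h
      rw [this, norm_one] at hw
      exact lt_irrefl _ hw
    have h2 : 0 < Complex.normSq (1 - w) := Complex.normSq_pos.mpr h1
    have h3 : (Complex.I * (1 + w) / (1 - w)).im = (1 - Complex.normSq w) / Complex.normSq (1 - w) := by
      rw [Complex.div_im]
      simp only [Complex.mul_im, Complex.mul_re, Complex.I_re, Complex.I_im, Complex.add_re,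
        Complex.add_im, Complex.one_re, Complex.one_im, Complex.sub_re, Complex.sub_im,
        Complex.normSq_apply]
      field_simp
      ring
    rw [h3]
    refine div_pos ?_ h2
    rw [← Complex.sq_norm]
    nlinarith [norm_nonneg w]⟩

theorem toDisc_ofDisc {w : ℂ} (hw : ‖w‖ < 1) : toDisc (ofDisc w hw) = w := by
  have h1 : (1 - w) ≠ 0 := by
    intro h
    have : w = 1 := by linear_combination -h
    rw [this, norm_one] at hw
    exact lt_irrefl _ hw
  unfold toDisc ofDisc
  change (Complex.I * (1 + w) / (1 - w) - Complex.I) / (Complex.I * (1 + w) / (1 - w) + Complex.I) = w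
  have e1 : Complex.I * (1 + w) / (1 - w) - Complex.I = 2 * Complex.I * w / (1 - w) := by
    field_simp; ring
  have e2 : Complex.I * (1 + w) / (1 - w) + Complex.I = 2 * Complex.I / (1 - w) := by
    field_simp; ring
  rw [e1, e2, div_div_div_cancel_right₀ h1, mul_div_cancel_left₀]
  exact mul_ne_zero two_ne_zero Complex.I_ne_zero

theorem toDisc_injective : Function.Injective toDisc := by
  intro p q h
  have h1 := norm_toDisc_sub p q
  rw [h, sub_self, norm_zero, zero_mul] at h1
  have h2 : dist p q / 2 = 0 := sinh_eq_zero.mp h1.symm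
  have h3 : dist p q = 0 := by linarith
  exact dist_eq_zero.mp h3

theorem tanh_nonneg' {x : ℝ} (hx : 0 ≤ x) : 0 ≤ tanh x := by
  rw [tanh_eq_sinh_div_cosh]
  exact div_nonneg (sinh_nonneg_iff.mpr hx) (cosh_pos _).le

theorem tanh_lt_one' (x : ℝ) : tanh x < 1 := by
  rw [tanh_eq_sinh_div_cosh, div_lt_one (cosh_pos _)]
  exact sinh_lt_cosh _

/-- Points on the geodesic ray from `I` through a given point. -/
theorem exists_ray (p : ℍ) : ∃ c : ℝ → ℍ, c 0 = UpperHalfPlane.I ∧
    c (dist p UpperHalfPlane.I) = p ∧ ∀ s ≥ 0, ∀ t ≥ 0, dist (c s) (c t) = |s - t| := by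
  have hlt : ∀ s : ℝ, ‖((tanh (|s| / 2) : ℝ) : ℂ) * (dir p : ℂ)‖ < 1 := by
    intro s
    rw [norm_mul, Circle.norm_coe, mul_one, Complex.norm_real, Real.norm_eq_abs,
      abs_of_nonneg (tanh_nonneg' (by positivity))]
    exact tanh_lt_one' _
  let c : ℝ → ℍ := fun s => ofDisc (((tanh (|s| / 2) : ℝ) : ℂ) * (dir p : ℂ)) (hlt s)
  have hc : ∀ s, 0 ≤ s → toDisc (c s) = ((tanh (s / 2) : ℝ) : ℂ) * (dir p : ℂ) := by
    intro s hs
    change toDisc (ofDisc _ _) = _
    rw [toDisc_ofDisc, abs_of_nonneg hs]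
  have hcI : ∀ s, 0 ≤ s → dist (c s) UpperHalfPlane.I = s := by
    intro s hs
    have h1 := norm_toDisc (c s)
    rw [hc s hs, norm_mul, Circle.norm_coe, mul_one, Complex.norm_real, Real.norm_eq_abs,
      abs_of_nonneg (tanh_nonneg' (by positivity))] at h1
    have h2 := tanh_injective h1
    linarith
  refine ⟨c, ?_, ?_, ?_⟩
  · apply toDisc_injective
    rw [hc 0 le_rfl, toDisc_I]
    simp
  · apply toDisc_injective
    rw [hc _ dist_nonneg]
    conv_rhs => rw [toDisc_eq_dir p, norm_toDisc]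
  · intro s hs t ht
    have h1 := norm_toDisc_sub (c s) (c t)
    rw [hc s hs, hc t ht, hcI s hs, hcI t ht, ← sub_mul, norm_mul, Circle.norm_coe, mul_one,
      ← Complex.ofReal_sub, Complex.norm_real, Real.norm_eq_abs] at h1
    have h2 : |tanh (s / 2) - tanh (t / 2)| * (cosh (s / 2) * cosh (t / 2)) =
        |sinh ((s - t) / 2)| := by
      have hcs := cosh_pos (s / 2)
      have hct := cosh_pos (t / 2)
      rw [← abs_of_pos (mul_pos hcs hct), ← abs_mul]
      congr 1
      rw [tanh_eq_sinh_div_cosh, tanh_eq_sinh_div_cosh]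
      have e : (s - t) / 2 = s / 2 - t / 2 := by ring
      rw [e, sinh_sub]
      field_simp
    rw [h2, abs_sinh] at h1
    have h3 := sinh_injective h1
    rw [abs_div, abs_two] at h3
    linarith

end Pool.Agent.Helper31.Oper
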