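import Pool.Agent.Helper31.Oper.Weak

/-!
Key lemma: a curve of Borel subalgebras satisfying the oper condition meets the transversal locus
of every subspace of ad-nilpotent elements.
-/

namespace Pool.Agent.Helper31.Oper

open LieAlgebra LieModule Module Filter Topology

variable {𝔤 : Type*} [LieRing 𝔤] [LieAlgebra ℂ 𝔤]

/-- Local holomorphic-type sections with velocity `ξ`. -/
def CurveAt (D : ℂ → LieSubalgebra ℂ 𝔤) (ξ : 𝔤) (w0 : ℂ) : Prop :=
  ∀ y ∈ D w0, ∃ (s : ℂ → 𝔤) (s' : 𝔤), (∀ᶠ w in 𝓝 w0, s w ∈ D w) ∧ s w0 = y ∧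
    WD s s' w0 ∧ s' - ⁅ξ, y⁆ ∈ D w0

/-- Sections of the filtration. -/
def SecAt (D : ℂ → LieSubalgebra ℂ 𝔤) (ξ : 𝔤) (w0 : ℂ) (k : ℕ) (y : 𝔤) : Prop :=
  ∃ (s : ℂ → 𝔤) (s' : 𝔤), (∀ᶠ w in 𝓝 w0, s w ∈ Fil (D w) k) ∧ s w0 = y ∧
    WD s s' w0 ∧ s' - ⁅ξ, y⁆ ∈ Fil (D w0) k

variable [FiniteDimensional ℂ 𝔤]

section
variable {D : ℂ → LieSubalgebra ℂ 𝔤} {ξ : 𝔤} {w0 : ℂ}

omit [FiniteDimensional ℂ 𝔤] in
theorem SecAt.zero (k : ℕ) : SecAt D ξ w0 k 0 :=
  ⟨fun _ => 0, 0, Eventually.of_forall fun _ => zero_mem _, rfl, WD.const 0 w0, by simp⟩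

omit [FiniteDimensional ℂ 𝔤] in
theorem SecAt.add {k : ℕ} {y z : 𝔤} (hy : SecAt D ξ w0 k y) (hz : SecAt D ξ w0 k z) :
    SecAt D ξ w0 k (y + z) := by
  obtain ⟨s, s', h1, h2, h3, h4⟩ := hy
  obtain ⟨t, t', k1, k2, k3, k4⟩ := hz
  refine ⟨fun w => s w + t w, s' + t', ?_, by simp [h2, k2], h3.add k3, ?_⟩
  · filter_upwards [h1, k1] with w hw1 hw2 using add_mem hw1 hw2
  · have : s' + t' - ⁅ξ, y + z⁆ = (s' - ⁅ξ, y⁆) + (t' - ⁅ξ, z⁆) := by rw [lie_add]; abel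
    rw [this]; exact add_mem h4 k4

omit [FiniteDimensional ℂ 𝔤] in
theorem SecAt.smul {k : ℕ} {y : 𝔤} (c : ℂ) (hy : SecAt D ξ w0 k y) :
    SecAt D ξ w0 k (c • y) := by
  obtain ⟨s, s', h1, h2, h3, h4⟩ := hy
  refine ⟨fun w => c • s w, c • s', ?_, by simp [h2], h3.smul c, ?_⟩
  · filter_upwards [h1] with w hw1 using Submodule.smul_mem _ _ hw1
  · rw [lie_smul, ← smul_sub]; exact Submodule.smul_mem _ _ h4

theorem SecAt.lie {i j k : ℕ} {y z : 𝔤} (hy0 : y ∈ Fil (D w0) i) (hz0 : z ∈ Fil (D w0) j)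
    (hijk : ∀ w, ∀ u ∈ Fil (D w) i, ∀ v ∈ Fil (D w) j, ⁅u, v⁆ ∈ Fil (D w) k)
    (hy : SecAt D ξ w0 i y) (hz : SecAt D ξ w0 j z) : SecAt D ξ w0 k ⁅y, z⁆ := by
  obtain ⟨s, s', h1, h2, h3, h4⟩ := hy
  obtain ⟨t, t', k1, k2, k3, k4⟩ := hz
  refine ⟨fun w => ⁅s w, t w⁆, _, ?_, by simp [h2, k2], h3.lie k3, ?_⟩
  · filter_upwards [h1, k1] with w hw1 hw2 using hijk w _ hw1 _ hw2
  · rw [h2, k2]
    have : ⁅s', z⁆ + ⁅y, t'⁆ - ⁅ξ, ⁅y, z⁆⁆ = ⁅s' - ⁅ξ, y⁆, z⁆ + ⁅y, t' - ⁅ξ, z⁆⁆ := by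
      rw [leibniz_lie ξ y z, sub_lie, lie_sub]; abel
    rw [this]
    exact add_mem (hijk w0 _ h4 _ hz0) (hijk w0 _ hy0 _ k4)

theorem secAt (hC : CurveAt D ξ w0) (k : ℕ) : ∀ y ∈ Fil (D w0) k, SecAt D ξ w0 k y := by
  induction k using Nat.strong_induction_on with
  | _ k ih =>
    match k with
    | 0 => exact fun y hy => hC y hy
    | 1 =>
      intro y hy
      rw [Fil_one] at hy
      unfold brk at hy
      induction hy using Submodule.span_induction with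
      | mem m hm =>
        obtain ⟨u, hu, v, hv, rfl⟩ := hm
        exact SecAt.lie (i := 0) (j := 0) (k := 1) hu hv
          (fun w u hu v hv => lie_mem_brk hu hv) (ih 0 (by omega) u hu) (ih 0 (by omega) v hv)
      | zero => exact SecAt.zero _
      | add u v _ _ hu hv => exact hu.add hv
      | smul c u _ hu => exact hu.smul c
    | (k + 2) =>
      intro y hy
      rw [Fil_succ_succ] at hy
      unfold brk at hy
      induction hy using Submodule.span_induction with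
      | mem m hm =>
        obtain ⟨u, hu, v, hv, rfl⟩ := hm
        exact SecAt.lie (i := 1) (j := k + 1) (k := k + 2) hu hv
          (fun w u hu v hv => lie_mem_brk hu hv) (ih 1 (by omega) u hu)
          (ih (k + 1) (by omega) v hv)
      | zero => exact SecAt.zero _
      | add u v _ _ hu hv => exact hu.add hv
      | smul c u _ hu => exact hu.smul c

end

/-- Every vector of `W w0` extends to a continuous section. -/
def LSC (W : ℂ → Submodule ℂ 𝔤) (w0 : ℂ) : Prop :=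
  ∀ y ∈ W w0, ∃ s : ℂ → 𝔤, (∀ᶠ w in 𝓝 w0, s w ∈ W w) ∧ s w0 = y ∧ WC s w0

theorem card_le_of_li {W : Submodule ℂ 𝔤} {r : ℕ} {v : Fin r → 𝔤}
    (hv : LinearIndependent ℂ v) (hW : ∀ i, v i ∈ W) : r ≤ finrank ℂ W := by
  have h1 : LinearIndependent ℂ (fun i => (⟨v i, hW i⟩ : W)) := by
    apply LinearIndependent.of_comp W.subtype
    exact hv
  simpa using h1.fintype_card_le_finrank

theorem LSC.finrank_le {W : ℂ → Submodule ℂ 𝔤} {w0 : ℂ} (h : LSC W w0) :
    ∀ᶠ w in 𝓝 w0, finrank ℂ (W w0) ≤ finrank ℂ (W w) := by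
  let β := Module.finBasis ℂ (W w0)
  choose s hs1 hs2 hs3 using fun i => h (β i) (β i).2
  have hli : LinearIndependent ℂ (fun i => s i w0) := by
    have : (fun i => s i w0) = fun i => ((β i : W w0) : 𝔤) := by funext i; exact hs2 i
    rw [this]
    exact β.linearIndependent.map' (W w0).subtype (W w0).ker_subtype
  have h1 := eventually_linearIndependent s w0 hs3 hli
  have h2 : ∀ᶠ w in 𝓝 w0, ∀ i, s i w ∈ W w := eventually_all.mpr hs1
  filter_upwards [h1, h2] with w hw1 hw2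
  exact card_le_of_li hw1 hw2

theorem LSC.deriv_mem {W : ℂ → Submodule ℂ 𝔤} {w0 : ℂ} (h : LSC W w0)
    (hmax : ∀ᶠ w in 𝓝 w0, finrank ℂ (W w) ≤ finrank ℂ (W w0)) {T : ℂ → 𝔤} {T' : 𝔤}
    (hT : ∀ᶠ w in 𝓝 w0, T w ∈ W w) (hT0 : T w0 = 0) (hT' : WD T T' w0) : T' ∈ W w0 := by
  by_contra hcon
  let β := Module.finBasis ℂ (W w0)
  choose s hs1 hs2 hs3 using fun i => h (β i) (β i).2
  have hs2' : (fun i => s i w0) = fun i => ((β i : W w0) : 𝔤) := by funext i; exact hs2 i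
  have hli : LinearIndependent ℂ (fun i => s i w0) := by
    rw [hs2']
    exact β.linearIndependent.map' (W w0).subtype (W w0).ker_subtype
  let q : ℂ → 𝔤 := fun w => if w = w0 then T' else (w - w0)⁻¹ • T w
  have hq0 : q w0 = T' := by simp [q]
  have hqc : WC q w0 := by
    intro φ
    have h1 : (fun w => φ (q w)) = dslope (fun w => φ (T w)) w0 := by
      funext w
      by_cases hw : w = w0
      · subst hw
        rw [dslope_same, (hT' φ).deriv, hq0]
      · rw [dslope_of_ne _ hw, slope_def_field, hT0, map_zero, sub_zero]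
        simp only [q, hw, if_false, map_smul, smul_eq_mul]
        rw [div_eq_inv_mul]
    rw [h1]
    exact continuousAt_dslope_same.mpr (hT' φ).differentiableAt
  let v : Fin (finrank ℂ (W w0) + 1) → ℂ → 𝔤 := Fin.cons q s
  have hvc : ∀ i, WC (v i) w0 := by
    intro i
    refine Fin.cases ?_ (fun i => ?_) i
    · exact hqc
    · exact hs3 i
  have hv_eq : ∀ w, (fun i => v i w) = Fin.cons (q w) (fun i => s i w) := by
    intro w
    funext i
    refine Fin.cases ?_ (fun i => ?_) i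
    · rfl
    · rfl
  have hvli : LinearIndependent ℂ (fun i => v i w0) := by
    rw [hv_eq, linearIndependent_finCons]
    refine ⟨hli, ?_⟩
    rw [hq0]
    intro hmem
    apply hcon
    have hle : Submodule.span ℂ (Set.range fun i => s i w0) ≤ W w0 := by
      rw [Submodule.span_le]
      rintro _ ⟨i, rfl⟩
      change s i w0 ∈ W w0
      rw [hs2 i]
      exact (β i).2
    exact hle hmem
  have h1 := eventually_linearIndependent v w0 hvc hvli
  have h2 : ∀ᶠ w in 𝓝 w0, ∀ i, s i w ∈ W w := eventually_all.mpr hs1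
  have h3 : ∀ᶠ w in 𝓝[≠] w0, False := by
    filter_upwards [h1.filter_mono nhdsWithin_le_nhds, h2.filter_mono nhdsWithin_le_nhds,
      hT.filter_mono nhdsWithin_le_nhds, hmax.filter_mono nhdsWithin_le_nhds,
      self_mem_nhdsWithin] with w hw1 hw2 hw3 hw4 hw5
    have hmem : ∀ i, v i w ∈ W w := by
      intro i
      refine Fin.cases ?_ (fun i => ?_) i
      · change q w ∈ W w
        simp only [q]
        rw [if_neg (show ¬ w = w0 from hw5)]
        exact Submodule.smul_mem _ _ hw3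
      · exact hw2 i
    have := card_le_of_li hw1 hmem
    omega
  exact h3.exists.elim fun _ h => h

omit [FiniteDimensional ℂ 𝔤] in
theorem Fil_const {b : LieSubalgebra ℂ 𝔤} {k : ℕ} (h : Fil b (k + 2) = Fil b (k + 1)) (j : ℕ) :
    Fil b (k + 1 + j) = Fil b (k + 1) := by
  induction j with
  | zero => rfl
  | succ j ih =>
    have e : k + 1 + (j + 1) = (k + j) + 2 := by omega
    rw [e, Fil_succ_succ]
    have e2 : k + j + 1 = k + 1 + j := by omega
    rw [e2, ih, ← Fil_succ_succ, h]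

theorem Fil_bot {b : LieSubalgebra ℂ 𝔤} (hb : LieAlgebra.IsSolvable b) :
    Fil b (finrank ℂ 𝔤 + 1) = ⊥ := by
  obtain ⟨K, hK⟩ := exists_Fil_eq_bot hb
  have claim : ∀ k : ℕ, Fil b (k + 1) = ⊥ ∨ finrank ℂ (Fil b (k + 1)) + k ≤ finrank ℂ 𝔤 := by
    intro k
    induction k with
    | zero => right; simpa using Submodule.finrank_le (Fil b 1)
    | succ k ih =>
      by_cases hbot : Fil b (k + 1) = ⊥
      · left
        have := Fil_succ_le b (k + 1)
        rw [hbot] at this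
        exact le_bot_iff.mp this
      · right
        have hk := ih.resolve_left hbot
        have hlt : Fil b (k + 2) < Fil b (k + 1) := by
          refine lt_of_le_of_ne (Fil_succ_le b (k + 1)) fun heq => hbot ?_
          rw [← Fil_const heq K]
          have : Fil b (k + 1 + K) ≤ Fil b (K + 1) := Fil_anti b (by omega)
          rw [hK] at this
          exact le_bot_iff.mp this
        have := Submodule.finrank_lt_finrank_of_lt hlt
        change finrank ℂ (Fil b (k + 2)) + (k + 1) ≤ finrank ℂ 𝔤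
        omega
  rcases claim (finrank ℂ 𝔤) with h | h
  · exact h
  · have : finrank ℂ (Fil b (finrank ℂ 𝔤 + 1)) = 0 := by omega
    exact Submodule.finrank_eq_zero.mp this

variable [IsKilling ℂ 𝔤]

theorem mem_Fil_one_of_nil {b : LieSubalgebra ℂ 𝔤} (hb : IsBorel b) {x : 𝔤} (hx : x ∈ b)
    (hnil : IsNilpotent (ad ℂ 𝔤 x)) : x ∈ Fil b 1 := by
  have : x ∈ perp b.toSubmodule := mem_perp.mpr fun y hy => kf_of_nil hb.1 hx hnil hy
  rwa [perp_eq_brk hb] at this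

/-- The algebraic end of the key lemma. -/
theorem key_algebra {b : LieSubalgebra ℂ 𝔤} (hb : IsBorel b) {ξ : 𝔤} (hξ : IsOperVector b ξ)
    (n' : Submodule ℂ 𝔤) (hn' : ∀ x ∈ n', IsNilpotent (ad ℂ 𝔤 x))
    (hP : ∀ k ≤ finrank ℂ 𝔤 + 1, ∀ y ∈ n', y ∈ Fil b k → ∃ y2 ∈ n', y2 - ⁅ξ, y⁆ ∈ Fil b k) :
    b.toSubmodule ⊓ n' = ⊥ := by
  classical
  by_contra hcon
  have h0 : ∃ k, k ≤ finrank ℂ 𝔤 + 1 ∧ ∃ y ∈ n', y ∈ Fil b k ∧ y ≠ 0 := by
    obtain ⟨y, hy, hy0⟩ := (Submodule.ne_bot_iff _).mp hcon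
    exact ⟨0, Nat.zero_le _, y, hy.2, hy.1, hy0⟩
  -- the largest such index
  obtain ⟨k, hk, ⟨y, hyn, hyk, hy0⟩, hmax⟩ : ∃ k, k ≤ finrank ℂ 𝔤 + 1 ∧
      (∃ y ∈ n', y ∈ Fil b k ∧ y ≠ 0) ∧
      ∀ y ∈ n', y ∈ Fil b (k + 1) → y = 0 := by
    have hex : ∃ j, ∀ y ∈ n', y ∈ Fil b (j + 1) → y = 0 := by
      refine ⟨finrank ℂ 𝔤, fun y _ hy => ?_⟩
      rwa [Fil_bot hb.1, Submodule.mem_bot] at hy
    have hspec := Nat.find_spec hex
    have hle : Nat.find hex ≤ finrank ℂ 𝔤 :=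
      Nat.find_min' hex fun y _ hy => by rwa [Fil_bot hb.1, Submodule.mem_bot] at hy
    refine ⟨Nat.find hex, by omega, ?_, hspec⟩
    rcases Nat.eq_zero_or_pos (Nat.find hex) with hz | hpos
    · rw [hz]
      obtain ⟨y, hy, hy0⟩ := (Submodule.ne_bot_iff _).mp hcon
      exact ⟨y, hy.2, hy.1, hy0⟩
    · have := Nat.find_min hex (m := Nat.find hex - 1) (by omega)
      push Not at this
      obtain ⟨y, hyn, hy, hy0⟩ := this
      refine ⟨y, hyn, ?_, hy0⟩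
      have e : Nat.find hex - 1 + 1 = Nat.find hex := by omega
      rwa [e] at hy
  have hnot : y ∉ Fil b (k + 1) := fun h => hy0 (hmax y hyn h)
  -- descend
  have desc : ∀ j ≤ k, ∃ z ∈ n', z ∈ Fil b (k - j) ∧ z ∉ Fil b (k - j + 1) := by
    intro j
    induction j with
    | zero => intro _; exact ⟨y, hyn, hyk, hnot⟩
    | succ j ih =>
      intro hj
      obtain ⟨z, hzn, hz, hz'⟩ := ih (by omega)
      obtain ⟨m, hm⟩ : ∃ m, k - j = m + 1 := ⟨k - j - 1, by omega⟩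
      have hm' : k - (j + 1) = m := by omega
      rw [hm] at hz hz'
      rw [hm']
      obtain ⟨z2, hz2n, hz2⟩ := hP (m + 1) (by omega) z hzn hz
      have h1 : ⁅ξ, z⁆ ∈ Fil b m := lie_xi_Fil (fun y hy => hξ.1 y hy) m z hz
      refine ⟨z2, hz2n, ?_, ?_⟩
      · have := add_mem (Fil_succ_le b m hz2) h1
        rwa [sub_add_cancel] at this
      · intro h2
        apply hz'
        refine Fil_inj hb hξ m hz ?_
        have := sub_mem h2 hz2
        rwa [sub_sub_cancel] at this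
  obtain ⟨z, hzn, hz, hz'⟩ := desc k le_rfl
  rw [Nat.sub_self] at hz hz'
  exact hz' (mem_Fil_one_of_nil hb hz (hn' z hzn))

/-- Key lemma. -/
theorem key_lemma {U : Set ℂ} (hU : IsOpen U) (hne : U.Nonempty)
    {D : ℂ → LieSubalgebra ℂ 𝔤} (hB : ∀ w ∈ U, IsBorel (D w))
    (hC : ∀ w ∈ U, ∃ ξ, CurveAt D ξ w ∧ IsOperVector (D w) ξ)
    (n' : Submodule ℂ 𝔤) (hn' : ∀ x ∈ n', IsNilpotent (ad ℂ 𝔤 x)) :
    ∃ w ∈ U, (D w).toSubmodule ⊓ n' = ⊥ := by
  classical
  let W : ℕ → ℂ → Submodule ℂ 𝔤 := fun k w => Fil (D w) k ⊔ n'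
  let N := finrank ℂ 𝔤
  let R : ℂ → ℕ := fun w => ∑ k ∈ Finset.range (N + 2), finrank ℂ (W k w)
  -- a maximiser of R on U
  obtain ⟨w1, hw1, hmax⟩ : ∃ w1 ∈ U, ∀ w ∈ U, R w ≤ R w1 := by
    have hbdd : ∀ w, R w ≤ (N + 2) * N := by
      intro w
      calc R w ≤ ∑ _k ∈ Finset.range (N + 2), N :=
            Finset.sum_le_sum fun k _ => Submodule.finrank_le _
        _ = (N + 2) * N := by simp
    have hbd : BddAbove (R '' U) := ⟨(N + 2) * N, by rintro _ ⟨w, _, rfl⟩; exact hbdd w⟩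
    have hne' : (R '' U).Nonempty := hne.image R
    obtain ⟨w1, hw1, hw1'⟩ := Nat.sSup_mem hne' hbd
    exact ⟨w1, hw1, fun w hw => by rw [hw1']; exact le_csSup hbd ⟨w, hw, rfl⟩⟩
  refine ⟨w1, hw1, ?_⟩
  obtain ⟨ξ, hcur, hξ⟩ := hC w1 hw1
  have hlsc : ∀ k, LSC (W k) w1 := by
    intro k y hy
    obtain ⟨u, hu, x, hx, rfl⟩ := Submodule.mem_sup.mp hy
    obtain ⟨s, s', h1, h2, h3, _⟩ := secAt hcur k u hu
    refine ⟨fun w => s w + x, ?_, by simp [h2], h3.wc.add (WC.const x w1)⟩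
    filter_upwards [h1] with w hw
    exact Submodule.add_mem_sup hw hx
  have hevU : ∀ᶠ w in 𝓝 w1, w ∈ U := hU.mem_nhds hw1
  have hall : ∀ᶠ w in 𝓝 w1, ∀ k ∈ Finset.range (N + 2), finrank ℂ (W k w1) ≤ finrank ℂ (W k w) :=
    (Finset.eventually_all _).mpr fun k _ => (hlsc k).finrank_le
  have hmaxk : ∀ k ∈ Finset.range (N + 2),
      ∀ᶠ w in 𝓝 w1, finrank ℂ (W k w) ≤ finrank ℂ (W k w1) := by
    intro k hk
    filter_upwards [hall, hevU] with w hw hwU
    by_contra hlt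
    push Not at hlt
    have : R w1 < R w := Finset.sum_lt_sum hw ⟨k, hk, hlt⟩
    exact absurd (hmax w hwU) (not_le.mpr this)
  refine key_algebra (hB w1 hw1) hξ n' hn' ?_
  intro k hk y hyn hyk
  obtain ⟨s, s', h1, h2, h3, h4⟩ := secAt hcur k y hyk
  have hTd : WD (fun w => s w + -y) (s' + 0) w1 := h3.add (WD.const (-y) w1)
  have hmem := (hlsc k).deriv_mem (hmaxk k (Finset.mem_range.mpr (by omega)))
    (T := fun w => s w + -y) (T' := s' + 0) (by
      filter_upwards [h1] with w hw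
      exact Submodule.add_mem_sup hw (n'.neg_mem hyn)) (by simp [h2]) hTd
  rw [add_zero] at hmem
  obtain ⟨f, hf, y2, hy2, hfy⟩ := Submodule.mem_sup.mp hmem
  refine ⟨y2, hy2, ?_⟩
  have : y2 - ⁅ξ, y⁆ = (s' - ⁅ξ, y⁆) - f := by rw [← hfy]; abel
  rw [this]
  exact sub_mem h4 hf

end Pool.Agent.Helper31.Oper
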