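import Mathlib

/-!
Consequences of Lie's theorem used in the study of Borel subalgebras.
-/

namespace Pool.Agent.Helper31.Oper

open LieModule Module

universe u v

/-- If `f` maps `V` into `N` modulo powers and kills `N`, it is nilpotent. -/
theorem isNilpotent_of_quot {V : Type u} [AddCommGroup V] [Module ℂ V]
    (N : Submodule ℂ V) (f : Module.End ℂ V) (m : ℕ)
    (h1 : ∀ v : V, (f ^ m) v ∈ N) (h2 : ∀ v ∈ N, f v = 0) : IsNilpotent f := by
  refine ⟨m + 1, ?_⟩
  ext v
  rw [pow_succ']
  exact h2 _ (h1 v)

theorem lieThm_aux (L : Type v) [LieRing L] [LieAlgebra ℂ L] [LieAlgebra.IsSolvable L] :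
    ∀ (n : ℕ) (V : Type u) [AddCommGroup V] [Module ℂ V] [LieRingModule L V] [LieModule ℂ L V]
      [FiniteDimensional ℂ V], finrank ℂ V = n →
      (∀ x ∈ LieAlgebra.derivedSeries ℂ L 1, IsNilpotent (toEnd ℂ L V x)) ∧
      (∀ x y : L, IsNilpotent (toEnd ℂ L V x) →
        IsNilpotent (toEnd ℂ L V x * toEnd ℂ L V y)) := by
  intro n
  induction n with
  | zero =>
    intro V _ _ _ _ _ hV
    have : Subsingleton V := finrank_zero_iff.mp hV
    refine ⟨fun x _ => ⟨1, ?_⟩, fun x y _ => ⟨1, ?_⟩⟩ <;>
    · ext v; exact Subsingleton.elim _ _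
  | succ n ih =>
    intro V _ _ _ _ _ hV
    have : Nontrivial V := by
      apply Module.nontrivial_of_finrank_pos (R := ℂ); omega
    obtain ⟨χ, hχ⟩ := LieModule.exists_nontrivial_weightSpace_of_isSolvable ℂ L V
    obtain ⟨⟨v, hv⟩, hv0⟩ := exists_ne (0 : weightSpace V χ)
    have hv0' : v ≠ 0 := by simpa using hv0
    rw [mem_weightSpace] at hv
    let N : LieSubmodule ℂ L V :=
      { toSubmodule := Submodule.span ℂ {v}
        lie_mem := by
          intro y m hm
          rw [Submodule.carrier_eq_coe, SetLike.mem_coe, Submodule.mem_span_singleton] at hm ⊢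
          obtain ⟨c, rfl⟩ := hm
          exact ⟨c * χ y, by rw [lie_smul, hv, smul_smul]⟩ }
    have hNmem : ∀ m, m ∈ N ↔ ∃ c : ℂ, c • v = m := by
      intro m
      change m ∈ Submodule.span ℂ {v} ↔ _
      exact Submodule.mem_span_singleton
    have hfin : finrank ℂ (V ⧸ N) = n := by
      have h1 := Submodule.finrank_quotient_add_finrank (N : Submodule ℂ V)
      have h2 : finrank ℂ (N : Submodule ℂ V) = 1 := finrank_span_singleton hv0'
      change finrank ℂ (V ⧸ (N : Submodule ℂ V)) = n
      omega
    obtain ⟨ih1, ih2⟩ := ih (V ⧸ N) hfin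
    have hquot : ∀ (x : L) (w : V),
        (LieSubmodule.Quotient.mk (N := N) (toEnd ℂ L V x w)) =
          toEnd ℂ L (V ⧸ N) x (LieSubmodule.Quotient.mk w) := by
      intro x w
      rfl
    have hpow : ∀ (x : L) (k : ℕ) (w : V),
        (LieSubmodule.Quotient.mk (N := N) ((toEnd ℂ L V x ^ k) w)) =
          (toEnd ℂ L (V ⧸ N) x ^ k) (LieSubmodule.Quotient.mk w) := by
      intro x k
      induction k with
      | zero => intro w; rfl
      | succ k ihk =>
        intro w
        rw [pow_succ, pow_succ, Module.End.mul_apply, Module.End.mul_apply, ihk, hquot]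
    have hpow2 : ∀ (x y : L) (k : ℕ) (w : V),
        (LieSubmodule.Quotient.mk (N := N) (((toEnd ℂ L V x * toEnd ℂ L V y) ^ k) w)) =
          ((toEnd ℂ L (V ⧸ N) x * toEnd ℂ L (V ⧸ N) y) ^ k) (LieSubmodule.Quotient.mk w) := by
      intro x y k
      induction k with
      | zero => intro w; rfl
      | succ k ihk =>
        intro w
        rw [pow_succ, pow_succ, Module.End.mul_apply, Module.End.mul_apply, ihk]
        rfl
    have hchi : ∀ x : L, IsNilpotent (toEnd ℂ L V x) → χ x = 0 := by
      intro x ⟨k, hk⟩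
      have : ∀ j : ℕ, (toEnd ℂ L V x ^ j) v = (χ x) ^ j • v := by
        intro j
        induction j with
        | zero => simp
        | succ j ihj =>
          rw [pow_succ', Module.End.mul_apply, ihj, map_smul, toEnd_apply_apply, hv, smul_smul,
            pow_succ]
      have h0 := this k
      rw [hk] at h0
      have h1 : (χ x) ^ k = 0 := by
        have : (χ x) ^ k • v = 0 := by rw [← h0]; rfl
        rcases smul_eq_zero.mp this with h | h
        · exact h
        · exact absurd h hv0'
      exact eq_zero_of_pow_eq_zero h1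
    have hchi' : ∀ x ∈ LieAlgebra.derivedSeries ℂ L 1, χ x = 0 := by
      intro x hx
      have hx' : x ∈ (⁅(⊤ : LieIdeal ℂ L), (⊤ : LieIdeal ℂ L)⁆ : LieIdeal ℂ L) := by
        simpa using hx
      rw [← LieSubmodule.mem_toSubmodule, LieSubmodule.lieIdeal_oper_eq_linear_span'] at hx'
      clear hx
      induction hx' using Submodule.span_induction with
      | mem m hm =>
        obtain ⟨a, -, b, -, rfl⟩ := hm
        have h1 : ⁅⁅a, b⁆, v⁆ = 0 := by
          rw [lie_lie, hv, hv, lie_smul, lie_smul, hv, hv, smul_smul, smul_smul, mul_comm,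
            sub_self]
        rw [hv] at h1
        rcases smul_eq_zero.mp h1 with h | h
        · exact h
        · exact absurd h hv0'
      | zero => simp
      | add a b _ _ ha hb => simp [ha, hb]
      | smul c a _ ha => simp [ha]
    have hker : ∀ x : L, χ x = 0 → ∀ m ∈ (N : Submodule ℂ V), ⁅x, m⁆ = 0 := by
      intro x hx m hm
      obtain ⟨c, rfl⟩ := (hNmem m).mp hm
      rw [lie_smul, hv, hx, zero_smul, smul_zero]
    refine ⟨?_, ?_⟩
    · intro x hx
      obtain ⟨m, hm⟩ := ih1 x hx
      refine isNilpotent_of_quot (N : Submodule ℂ V) _ m ?_ (hker x (hchi' x hx))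
      intro w
      have := hpow x m w
      rw [hm] at this
      exact (LieSubmodule.Quotient.mk_eq_zero' (N := N)).mp this
    · intro x y hx
      have hx' : IsNilpotent (toEnd ℂ L (V ⧸ N) x) := by
        obtain ⟨k, hk⟩ := hx
        refine ⟨k, ?_⟩
        ext w
        obtain ⟨w, rfl⟩ := LieSubmodule.Quotient.surjective_mk' N w
        have := hpow x k w
        rw [hk] at this
        exact this.symm
      obtain ⟨m, hm⟩ := ih2 x y hx'
      refine isNilpotent_of_quot (N : Submodule ℂ V) _ m ?_ ?_
      · intro w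
        have := hpow2 x y m w
        rw [hm] at this
        exact (LieSubmodule.Quotient.mk_eq_zero' (N := N)).mp this
      · intro m hm
        rw [Module.End.mul_apply]
        refine hker x (hchi x hx) _ ?_
        exact N.lie_mem hm

end Pool.Agent.Helper31.Oper
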