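import Pool.Agent.Helper31.Oper.Hurwitz

/-!
Families of holomorphic functions with a zero of order at least `M` at a moving point.
-/

namespace Pool.Agent.Helper31.Oper

open Filter Topology

section Quot

variable {X : Type*} [TopologicalSpace X]

/-- data of a family -/
structure Fam (f : X → ℂ → ℂ) (c : X → ℂ) (x₀ : X) (R : ℝ) (M : ℕ) : Prop where
  pos : 0 < R
  cc : ContinuousAt c x₀
  cont : ∀ w ∈ Metric.closedBall (c x₀) R, ContinuousAt (fun p : X × ℂ => f p.1 p.2) (x₀, w)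
  hol : ∀ᶠ x in 𝓝 x₀, ∀ w ∈ Metric.closedBall (c x₀) R, DifferentiableAt ℂ (f x) w
  ord : ∀ᶠ x in 𝓝 x₀, (M : ℕ∞) ≤ analyticOrderAt (f x) (c x)

open Classical in
/-- the quotient `f x w / (w - c x) ^ M` -/
noncomputable def quo (f : X → ℂ → ℂ) (c : X → ℂ) (M : ℕ) (x : X) (w : ℂ) : ℂ :=
  if w = c x then
    (if h : ∃ g : ℂ → ℂ, AnalyticAt ℂ g (c x) ∧ ∀ᶠ z in 𝓝 (c x), f x z = (z - c x) ^ M * g z then
      h.choose (c x) else 0)
  else f x w / (w - c x) ^ M

theorem quo_of_ne {f : X → ℂ → ℂ} {c : X → ℂ} {M : ℕ} {x : X} {w : ℂ} (h : w ≠ c x) :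
    quo f c M x w = f x w / (w - c x) ^ M := if_neg h

/-- near the zero the quotient is an analytic function -/
theorem quo_eq {f : X → ℂ → ℂ} {c : X → ℂ} {M : ℕ} {x : X} (hf : AnalyticAt ℂ (f x) (c x))
    (h : (M : ℕ∞) ≤ analyticOrderAt (f x) (c x)) :
    ∃ g : ℂ → ℂ, AnalyticAt ℂ g (c x) ∧ (∀ᶠ z in 𝓝 (c x), f x z = (z - c x) ^ M * g z) ∧
      quo f c M x =ᶠ[𝓝 (c x)] g := by
  have hex : ∃ g : ℂ → ℂ, AnalyticAt ℂ g (c x) ∧ ∀ᶠ z in 𝓝 (c x), f x z = (z - c x) ^ M * g z := by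
    obtain ⟨g, hg, hg2⟩ := (natCast_le_analyticOrderAt hf).mp h
    exact ⟨g, hg, by simpa using hg2⟩
  refine ⟨hex.choose, hex.choose_spec.1, hex.choose_spec.2, ?_⟩
  filter_upwards [hex.choose_spec.2] with w hw
  by_cases hwc : w = c x
  · subst hwc
    unfold quo
    rw [if_pos rfl, dif_pos hex]
  · rw [quo_of_ne hwc, hw, mul_div_cancel_left₀]
    exact pow_ne_zero _ (sub_ne_zero.mpr hwc)

theorem order_eq_iff_quo {f : X → ℂ → ℂ} {c : X → ℂ} {M : ℕ} {x : X}
    (hf : AnalyticAt ℂ (f x) (c x)) (h : (M : ℕ∞) ≤ analyticOrderAt (f x) (c x)) :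
    analyticOrderAt (f x) (c x) = M ↔ quo f c M x (c x) ≠ 0 := by
  obtain ⟨g, hg, hg2, hg3⟩ := quo_eq hf h
  rw [hg3.self_of_nhds]
  have e : f x =ᶠ[𝓝 (c x)] fun z => (z - c x) ^ M * g z := hg2
  have h1 : AnalyticAt ℂ (fun z => (z - c x) ^ M) (c x) := by fun_prop
  have h2 : analyticOrderAt (fun z => (z - c x) ^ M) (c x) = M := by
    rw [h1.analyticOrderAt_eq_natCast]
    exact ⟨fun _ => 1, analyticAt_const, one_ne_zero, by simp⟩
  rw [analyticOrderAt_congr e]
  have h3 := analyticOrderAt_mul h1 hg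
  have e2 : (fun z => (z - c x) ^ M * g z) = (fun z => (z - c x) ^ M) * g := rfl
  rw [e2, h3, h2]
  constructor
  · intro h4
    have h5 : analyticOrderAt g (c x) = 0 := by
      have : (M : ℕ∞) + analyticOrderAt g (c x) = M + 0 := by rw [h4, add_zero]
      exact (ENat.add_right_injective_of_ne_top (ENat.natCast_ne_top M)) this
    exact hg.analyticOrderAt_eq_zero.mp h5
  · intro h4
    rw [hg.analyticOrderAt_eq_zero.mpr h4, add_zero]

variable {f : X → ℂ → ℂ} {c : X → ℂ} {x₀ : X} {R : ℝ} {M : ℕ}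

theorem Fam.eventually (h : Fam f c x₀ R M) : ∀ᶠ x in 𝓝 x₀, c x ∈ Metric.ball (c x₀) R ∧
    (∀ w ∈ Metric.closedBall (c x₀) R, DifferentiableAt ℂ (f x) w) ∧
    AnalyticAt ℂ (f x) (c x) ∧ (M : ℕ∞) ≤ analyticOrderAt (f x) (c x) ∧
    (∀ w ∈ Metric.closedBall (c x₀) R, DifferentiableAt ℂ (quo f c M x) w) := by
  have h1 : ∀ᶠ x in 𝓝 x₀, c x ∈ Metric.ball (c x₀) R :=
    h.cc.eventually_mem (Metric.ball_mem_nhds _ h.pos)
  filter_upwards [h1, h.hol, h.ord] with x hx1 hx2 hx3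
  have han : AnalyticAt ℂ (f x) (c x) := by
    rw [Complex.analyticAt_iff_eventually_differentiableAt]
    filter_upwards [Metric.isOpen_ball.mem_nhds hx1] with w hw
    exact hx2 w (Metric.ball_subset_closedBall hw)
  refine ⟨hx1, hx2, han, hx3, fun w hw => ?_⟩
  by_cases hwc : w = c x
  · subst hwc
    obtain ⟨g, hg, _, hg3⟩ := quo_eq han hx3
    exact hg.differentiableAt.congr_of_eventuallyEq hg3
  · have e : quo f c M x =ᶠ[𝓝 w] fun w => f x w / (w - c x) ^ M := by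
      filter_upwards [isOpen_ne.mem_nhds hwc] with w' hw'
      exact quo_of_ne hw'
    refine DifferentiableAt.congr_of_eventuallyEq ?_ e
    refine (hx2 w hw).div (by fun_prop) ?_
    exact pow_ne_zero _ (sub_ne_zero.mpr hwc)

theorem Fam.continuousAt_ne (h : Fam f c x₀ R M) {w : ℂ} (hw : w ∈ Metric.closedBall (c x₀) R)
    (hwc : w ≠ c x₀) : ContinuousAt (fun p : X × ℂ => quo f c M p.1 p.2) (x₀, w) := by
  have hc1 : ContinuousAt (fun p : X × ℂ => c p.1) (x₀, w) := by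
    have : Tendsto (fun p : X × ℂ => p.1) (𝓝 (x₀, w)) (𝓝 x₀) := continuousAt_fst
    exact h.cc.tendsto.comp this
  have hc2 : ContinuousAt (fun p : X × ℂ => p.2 - c p.1) (x₀, w) := continuousAt_snd.sub hc1
  have h1 : ∀ᶠ p : X × ℂ in 𝓝 (x₀, w), p.2 - c p.1 ≠ 0 := hc2.eventually_ne (sub_ne_zero.mpr hwc)
  have e : (fun p : X × ℂ => quo f c M p.1 p.2) =ᶠ[𝓝 (x₀, w)]
      fun p => f p.1 p.2 / (p.2 - c p.1) ^ M := by
    filter_upwards [h1] with p hp
    exact quo_of_ne (sub_ne_zero.mp hp)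
  refine ContinuousAt.congr ?_ e.symm
  exact (h.cont w hw).div (hc2.pow M) (pow_ne_zero _ (sub_ne_zero.mpr hwc))

/-- The quotient is jointly continuous. -/
theorem Fam.continuousAt (h : Fam f c x₀ R M) {w : ℂ} (hw : w ∈ Metric.closedBall (c x₀) R) :
    ContinuousAt (fun p : X × ℂ => quo f c M p.1 p.2) (x₀, w) := by
  by_cases hwc : w = c x₀
  swap
  · exact h.continuousAt_ne hw hwc
  subst hwc
  rw [ContinuousAt, Metric.tendsto_nhds]
  intro ε hε
  obtain ⟨-, -, -, -, hd0⟩ := h.eventually.self_of_nhds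
  have hcen : c x₀ ∈ Metric.closedBall (c x₀) R := Metric.mem_closedBall_self h.pos.le
  -- uniform smallness on the circle
  have h1 : ∀ᶠ x in 𝓝 x₀, ∀ w ∈ Metric.sphere (c x₀) R,
      ‖quo f c M x w - quo f c M x₀ w‖ < ε / 2 := by
    refine (isCompact_sphere (c x₀) R).eventually_forall_of_forall_eventually
      (P := fun x w => ‖quo f c M x w - quo f c M x₀ w‖ < ε / 2) ?_
    intro w hw
    have hwb : w ∈ Metric.closedBall (c x₀) R := Metric.sphere_subset_closedBall hw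
    have hwne : w ≠ c x₀ := by
      rintro rfl
      rw [Metric.mem_sphere, dist_self] at hw
      exact h.pos.ne hw
    have c1 := h.continuousAt_ne hwb hwne
    have c2 : ContinuousAt (fun p : X × ℂ => quo f c M x₀ p.2) (x₀, w) := by
      have c3 : ContinuousAt (quo f c M x₀) w := (hd0 w hwb).continuousAt
      have c4 : Tendsto (fun p : X × ℂ => p.2) (𝓝 (x₀, w)) (𝓝 w) := continuousAt_snd
      exact c3.tendsto.comp c4
    have c5 : ContinuousAt (fun p : X × ℂ => ‖quo f c M p.1 p.2 - quo f c M x₀ p.2‖) (x₀, w) :=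
      (c1.sub c2).norm
    have c6 := c5.eventually_lt (continuousAt_const (y := ε / 2)) (by simp; positivity)
    exact c6
  have h2 : ∀ᶠ w in 𝓝 (c x₀), ‖quo f c M x₀ w - quo f c M x₀ (c x₀)‖ < ε / 2 := by
    have c3 : ContinuousAt (quo f c M x₀) (c x₀) := (hd0 _ hcen).continuousAt
    have c5 : ContinuousAt (fun w => ‖quo f c M x₀ w - quo f c M x₀ (c x₀)‖) (c x₀) :=
      (c3.sub continuousAt_const).norm
    exact c5.eventually_lt (continuousAt_const (y := ε / 2)) (by simp; positivity)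
  have h3 : ∀ᶠ w in 𝓝 (c x₀), w ∈ Metric.ball (c x₀) R := Metric.ball_mem_nhds _ h.pos
  rw [nhds_prod_eq]
  filter_upwards [(h1.and h.eventually).prod_mk (h2.and h3)] with p hp
  obtain ⟨⟨k1, k2⟩, k3, k4⟩ := hp
  have hclos : closure (Metric.ball (c x₀) R) = Metric.closedBall (c x₀) R :=
    closure_ball _ h.pos.ne'
  have hdc : DiffContOnCl ℂ (fun w => quo f c M p.1 w - quo f c M x₀ w)
      (Metric.ball (c x₀) R) := by
    apply DifferentiableOn.diffContOnCl
    rw [hclos]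
    intro w hw
    exact ((k2.2.2.2.2 w hw).sub (hd0 w hw)).differentiableWithinAt
  have h4 : ‖quo f c M p.1 p.2 - quo f c M x₀ p.2‖ ≤ ε / 2 := by
    refine Complex.norm_le_of_forall_mem_frontier_norm_le (U := Metric.ball (c x₀) R)
      (f := fun w => quo f c M p.1 w - quo f c M x₀ w) Metric.isBounded_ball hdc ?_
      (subset_closure k4)
    intro z hz
    rw [frontier_ball _ h.pos.ne'] at hz
    exact (k1 z hz).le
  rw [dist_eq_norm]
  calc ‖quo f c M p.1 p.2 - quo f c M x₀ (c x₀)‖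
      = ‖(quo f c M p.1 p.2 - quo f c M x₀ p.2) + (quo f c M x₀ p.2 - quo f c M x₀ (c x₀))‖ := by
        congr 1; ring
    _ ≤ _ := norm_add_le _ _
    _ < ε := by linarith

/-- If the zero at `x₀` has order exactly `M`, then so for nearby parameters, and there are no other
zeros nearby. -/
theorem Fam.exact_nearby (h : Fam f c x₀ R M) (hex : analyticOrderAt (f x₀) (c x₀) = M) :
    (∀ᶠ p : X × ℂ in 𝓝 (x₀, c x₀), p.2 ≠ c p.1 → f p.1 p.2 ≠ 0) ∧
      ∀ᶠ x in 𝓝 x₀, analyticOrderAt (f x) (c x) = M := by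
  obtain ⟨-, -, han, hle, -⟩ := h.eventually.self_of_nhds
  have hne : quo f c M x₀ (c x₀) ≠ 0 := (order_eq_iff_quo han hle).mp hex
  have hcont := h.continuousAt (Metric.mem_closedBall_self h.pos.le)
  have hev : ∀ᶠ p : X × ℂ in 𝓝 (x₀, c x₀), quo f c M p.1 p.2 ≠ 0 := hcont.eventually_ne hne
  constructor
  · filter_upwards [hev] with p hp hne2 h0
    apply hp
    rw [quo_of_ne hne2, h0, zero_div]
  · have h1 : Tendsto (fun x => (x, c x)) (𝓝 x₀) (𝓝 (x₀, c x₀)) := by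
      have : ContinuousAt (fun x => (x, c x)) x₀ := continuousAt_id.prodMk h.cc
      exact this
    filter_upwards [h1.eventually hev, h.eventually] with x hx hx2
    exact (order_eq_iff_quo hx2.2.2.1 hx2.2.2.2.1).mpr hx

/-- If the zero at `x₀` has order larger than `M`, then for nearby parameters either the order is
larger than `M` or there is another zero nearby. -/
theorem Fam.not_exact_nearby (h : Fam f c x₀ R M) (hex : analyticOrderAt (f x₀) (c x₀) ≠ M)
    (hiso : ∀ᶠ w in 𝓝[≠] (c x₀), f x₀ w ≠ 0) {V : Set ℂ} (hV : V ∈ 𝓝 (c x₀)) :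
    ∀ᶠ x in 𝓝 x₀, analyticOrderAt (f x) (c x) ≠ M ∨ ∃ w ∈ V, w ≠ c x ∧ f x w = 0 := by
  obtain ⟨-, -, han, hle, -⟩ := h.eventually.self_of_nhds
  have h0 : quo f c M x₀ (c x₀) = 0 := by
    by_contra hne
    exact hex ((order_eq_iff_quo han hle).mpr hne)
  obtain ⟨r, hr, hball⟩ : ∃ r > 0, ∀ w ∈ Metric.closedBall (c x₀) r, w ∈ V ∧
      w ∈ Metric.closedBall (c x₀) R ∧ (w ≠ c x₀ → f x₀ w ≠ 0) := by
    have h1 : ∀ᶠ w in 𝓝 (c x₀), w ∈ V ∧ w ∈ Metric.closedBall (c x₀) R ∧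
        (w ≠ c x₀ → f x₀ w ≠ 0) := by
      filter_upwards [hV, Metric.closedBall_mem_nhds _ h.pos, eventually_nhdsWithin_iff.mp hiso]
        with w h1 h2 h3
      exact ⟨h1, h2, h3⟩
    obtain ⟨r, hr, hsub⟩ := Metric.nhds_basis_closedBall.mem_iff.mp h1
    exact ⟨r, hr, fun w hw => hsub hw⟩
  have hH := hurwitz (X := X) (f := quo f c M) (x₀ := x₀) (w₀ := c x₀) hr
    (fun w hw => h.continuousAt (hball w hw).2.1)
    (by
      filter_upwards [h.eventually] with x hx w hw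
      exact hx.2.2.2.2 w (hball w hw).2.1) h0
    (by
      intro w hw
      have hwne : w ≠ c x₀ := by
        rintro rfl
        rw [Metric.mem_sphere, dist_self] at hw
        exact hr.ne hw
      rw [quo_of_ne hwne]
      exact div_ne_zero ((hball w (Metric.sphere_subset_closedBall hw)).2.2 hwne)
        (pow_ne_zero _ (sub_ne_zero.mpr hwne)))
  filter_upwards [hH, h.eventually] with x hx hx2
  obtain ⟨w, hw, hw0, -⟩ := hx
  by_cases hwc : w = c x
  · left
    subst hwc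
    intro h5
    exact (order_eq_iff_quo hx2.2.2.1 hx2.2.2.2.1).mp h5 hw0
  · right
    refine ⟨w, (hball w hw).1, hwc, ?_⟩
    rw [quo_of_ne hwc, div_eq_zero_iff] at hw0
    exact hw0.resolve_right (pow_ne_zero _ (sub_ne_zero.mpr hwc))

end Quot

end Pool.Agent.Helper31.Oper
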