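import Pool.Agent.Helper31.Oper.Fuchs
import Pool.Agent.Helper31.Oper.FlagTop
import Pool.Agent.Helper31.Oper.Quot
import Pool.Agent.Helper31.Oper.Dyn

/-!
Local analysis of families of opers.
-/

namespace Pool.Agent.Helper31.Oper

open LieAlgebra LieModule Module Filter Topology
open scoped UpperHalfPlane MatrixGroups

variable {𝔤 : Type*} [LieRing 𝔤] [LieAlgebra ℂ 𝔤] {d : ℕ}
variable [FiniteDimensional ℂ 𝔤] [TopologicalSpace 𝔤] [IsTopologicalAddGroup 𝔤]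
  [ContinuousSMul ℂ 𝔤] [T2Space 𝔤]

attribute [local irreducible] TT

theorem continuousAt_ofComplex {u : ℂ} (hu : 0 < u.im) :
    ContinuousAt (fun u : ℂ => UpperHalfPlane.ofComplex u) u :=
  (UpperHalfPlane.contMDiffAt_ofComplex (n := 0) hu).continuousAt

theorem tendsto_TT (hdim : ∀ b : Flag 𝔤, finrank ℂ b.alg.toSubmodule = d)
    {φ ψ : Fin d → Module.Dual ℂ 𝔤} {α : Type*} {l : Filter α} {f g : α → Flag 𝔤} {b b' : Flag 𝔤}
    (hφ : Good φ b) (hψ : Good ψ b') (hf : Tendsto f l (𝓝 b)) (hg : Tendsto g l (𝓝 b')) :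
    Tendsto (fun a => TT φ ψ (f a) (g a)) l (𝓝 (TT φ ψ b b')) := by
  have h1 : Tendsto (fun p : Flag 𝔤 × Flag 𝔤 => TT φ ψ p.1 p.2) (𝓝 (b, b'))
      (𝓝 (TT φ ψ b b')) := continuousAt_TT hdim hφ hψ
  have h2 : Tendsto (fun a => (f a, g a)) l (𝓝 (b, b')) := hf.prodMk_nhds hg
  exact h1.comp h2

section Family

variable {X : Type*} [TopologicalSpace X] {Dx : X → ℍ → Flag 𝔤}

omit [FiniteDimensional ℂ 𝔤] [IsTopologicalAddGroup 𝔤] [ContinuousSMul ℂ 𝔤] [T2Space 𝔤] in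
theorem continuousAt_lft (hc : Continuous fun p : X × ℍ => Dx p.1 p.2) (x₀ : X) {u : ℂ}
    (hu : 0 < u.im) : ContinuousAt (fun p : X × ℂ => lft (Dx p.1) p.2) (x₀, u) := by
  have h1 : ContinuousAt (fun p : X × ℂ => (p.1, UpperHalfPlane.ofComplex p.2)) (x₀, u) := by
    refine continuousAt_fst.prodMk ?_
    have h2 : Tendsto (fun p : X × ℂ => p.2) (𝓝 (x₀, u)) (𝓝 u) := continuousAt_snd
    exact (continuousAt_ofComplex hu).tendsto.comp h2
  exact (hc.tendsto _).comp h1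

theorem eventually_good_ball (hdim : ∀ b : Flag 𝔤, finrank ℂ b.alg.toSubmodule = d)
    (hc : Continuous fun p : X × ℍ => Dx p.1 p.2) (x₀ : X) {ψ : Fin d → Module.Dual ℂ 𝔤}
    {K : Set ℂ} (hK : IsCompact K) (hKpos : ∀ u ∈ K, 0 < u.im)
    (hg : ∀ u ∈ K, Good ψ (lft (Dx x₀) u)) :
    ∀ᶠ x in 𝓝 x₀, ∀ u ∈ K, Good ψ (lft (Dx x) u) := by
  refine hK.eventually_forall_of_forall_eventually (P := fun x u => Good ψ (lft (Dx x) u)) ?_
  intro u hu
  exact (continuousAt_lft hc x₀ (hKpos u hu)).tendsto.eventually (eventually_good hdim (hg u hu))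

theorem exists_radius_good (hdim : ∀ b : Flag 𝔤, finrank ℂ b.alg.toSubmodule = d)
    (hc : Continuous fun p : X × ℍ => Dx p.1 p.2) (x₀ : X) {ψ : Fin d → Module.Dual ℂ 𝔤}
    {w : ℍ} (hg : Good ψ (Dx x₀ w)) :
    ∀ᶠ u in 𝓝 (w : ℂ), 0 < u.im ∧ Good ψ (lft (Dx x₀) u) := by
  have h1 := UpperHalfPlane.isOpen_upperHalfPlaneSet.mem_nhds w.im_pos
  have h2 : ContinuousAt (fun u : ℂ => lft (Dx x₀) u) (w : ℂ) := by
    have h3 := continuousAt_lft hc x₀ (u := (w : ℂ)) w.im_pos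
    have h4 : ContinuousAt (fun u : ℂ => (x₀, u)) (w : ℂ) := by fun_prop
    have h5 : Tendsto (fun u : ℂ => (x₀, u)) (𝓝 (w : ℂ)) (𝓝 (x₀, (w : ℂ))) := h4
    exact h3.tendsto.comp h5
  have h3 : ∀ᶠ u in 𝓝 (w : ℂ), Good ψ (lft (Dx x₀) u) := by
    refine h2.tendsto.eventually (eventually_good hdim ?_)
    rw [lft_coe]; exact hg
  filter_upwards [h1, h3] with u hu1 hu2 using ⟨hu1, hu2⟩

variable [IsKilling ℂ 𝔤]

/-- The family of scalar functions near the diagonal. -/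
theorem mkFam (hdim : ∀ b : Flag 𝔤, finrank ℂ b.alg.toSubmodule = d)
    (hc : Continuous fun p : X × ℍ => Dx p.1 p.2)
    (hop : ∀ x, ∀ z : ℍ, IsOperAt (fun w : ℂ => Dx x (UpperHalfPlane.ofComplex w)) z)
    {M : ℕ} (hM : ∀ x z, Mdeg (Dx x z) = M) {zc : X → ℍ} (hzc : Continuous zc) (x₀ : X)
    {φ : Fin d → Module.Dual ℂ 𝔤} (hφ : Good φ (Dx x₀ (zc x₀))) :
    ∃ R : ℝ, Fam (fun x u => TT φ φ (Dx x (zc x)) (lft (Dx x) u)) (fun x => (zc x : ℂ)) x₀ R M := by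
  obtain ⟨R, hR, hball⟩ := Metric.nhds_basis_closedBall.mem_iff.mp
    (exists_radius_good hdim hc x₀ hφ)
  have hcz : Continuous fun x => Dx x (zc x) := hc.comp (continuous_id.prodMk hzc)
  have hgz : ∀ᶠ x in 𝓝 x₀, Good φ (Dx x (zc x)) := (hcz.tendsto x₀).eventually
    (eventually_good hdim hφ)
  have hgb := eventually_good_ball hdim hc x₀ (isCompact_closedBall (zc x₀ : ℂ) R)
    (fun u hu => (hball hu).1) (fun u hu => (hball hu).2)
  refine ⟨R, hR, ?_, ?_, ?_, ?_⟩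
  · exact (UpperHalfPlane.continuous_coe.comp hzc).continuousAt
  · intro u hu
    have h3 : Tendsto (fun p : X × ℂ => p.1) (𝓝 (x₀, u)) (𝓝 x₀) := continuousAt_fst
    exact tendsto_TT hdim hφ (hball hu).2 ((hcz.tendsto x₀).comp h3)
      (continuousAt_lft hc x₀ (hball hu).1)
  · filter_upwards [hgz, hgb] with x hx1 hx2 u hu
    have hpos : 0 < u.im := (hball hu).1
    exact differentiableAt_TT hdim _ (isOperAt_lft (hop x) u hpos).1 hx1 (hx2 u hu)
  · filter_upwards [hgz] with x hx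
    have h1 := order_TT hdim UpperHalfPlane.isOpen_upperHalfPlaneSet (isOperAt_lft (hop x))
      (z := (zc x : ℂ)) (zc x).im_pos (φ := φ) (by rw [lft_coe]; exact hx)
    rw [lft_coe, hM] at h1
    exact h1

/-- Near an exact point of a family all points are exact and there are no other zeros. -/
theorem local_exact (hdim : ∀ b : Flag 𝔤, finrank ℂ b.alg.toSubmodule = d)
    (hc : Continuous fun p : X × ℍ => Dx p.1 p.2)
    (hop : ∀ x, ∀ z : ℍ, IsOperAt (fun w : ℂ => Dx x (UpperHalfPlane.ofComplex w)) z)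
    {M : ℕ} (hM : ∀ x z, Mdeg (Dx x z) = M) {zc : X → ℍ} (hzc : Continuous zc) (x₀ : X)
    (hex : ExactAt d (lft (Dx x₀)) (zc x₀) M) :
    (∀ᶠ p : X × ℍ in 𝓝 (x₀, zc x₀), p.2 ≠ zc p.1 →
      Flag.Transverse (Dx p.1 (zc p.1)) (Dx p.1 p.2)) ∧
      ∀ᶠ x in 𝓝 x₀, ExactAt d (lft (Dx x)) (zc x) M := by
  obtain ⟨v, hv⟩ := exists_baseD hdim (Dx x₀ (zc x₀))
  obtain ⟨φ, hφ⟩ := exists_good hv
  obtain ⟨R, hFam⟩ := mkFam hdim hc hop hM hzc x₀ hφ
  have hφ' : Good φ (lft (Dx x₀) (zc x₀)) := by rw [lft_coe]; exact hφ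
  have h1 := hex φ hφ'
  rw [lft_coe] at h1
  obtain ⟨h2, h3⟩ := hFam.exact_nearby h1
  have hcz : Continuous fun x => Dx x (zc x) := hc.comp (continuous_id.prodMk hzc)
  have hgz : ∀ᶠ x in 𝓝 x₀, Good φ (Dx x (zc x)) := (hcz.tendsto x₀).eventually
    (eventually_good hdim hφ)
  constructor
  · have h4 : ContinuousAt (fun p : X × ℍ => (p.1, (p.2 : ℂ))) (x₀, zc x₀) := by
      exact (continuous_fst.prodMk (UpperHalfPlane.continuous_coe.comp continuous_snd)).continuousAt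
    have h5 : Tendsto (fun p : X × ℍ => (p.1, (p.2 : ℂ))) (𝓝 (x₀, zc x₀))
      (𝓝 (x₀, (zc x₀ : ℂ))) := h4
    have h6 : ∀ᶠ p : X × ℍ in 𝓝 (x₀, zc x₀), Good φ (Dx p.1 (zc p.1)) := by
      have : Tendsto (fun p : X × ℍ => p.1) (𝓝 (x₀, zc x₀)) (𝓝 x₀) := continuousAt_fst
      exact this.eventually hgz
    have h7 : ∀ᶠ p : X × ℍ in 𝓝 (x₀, zc x₀), Good φ (Dx p.1 p.2) :=
      (hc.tendsto (x₀, zc x₀)).eventually (eventually_good hdim hφ)
    filter_upwards [h5.eventually h2, h6, h7] with p hp1 hp2 hp3 hne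
    by_contra hnt
    have hne' : (p.2 : ℂ) ≠ (zc p.1 : ℂ) := fun h => hne (UpperHalfPlane.ext h)
    apply hp1 hne'
    rw [lft_coe]
    exact (TT_eq_zero_iff hp2 hp3).mpr hnt
  · filter_upwards [h3, hgz] with x hx1 hx2
    have h8 : Good φ (lft (Dx x) (zc x)) := by rw [lft_coe]; exact hx2
    refine exactAt_of hdim (isOperAt_lft (hop x) _ (zc x).im_pos).1 h8 ?_
    rw [lft_coe]
    exact hx1

/-- If a point is not exact, then nearby either it is not exact or there is another zero. -/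
theorem local_not_exact (hdim : ∀ b : Flag 𝔤, finrank ℂ b.alg.toSubmodule = d)
    (hc : Continuous fun p : X × ℍ => Dx p.1 p.2)
    (hop : ∀ x, ∀ z : ℍ, IsOperAt (fun w : ℂ => Dx x (UpperHalfPlane.ofComplex w)) z)
    {M : ℕ} (hM : ∀ x z, Mdeg (Dx x z) = M) (z : ℍ) (x₀ : X)
    (hex : ¬ ExactAt d (lft (Dx x₀)) z M) :
    ∀ᶠ x in 𝓝 x₀, ¬ ExactAt d (lft (Dx x)) z M ∨
      ∃ w : ℍ, w ≠ z ∧ ¬ Flag.Transverse (Dx x z) (Dx x w) := by
  unfold ExactAt at hex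
  push Not at hex
  obtain ⟨φ, hφ', hord⟩ := hex
  have hφ : Good φ (Dx x₀ z) := by rwa [lft_coe] at hφ'
  obtain ⟨R, hFam⟩ := mkFam hdim hc hop hM (zc := fun _ => z) continuous_const x₀ hφ
  rw [lft_coe] at hord
  have hiso := TT_isolated hdim UpperHalfPlane.isOpen_upperHalfPlaneSet (isOperAt_lft (hop x₀))
    z.im_pos hφ hφ'
  have hV := exists_radius_good hdim hc x₀ hφ
  obtain ⟨r, hr, hball⟩ := Metric.nhds_basis_closedBall.mem_iff.mp hV
  have h1 := hFam.not_exact_nearby hord hiso (V := Metric.closedBall (z : ℂ) r)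
    (Metric.closedBall_mem_nhds _ hr)
  have hgb := eventually_good_ball hdim hc x₀ (isCompact_closedBall (z : ℂ) r)
    (fun u hu => (hball hu).1) (fun u hu => (hball hu).2)
  filter_upwards [h1, hgb] with x hx1 hx2
  have hgz : Good φ (lft (Dx x) z) := hx2 z (Metric.mem_closedBall_self hr.le)
  rcases hx1 with h2 | ⟨w, hw, hwz, hw0⟩
  · left
    intro h3
    have h4 := h3 φ hgz
    rw [lft_coe] at h4
    exact h2 h4
  · right
    have hwpos : 0 < w.im := (hball hw).1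
    refine ⟨⟨w, hwpos⟩, ?_, ?_⟩
    · intro h
      apply hwz
      rw [← h]
    · have h3 := hx2 w hw
      rw [lft_coe] at hgz
      have h4 : lft (Dx x) w = Dx x ⟨w, hwpos⟩ := by
        unfold lft
        rw [UpperHalfPlane.ofComplex_apply_of_im_pos hwpos]
      rw [← h4]
      exact (TT_eq_zero_iff hgz h3).mp hw0

/-- Non-transversality off the diagonal persists. -/
theorem local_not_transverse (hdim : ∀ b : Flag 𝔤, finrank ℂ b.alg.toSubmodule = d)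
    (hc : Continuous fun p : X × ℍ => Dx p.1 p.2)
    (hop : ∀ x, ∀ z : ℍ, IsOperAt (fun w : ℂ => Dx x (UpperHalfPlane.ofComplex w)) z)
    {z w : ℍ} (hzw : z ≠ w) (x₀ : X) (hnt : ¬ Flag.Transverse (Dx x₀ z) (Dx x₀ w)) :
    ∀ᶠ x in 𝓝 x₀, ∃ w' : ℍ, w' ≠ z ∧ ¬ Flag.Transverse (Dx x z) (Dx x w') := by
  obtain ⟨v, hv⟩ := exists_baseD hdim (Dx x₀ z)
  obtain ⟨φ, hφ⟩ := exists_good hv
  obtain ⟨u, hu⟩ := exists_baseD hdim (Dx x₀ w)
  obtain ⟨ψ, hψ⟩ := exists_good hu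
  have hψ' : Good ψ (lft (Dx x₀) w) := by rw [lft_coe]; exact hψ
  have hiso := TT_isolated hdim UpperHalfPlane.isOpen_upperHalfPlaneSet (isOperAt_lft (hop x₀))
    w.im_pos hφ hψ'
  have hne : ∀ᶠ u in 𝓝 (w : ℂ), u ≠ (z : ℂ) :=
    isOpen_ne.mem_nhds fun h => hzw (UpperHalfPlane.ext h).symm
  obtain ⟨r, hr, hball⟩ := Metric.nhds_basis_closedBall.mem_iff.mp
    ((exists_radius_good hdim hc x₀ hψ).and (hne.and (eventually_nhdsWithin_iff.mp hiso)))
  have hcz : Continuous fun x => Dx x z := hc.comp (continuous_id.prodMk continuous_const)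
  have hgz : ∀ᶠ x in 𝓝 x₀, Good φ (Dx x z) := (hcz.tendsto x₀).eventually
    (eventually_good hdim hφ)
  have hgb := eventually_good_ball hdim hc x₀ (isCompact_closedBall (w : ℂ) r)
    (fun u hu => (hball hu).1.1) (fun u hu => (hball hu).1.2)
  have hH := hurwitz (X := X) (f := fun x u => TT φ ψ (Dx x z) (lft (Dx x) u)) (x₀ := x₀)
    (w₀ := (w : ℂ)) hr
    (by
      intro u hu
      have h3 : Tendsto (fun p : X × ℂ => p.1) (𝓝 (x₀, u)) (𝓝 x₀) := continuousAt_fst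
      exact tendsto_TT hdim hφ (hball hu).1.2 ((hcz.tendsto x₀).comp h3)
        (continuousAt_lft hc x₀ (hball hu).1.1))
    (by
      filter_upwards [hgz, hgb] with x hx1 hx2 u hu
      have hpos : 0 < u.im := (hball hu).1.1
      exact differentiableAt_TT hdim _ (isOperAt_lft (hop x) u hpos).1 hx1 (hx2 u hu))
    (by
      change TT φ ψ (Dx x₀ z) (lft (Dx x₀) (w : ℂ)) = 0
      rw [lft_coe]
      exact (TT_eq_zero_iff hφ hψ).mpr hnt)
    (by
      intro u hu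
      refine (hball (Metric.sphere_subset_closedBall hu)).2.2 ?_
      rintro rfl
      rw [Metric.mem_sphere, dist_self] at hu
      exact hr.ne hu)
  filter_upwards [hH, hgz, hgb] with x hx1 hx2 hx3
  obtain ⟨u, hu, hu0, -⟩ := hx1
  have hpos : 0 < u.im := (hball hu).1.1
  refine ⟨⟨u, hpos⟩, ?_, ?_⟩
  · intro h
    apply (hball hu).2.1
    rw [← h]
  · have h4 : lft (Dx x) u = Dx x ⟨u, hpos⟩ := by
      unfold lft
      rw [UpperHalfPlane.ofComplex_apply_of_im_pos hpos]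
    rw [← h4]
    exact (TT_eq_zero_iff hx2 (hx3 u hu)).mp hu0

end Family

end Pool.Agent.Helper31.Oper
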