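import Pool.Agent.Helper31.Oper.Path1

/-!
Quasi-Hitchin opers are transverse.
-/

namespace Pool.Agent.Helper31.Oper

open LieAlgebra LieModule Module Filter Topology
open scoped UpperHalfPlane MatrixGroups

variable {𝔤 : Type*} [LieRing 𝔤] [LieAlgebra ℂ 𝔤] {d : ℕ}
variable [FiniteDimensional ℂ 𝔤] [TopologicalSpace 𝔤] [IsTopologicalAddGroup 𝔤]
  [ContinuousSMul ℂ 𝔤] [T2Space 𝔤]
variable {G : Type*} [Group G] [TopologicalSpace G] {Γ : Type*} [Group Γ] [MulAction Γ ℍ]
  {Ad : G → (𝔤 ≃ₗ⁅ℂ⁆ 𝔤)}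

attribute [local irreducible] TT

omit [TopologicalSpace G] in
/-- Exactness is invariant under the group. -/
theorem exactAt_of_smul (hdim : ∀ b : Flag 𝔤, finrank ℂ b.alg.toSubmodule = d)
    (hΓ : IsSurfaceGroup Γ) {D : ℍ → Flag 𝔤} {ρ : Γ →* G} (hop : IsOper Ad D ρ) (γ : Γ) (z : ℍ)
    {M : ℕ} (h : ExactAt d (lft D) ((γ • z : ℍ) : ℂ) M) : ExactAt d (lft D) z M := by
  intro φ hφ
  rw [lft_coe] at hφ
  obtain ⟨g, hg⟩ := hΓ.mobius γ
  set A := Ad (ρ γ) with hA
  let ψ : Fin d → Module.Dual ℂ 𝔤 := fun k => (φ k).comp A.symm.toLinearEquiv.toLinearMap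
  have hψφ : (fun k => (ψ k).comp A.toLinearEquiv.toLinearMap) = φ := by
    funext k
    ext x
    change φ k (A.symm (A x)) = φ k x
    rw [A.symm_apply_apply]
  have heq : D (γ • z) = Flag.map A (D z) := hop.equivariant γ z
  have hψ : Good ψ (Flag.map A (D z)) := by
    obtain ⟨v, hv⟩ := exists_baseD hdim (D z)
    refine ⟨fun i => A (v i), hv.map A, ?_⟩
    rw [dd_map, hψφ]
    exact hφ.ne hv
  have h1 := h ψ (by rw [lft_coe, heq]; exact hψ)
  rw [lft_coe, heq] at h1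
  let gl : GL (Fin 2) ℝ := Matrix.SpecialLinearGroup.mapGL ℝ g
  have hgl : 0 < gl.val.det := by
    have : gl.val.det = 1 := by
      change (Matrix.SpecialLinearGroup.mapGL ℝ g).val.det = 1
      simp
    rw [this]
    exact one_pos
  have hsm : ∀ w : ℍ, gl • w = γ • w := fun w => (hg w).symm
  have han := UpperHalfPlane.analyticAt_smul hgl z
  have hder := UpperHalfPlane.deriv_smul_ne_zero hgl z
  have h2 := analyticOrderAt_comp_of_deriv_ne_zero
    (f := fun u => TT ψ ψ (Flag.map A (D z)) (lft D u)) han hder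
  have e1 : ((gl • UpperHalfPlane.ofComplex (z : ℂ) : ℍ) : ℂ) = ((γ • z : ℍ) : ℂ) := by
    rw [UpperHalfPlane.ofComplex_apply, hsm]
  rw [e1, h1] at h2
  rw [← h2, lft_coe]
  congr 1
  funext u
  have e2 : lft D ((gl • UpperHalfPlane.ofComplex u : ℍ) : ℂ) = Flag.map A (lft D u) := by
    rw [lft_coe, hsm, hop.equivariant]
    rfl
  simp only [Function.comp_apply]
  rw [e2, TT_map hdim, hψφ]

omit [Group Γ] [MulAction Γ ℍ] in
theorem tendsto_ofDisc (x : Circle) : ∃ p : ℕ → ℍ,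
    Tendsto (fun n => toDisc (p n)) atTop (𝓝 (x : ℂ)) := by
  have hlt : ∀ n : ℕ, ‖(((1 - 1 / ((n : ℝ) + 1) : ℝ)) : ℂ) * (x : ℂ)‖ < 1 := by
    intro n
    have h1 : (0 : ℝ) < 1 / ((n : ℝ) + 1) := by positivity
    have h2 : 1 / ((n : ℝ) + 1) ≤ 1 := by
      rw [div_le_one (by positivity)]
      linarith [Nat.cast_nonneg (α := ℝ) n]
    rw [norm_mul, Circle.norm_coe, mul_one, Complex.norm_real, Real.norm_eq_abs,
      abs_of_nonneg (by linarith)]
    linarith
  refine ⟨fun n => ofDisc _ (hlt n), ?_⟩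
  simp only [toDisc_ofDisc]
  have h1 : Tendsto (fun n : ℕ => (1 - 1 / ((n : ℝ) + 1) : ℝ)) atTop (𝓝 (1 - 0)) :=
    tendsto_const_nhds.sub tendsto_one_div_add_atTop_nhds_zero_nat
  rw [sub_zero] at h1
  have h2 : Tendsto (fun n : ℕ => (((1 - 1 / ((n : ℝ) + 1) : ℝ)) : ℂ)) atTop (𝓝 ((1 : ℝ) : ℂ)) :=
    (Complex.continuous_ofReal.tendsto _).comp h1
  have h3 := h2.mul_const (x : ℂ)
  simpa using h3

theorem exists_orbit_seq (hΓ : IsSurfaceGroup Γ) (x : Circle) : ∃ γ : ℕ → Γ,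
    Tendsto (fun n => toDisc (γ n • UpperHalfPlane.I)) atTop (𝓝 (x : ℂ)) := by
  obtain ⟨R, hR, hRR⟩ := hΓ.exists_radius
  obtain ⟨p, hp⟩ := tendsto_ofDisc x
  choose γ hγ using fun n => hRR (p n)
  refine ⟨γ, ?_⟩
  have hd := tendsto_dist_atTop hp
  have hdir := tendsto_dir hp
  have hlen : Tendsto (fun n => dist (γ n • UpperHalfPlane.I) UpperHalfPlane.I) atTop atTop := by
    have h1 : Tendsto (fun n => dist (p n) UpperHalfPlane.I - R) atTop atTop :=
      tendsto_atTop_add_const_right _ _ hd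
    refine tendsto_atTop_mono (fun n => ?_) h1
    have := dist_triangle (p n) (γ n • UpperHalfPlane.I) UpperHalfPlane.I
    linarith [hγ n]
  refine tendsto_toDisc_of_dir ?_ hlen
  have h2 : Tendsto (fun n => dist (dir (γ n • UpperHalfPlane.I)) (dir (p n))) atTop (𝓝 0) := by
    have h3 : Tendsto (fun n => 6 * Real.exp (2 * R - dist (p n) UpperHalfPlane.I)) atTop
        (𝓝 0) := by
      have h4 : Tendsto (fun n => Real.exp (2 * R - dist (p n) UpperHalfPlane.I)) atTop (𝓝 0) := by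
        refine Real.tendsto_exp_atBot.comp ?_
        have h5 : Tendsto (fun n => -dist (p n) UpperHalfPlane.I) atTop atBot :=
          tendsto_neg_atTop_atBot.comp hd
        have h6 := tendsto_atBot_add_const_left atTop (2 * R) h5
        exact h6
      simpa using h4.const_mul 6
    refine squeeze_zero (fun n => dist_nonneg) (fun n => ?_) h3
    rw [dist_comm]
    refine dir_close (C := 2 * R) (by positivity) ?_
    have := dist_triangle (p n) (γ n • UpperHalfPlane.I) UpperHalfPlane.I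
    linarith [hγ n]
  exact (tendsto_iff_of_dist h2).mpr hdir

variable [IsKilling ℂ 𝔤]

omit [TopologicalSpace G] in
/-- Lemma A: a transverse oper with Anosov holonomy is transverse to its limit map. -/
theorem transverse_limit (hΓ : IsSurfaceGroup Γ) {D : ℍ → Flag 𝔤} {ρ : Γ →* G}
    (hop : IsOper Ad D ρ) (htr : ∀ z w : ℍ, z ≠ w → Flag.Transverse (D z) (D w))
    {ξ : Circle → Flag 𝔤}
    (hdyn : ∀ (γ : ℕ → Γ) (x y : Circle),
      Tendsto (fun n => toDisc (γ n • UpperHalfPlane.I)) atTop (𝓝 (x : ℂ)) →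
      Tendsto (fun n => toDisc ((γ n)⁻¹ • UpperHalfPlane.I)) atTop (𝓝 (y : ℂ)) →
      ∀ (b : ℕ → Flag 𝔤) (b' : Flag 𝔤), Tendsto b atTop (𝓝 b') → Flag.Transverse b' (ξ y) →
        Tendsto (fun n => Flag.map (Ad (ρ (γ n))) (b n)) atTop (𝓝 (ξ x)))
    (w : ℍ) (x : Circle) : Flag.Transverse (D w) (ξ x) := by
  by_contra hnt
  have hΩ := UpperHalfPlane.isOpen_upperHalfPlaneSet
  have hop' := isOperAt_lft hop.oper
  have hnt' : ¬ Flag.Transverse (ξ x) (lft D w) := by
    rw [lft_coe]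
    exact fun h => hnt h.symm
  -- a neighbourhood of `w`
  have hV : {u : ℂ | 0 < u.im ∧ dist (UpperHalfPlane.ofComplex u) w < 1} ∈ 𝓝 (w : ℂ) := by
    have h1 := hΩ.mem_nhds w.im_pos
    have h2 : ∀ᶠ u in 𝓝 (w : ℂ), dist (UpperHalfPlane.ofComplex u) w < 1 := by
      have h3 := continuousAt_ofComplex w.im_pos
      have h4 : ContinuousAt (fun u : ℂ => dist (UpperHalfPlane.ofComplex u) w) (w : ℂ) :=
        h3.dist continuousAt_const
      refine h4.eventually_lt continuousAt_const ?_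
      rw [UpperHalfPlane.ofComplex_apply, dist_self]
      exact one_pos
    filter_upwards [h1, h2] with u hu1 hu2 using ⟨hu1, hu2⟩
  have hpers := persistence hΩ hop' w.im_pos hnt' hV
  -- a sequence of group elements
  obtain ⟨γ, hγ⟩ := exists_orbit_seq hΓ x
  obtain ⟨y, φ, hφ, hy⟩ := CompactSpace.tendsto_subseq (fun n => dr (γ n)⁻¹)
  have hγφ : Tendsto (fun n => toDisc (γ (φ n) • UpperHalfPlane.I)) atTop (𝓝 (x : ℂ)) :=
    hγ.comp hφ.tendsto_atTop
  have hlen : Tendsto (fun n => dist (γ (φ n) • UpperHalfPlane.I) UpperHalfPlane.I) atTop atTop :=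
    tendsto_dist_atTop hγφ
  have hyφ : Tendsto (fun n => toDisc ((γ (φ n))⁻¹ • UpperHalfPlane.I)) atTop (𝓝 (y : ℂ)) := by
    refine tendsto_toDisc_of_dir hy ?_
    refine hlen.congr fun n => ?_
    rw [← hΓ.dist_smul (γ (φ n))⁻¹, inv_smul_smul, dist_comm]
  obtain ⟨u, hu, hu2⟩ := exists_transverse_near hΩ hop' (w0 := (w : ℂ)) w.im_pos (ξ y) univ_mem
  have hupos : 0 < u.im := hu.2
  have e1 : lft D u = D ⟨u, hupos⟩ := by
    unfold lft
    rw [UpperHalfPlane.ofComplex_apply_of_im_pos hupos]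
  rw [e1] at hu2
  set z1 : ℍ := ⟨u, hupos⟩ with hz1
  have hlim := hdyn (fun n => γ (φ n)) x y hγφ hyφ (fun _ => D z1) (D z1) tendsto_const_nhds
    hu2.symm
  have hdist : Tendsto (fun n => dist (γ (φ n) • z1) w) atTop atTop := by
    have h1 : Tendsto (fun n => dist (γ (φ n) • UpperHalfPlane.I) UpperHalfPlane.I +
        (-(dist UpperHalfPlane.I z1) - dist w UpperHalfPlane.I)) atTop atTop :=
      tendsto_atTop_add_const_right _ _ hlen
    refine tendsto_atTop_mono (fun n => ?_) h1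
    have t1 := dist_triangle4 (γ (φ n) • UpperHalfPlane.I) (γ (φ n) • z1) w UpperHalfPlane.I
    rw [hΓ.dist_smul] at t1
    linarith
  obtain ⟨n, hn1, hn2⟩ := ((hlim.eventually hpers).and
    (hdist.eventually (eventually_ge_atTop 1))).exists
  obtain ⟨u', hu'1, hu'2⟩ := hn1
  have hu'pos : 0 < u'.im := hu'1.1
  have e2 : lft D u' = D ⟨u', hu'pos⟩ := by
    unfold lft
    rw [UpperHalfPlane.ofComplex_apply_of_im_pos hu'pos]
  rw [e2, ← hop.equivariant] at hu'2
  apply hu'2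
  apply htr
  intro h
  have h3 := hu'1.2
  rw [UpperHalfPlane.ofComplex_apply_of_im_pos hu'pos, ← h] at h3
  exact absurd hn2 (not_le.mpr h3)

end Pool.Agent.Helper31.Oper
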