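import Pool.Agent.Helper31.Oper.Path2

/-!
The clopen argument: quasi-Hitchin opers are transverse.
-/

namespace Pool.Agent.Helper31.Oper

open LieAlgebra LieModule Module Filter Topology
open scoped UpperHalfPlane MatrixGroups

theorem uniform_dynamics' {F : Type*} [TopologicalSpace F] [CompactSpace F]
    [TopologicalSpace.MetrizableSpace F] {Γ : Type*} [Group Γ] [MulAction Γ ℍ]
    {X : Type*} [TopologicalSpace X] (hΓ : IsSurfaceGroup Γ)
    (act : X → Γ → F → F) (hmul : ∀ t γ γ' b, act t (γ * γ') b = act t γ (act t γ' b)) (t₀ : X)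
    (hcont : ∀ γ b, ContinuousAt (fun p : X × F => act p.1 γ p.2) (t₀, b))
    {T : Set (F × F)} (hT : IsOpen T) {ξ : Circle → F} (hξ : Continuous ξ)
    (hξT : ∀ x y, x ≠ y → (ξ x, ξ y) ∈ T)
    (hdyn : ∀ (γ : ℕ → Γ) (x y : Circle),
      Tendsto (fun n => toDisc (γ n • UpperHalfPlane.I)) atTop (𝓝 (x : ℂ)) →
      Tendsto (fun n => toDisc ((γ n)⁻¹ • UpperHalfPlane.I)) atTop (𝓝 (y : ℂ)) →
      ∀ (b : ℕ → F) (b' : F), Tendsto b atTop (𝓝 b') → (b', ξ y) ∈ T →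
        Tendsto (fun n => act t₀ (γ n) (b n)) atTop (𝓝 (ξ x)))
    {t : ℕ → X} {γ : ℕ → Γ} {x y : Circle} (ht : Tendsto t atTop (𝓝 t₀))
    (hx : Tendsto (fun n => toDisc (γ n • UpperHalfPlane.I)) atTop (𝓝 (x : ℂ)))
    (hy : Tendsto (fun n => toDisc ((γ n)⁻¹ • UpperHalfPlane.I)) atTop (𝓝 (y : ℂ)))
    {b : ℕ → F} {b' : F} (hb : Tendsto b atTop (𝓝 b')) (hb' : (b', ξ y) ∈ T) :
    Tendsto (fun n => act (t n) (γ n) (b n)) atTop (𝓝 (ξ x)) := by
  let _ : MetricSpace F := TopologicalSpace.metrizableSpaceMetric F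
  exact uniform_dynamics hΓ act hmul t₀ hcont hT hξ hξT hdyn ht hx hy hb hb'

variable {𝔤 : Type*} [LieRing 𝔤] [LieAlgebra ℂ 𝔤] {d : ℕ}
variable [FiniteDimensional ℂ 𝔤] [TopologicalSpace 𝔤] [IsTopologicalAddGroup 𝔤]
  [ContinuousSMul ℂ 𝔤] [T2Space 𝔤]

theorem Flag.metrizable (hdim : ∀ b : Flag 𝔤, finrank ℂ b.alg.toSubmodule = d) :
    TopologicalSpace.MetrizableSpace (Flag 𝔤) := by
  have h1 := Flag.t2Space hdim
  have h2 := Flag.compactSpace hdim
  have h3 : SecondCountableTopology (Flag 𝔤) := Flag.secondCountable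
  infer_instance

variable [IsKilling ℂ 𝔤]
variable {G : Type*} [Group G] [TopologicalSpace G] {Γ : Type*} [Group Γ] [MulAction Γ ℍ]
  {Ad : G → (𝔤 ≃ₗ⁅ℂ⁆ 𝔤)}

section Clopen

variable {X : Type*} [TopologicalSpace X] [FirstCountableTopology X]
  {Dt : X → ℍ → Flag 𝔤} {ρt : X → Γ →* G}

omit [TopologicalSpace G] [FirstCountableTopology X] in
/-- Openness of exactness. -/
theorem open_exact (hdim : ∀ b : Flag 𝔤, finrank ℂ b.alg.toSubmodule = d)
    (hΓ : IsSurfaceGroup Γ) (hc : Continuous fun p : X × ℍ => Dt p.1 p.2)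
    (hop : ∀ t, IsOper Ad (Dt t) (ρt t)) {M : ℕ} (hM : ∀ t z, Mdeg (Dt t z) = M) {t : X}
    (hex : ∀ z : ℍ, ExactAt d (lft (Dt t)) z M) :
    ∀ᶠ s in 𝓝 t, ∀ z : ℍ, ExactAt d (lft (Dt s)) z M := by
  obtain ⟨K, hK, hK2⟩ := hΓ.cocompact
  have hc' : Continuous fun p : (X × ℍ) × ℍ => Dt p.1.1 p.2 :=
    hc.comp ((continuous_fst.comp continuous_fst).prodMk continuous_snd)
  have h1 : ∀ᶠ s in 𝓝 t, ∀ z ∈ K, ExactAt d (lft (Dt s)) (z : ℍ) M := by
    refine hK.eventually_forall_of_forall_eventually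
      (P := fun s (z : ℍ) => ExactAt d (lft (Dt s)) (z : ℂ) M) ?_
    intro z _
    exact (local_exact (X := X × ℍ) (Dx := fun x => Dt x.1) hdim hc' (fun x => (hop x.1).oper)
      (fun x => hM x.1) (zc := fun x => x.2) continuous_snd (t, z) (hex z)).2
  filter_upwards [h1] with s hs z
  obtain ⟨γ, hγ⟩ := hK2 z
  exact exactAt_of_smul hdim hΓ (hop s) γ z (hs _ hγ)

/-- Openness of transversality. -/
theorem open_transverse (hdim : ∀ b : Flag 𝔤, finrank ℂ b.alg.toSubmodule = d)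
    (hAd : IsAdjointAction Ad)
    (hΓ : IsSurfaceGroup Γ) (hc : Continuous fun p : X × ℍ => Dt p.1 p.2)
    (hcρ : ∀ γ : Γ, Continuous fun t => ρt t γ)
    (hop : ∀ t, IsOper Ad (Dt t) (ρt t)) {M : ℕ} (hM : ∀ t z, Mdeg (Dt t z) = M) {t : X}
    (hAn : IsAnosov Ad (ρt t))
    (hex : ∀ z : ℍ, ExactAt d (lft (Dt t)) z M)
    (htr : ∀ z w : ℍ, z ≠ w → Flag.Transverse (Dt t z) (Dt t w)) :
    ∀ᶠ s in 𝓝 t, ∀ z w : ℍ, z ≠ w → Flag.Transverse (Dt s z) (Dt s w) := by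
  by_contra hcon
  rw [Filter.not_eventually] at hcon
  obtain ⟨s, hs, hsn⟩ := exists_seq_forall_of_frequently hcon
  push Not at hsn
  choose z' w' hzw' hnt' using hsn
  obtain ⟨K, hK, hK2⟩ := hΓ.cocompact
  have hopen := Flag.isOpen_transverse (𝔤 := 𝔤) hdim
  have hcomp := Flag.compactSpace (𝔤 := 𝔤) hdim
  have hmetr := Flag.metrizable (𝔤 := 𝔤) hdim
  -- move `z' n` into `K`
  obtain ⟨z, w, hzK, hzw, hnt⟩ : ∃ z w : ℕ → ℍ, (∀ n, z n ∈ K) ∧ (∀ n, z n ≠ w n) ∧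
      ∀ n, ¬ Flag.Transverse (Dt (s n) (z n)) (Dt (s n) (w n)) := by
    choose g hg using fun n => hK2 (z' n)
    refine ⟨fun n => g n • z' n, fun n => g n • w' n, hg, ?_, ?_⟩
    · intro n h
      exact hzw' n (MulAction.injective (g n) h)
    · intro n h
      rw [(hop (s n)).equivariant, (hop (s n)).equivariant, Flag.transverse_map_iff] at h
      exact hnt' n h
  choose h hh using fun n => hK2 (w n)
  obtain ⟨⟨z₀, u₀, x, y⟩, hmem, φ, hφ, hlim⟩ :=
    (hK.prod (hK.prod (isCompact_univ (X := Circle × Circle)))).tendsto_subseq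
      (x := fun n => ((z n, h n • w n, dr (h n)⁻¹, dr ((h n)⁻¹)⁻¹) : ℍ × ℍ × Circle × Circle))
      (fun n => ⟨hzK n, hh n, trivial⟩)
  have hz₀ : Tendsto (fun n => z (φ n)) atTop (𝓝 z₀) := (continuous_fst.tendsto _).comp hlim
  have hlim2 := (continuous_snd.tendsto _).comp hlim
  have hu₀ : Tendsto (fun n => h (φ n) • w (φ n)) atTop (𝓝 u₀) :=
    (continuous_fst.tendsto _).comp hlim2
  have hlim3 := (continuous_snd.tendsto _).comp hlim2
  have hx : Tendsto (fun n => dr (h (φ n))⁻¹) atTop (𝓝 x) :=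
    (continuous_fst.tendsto _).comp hlim3
  have hy : Tendsto (fun n => dr ((h (φ n))⁻¹)⁻¹) atTop (𝓝 y) :=
    (continuous_snd.tendsto _).comp hlim3
  have hsφ : Tendsto (fun n => s (φ n)) atTop (𝓝 t) := hs.comp hφ.tendsto_atTop
  have hDz : Tendsto (fun n => Dt (s (φ n)) (z (φ n))) atTop (𝓝 (Dt t z₀)) :=
    (hc.tendsto (t, z₀)).comp (hsφ.prodMk_nhds hz₀)
  by_cases hB : Tendsto (fun n => dist (w (φ n)) UpperHalfPlane.I) atTop atTop
  · -- the points `w n` go to infinity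
    obtain ⟨ξ, hξ, hξt, hdyn⟩ := hAn
    obtain ⟨R, hR⟩ := hK.isBounded.subset_closedBall UpperHalfPlane.I
    have hlen : Tendsto (fun n => dist ((h (φ n))⁻¹ • UpperHalfPlane.I) UpperHalfPlane.I)
        atTop atTop := by
      have h1 : Tendsto (fun n => dist (w (φ n)) UpperHalfPlane.I - R) atTop atTop :=
        tendsto_atTop_add_const_right _ _ hB
      refine tendsto_atTop_mono (fun n => ?_) h1
      have t1 := dist_triangle (w (φ n)) ((h (φ n))⁻¹ • UpperHalfPlane.I) UpperHalfPlane.I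
      have t2 : dist (w (φ n)) ((h (φ n))⁻¹ • UpperHalfPlane.I) ≤ R := by
        rw [← hΓ.dist_smul (h (φ n)), smul_inv_smul]
        exact Metric.mem_closedBall.mp (hR (hh _))
      linarith
    have hlen' : Tendsto (fun n => dist (((h (φ n))⁻¹)⁻¹ • UpperHalfPlane.I) UpperHalfPlane.I)
        atTop atTop := by
      refine hlen.congr fun n => ?_
      rw [inv_inv, ← hΓ.dist_smul (h (φ n)), smul_inv_smul, dist_comm]
    have hx' : Tendsto (fun n => toDisc ((h (φ n))⁻¹ • UpperHalfPlane.I)) atTop (𝓝 (x : ℂ)) :=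
      tendsto_toDisc_of_dir hx hlen
    have hy' : Tendsto (fun n => toDisc (((h (φ n))⁻¹)⁻¹ • UpperHalfPlane.I)) atTop
        (𝓝 (y : ℂ)) := tendsto_toDisc_of_dir hy hlen'
    have hb : Tendsto (fun n => Dt (s (φ n)) (h (φ n) • w (φ n))) atTop (𝓝 (Dt t u₀)) :=
      (hc.tendsto (t, u₀)).comp (hsφ.prodMk_nhds hu₀)
    have hA := transverse_limit hΓ (hop t) htr hdyn
    have hact := uniform_dynamics' (F := Flag 𝔤) hΓ
      (fun (s : X) (γ : Γ) b => Flag.map (Ad (ρt s γ)) b)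
      (fun s γ γ' b => Flag.map_map _ _ _ (fun v => by rw [map_mul]; exact hAd.map_mul _ _ _) b)
      t (fun γ b => by
        have h1 : Continuous fun p : X × Flag 𝔤 => (ρt p.1 γ, p.2) :=
          ((hcρ γ).comp continuous_fst).prodMk continuous_snd
        exact (hAd.continuous_map.comp h1).continuousAt)
      (T := {p | Flag.Transverse p.1 p.2}) hopen hξ hξt hdyn (t := fun n => s (φ n))
      (γ := fun n => (h (φ n))⁻¹) hsφ hx' hy' hb (hA u₀ y)
    have e : (fun n => Flag.map (Ad (ρt (s (φ n)) ((h (φ n))⁻¹)))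
        (Dt (s (φ n)) (h (φ n) • w (φ n)))) = fun n => Dt (s (φ n)) (w (φ n)) := by
      funext n
      rw [← (hop (s (φ n))).equivariant, inv_smul_smul]
    rw [e] at hact
    have h2 : Tendsto (fun n => (Dt (s (φ n)) (z (φ n)), Dt (s (φ n)) (w (φ n)))) atTop
        (𝓝 (Dt t z₀, ξ x)) := hDz.prodMk_nhds hact
    obtain ⟨n, hn⟩ := (h2.eventually (hopen.mem_nhds (hA z₀ x))).exists
    exact hnt _ hn
  · -- the points `w n` stay bounded along a subsequence
    rw [tendsto_atTop] at hB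
    push Not at hB
    obtain ⟨r, hr⟩ := hB
    obtain ⟨ψ, hψ, hψr⟩ := extraction_of_frequently_atTop hr
    obtain ⟨w₀, -, χ, hχ, hlimw⟩ := (isCompact_closedBall UpperHalfPlane.I r).tendsto_subseq
      (x := fun n => w (φ (ψ n))) (fun n => Metric.mem_closedBall.mpr (hψr n).le)
    have hθ : Tendsto (fun n => ψ (χ n)) atTop atTop := hψ.tendsto_atTop.comp hχ.tendsto_atTop
    have hw₀ : Tendsto (fun n => w (φ (ψ (χ n)))) atTop (𝓝 w₀) := hlimw
    have hs₁ : Tendsto (fun n => s (φ (ψ (χ n)))) atTop (𝓝 t) := hsφ.comp hθ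
    have hz₁ : Tendsto (fun n => z (φ (ψ (χ n)))) atTop (𝓝 z₀) := hz₀.comp hθ
    by_cases hwz : z₀ = w₀
    · subst hwz
      have hc' : Continuous fun p : (X × ℍ) × ℍ => Dt p.1.1 p.2 :=
        hc.comp ((continuous_fst.comp continuous_fst).prodMk continuous_snd)
      have h1 := (local_exact (X := X × ℍ) (Dx := fun x => Dt x.1) hdim hc'
        (fun x => (hop x.1).oper) (fun x => hM x.1) (zc := fun x => x.2) continuous_snd (t, z₀)
        (hex z₀)).1
      have h2 : Tendsto (fun n => ((s (φ (ψ (χ n))), z (φ (ψ (χ n)))), w (φ (ψ (χ n))))) atTop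
          (𝓝 ((t, z₀), z₀)) := (hs₁.prodMk_nhds hz₁).prodMk_nhds hw₀
      obtain ⟨n, hn⟩ := (h2.eventually h1).exists
      exact hnt _ (hn (hzw _).symm)
    · have h1 : Tendsto (fun n => Dt (s (φ (ψ (χ n)))) (z (φ (ψ (χ n))))) atTop
          (𝓝 (Dt t z₀)) := hDz.comp hθ
      have h2 : Tendsto (fun n => Dt (s (φ (ψ (χ n)))) (w (φ (ψ (χ n))))) atTop
          (𝓝 (Dt t w₀)) := (hc.tendsto (t, w₀)).comp (hs₁.prodMk_nhds hw₀)
      obtain ⟨n, hn⟩ := ((h1.prodMk_nhds h2).eventually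
        (hopen.mem_nhds (htr z₀ w₀ hwz))).exists
      exact hnt _ hn

end Clopen

/-- Main theorem. -/
theorem quasiHitchin_transverse (hAd : IsAdjointAction Ad) (hΓ : IsSurfaceGroup Γ)
    {D : ℍ → Flag 𝔤} {ρ : Γ →* G} (h : IsQuasiHitchin Ad D ρ) : IsTransverse D := by
  obtain ⟨Dt, ρt, hc, hcρ, hop, hAn, hF, hD1, -⟩ := h
  set d := finrank ℂ (Dt 0 UpperHalfPlane.I).alg.toSubmodule with hd
  have hΩ := UpperHalfPlane.isOpen_upperHalfPlaneSet
  have hop' := fun t => isOperAt_lft (hop t).oper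
  have hdim : ∀ b : Flag 𝔤, finrank ℂ b.alg.toSubmodule = d := fun b =>
    finrank_const hΩ ⟨_, UpperHalfPlane.I.im_pos⟩ (hop' 0) b _
  have hov : ∀ t z, HasOV (Dt t z).alg := by
    intro t z
    have := hasOV_of_isOperAt (hop' t z z.im_pos)
    rwa [lft_coe] at this
  set M := Mdeg (Dt 0 UpperHalfPlane.I) with hM'
  have hM : ∀ t z, Mdeg (Dt t z) = M := fun t z =>
    Mdeg_const hΩ ⟨_, UpperHalfPlane.I.im_pos⟩ (hop' 0) (hov t z) (hov 0 _)
  let T : Set unitInterval := {t | (∀ z w : ℍ, z ≠ w → Flag.Transverse (Dt t z) (Dt t w)) ∧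
    ∀ z : ℍ, ExactAt d (lft (Dt t)) z M}
  have h0 : (0 : unitInterval) ∈ T := by
    obtain ⟨h1, h2⟩ := fuchs hdim hF (hop 0).oper
    refine ⟨h1, fun z => ?_⟩
    have := h2 z
    rwa [hM] at this
  have hTopen : IsOpen T := by
    rw [isOpen_iff_mem_nhds]
    rintro t ⟨ht1, ht2⟩
    filter_upwards [open_exact hdim hΓ hc hop hM ht2,
      open_transverse hdim hAd hΓ hc hcρ hop hM (hAn t) ht2 ht1] with s hs1 hs2 using ⟨hs2, hs1⟩
  have hTclosed : IsClosed T := by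
    rw [← isOpen_compl_iff, isOpen_iff_mem_nhds]
    intro t ht
    by_cases htr : ∀ z w : ℍ, z ≠ w → Flag.Transverse (Dt t z) (Dt t w)
    · have hex : ¬ ∀ z : ℍ, ExactAt d (lft (Dt t)) z M := fun hex => ht ⟨htr, hex⟩
      push Not at hex
      obtain ⟨z, hz⟩ := hex
      filter_upwards [local_not_exact hdim hc (fun t => (hop t).oper) hM z t hz] with s hs
      rintro ⟨hs1, hs2⟩
      rcases hs with h1 | ⟨w, hw, hw2⟩
      · exact h1 (hs2 z)
      · exact hw2 (hs1 z w hw.symm)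
    · push Not at htr
      obtain ⟨z, w, hzw, hnt⟩ := htr
      filter_upwards [local_not_transverse hdim hc (fun t => (hop t).oper) hzw t hnt] with s hs
      rintro ⟨hs1, -⟩
      obtain ⟨w', hw', hw'2⟩ := hs
      exact hw'2 (hs1 z w' hw'.symm)
  have hT : T = Set.univ := IsClopen.eq_univ ⟨hTclosed, hTopen⟩ ⟨0, h0⟩
  have h1 : (1 : unitInterval) ∈ T := by rw [hT]; trivial
  rw [← hD1]
  exact h1.1

end Pool.Agent.Helper31.Oper
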