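import Pool.Agent.Helper31.Oper.Hyp

/-!
The action of a surface group on the upper half plane: decomposition of long elements.
-/

namespace Pool.Agent.Helper31.Oper

open Filter Topology Real
open scoped UpperHalfPlane MatrixGroups

theorem tanh_mono' {x y : ℝ} (h : x ≤ y) : tanh x ≤ tanh y := by
  rw [tanh_eq_sinh_div_cosh, tanh_eq_sinh_div_cosh, div_le_div_iff₀ (cosh_pos _) (cosh_pos _)]
  have h1 : sinh (x - y) ≤ 0 := sinh_nonpos_iff.mpr (by linarith)
  rw [sinh_sub] at h1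
  nlinarith

theorem dist_gt_of_norm {p : ℍ} {r : ℝ} (h : tanh (r / 2) < ‖toDisc p‖) :
    r < dist p UpperHalfPlane.I := by
  by_contra hcon
  push Not at hcon
  rw [norm_toDisc] at h
  exact absurd (tanh_mono' (show dist p UpperHalfPlane.I / 2 ≤ r / 2 by linarith)) (not_le.mpr h)

/-- If `p n` converges to a point at infinity then it leaves every ball. -/
theorem tendsto_dist_atTop {α : Type*} {l : Filter α} {p : α → ℍ} {x : Circle}
    (h : Tendsto (fun n => toDisc (p n)) l (𝓝 (x : ℂ))) :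
    Tendsto (fun n => dist (p n) UpperHalfPlane.I) l atTop := by
  rw [tendsto_atTop]
  intro r
  have h1 : Tendsto (fun n => ‖toDisc (p n)‖) l (𝓝 1) := by
    have := h.norm
    rwa [Circle.norm_coe] at this
  filter_upwards [h1.eventually (lt_mem_nhds (tanh_lt_one' (r / 2)))] with n hn
  exact (dist_gt_of_norm hn).le

/-- convergence of directions -/
theorem tendsto_dir {α : Type*} {l : Filter α} {p : α → ℍ} {x : Circle}
    (h : Tendsto (fun n => toDisc (p n)) l (𝓝 (x : ℂ))) :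
    Tendsto (fun n => dir (p n)) l (𝓝 x) := by
  have h1 := tendsto_dist_atTop h
  have h2 : Tendsto (fun n => (dir (p n) : ℂ) - toDisc (p n)) l (𝓝 0) := by
    refine squeeze_zero_norm (fun n => norm_dir_sub (p n)) ?_
    have h3 : Tendsto (fun n => exp (-dist (p n) UpperHalfPlane.I)) l (𝓝 0) :=
      tendsto_exp_neg_atTop_nhds_zero.comp h1
    simpa using h3.const_mul 2
  have h3 : Tendsto (fun n => (dir (p n) : ℂ)) l (𝓝 (x : ℂ)) := by
    have := h2.add h
    simpa using this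
  exact tendsto_subtype_rng.mpr h3

/-- converse: if directions converge and the points go to infinity -/
theorem tendsto_toDisc_of_dir {α : Type*} {l : Filter α} {p : α → ℍ} {x : Circle}
    (h : Tendsto (fun n => dir (p n)) l (𝓝 x))
    (h1 : Tendsto (fun n => dist (p n) UpperHalfPlane.I) l atTop) :
    Tendsto (fun n => toDisc (p n)) l (𝓝 (x : ℂ)) := by
  have h2 : Tendsto (fun n => (dir (p n) : ℂ) - toDisc (p n)) l (𝓝 0) := by
    refine squeeze_zero_norm (fun n => norm_dir_sub (p n)) ?_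
    have h3 : Tendsto (fun n => exp (-dist (p n) UpperHalfPlane.I)) l (𝓝 0) :=
      tendsto_exp_neg_atTop_nhds_zero.comp h1
    simpa using h3.const_mul 2
  have h3 : Tendsto (fun n => (dir (p n) : ℂ)) l (𝓝 (x : ℂ)) := tendsto_subtype_rng.mp h
  have := h3.sub h2
  simpa using this

variable {Γ : Type*} [Group Γ] [MulAction Γ ℍ]

theorem IsSurfaceGroup.dist_smul (h : IsSurfaceGroup Γ) (γ : Γ) (z w : ℍ) :
    dist (γ • z) (γ • w) = dist z w := by
  obtain ⟨g, hg⟩ := h.mobius γ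
  rw [hg, hg, _root_.dist_smul]

theorem IsSurfaceGroup.finite_ball (h : IsSurfaceGroup Γ) (r : ℝ) :
    {γ : Γ | dist (γ • UpperHalfPlane.I) UpperHalfPlane.I ≤ r}.Finite := by
  refine (h.proper (Metric.closedBall UpperHalfPlane.I (max r 0))
    (isCompact_closedBall _ _)).subset ?_
  intro γ hγ
  refine ⟨UpperHalfPlane.I, Metric.mem_closedBall_self (le_max_right _ _), ?_⟩
  exact Metric.mem_closedBall.mpr (le_trans hγ (le_max_left _ _))

theorem IsSurfaceGroup.exists_radius (h : IsSurfaceGroup Γ) :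
    ∃ R : ℝ, 0 ≤ R ∧ ∀ z : ℍ, ∃ γ : Γ, dist z (γ • UpperHalfPlane.I) ≤ R := by
  obtain ⟨K, hK, hK2⟩ := h.cocompact
  obtain ⟨R, hR⟩ := hK.isBounded.subset_closedBall UpperHalfPlane.I
  refine ⟨max R 0, le_max_right _ _, fun z => ?_⟩
  obtain ⟨γ, hγ⟩ := hK2 z
  refine ⟨γ⁻¹, ?_⟩
  have h1 := Metric.mem_closedBall.mp (hR hγ)
  rw [← h.dist_smul γ, smul_inv_smul]
  exact h1.trans (le_max_left _ _)

theorem decomp {R : ℝ} (hR : 0 ≤ R)
    (hRR : ∀ z : ℍ, ∃ γ : Γ, dist z (γ • UpperHalfPlane.I) ≤ R) {L : ℝ} (hL : 0 < L) (γ : Γ)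
    (hγ : L ≤ dist (γ • UpperHalfPlane.I) UpperHalfPlane.I) :
    ∃ (k : ℕ) (δ : ℝ) (g : ℕ → Γ), 0 < k ∧ g 0 = 1 ∧ g k = γ ∧ L ≤ δ ∧ δ ≤ 2 * L ∧
      ∀ i ≤ k, ∀ j ≤ k, abs (dist (g i • UpperHalfPlane.I) (g j • UpperHalfPlane.I) -
        δ * abs ((i : ℝ) - j)) ≤ 2 * R := by
  classical
  set ℓ := dist (γ • UpperHalfPlane.I) UpperHalfPlane.I with hℓ
  have hℓL : 1 ≤ ℓ / L := (one_le_div hL).mpr hγ
  set k := ⌊ℓ / L⌋₊ with hk
  have hk1 : 1 ≤ k := (Nat.one_le_floor_iff _).mpr hℓL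
  have hkpos : (0 : ℝ) < k := by exact_mod_cast hk1
  have hkle : (k : ℝ) ≤ ℓ / L := Nat.floor_le (by linarith)
  have hklt : ℓ / L < k + 1 := Nat.lt_floor_add_one _
  obtain ⟨c, hc0, hcℓ, hc⟩ := exists_ray (γ • UpperHalfPlane.I)
  rw [← hℓ] at hcℓ
  choose g hg using fun i : ℕ => hRR (c (i * (ℓ / k)))
  let g' : ℕ → Γ := fun i => if i = 0 then 1 else if i = k then γ else g i
  have hδpos : 0 ≤ ℓ / k := div_nonneg (by rw [hℓ]; exact dist_nonneg) hkpos.le
  have hg' : ∀ i ≤ k, dist (c (i * (ℓ / k))) (g' i • UpperHalfPlane.I) ≤ R := by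
    intro i _
    by_cases hi0 : i = 0
    · subst hi0
      simp only [g', if_true, one_smul, Nat.cast_zero, zero_mul, hc0, dist_self]
      exact hR
    · by_cases hik : i = k
      · have e : (i : ℝ) * (ℓ / k) = ℓ := by rw [hik]; field_simp
        simp only [g', if_neg hi0, if_pos hik, e, hcℓ, dist_self]
        exact hR
      · simp only [g', if_neg hi0, if_neg hik]
        exact hg i
  refine ⟨k, ℓ / k, g', hk1, ?_, ?_, ?_, ?_, ?_⟩
  · simp [g']
  · have : k ≠ 0 := by omega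
    simp [g', this]
  · rw [le_div_iff₀ hkpos, mul_comm]
    rwa [le_div_iff₀ hL] at hkle
  · rw [div_le_iff₀ hkpos]
    rw [div_lt_iff₀ hL] at hklt
    have : (1 : ℝ) ≤ k := by exact_mod_cast hk1
    nlinarith
  · intro i hi j hj
    have h1 := hg' i hi
    have h2 := hg' j hj
    have h3 := hc (i * (ℓ / k)) (by positivity) (j * (ℓ / k)) (by positivity)
    have h4 : |(i : ℝ) * (ℓ / k) - j * (ℓ / k)| = ℓ / k * |(i : ℝ) - j| := by
      rw [← sub_mul, abs_mul, abs_of_nonneg hδpos, mul_comm]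
    rw [h4] at h3
    rw [← h3, abs_sub_le_iff]
    have t1 := dist_triangle4 (g' i • UpperHalfPlane.I) (c (i * (ℓ / k))) (c (j * (ℓ / k)))
      (g' j • UpperHalfPlane.I)
    have t2 := dist_triangle4 (c (i * (ℓ / k))) (g' i • UpperHalfPlane.I)
      (g' j • UpperHalfPlane.I) (c (j * (ℓ / k)))
    rw [dist_comm (g' i • UpperHalfPlane.I) (c _)] at t1
    rw [dist_comm (g' j • UpperHalfPlane.I) (c _)] at t2
    constructor <;> linarith

end Pool.Agent.Helper31.Oper
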