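import Pool.Agent.Helper31.Oper.Griff

/-!
A scalar function on pairs of flags whose zeros are the non-transverse pairs.
-/

namespace Pool.Agent.Helper31.Oper

open LieAlgebra LieModule Module Filter Topology

variable {𝔤 : Type*} [LieRing 𝔤] [LieAlgebra ℂ 𝔤] {d : ℕ}

/-- `v` is a basis of `b`. -/
def IsBase (b : Flag 𝔤) (v : Fin d → 𝔤) : Prop :=
  LinearIndependent ℂ v ∧ Submodule.span ℂ (Set.range v) = b.alg.toSubmodule

/-- The determinant of a family of functionals on a family of vectors. -/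
noncomputable def dd (φ : Fin d → Module.Dual ℂ 𝔤) (v : Fin d → 𝔤) : ℂ :=
  (Matrix.of fun k i => φ k (v i)).det

theorem IsBase.mem {b : Flag 𝔤} {v : Fin d → 𝔤} (h : IsBase b v) (i : Fin d) : v i ∈ b.alg := by
  rw [← LieSubalgebra.mem_toSubmodule, ← h.2]
  exact Submodule.subset_span ⟨i, rfl⟩

theorem exists_matrix {b : Flag 𝔤} {v v' : Fin d → 𝔤} (h : IsBase b v)
    (h' : ∀ i, v' i ∈ b.alg) : ∃ A : Matrix (Fin d) (Fin d) ℂ, ∀ i, v' i = ∑ j, A j i • v j := by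
  choose c hc using fun i => span_repr h.2 (h' i)
  exact ⟨Matrix.of fun j i => c i j, fun i => (hc i).symm⟩

theorem dd_mul (φ : Fin d → Module.Dual ℂ 𝔤) {v v' : Fin d → 𝔤} {A : Matrix (Fin d) (Fin d) ℂ}
    (h : ∀ i, v' i = ∑ j, A j i • v j) : dd φ v' = dd φ v * A.det := by
  unfold dd
  rw [← Matrix.det_mul]
  congr 1
  ext k i
  simp only [Matrix.of_apply, Matrix.mul_apply, h, map_sum, map_smul, smul_eq_mul]
  exact Finset.sum_congr rfl fun j _ => mul_comm _ _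

theorem tdet_mul_right (u : Fin d → 𝔤) {v v' : Fin d → 𝔤} {A : Matrix (Fin d) (Fin d) ℂ}
    (h : ∀ i, v' i = ∑ j, A j i • v j) : tdet u v' = tdet u v * A.det := by
  unfold tdet
  rw [← Matrix.det_mul]
  congr 1
  ext k i
  simp only [Matrix.of_apply, Matrix.mul_apply, h, map_sum, map_smul, smul_eq_mul]
  exact Finset.sum_congr rfl fun j _ => mul_comm _ _

theorem tdet_comm (u v : Fin d → 𝔤) : tdet u v = tdet v u := by
  unfold tdet
  rw [← Matrix.det_transpose]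
  congr 1
  ext i j
  simp only [Matrix.transpose_apply, Matrix.of_apply]
  exact kf_comm _ _

theorem tdet_mul_left (u : Fin d → 𝔤) {v v' : Fin d → 𝔤} {A : Matrix (Fin d) (Fin d) ℂ}
    (h : ∀ i, v' i = ∑ j, A j i • v j) : tdet v' u = tdet v u * A.det := by
  rw [tdet_comm v' u, tdet_mul_right u h, tdet_comm v u]

theorem det_ne_zero_of_base {v v' : Fin d → 𝔤} (hv' : LinearIndependent ℂ v')
    {A : Matrix (Fin d) (Fin d) ℂ}
    (h : ∀ i, v' i = ∑ j, A j i • v j) : A.det ≠ 0 := by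
  intro h0
  obtain ⟨c, hc, hc'⟩ := Matrix.exists_mulVec_eq_zero_iff.mpr h0
  apply hc
  funext i
  refine Fintype.linearIndependent_iff.mp hv' c ?_ i
  simp only [h, Finset.smul_sum, smul_smul]
  rw [Finset.sum_comm]
  refine Finset.sum_eq_zero fun j _ => ?_
  rw [← Finset.sum_smul]
  have := congrFun hc' j
  simp only [Matrix.mulVec, dotProduct, Pi.zero_apply] at this
  have e : ∑ x, c x * A j x = ∑ x, A j x * c x := Finset.sum_congr rfl fun x _ => mul_comm _ _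
  rw [e, this, zero_smul]

open Classical in
/-- a chosen basis -/
noncomputable def bas (d : ℕ) (b : Flag 𝔤) : Fin d → 𝔤 :=
  if h : ∃ v : Fin d → 𝔤, IsBase b v then h.choose else 0

theorem bas_spec {b : Flag 𝔤} {v : Fin d → 𝔤} (h : IsBase b v) : IsBase b (bas d b) := by
  unfold bas
  rw [dif_pos ⟨v, h⟩]
  exact (⟨v, h⟩ : ∃ v : Fin d → 𝔤, IsBase b v).choose_spec

/-- The scalar function. -/
noncomputable def TT (φ ψ : Fin d → Module.Dual ℂ 𝔤) (b b' : Flag 𝔤) : ℂ :=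
  tdet (bas d b) (bas d b') / (dd φ (bas d b) * dd ψ (bas d b'))

theorem TT_eq (φ ψ : Fin d → Module.Dual ℂ 𝔤) {b b' : Flag 𝔤} {v u : Fin d → 𝔤}
    (hv : IsBase b v) (hu : IsBase b' u) : TT φ ψ b b' = tdet v u / (dd φ v * dd ψ u) := by
  unfold TT
  obtain ⟨A, hA⟩ := exists_matrix (bas_spec hv) hv.mem
  obtain ⟨B, hB⟩ := exists_matrix (bas_spec hu) hu.mem
  have hA0 := det_ne_zero_of_base hv.1 hA
  have hB0 := det_ne_zero_of_base hu.1 hB
  rw [tdet_mul_left _ hA, tdet_mul_right _ hB, dd_mul φ hA, dd_mul ψ hB]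
  have e : tdet (bas d b) (bas d b') * B.det * A.det = (A.det * B.det) *
      tdet (bas d b) (bas d b') := by ring
  have e2 : dd φ (bas d b) * A.det * (dd ψ (bas d b') * B.det) =
      (A.det * B.det) * (dd φ (bas d b) * dd ψ (bas d b')) := by ring
  rw [e, e2, mul_div_mul_left _ _ (mul_ne_zero hA0 hB0)]

/-- The functionals are independent on `b`. -/
def Good (φ : Fin d → Module.Dual ℂ 𝔤) (b : Flag 𝔤) : Prop := ∃ v : Fin d → 𝔤, IsBase b v ∧ dd φ v ≠ 0

theorem Good.ne {φ : Fin d → Module.Dual ℂ 𝔤} {b : Flag 𝔤} (h : Good φ b) {v : Fin d → 𝔤}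
    (hv : IsBase b v) : dd φ v ≠ 0 := by
  obtain ⟨u, hu, hu0⟩ := h
  obtain ⟨A, hA⟩ := exists_matrix hv hu.mem
  intro h0
  apply hu0
  rw [dd_mul φ hA, h0, zero_mul]

theorem linearIndependent_of_dd {φ : Fin d → Module.Dual ℂ 𝔤} {v : Fin d → 𝔤} (h : dd φ v ≠ 0) :
    LinearIndependent ℂ v := by
  rw [Fintype.linearIndependent_iff]
  intro c hc
  by_contra hcon
  push Not at hcon
  apply h
  unfold dd
  rw [← Matrix.exists_mulVec_eq_zero_iff]
  refine ⟨c, ?_, ?_⟩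
  · rintro rfl
    obtain ⟨i, hi⟩ := hcon
    exact hi rfl
  · funext k
    have := congrArg (φ k) hc
    simp only [map_sum, map_smul, smul_eq_mul, map_zero] at this
    simp only [Matrix.mulVec, dotProduct, Matrix.of_apply, Pi.zero_apply]
    rw [← this]
    exact Finset.sum_congr rfl fun x _ => mul_comm _ _

theorem exists_dual_family {V : Type*} [AddCommGroup V] [Module ℂ V] {v : Fin d → V}
    (hv : LinearIndependent ℂ v) : ∃ φ : Fin d → Module.Dual ℂ V, ∀ k i, φ k (v i) =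
      if k = i then 1 else 0 := by
  let β := Basis.span hv
  choose φ hφ using fun k => LinearMap.exists_extend (β.coord k)
  refine ⟨φ, fun k i => ?_⟩
  have h1 : φ k (v i) = β.coord k (β i) := by
    rw [← hφ k, LinearMap.comp_apply]
    congr 1
    exact (congrArg Subtype.val (Basis.span_apply hv i)).symm
  rw [h1, Basis.coord_apply, Basis.repr_self, Finsupp.single_apply]
  simp only [eq_comm]

theorem exists_good {b : Flag 𝔤} {v : Fin d → 𝔤} (hv : IsBase b v) :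
    ∃ φ : Fin d → Module.Dual ℂ 𝔤, Good φ b := by
  obtain ⟨φ, hφ⟩ := exists_dual_family hv.1
  refine ⟨φ, v, hv, ?_⟩
  unfold dd
  have : (Matrix.of fun k i => φ k (v i)) = 1 := by
    ext k i
    rw [Matrix.of_apply, hφ, Matrix.one_apply]
  rw [this, Matrix.det_one]
  exact one_ne_zero

section FD
variable [FiniteDimensional ℂ 𝔤]

theorem exists_base {b : Flag 𝔤} (hd : finrank ℂ b.alg.toSubmodule = d) :
    ∃ v : Fin d → 𝔤, IsBase b v := by
  let β := Module.finBasisOfFinrankEq ℂ b.alg.toSubmodule hd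
  refine ⟨fun i => (β i : 𝔤),
    β.linearIndependent.map' b.alg.toSubmodule.subtype (Submodule.ker_subtype _), ?_⟩
  have h1 : Set.range (fun i => ((β i : b.alg.toSubmodule) : 𝔤)) =
      b.alg.toSubmodule.subtype '' Set.range β := by
    rw [← Set.range_comp]; rfl
  rw [h1, Submodule.span_image, β.span_eq, Submodule.map_top, Submodule.range_subtype]

theorem isBase_of_li {b : Flag 𝔤} (hd : finrank ℂ b.alg.toSubmodule = d) {v : Fin d → 𝔤}
    (hv : LinearIndependent ℂ v) (hmem : ∀ i, v i ∈ b.alg) : IsBase b v := by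
  refine ⟨hv, ?_⟩
  apply Submodule.eq_of_le_of_finrank_eq
  · rw [Submodule.span_le]
    rintro _ ⟨i, rfl⟩
    exact hmem i
  · rw [finrank_span_eq_card hv, hd, Fintype.card_fin]

theorem TT_eq_zero_iff [IsKilling ℂ 𝔤] {φ ψ : Fin d → Module.Dual ℂ 𝔤} {b b' : Flag 𝔤}
    (h : Good φ b) (h' : Good ψ b') : TT φ ψ b b' = 0 ↔ ¬ Flag.Transverse b b' := by
  obtain ⟨v, hv, hv0⟩ := h
  obtain ⟨u, hu, hu0⟩ := h'
  rw [TT_eq φ ψ hv hu, div_eq_zero_iff]
  have : ¬ (dd φ v * dd ψ u = 0) := mul_ne_zero hv0 hu0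
  constructor
  · rintro (h | h)
    · exact not_transverse_of_tdet hv.mem hv.1 hu.2 h
    · exact absurd h this
  · intro h
    exact Or.inl (tdet_eq_zero_of_not_transverse hv.2 hu.2 h)

end FD

section Top

variable [FiniteDimensional ℂ 𝔤] [TopologicalSpace 𝔤] [IsTopologicalAddGroup 𝔤]
  [ContinuousSMul ℂ 𝔤] [T2Space 𝔤]

theorem continuousAt_dd (φ : Fin d → Module.Dual ℂ 𝔤) {X : Type*} [TopologicalSpace X]
    {p : Fin d → X → 𝔤} {x : X} (hp : ∀ i, ContinuousAt (p i) x) :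
    ContinuousAt (fun y => dd φ (fun i => p i y)) x := by
  unfold dd
  simp only [Matrix.det_apply, Matrix.of_apply]
  refine tendsto_finsetSum _ fun σ _ => ?_
  refine Filter.Tendsto.const_smul ?_ _
  refine tendsto_finsetProd _ fun i _ => ?_
  exact ((continuous_dual (φ (σ i))).continuousAt (x := p i x)).comp (hp i)

omit [TopologicalSpace 𝔤] [IsTopologicalAddGroup 𝔤] [ContinuousSMul ℂ 𝔤] [T2Space 𝔤]
  [FiniteDimensional ℂ 𝔤] in
theorem differentiableAt_dd (φ : Fin d → Module.Dual ℂ 𝔤) {e : Fin d → ℂ → 𝔤} {z : ℂ}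
    (he : ∀ i, Hol (e i) z) :
    DifferentiableAt ℂ (fun w => dd φ (fun i => e i w)) z := by
  unfold dd
  simp only [Matrix.det_apply, Matrix.of_apply]
  refine DifferentiableAt.fun_sum fun σ _ => ?_
  refine DifferentiableAt.const_smul ?_ _
  refine DifferentiableAt.fun_finsetProd fun i _ => ?_
  exact he _ _

omit [TopologicalSpace 𝔤] [IsTopologicalAddGroup 𝔤] [ContinuousSMul ℂ 𝔤] [T2Space 𝔤]
  [FiniteDimensional ℂ 𝔤] in
theorem differentiableAt_tdet' {v : Fin d → 𝔤} {e : Fin d → ℂ → 𝔤} {z : ℂ}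
    (he : ∀ i, Hol (e i) z) :
    DifferentiableAt ℂ (fun w => tdet v (fun i => e i w)) z := by
  unfold tdet
  simp only [Matrix.det_apply, Matrix.of_apply]
  refine DifferentiableAt.fun_sum fun σ _ => ?_
  refine DifferentiableAt.const_smul ?_ _
  refine DifferentiableAt.fun_finsetProd fun i _ => ?_
  exact he _ _

theorem continuousAt_TT (hdim : ∀ b : Flag 𝔤, finrank ℂ b.alg.toSubmodule = d)
    {φ ψ : Fin d → Module.Dual ℂ 𝔤} {b b' : Flag 𝔤} (h : Good φ b) (h' : Good ψ b') :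
    ContinuousAt (fun p : Flag 𝔤 × Flag 𝔤 => TT φ ψ p.1 p.2) (b, b') := by
  obtain ⟨v, hv, hv0⟩ := h
  obtain ⟨u, hu, hu0⟩ := h'
  let F : (Fin d → 𝔤) × (Fin d → 𝔤) → ℂ := fun q => tdet q.1 q.2 / (dd φ q.1 * dd ψ q.2)
  have c1 : ∀ i, ContinuousAt (fun q : (Fin d → 𝔤) × (Fin d → 𝔤) => q.1 i) (v, u) := fun i =>
    ((continuous_apply i).comp continuous_fst).continuousAt
  have c2 : ∀ i, ContinuousAt (fun q : (Fin d → 𝔤) × (Fin d → 𝔤) => q.2 i) (v, u) := fun i =>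
    ((continuous_apply i).comp continuous_snd).continuousAt
  have hc1 : ContinuousAt (fun q : (Fin d → 𝔤) × (Fin d → 𝔤) => dd φ q.1) (v, u) :=
    continuousAt_dd φ (p := fun i (q : (Fin d → 𝔤) × (Fin d → 𝔤)) => q.1 i) c1
  have hc2 : ContinuousAt (fun q : (Fin d → 𝔤) × (Fin d → 𝔤) => dd ψ q.2) (v, u) :=
    continuousAt_dd ψ (p := fun i (q : (Fin d → 𝔤) × (Fin d → 𝔤)) => q.2 i) c2
  have hF : ContinuousAt F (v, u) := by
    refine ContinuousAt.div ?_ (hc1.mul hc2) (mul_ne_zero hv0 hu0)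
    exact continuousAt_tdet (p := fun i (q : (Fin d → 𝔤) × (Fin d → 𝔤)) => q.1 i)
      (q := fun i q => q.2 i) c1 c2
  intro O hO
  change O ∈ 𝓝 (TT φ ψ b b') at hO
  rw [TT_eq φ ψ hv hu] at hO
  have h1 : ∀ᶠ q in 𝓝 (v, u), F q ∈ O ∧ dd φ q.1 ≠ 0 ∧ dd ψ q.2 ≠ 0 :=
    (hF.eventually_mem hO).and ((hc1.eventually_ne hv0).and (hc2.eventually_ne hu0))
  rw [nhds_prod_eq] at h1
  obtain ⟨P, hP, Q, hQ, hPQ⟩ := Filter.mem_prod_iff.mp h1
  have h2 := Flag.eventually_near hv.mem hP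
  have h3 := Flag.eventually_near hu.mem hQ
  have h4 : ∀ᶠ p : Flag 𝔤 × Flag 𝔤 in 𝓝 (b, b'), TT φ ψ p.1 p.2 ∈ O := by
    rw [nhds_prod_eq]
    filter_upwards [h2.prod_mk h3] with p hp
    obtain ⟨⟨v', hv'P, hv'⟩, ⟨u', hu'Q, hu'⟩⟩ := hp
    obtain ⟨k1, k2, k3⟩ := hPQ (Set.mk_mem_prod hv'P hu'Q)
    have hbv : IsBase p.1 v' := isBase_of_li (hdim _) (linearIndependent_of_dd k2) hv'
    have hbu : IsBase p.2 u' := isBase_of_li (hdim _) (linearIndependent_of_dd k3) hu'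
    rw [TT_eq φ ψ hbv hbu]
    exact k1
  exact h4

theorem eventually_good (hdim : ∀ b : Flag 𝔤, finrank ℂ b.alg.toSubmodule = d)
    {φ : Fin d → Module.Dual ℂ 𝔤} {b : Flag 𝔤} (h : Good φ b) : ∀ᶠ b' in 𝓝 b, Good φ b' := by
  obtain ⟨v, hv, hv0⟩ := h
  have c1 : ∀ i, ContinuousAt (fun q : Fin d → 𝔤 => q i) v := fun i =>
    (continuous_apply i).continuousAt
  have hc1 : ContinuousAt (fun q : Fin d → 𝔤 => dd φ q) v :=
    continuousAt_dd φ (p := fun i (q : Fin d → 𝔤) => q i) c1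
  have h2 := Flag.eventually_near hv.mem (hc1.eventually_ne hv0)
  filter_upwards [h2] with b' hb'
  obtain ⟨v', hv'P, hv'⟩ := hb'
  exact ⟨v', isBase_of_li (hdim _) (linearIndependent_of_dd hv'P) hv', hv'P⟩

omit [IsTopologicalAddGroup 𝔤] [ContinuousSMul ℂ 𝔤] [T2Space 𝔤] [FiniteDimensional ℂ 𝔤] in
theorem exists_frame (hdim : ∀ b : Flag 𝔤, finrank ℂ b.alg.toSubmodule = d) {D : ℂ → Flag 𝔤}
    {z : ℂ} (hD : IsHolomorphicAt D z) : ∃ e : Fin d → ℂ → 𝔤, ∀ᶠ w in 𝓝 z,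
      (∀ i, DifferentiableAt ℂ (e i) w) ∧ IsBase (D w) (fun i => e i w) := by
  obtain ⟨d', e, he⟩ := hD
  have hz := he.self_of_nhds
  have hd : d' = d := by
    rw [← hdim (D z), ← hz.2.2, finrank_span_eq_card hz.2.1, Fintype.card_fin]
  subst hd
  exact ⟨e, he⟩

theorem differentiableAt_TT (hdim : ∀ b : Flag 𝔤, finrank ℂ b.alg.toSubmodule = d)
    {φ ψ : Fin d → Module.Dual ℂ 𝔤} (b : Flag 𝔤) {D : ℂ → Flag 𝔤}
    {z : ℂ} (hD : IsHolomorphicAt D z) (hg : Good φ b) (h' : Good ψ (D z)) :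
    DifferentiableAt ℂ (fun w => TT φ ψ b (D w)) z := by
  obtain ⟨e, he⟩ := exists_frame hdim hD
  obtain ⟨v, hv, hv0⟩ := hg
  have hz := he.self_of_nhds
  have h1 : (fun w => TT φ ψ b (D w)) =ᶠ[𝓝 z]
      fun w => tdet v (fun i => e i w) / (dd φ v * dd ψ (fun i => e i w)) := by
    filter_upwards [he] with w hw
    exact TT_eq φ ψ hv hw.2
  refine DifferentiableAt.congr_of_eventuallyEq ?_ h1
  have hh : ∀ i, Hol (e i) z := fun i φ => weak_differentiableAt (hz.1 i) φ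
  refine (differentiableAt_tdet' hh).div ((differentiableAt_dd ψ hh).const_mul _) ?_
  exact mul_ne_zero hv0 (h'.ne hz.2)

end Top

end Pool.Agent.Helper31.Oper
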