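import Pool.Agent.Helper31.Oper.TF
import Pool.Agent.Helper31.Oper.Defs2

/-!
Vanishing order on the diagonal and equivariance of the scalar function.
-/

namespace Pool.Agent.Helper31.Oper

open LieAlgebra LieModule Module Filter Topology

variable {𝔤 : Type*} [LieRing 𝔤] [LieAlgebra ℂ 𝔤] {d : ℕ}

section Map

theorem Flag.mem_map {A : 𝔤 ≃ₗ⁅ℂ⁆ 𝔤} {b : Flag 𝔤} {y : 𝔤} :
    y ∈ (Flag.map A b).alg ↔ ∃ x ∈ b.alg, A x = y := by
  change y ∈ b.alg.map A.toLieHom ↔ _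
  rw [LieSubalgebra.mem_map]
  rfl

theorem Flag.ext' {b b' : Flag 𝔤} (h : ∀ x, x ∈ b.alg ↔ x ∈ b'.alg) : b = b' :=
  Subtype.ext (LieSubalgebra.ext _ _ h)

theorem Flag.map_map (A B : 𝔤 ≃ₗ⁅ℂ⁆ 𝔤) (C : 𝔤 ≃ₗ⁅ℂ⁆ 𝔤) (h : ∀ x, C x = A (B x)) (b : Flag 𝔤) :
    Flag.map C b = Flag.map A (Flag.map B b) := by
  apply Flag.ext'
  intro y
  simp only [Flag.mem_map]
  constructor
  · rintro ⟨x, hx, rfl⟩
    exact ⟨B x, ⟨x, hx, rfl⟩, (h x).symm⟩
  · rintro ⟨_, ⟨x, hx, rfl⟩, rfl⟩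
    exact ⟨x, hx, h x⟩

theorem Flag.transverse_map (A : 𝔤 ≃ₗ⁅ℂ⁆ 𝔤) {b b' : Flag 𝔤} (h : Flag.Transverse b b') :
    Flag.Transverse (Flag.map A b) (Flag.map A b') := by
  rw [Flag.Transverse, eq_top_iff] at h ⊢
  intro y _
  obtain ⟨p, hp, q, hq, hpq⟩ := Submodule.mem_sup.mp (h (Submodule.mem_top (x := A.symm y)))
  refine Submodule.mem_sup.mpr ⟨A p, Flag.mem_map.mpr ⟨p, hp, rfl⟩, A q,
    Flag.mem_map.mpr ⟨q, hq, rfl⟩, ?_⟩
  rw [← map_add, hpq, A.apply_symm_apply]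

theorem Flag.transverse_map_iff (A : 𝔤 ≃ₗ⁅ℂ⁆ 𝔤) {b b' : Flag 𝔤} :
    Flag.Transverse (Flag.map A b) (Flag.map A b') ↔ Flag.Transverse b b' := by
  refine ⟨fun h => ?_, Flag.transverse_map A⟩
  have h1 := Flag.transverse_map A.symm h
  have e : ∀ c : Flag 𝔤, Flag.map A.symm (Flag.map A c) = c := by
    intro c
    apply Flag.ext'
    intro y
    simp only [Flag.mem_map]
    constructor
    · rintro ⟨_, ⟨x, hx, rfl⟩, rfl⟩
      rwa [A.symm_apply_apply]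
    · intro hy
      exact ⟨A y, ⟨y, hy, rfl⟩, A.symm_apply_apply y⟩
  rwa [e, e] at h1

theorem IsBase.map (A : 𝔤 ≃ₗ⁅ℂ⁆ 𝔤) {b : Flag 𝔤} {v : Fin d → 𝔤} (h : IsBase b v) :
    IsBase (Flag.map A b) (fun i => A (v i)) := by
  refine ⟨?_, ?_⟩
  · exact h.1.map' A.toLinearEquiv.toLinearMap (LinearEquiv.ker _)
  · have e : Set.range (fun i => A (v i)) = A.toLinearEquiv.toLinearMap '' Set.range v := by
      rw [← Set.range_comp]; rfl
    rw [e, Submodule.span_image, h.2]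
    rfl

theorem dd_map (A : 𝔤 ≃ₗ⁅ℂ⁆ 𝔤) (φ : Fin d → Module.Dual ℂ 𝔤) (v : Fin d → 𝔤) :
    dd φ (fun i => A (v i)) = dd (fun k => (φ k).comp A.toLinearEquiv.toLinearMap) v := rfl

theorem tdet_map (A : 𝔤 ≃ₗ⁅ℂ⁆ 𝔤) (v u : Fin d → 𝔤) :
    tdet (fun i => A (v i)) (fun i => A (u i)) = tdet v u := by
  unfold tdet
  simp only [LieAlgebra.killingForm_of_equiv_apply]

end Map

section Order

variable [FiniteDimensional ℂ 𝔤] [TopologicalSpace 𝔤] [IsTopologicalAddGroup 𝔤]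
  [ContinuousSMul ℂ 𝔤] [T2Space 𝔤]

theorem exists_baseD (hdim : ∀ b : Flag 𝔤, finrank ℂ b.alg.toSubmodule = d) (b : Flag 𝔤) :
    ∃ v : Fin d → 𝔤, IsBase b v := exists_base (hdim b)

theorem TT_map (hdim : ∀ b : Flag 𝔤, finrank ℂ b.alg.toSubmodule = d) (A : 𝔤 ≃ₗ⁅ℂ⁆ 𝔤)
    (φ ψ : Fin d → Module.Dual ℂ 𝔤) (b b' : Flag 𝔤) :
    TT φ ψ (Flag.map A b) (Flag.map A b') =
      TT (fun k => (φ k).comp A.toLinearEquiv.toLinearMap)
        (fun k => (ψ k).comp A.toLinearEquiv.toLinearMap) b b' := by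
  obtain ⟨v, hv⟩ := exists_baseD hdim b
  obtain ⟨u, hu⟩ := exists_baseD hdim b'
  rw [TT_eq φ ψ (hv.map A) (hu.map A), TT_eq _ _ hv hu, dd_map, dd_map, tdet_map]

theorem good_map (hdim : ∀ b : Flag 𝔤, finrank ℂ b.alg.toSubmodule = d) (A : 𝔤 ≃ₗ⁅ℂ⁆ 𝔤)
    {φ : Fin d → Module.Dual ℂ 𝔤} {b : Flag 𝔤} (h : Good φ (Flag.map A b)) :
    Good (fun k => (φ k).comp A.toLinearEquiv.toLinearMap) b := by
  obtain ⟨v, hv⟩ := exists_baseD hdim b
  refine ⟨v, hv, ?_⟩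
  rw [← dd_map]
  exact h.ne (hv.map A)

omit [FiniteDimensional ℂ 𝔤] [IsTopologicalAddGroup 𝔤] [ContinuousSMul ℂ 𝔤] [T2Space 𝔤] in
theorem IsHolomorphicAt.eventually {D : ℂ → Flag 𝔤} {z : ℂ} (h : IsHolomorphicAt D z) :
    ∀ᶠ w in 𝓝 z, IsHolomorphicAt D w := by
  obtain ⟨d, e, he⟩ := h
  filter_upwards [he.eventually_nhds] with w hw
  exact ⟨d, e, hw⟩

theorem good_curve (hdim : ∀ b : Flag 𝔤, finrank ℂ b.alg.toSubmodule = d)
    {ψ : Fin d → Module.Dual ℂ 𝔤} {D : ℂ → Flag 𝔤} {z : ℂ} (hD : IsHolomorphicAt D z)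
    (hg : Good ψ (D z)) : ∀ᶠ w in 𝓝 z, Good ψ (D w) := by
  obtain ⟨e, he⟩ := exists_frame hdim hD
  have hz := he.self_of_nhds
  have hc : ContinuousAt (fun w => dd ψ (fun i => e i w)) z :=
    (differentiableAt_dd ψ fun i φ => weak_differentiableAt (hz.1 i) φ).continuousAt
  filter_upwards [he, hc.eventually_ne (hg.ne hz.2)] with w hw hw2
  exact ⟨_, hw.2, hw2⟩

theorem analyticAt_TT (hdim : ∀ b : Flag 𝔤, finrank ℂ b.alg.toSubmodule = d)
    {φ ψ : Fin d → Module.Dual ℂ 𝔤} {b : Flag 𝔤} {D : ℂ → Flag 𝔤} {z : ℂ}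
    (hD : IsHolomorphicAt D z) (hb : Good φ b) (hg : Good ψ (D z)) :
    AnalyticAt ℂ (fun w => TT φ ψ b (D w)) z := by
  rw [Complex.analyticAt_iff_eventually_differentiableAt]
  filter_upwards [hD.eventually, good_curve hdim hD hg] with w h1 h2
  exact differentiableAt_TT hdim b h1 hb h2

/-- The order on the diagonal does not depend on the choice of functionals. -/
theorem order_indep (hdim : ∀ b : Flag 𝔤, finrank ℂ b.alg.toSubmodule = d)
    {φ ψ : Fin d → Module.Dual ℂ 𝔤} {D : ℂ → Flag 𝔤} {z : ℂ}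
    (hD : IsHolomorphicAt D z) (hφ : Good φ (D z)) (hψ : Good ψ (D z)) :
    analyticOrderAt (fun w => TT φ φ (D z) (D w)) z =
      analyticOrderAt (fun w => TT ψ ψ (D z) (D w)) z := by
  obtain ⟨e, he⟩ := exists_frame hdim hD
  have hz := he.self_of_nhds
  have hz2 : IsBase (D z) (fun i => e i z) := hz.2
  have hh : ∀ᶠ w in 𝓝 z, ∀ i, Hol (e i) w := by
    filter_upwards [he] with w hw i φ
    exact weak_differentiableAt (hw.1 i) φ
  have ha : ∀ χ : Fin d → Module.Dual ℂ 𝔤, AnalyticAt ℂ (fun w => dd χ (fun i => e i w)) z := by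
    intro χ
    rw [Complex.analyticAt_iff_eventually_differentiableAt]
    filter_upwards [hh] with w hw
    exact differentiableAt_dd χ hw
  have h1 : (fun w => TT ψ ψ (D z) (D w)) =ᶠ[𝓝 z] fun w => TT φ φ (D z) (D w) *
      ((dd φ (fun i => e i z) * dd φ (fun i => e i w)) /
        (dd ψ (fun i => e i z) * dd ψ (fun i => e i w))) := by
    have hc1 : ContinuousAt (fun w => dd φ (fun i => e i w)) z := (ha φ).continuousAt
    filter_upwards [he, hc1.eventually_ne (hφ.ne hz.2)] with w hw hw2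
    rw [TT_eq ψ ψ hz2 hw.2, TT_eq φ φ hz2 hw.2]
    have h3 := hφ.ne hz2
    rw [div_mul_div_cancel₀ (mul_ne_zero h3 hw2)]
  have h2 : AnalyticAt ℂ (fun w => (dd φ (fun i => e i z) * dd φ (fun i => e i w)) /
        (dd ψ (fun i => e i z) * dd ψ (fun i => e i w))) z := by
    refine AnalyticAt.div ?_ ?_ (mul_ne_zero (hψ.ne hz.2) (hψ.ne hz.2))
    · exact analyticAt_const.mul (ha φ)
    · exact analyticAt_const.mul (ha ψ)
  rw [analyticOrderAt_congr h1]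
  have h3 := analyticOrderAt_mul (analyticAt_TT hdim hD hφ hφ) h2
  have h4 : analyticOrderAt (fun w => (dd φ (fun i => e i z) * dd φ (fun i => e i w)) /
        (dd ψ (fun i => e i z) * dd ψ (fun i => e i w))) z = 0 := by
    rw [h2.analyticOrderAt_eq_zero]
    exact div_ne_zero (mul_ne_zero (hφ.ne hz.2) (hφ.ne hz.2))
      (mul_ne_zero (hψ.ne hz.2) (hψ.ne hz.2))
  rw [h4, add_zero] at h3
  exact h3.symm

variable [IsKilling ℂ 𝔤]

theorem TT_isolated (hdim : ∀ b : Flag 𝔤, finrank ℂ b.alg.toSubmodule = d)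
    {Ω : Set ℂ} (hΩ : IsOpen Ω) {D : ℂ → Flag 𝔤} (hD : ∀ z ∈ Ω, IsOperAt D z) {z : ℂ}
    (hz : z ∈ Ω) {φ ψ : Fin d → Module.Dual ℂ 𝔤} {b : Flag 𝔤} (hb : Good φ b)
    (hg : Good ψ (D z)) : ∀ᶠ w in 𝓝[≠] z, TT φ ψ b (D w) ≠ 0 := by
  have han := analyticAt_TT hdim (hD z hz).1 hb hg
  rcases han.eventually_eq_zero_or_eventually_ne_zero with h | h
  · exfalso
    obtain ⟨w, hw, hw2⟩ := exists_transverse_near hΩ hD hz b
      (inter_mem h (good_curve hdim (hD z hz).1 hg))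
    exact ((TT_eq_zero_iff hb hw.1.2).mp hw.1.1) hw2
  · exact h

/-- Lower bound for the order of vanishing on the diagonal. -/
theorem order_TT (hdim : ∀ b : Flag 𝔤, finrank ℂ b.alg.toSubmodule = d)
    {Ω : Set ℂ} (hΩ : IsOpen Ω) {D : ℂ → Flag 𝔤} (hD : ∀ z ∈ Ω, IsOperAt D z) {z : ℂ}
    (hz : z ∈ Ω) {φ : Fin d → Module.Dual ℂ 𝔤} (hg : Good φ (D z)) :
    (Mdeg (D z) : ℕ∞) ≤ analyticOrderAt (fun w => TT φ φ (D z) (D w)) z := by
  obtain ⟨h, hh⟩ := exists_grading (D z).isBorel (hasOV_of_isOperAt (hD z hz))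
  obtain ⟨v, κ, hv, hvs, hvE, hM⟩ := hh.exists_basis (hdim (D z))
  have hvb : IsBase (D z) v := ⟨hv, hvs⟩
  have hvF : ∀ i, v i ∈ Fil (D z).alg (κ i) := by
    intro i
    have := hh.Eg_le (D z).isBorel (κ i) (hvE i)
    rwa [GF_nat] at this
  choose s hs hsz using fun i => holSec (hD z hz).1 (κ i) (v i) (hvF i)
  have hall : ∀ᶠ w in 𝓝 z, ∀ i, Hol (s i) w ∧ s i w ∈ Fil (D w).alg (κ i) := eventually_all.mpr hs
  have hsz' : (fun i => s i z) = v := funext hsz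
  have hli := eventually_linearIndependent s z (fun i => (hs i).self_of_nhds.1.wc)
    (by rw [hsz']; exact hv)
  have hbase : ∀ᶠ w in 𝓝 z, IsBase (D w) (fun i => s i w) := by
    filter_upwards [hall, hli] with w h1 h2
    exact isBase_of_li (hdim _) h2 fun i => Fil_anti _ (Nat.zero_le _) (h1 i).2
  obtain ⟨g, hgan, hg2⟩ := det_factor (f := fun i j w => killingForm ℂ 𝔤 (v i) (s j w))
    (z0 := z) (κ := κ) (fun i j => (order_ge hΩ hD hz (hvF i) (hs j)).2)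
  rw [hM] at hg2
  have hdd : AnalyticAt ℂ (fun w => dd φ (fun i => s i w)) z := by
    rw [Complex.analyticAt_iff_eventually_differentiableAt]
    filter_upwards [hall] with w hw
    exact differentiableAt_dd φ fun i => (hw i).1
  have hdd0 : dd φ (fun i => s i z) ≠ 0 := by rw [hsz']; exact hg.ne hvb
  have hdd1 : dd φ v ≠ 0 := hg.ne hvb
  rw [natCast_le_analyticOrderAt (analyticAt_TT hdim (hD z hz).1 hg hg)]
  refine ⟨fun w => g w / (dd φ v * dd φ (fun i => s i w)), ?_, ?_⟩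
  · exact hgan.div (analyticAt_const.mul hdd) (mul_ne_zero hdd1 hdd0)
  · filter_upwards [hg2, hbase] with w h1 h2
    rw [TT_eq φ φ hvb h2, smul_eq_mul, mul_div_assoc']
    congr 1

/-- The order of vanishing on the diagonal is exactly `M`. -/
def ExactAt (d : ℕ) (D : ℂ → Flag 𝔤) (z : ℂ) (M : ℕ) : Prop :=
  ∀ φ : Fin d → Module.Dual ℂ 𝔤, Good φ (D z) →
    analyticOrderAt (fun w => TT φ φ (D z) (D w)) z = M

omit [IsKilling ℂ 𝔤] in
theorem exactAt_of (hdim : ∀ b : Flag 𝔤, finrank ℂ b.alg.toSubmodule = d)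
    {φ : Fin d → Module.Dual ℂ 𝔤} {D : ℂ → Flag 𝔤} {z : ℂ} {M : ℕ}
    (hD : IsHolomorphicAt D z) (hφ : Good φ (D z))
    (h : analyticOrderAt (fun w => TT φ φ (D z) (D w)) z = M) : ExactAt d D z M := by
  intro ψ hψ
  rw [← h]
  exact (order_indep hdim hD hφ hψ).symm

end Order

end Pool.Agent.Helper31.Oper
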