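import Pool.Agent.Helper31.Oper.Key

/-!
Passing from derivatives in a topological vector space to coordinatewise derivatives.
-/

namespace Pool.Agent.Helper31.Oper

open Filter Topology Asymptotics

variable {E : Type*} [AddCommGroup E] [Module ℂ E] [TopologicalSpace E] [ContinuousSMul ℂ E]

omit [ContinuousSMul ℂ E] in
theorem hasFDerivAt_clm_comp {s : ℂ → E} {s' : ℂ →L[ℂ] E} {z : ℂ} (h : HasFDerivAt s s' z)
    (φ : E →L[ℂ] ℂ) : HasFDerivAt (fun w => φ (s w)) (φ.comp s') z := by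
  have h1 : HasFDerivAtFilter s s' (𝓝 z ×ˢ pure z) := h
  rw [hasFDerivAtFilter_iff_isLittleOTVS] at h1
  have h2 := (φ.isBigOTVS_fun_comp).trans_isLittleOTVS h1
  have h3 : HasFDerivAtFilter (fun w => φ (s w)) (φ.comp s') (𝓝 z ×ˢ pure z) := by
    rw [hasFDerivAtFilter_iff_isLittleOTVS]
    refine h2.congr_left ?_
    intro p
    simp [map_sub]
  exact h3

theorem hasDerivAt_clm_comp {s : ℂ → E} {s' : E} {z : ℂ} (h : HasDerivAt s s' z)
    (φ : E →L[ℂ] ℂ) : HasDerivAt (fun w => φ (s w)) (φ s') z := by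
  rw [hasDerivAt_iff_hasFDerivAt] at h ⊢
  have e : ContinuousLinearMap.toSpanSingleton ℂ (φ s') =
      φ ∘SL ContinuousLinearMap.toSpanSingleton ℂ s' := by ext; simp
  rw [e]
  exact hasFDerivAt_clm_comp h φ

/-- A differentiable function of one variable has a derivative. -/
theorem exists_hasDerivAt {s : ℂ → E} {z : ℂ} (h : DifferentiableAt ℂ s z) :
    ∃ s' : E, HasDerivAt s s' z := by
  obtain ⟨f', hf⟩ := h
  refine ⟨f' 1, ?_⟩
  rw [hasDerivAt_iff_hasFDerivAt]
  have e : ContinuousLinearMap.toSpanSingleton ℂ (f' 1) = f' := by ext; simp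
  rw [e]
  exact hf

variable [IsTopologicalAddGroup E] [T2Space E] [FiniteDimensional ℂ E]

theorem weak_hasDerivAt {s : ℂ → E} {s' : E} {z : ℂ} (h : HasDerivAt s s' z)
    (φ : Module.Dual ℂ E) : HasDerivAt (fun w => φ (s w)) (φ s') z :=
  hasDerivAt_clm_comp h (LinearMap.toContinuousLinearMap φ)

theorem weak_differentiableAt {s : ℂ → E} {z : ℂ} (h : DifferentiableAt ℂ s z)
    (φ : Module.Dual ℂ E) : DifferentiableAt ℂ (fun w => φ (s w)) z := by
  obtain ⟨s', hs⟩ := exists_hasDerivAt h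
  exact (weak_hasDerivAt hs φ).differentiableAt

theorem hasDerivAt_of_weak {s : ℂ → E} {s' : E} {z : ℂ}
    (h : ∀ φ : Module.Dual ℂ E, HasDerivAt (fun w => φ (s w)) (φ s') z) :
    HasDerivAt s s' z := by
  let β := Module.finBasis ℂ E
  let g : E ≃L[ℂ] (Fin (Module.finrank ℂ E) → ℂ) := β.equivFunL
  rw [hasDerivAt_iff_hasFDerivAt]
  have goal : HasFDerivAtFilter s (ContinuousLinearMap.toSpanSingleton ℂ s')
      (𝓝 z ×ˢ pure z) := by
    rw [hasFDerivAtFilter_iff_isLittleOTVS]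
    have hθ := (g : E →L[ℂ] (Fin (Module.finrank ℂ E) → ℂ)).isThetaTVS_comp
      (f := fun p : ℂ × ℂ => s p.1 - s p.2 -
        (ContinuousLinearMap.toSpanSingleton ℂ s') (p.1 - p.2)) (l := 𝓝 z ×ˢ pure z)
      g.toHomeomorph.isInducing
    refine hθ.symm.trans_isLittleOTVS ?_
    rw [isLittleOTVS_pi]
    intro i
    have hi : HasFDerivAtFilter (fun w => β.coord i (s w))
        (ContinuousLinearMap.toSpanSingleton ℂ (β.coord i s')) (𝓝 z ×ˢ pure z) :=
      hasDerivAt_iff_hasFDerivAt.mp (h (β.coord i))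
    rw [hasFDerivAtFilter_iff_isLittleOTVS] at hi
    refine hi.congr_left ?_
    intro p
    simp [g, map_sub]
  exact goal

theorem hasDerivAt_iff_weak {s : ℂ → E} {s' : E} {z : ℂ} :
    HasDerivAt s s' z ↔ ∀ φ : Module.Dual ℂ E, HasDerivAt (fun w => φ (s w)) (φ s') z :=
  ⟨fun h φ => weak_hasDerivAt h φ, hasDerivAt_of_weak⟩

theorem continuousAt_of_weak {X : Type*} [TopologicalSpace X] {s : X → E} {z : X}
    (h : ∀ φ : Module.Dual ℂ E, ContinuousAt (fun w => φ (s w)) z) : ContinuousAt s z := by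
  let β := Module.finBasis ℂ E
  let g : E ≃L[ℂ] (Fin (Module.finrank ℂ E) → ℂ) := β.equivFunL
  have h1 : ContinuousAt (fun w => g (s w)) z := by
    rw [continuousAt_pi]
    intro i
    exact h (β.coord i)
  have h2 := g.symm.continuous.continuousAt.comp h1
  simpa [Function.comp_def] using h2

theorem continuous_dual (φ : Module.Dual ℂ E) : Continuous fun x => φ x :=
  LinearMap.continuous_of_finiteDimensional φ

end Pool.Agent.Helper31.Oper
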