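import Pool.Agent.Helper31.Oper.Filt

/-!
Coordinatewise calculus for `𝔤`-valued functions of one complex variable.
-/

namespace Pool.Agent.Helper31.Oper

open LieAlgebra LieModule Module Filter Topology

variable {𝔤 : Type*} [LieRing 𝔤] [LieAlgebra ℂ 𝔤]

/-- `s` has derivative `s'` at `z`, tested against all linear functionals. -/
def WD (s : ℂ → 𝔤) (s' : 𝔤) (z : ℂ) : Prop :=
  ∀ φ : Module.Dual ℂ 𝔤, HasDerivAt (fun w => φ (s w)) (φ s') z

/-- Coordinatewise continuity at a point. -/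
def WC (s : ℂ → 𝔤) (z : ℂ) : Prop :=
  ∀ φ : Module.Dual ℂ 𝔤, ContinuousAt (fun w => φ (s w)) z

theorem WD.wc {s : ℂ → 𝔤} {s' : 𝔤} {z : ℂ} (h : WD s s' z) : WC s z :=
  fun φ => (h φ).continuousAt

theorem WD.add {s t : ℂ → 𝔤} {s' t' : 𝔤} {z : ℂ} (hs : WD s s' z) (ht : WD t t' z) :
    WD (fun w => s w + t w) (s' + t') z := by
  intro φ
  simp only [map_add]
  exact (hs φ).add (ht φ)

theorem WD.smul {s : ℂ → 𝔤} {s' : 𝔤} {z : ℂ} (c : ℂ) (hs : WD s s' z) :
    WD (fun w => c • s w) (c • s') z := by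
  intro φ
  simp only [map_smul, smul_eq_mul]
  exact (hs φ).const_mul c

theorem WD.const (c : 𝔤) (z : ℂ) : WD (fun _ => c) 0 z := by
  intro φ
  simpa using hasDerivAt_const z (φ c)

theorem WC.const (c : 𝔤) (z : ℂ) : WC (fun _ => c) z := fun _ => continuousAt_const

theorem WC.add {s t : ℂ → 𝔤} {z : ℂ} (hs : WC s z) (ht : WC t z) :
    WC (fun w => s w + t w) z := by
  intro φ
  simp only [map_add]
  exact (hs φ).add (ht φ)

variable [FiniteDimensional ℂ 𝔤]

theorem WD.lie {s t : ℂ → 𝔤} {s' t' : 𝔤} {z : ℂ} (hs : WD s s' z) (ht : WD t t' z) :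
    WD (fun w => ⁅s w, t w⁆) (⁅s', t z⁆ + ⁅s z, t'⁆) z := by
  intro φ
  let β := Module.finBasis ℂ 𝔤
  have expand : ∀ u v : 𝔤, φ ⁅u, v⁆ = ∑ i, ∑ j, β.coord i u * β.coord j v * φ ⁅β i, β j⁆ := by
    intro u v
    conv_lhs => rw [← β.sum_repr u, ← β.sum_repr v]
    rw [sum_lie_sum]
    simp only [map_sum, smul_lie, lie_smul, map_smul, smul_eq_mul, Basis.coord_apply]
    refine Finset.sum_congr rfl fun i _ => Finset.sum_congr rfl fun j _ => ?_
    ring
  have h1 : HasDerivAt (fun w => ∑ i, ∑ j, β.coord i (s w) * β.coord j (t w) * φ ⁅β i, β j⁆)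
      (∑ i, ∑ j, (β.coord i s' * β.coord j (t z) + β.coord i (s z) * β.coord j t')
        * φ ⁅β i, β j⁆) z := by
    apply HasDerivAt.fun_sum
    intro i _
    apply HasDerivAt.fun_sum
    intro j _
    exact ((hs (β.coord i)).mul (ht (β.coord j))).mul_const _
  have h2 : (fun w => φ ⁅s w, t w⁆) =
      fun w => ∑ i, ∑ j, β.coord i (s w) * β.coord j (t w) * φ ⁅β i, β j⁆ := by
    funext w; exact expand _ _
  rw [h2]
  convert h1 using 1
  rw [map_add, expand, expand, ← Finset.sum_add_distrib]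
  refine Finset.sum_congr rfl fun i _ => ?_
  rw [← Finset.sum_add_distrib]
  refine Finset.sum_congr rfl fun j _ => ?_
  ring

/-- Linear independence is an open condition for coordinatewise continuous families. -/
theorem eventually_linearIndependent {ι : Type*} [Fintype ι] (v : ι → ℂ → 𝔤) (z : ℂ)
    (hv : ∀ i, WC (v i) z) (hli : LinearIndependent ℂ (fun i => v i z)) :
    ∀ᶠ w in 𝓝 z, LinearIndependent ℂ (fun i => v i w) := by
  let β := Module.finBasis ℂ 𝔤
  let E : 𝔤 ≃ₗ[ℂ] (Fin (finrank ℂ 𝔤) → ℂ) := β.equivFun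
  have h0 : ∀ w, LinearIndependent ℂ (fun i => E (v i w)) ↔
      LinearIndependent ℂ (fun i => v i w) := fun w =>
    LinearMap.linearIndependent_iff (E : 𝔤 →ₗ[ℂ] (Fin (finrank ℂ 𝔤) → ℂ)) (LinearEquiv.ker E)
  have hc : ContinuousAt (fun w => (fun i => E (v i w) : ι → (Fin (finrank ℂ 𝔤) → ℂ))) z := by
    rw [continuousAt_pi]
    intro i
    rw [continuousAt_pi]
    intro j
    exact hv i (β.coord j)
  have hopen : IsOpen {f : ι → (Fin (finrank ℂ 𝔤) → ℂ) | LinearIndependent ℂ f} :=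
    isOpen_setOfPred_linearIndependent
  have hmem : (fun i => E (v i z)) ∈ {f : ι → (Fin (finrank ℂ 𝔤) → ℂ) | LinearIndependent ℂ f} :=
    (h0 z).mpr hli
  filter_upwards [hc.preimage_mem_nhds (hopen.mem_nhds hmem)] with w hw
  exact (h0 w).mp hw

end Pool.Agent.Helper31.Oper
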